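import Pool.Agent.Work.MP_9a1701_nt.P.Defs

/-!
# Blocks, cells, finite Bernoulli expectations and the hypotheses of the core theorem
-/

set_option autoImplicit false
open Finset Filter

namespace Pool.Agent.Work.MP_9a1701_nt.P

open Classical in
/-- The number of elements of `A` in `[a, b]`. -/
noncomputable def bcard (A : Set ℕ) (a b : ℕ) : ℕ := ((Icc a b).filter (fun t => t ∈ A)).card

open Classical in
/-- Blocks of `A` inside `[lo, hi)`, given by their end points. -/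
noncomputable def blk (A : Set ℕ) (lo hi : ℕ) : Finset (ℕ × ℕ) :=
  (Ico lo hi ×ˢ Ico lo hi).filter fun p => p.1 ≤ p.2 ∧ p.1 ∈ A ∧ p.2 ∈ A

lemma mem_blk {A : Set ℕ} {lo hi : ℕ} {p : ℕ × ℕ} :
    p ∈ blk A lo hi ↔ lo ≤ p.1 ∧ p.1 ≤ p.2 ∧ p.2 < hi ∧ p.1 ∈ A ∧ p.2 ∈ A := by
  classical
  simp only [blk, mem_filter, mem_product, mem_Ico]
  constructor
  · rintro ⟨⟨⟨h1, -⟩, -, h4⟩, h5, h6, h7⟩
    exact ⟨h1, h5, h4, h6, h7⟩
  · rintro ⟨h1, h2, h3, h4, h5⟩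
    exact ⟨⟨⟨h1, by omega⟩, by omega, h3⟩, h2, h4, h5⟩

/-- Number of blocks inside `[lo, hi)` with sum `n`. -/
noncomputable def cnt (A : Set ℕ) (lo hi n : ℕ) : ℕ :=
  ((blk A lo hi).filter fun p => bsum A p.1 p.2 = n).card

/-- Number of blocks inside `[lo, hi)` with `K` elements and sum `n`. -/
noncomputable def cntK (A : Set ℕ) (lo hi K n : ℕ) : ℕ :=
  ((blk A lo hi).filter fun p => bcard A p.1 p.2 = K ∧ bsum A p.1 p.2 = n).card

/-- Number of blocks inside `[lo, hi)` with at least `M` elements and sum `n`. -/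
noncomputable def cntGe (A : Set ℕ) (lo hi M n : ℕ) : ℕ :=
  ((blk A lo hi).filter fun p => M ≤ bcard A p.1 p.2 ∧ bsum A p.1 p.2 = n).card

/-- Expectation of `F` over a random subset of `U` that contains `t` with probability `ρ t`. -/
noncomputable def Ex (ρ : ℕ → ℝ) (U : Finset ℕ) (F : Finset ℕ → ℝ) : ℝ :=
  ∑ Q ∈ U.powerset, (∏ t ∈ Q, ρ t) * (∏ t ∈ U \ Q, (1 - ρ t)) * F Q

/-- All values are probabilities. -/
def Prob (ρ : ℕ → ℝ) : Prop := ∀ t, 0 ≤ ρ t ∧ ρ t ≤ 1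

open Classical in
/-- Indicator of a proposition. -/
noncomputable def ind (P : Prop) : ℝ := if P then 1 else 0

lemma ind_pos {P : Prop} (h : P) : ind P = 1 := by simp [ind, h]
lemma ind_neg {P : Prop} (h : ¬ P) : ind P = 0 := by simp [ind, h]
lemma ind_nonneg (P : Prop) : 0 ≤ ind P := by unfold ind; split_ifs <;> norm_num
lemma ind_le_one (P : Prop) : ind P ≤ 1 := by unfold ind; split_ifs <;> norm_num
lemma ind_congr {P R : Prop} (h : P ↔ R) : ind P = ind R := by rw [propext h]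

/-- The deterministic part together with the random part. -/
def cfg (D : Set ℕ) (Q : Finset ℕ) : Set ℕ := D ∪ (Q : Set ℕ)

lemma mem_cfg {D : Set ℕ} {Q : Finset ℕ} {t : ℕ} : t ∈ cfg D Q ↔ t ∈ D ∨ t ∈ Q := by
  simp [cfg]

open Classical in
/-- Probability that `t` lies in the configuration. -/
noncomputable def pit (D : Set ℕ) (ρ : ℕ → ℝ) (t : ℕ) : ℝ := if t ∈ D then 1 else ρ t

/-- Poisson weight. -/
noncomputable def poi (k : ℕ) (l : ℝ) : ℝ := Real.exp (-l) * l ^ k / k.factorial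

/-- Iterated logarithm. -/
noncomputable def ll (t : ℕ) : ℝ := Real.log (Real.log t)

/-- Number of cells `[i s, (i+1) s)`, `L ≤ i < i1`, that hold a block with sum `n`. -/
noncomputable def Yc (A : Set ℕ) (s L i1 n : ℕ) : ℕ :=
  ((Ico L i1).filter fun i => cnt A (i * s) ((i + 1) * s) n ≠ 0).card

/-- Number of `n ≤ x` with `Yc = k`. -/
noncomputable def Fk (A : Set ℕ) (x s L i1 k : ℕ) : ℝ :=
  (((Icc 1 x).filter fun n => Yc A s L i1 n = k).card : ℝ)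

/-- Number of `n ≤ x` with exactly `k` representations. -/
noncomputable def Rk (A : Set ℕ) (k x : ℕ) : ℝ :=
  (((Icc 1 x).filter fun n => rep A n = k).card : ℝ)

/-- Bound for the number of blocks with first element `t` and sum at most `x`. -/
noncomputable def bet (x s t : ℕ) : ℝ := if t < s then 2 * s else (x : ℝ) / t

/-- Weight of the starting points outside the cells. -/
noncomputable def Wt (A : Set ℕ) (x s L i1 : ℕ) : ℝ :=
  ∑ t ∈ (Icc 1 x).filter (fun t => t ∉ Ico (L * s) (i1 * s)), ind (t ∈ A) * bet x s t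

/-- Surplus blocks of the cell `i`. -/
noncomputable def Zi (A : Set ℕ) (x s i : ℕ) : ℝ :=
  ∑ n ∈ Icc 1 x, ((cnt A (i * s) ((i + 1) * s) n : ℝ) - ind (cnt A (i * s) ((i + 1) * s) n ≠ 0))

/-- Expected number of blocks with sum `n` inside the cells. -/
noncomputable def lam (D : Set ℕ) (ρ : ℕ → ℝ) (x s L i1 n : ℕ) : ℝ :=
  ∑ i ∈ Ico L i1, Ex ρ (Icc 1 x) fun Q => (cnt (cfg D Q) (i * s) ((i + 1) * s) n : ℝ)

/-- The point bound. -/
def HPT (D : Set ℕ) (ρ : ℕ → ℝ) (x s L i1 : ℕ) : Prop :=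
  ∀ i ∈ Ico L i1, ∀ z : ℕ, i * s ≤ z → ∀ K : ℕ, L ≤ K → ∀ n : ℕ,
    Ex ρ (Icc 1 x) (fun Q => (cntK (cfg D Q) z ((i + 1) * s) K n : ℝ)) ≤ 4 / K

/-- The one sided mean bound. -/
def HUP (D : Set ℕ) (ρ : ℕ → ℝ) (x s L i1 n0 : ℕ) (l0 η : ℝ) : Prop :=
  ∑ n ∈ Ioc n0 x, max (lam D ρ x s L i1 n - l0) 0 ≤ η * x

/-- Mertens type hypothesis. -/
def HMert (D : Set ℕ) (ρ : ℕ → ℝ) (c : ℝ) : Prop :=
  ∀ ε : ℝ, 0 < ε → ∃ z0 : ℕ, ∀ u v : ℕ, z0 ≤ u → u ≤ v →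
    |∑ t ∈ Ico u v, pit D ρ t / t - c * (ll v - ll u)| ≤ ε * (1 + (ll v - ll u))

/-- Density zero in the mean. -/
def HSparse (D : Set ℕ) (ρ : ℕ → ℝ) : Prop :=
  ∀ ε : ℝ, 0 < ε → ∀ᶠ z : ℕ in atTop, ∑ t ∈ Ico 1 z, pit D ρ t ≤ ε * z

/-- First cell index. -/
noncomputable def Lp (δ : ℝ) (x : ℕ) : ℕ := ⌈(x : ℝ) ^ δ⌉₊

/-- Cell length. -/
def sp (x : ℕ) : ℕ := Nat.sqrt x + 1

/-- Last cell index plus one. -/
noncomputable def ip (δ : ℝ) (x : ℕ) : ℕ := x / (Lp δ x ^ 2 * sp x)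

/-- Both finite hypotheses hold for all small parameters and all large `x`. -/
def HFin (D : Set ℕ) (ρ : ℕ → ℝ) (l0 : ℝ) : Prop :=
  ∀ δ η : ℝ, 0 < δ → δ ≤ 1 / 10 → 0 < η → η ≤ 1 → ∀ᶠ x : ℕ in atTop,
    HPT D ρ x (sp x) (Lp δ x) (ip δ x) ∧
      HUP D ρ x (sp x) (Lp δ x) (ip δ x) ⌊η * x⌋₊ l0 η

/-- The conclusion of the core theorem. -/
def HConc (D : Set ℕ) (ρ : ℕ → ℝ) (l0 : ℝ) : Prop :=
  ∀ (k : ℕ) (η : ℝ), 0 < η → ∀ᶠ x : ℕ in atTop,
    Ex ρ (Icc 1 x) (fun Q => ind (η * x < |Rk (cfg D Q) k x - x * poi k l0|)) ≤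
      1 / Real.log x ^ 2

/-- Hypotheses on the intensity of the sparse random part. -/
structure Noise (ρ : ℕ → ℝ) (n₁ : ℕ) : Prop where
  prob : Prob ρ
  anti : ∀ u v : ℕ, n₁ ≤ u → u ≤ v → ρ v ≤ ρ u
  mono : ∀ u v : ℕ, n₁ ≤ u → u ≤ v → u * ρ u ≤ v * ρ v
  small : Tendsto (fun n : ℕ => ρ n * Real.log n) atTop (nhds 0)
  large : ∀ κ : ℝ, 0 < κ → ∀ᶠ n : ℕ in atTop, (n : ℝ) ^ (-κ) ≤ ρ n

/-- The primes. -/
def PP : Set ℕ := {t | t.Prime}

/-- Increasing enumeration. -/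
noncomputable def dd (A : Set ℕ) (i : ℕ) : ℕ := Nat.nth (fun t => t ∈ A) i

/-- Sum of `K` consecutive elements starting at index `i`. -/
noncomputable def TT (A : Set ℕ) (K i : ℕ) : ℕ := ∑ j ∈ range K, dd A (i + j)

/-- Reciprocal of the gap between the sums of `K` consecutive elements around `t`. -/
noncomputable def Phi (A : Set ℕ) (K t : ℕ) : ℝ :=
  ∑ i ∈ range (t + 1),
    if TT A K i ≤ t ∧ t < TT A K (i + 1) then 1 / ((dd A (i + K) : ℝ) - dd A i) else 0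

/-- Mass of `Phi` on `[K m, K (m+1))`. -/
noncomputable def gg (A : Set ℕ) (K m : ℕ) : ℝ := ∑ t ∈ Ico (K * m) (K * (m + 1)), Phi A K t

open Classical in
/-- Every long interval holds its share of random points outside `D`. -/
def Good (D : Set ℕ) (ρ : ℕ → ℝ) (x L : ℕ) (η : ℝ) (Q : Finset ℕ) : Prop :=
  ∀ e e' : ℕ, e' ≤ x → e + L ≤ e' →
    (1 - η) * ρ e' * ((e' : ℝ) - e) ≤ (((Ioo e e').filter fun t => t ∈ Q ∧ t ∉ D).card : ℝ)

end Pool.Agent.Work.MP_9a1701_nt.P
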