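import Pool.Agent.Work.MP_9a1701_nt.P.Ex1
import Pool.Agent.Work.MP_9a1701_nt.P.Setup

-- merged part: Pool.Agent.Work.MP_9a1701_nt.P.Ex2
section
/-!
# Efron-Stein, the insertion inequality and a Chernoff bound
-/

set_option autoImplicit false
open Finset Filter

namespace Pool.Agent.Work.MP_9a1701_nt.P

variable {ρ : ℕ → ℝ} {U : Finset ℕ}

lemma Ex2_abs (hρ : Prob ρ) (F G : Finset ℕ → ℝ) {c : ℝ} (h : ∀ Q, Q ⊆ U → |F Q - G Q| ≤ c) :
    |Ex ρ U F - Ex ρ U G| ≤ c := by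
  rw [← Ex_sub, abs_le]
  exact ⟨const_le_Ex hρ fun Q hQ => (abs_le.1 (h Q hQ)).1,
    Ex_le_const hρ fun Q hQ => (abs_le.1 (h Q hQ)).2⟩

lemma Ex2_split (F : Finset ℕ → ℝ) (m : ℝ) :
    Ex ρ U (fun Q => (F Q - m) ^ 2) =
      Ex ρ U (fun Q => (F Q - Ex ρ U F) ^ 2) + (Ex ρ U F - m) ^ 2 := by
  have h : (fun Q => (F Q - m) ^ 2) = fun Q => (F Q - Ex ρ U F) ^ 2 +
      (2 * (Ex ρ U F - m) * F Q + (m ^ 2 - Ex ρ U F ^ 2)) := by
    funext Q
    ring
  rw [h, Ex_add, Ex_add, Ex_const_mul, Ex_const]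
  ring

lemma Ex2_es (hρ : Prob ρ) {ι : Type*} [DecidableEq ι] (I : Finset ι) (C : ι → Finset ℕ)
    (hd : ∀ i ∈ I, ∀ j ∈ I, i ≠ j → Disjoint (C i) (C j)) (F : Finset ℕ → ℝ) (b : ι → ℝ)
    (hb : ∀ i ∈ I, ∀ Q Q' : Finset ℕ, Q \ C i = Q' \ C i → |F Q - F Q'| ≤ b i) :
    Ex ρ (I.biUnion C) (fun Q => (F Q - Ex ρ (I.biUnion C) F) ^ 2) ≤ ∑ i ∈ I, b i ^ 2 := by
  induction I using Finset.induction_on generalizing F with
  | empty => simp [Ex_empty]
  | insert a I ha ih =>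
    have hdis : Disjoint (I.biUnion C) (C a) := by
      rw [disjoint_biUnion_left]
      intro i hi
      exact hd i (mem_insert_of_mem hi) a (mem_insert_self a I) fun e => ha (e ▸ hi)
    rw [biUnion_insert, union_comm, Ex_union hdis, Ex_union hdis F, sum_insert ha]
    have h1 := ih (fun i hi j hj => hd i (mem_insert_of_mem hi) j (mem_insert_of_mem hj))
      (fun Q => Ex ρ (C a) fun Q' => F (Q ∪ Q')) fun i hi Q R e =>
        Ex2_abs hρ _ _ fun Q' _ => hb i (mem_insert_of_mem hi) _ _ (by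
          rw [union_sdiff_distrib, union_sdiff_distrib, e])
    refine le_trans (Ex_mono hρ (G := fun Q => b a ^ 2 + ((Ex ρ (C a) fun Q' => F (Q ∪ Q')) -
      Ex ρ (I.biUnion C) fun Q => Ex ρ (C a) fun Q' => F (Q ∪ Q')) ^ 2) fun Q _ => ?_) ?_
    · rw [Ex2_split fun Q' => F (Q ∪ Q')]
      refine add_le_add_left (Ex_le_const hρ fun Q' hQ' => ?_) _
      have h2 : |F (Q ∪ Q') - Ex ρ (C a) fun Q' => F (Q ∪ Q')| ≤ b a := by
        have := Ex2_abs (U := C a) hρ (fun _ => F (Q ∪ Q')) (fun R => F (Q ∪ R)) (c := b a)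
          fun R hR => hb a (mem_insert_self a I) _ _ (by
            rw [union_sdiff_distrib, union_sdiff_distrib, sdiff_eq_empty_iff_subset.2 hQ',
              sdiff_eq_empty_iff_subset.2 hR])
        rwa [Ex_const] at this
      exact sq_le_sq' (abs_le.1 h2).1 (abs_le.1 h2).2
    · rw [Ex_add, Ex_const]
      exact add_le_add_right h1 _

/-- Bounded differences. Reduce to `U = I.biUnion C` by `Ex_local`, then induct on `I`
(generalizing `F`): with `Ex_union`, average out the new cell; the inner variance is at most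
`b ^ 2` since all values of the inner function differ by at most `b`, and the averaged function
has the same bounded differences in the other cells. -/
theorem efron_stein (hρ : Prob ρ) {ι : Type*} [DecidableEq ι] (I : Finset ι) (C : ι → Finset ℕ)
    (hd : ∀ i ∈ I, ∀ j ∈ I, i ≠ j → Disjoint (C i) (C j)) (hU : ∀ i ∈ I, C i ⊆ U)
    (F : Finset ℕ → ℝ) (hF : ∀ Q, F Q = F (Q ∩ I.biUnion C)) (b : ι → ℝ)
    (hb : ∀ i ∈ I, ∀ Q Q' : Finset ℕ, Q \ C i = Q' \ C i → |F Q - F Q'| ≤ b i) :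
    Ex ρ U (fun Q => (F Q - Ex ρ U F) ^ 2) ≤ ∑ i ∈ I, b i ^ 2 := by
  have hW : I.biUnion C ⊆ U := biUnion_subset.2 hU
  rw [Ex_local hW hF, Ex_local hW fun Q => by rw [← hF Q]]
  exact Ex2_es hρ I C hd F b hb

/-- Insertion inequality. Write both sides as sums over `v ∈ V` of expectations of
`ind (v ∈ Q) * g v (Q.erase v)` and `ind (v ∉ Q) * g v Q`; for fixed `v` write
`U = insert v (U.erase v)` and use `Ex_insert`. -/
theorem mecke (hρ : Prob ρ) {V : Finset ℕ} (hV : V ⊆ U) {r : ℝ}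
    (hr : ∀ v ∈ V, ρ v ≤ r * (1 - ρ v)) (g : ℕ → Finset ℕ → ℝ) (hg : ∀ v Q, 0 ≤ g v Q) :
    Ex ρ U (fun Q => ∑ u ∈ Q ∩ V, g u (Q.erase u)) ≤
      r * Ex ρ U (fun Q => ∑ v ∈ V \ Q, g v Q) := by
  have e1 : (fun Q : Finset ℕ => ∑ u ∈ Q ∩ V, g u (Q.erase u)) =
      fun Q => ∑ v ∈ V, ind (v ∈ Q) * g v (Q.erase v) := by
    funext Q
    rw [inter_comm, ← filter_mem_eq_inter, sum_filter]
    refine sum_congr rfl fun v _ => ?_
    split_ifs with h
    · rw [ind_pos h, one_mul]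
    · rw [ind_neg h, zero_mul]
  have e2 : (fun Q : Finset ℕ => ∑ v ∈ V \ Q, g v Q) =
      fun Q => ∑ v ∈ V, ind (v ∉ Q) * g v Q := by
    funext Q
    rw [sdiff_eq_filter, sum_filter]
    refine sum_congr rfl fun v _ => ?_
    by_cases h : v ∈ Q
    · rw [if_neg (not_not.2 h), ind_neg (not_not.2 h), zero_mul]
    · rw [if_pos h, ind_pos h, one_mul]
  rw [e1, e2, Ex_sum, Ex_sum, mul_sum]
  refine sum_le_sum fun v hv => ?_
  have hn : ∀ Q, Q ⊆ U.erase v → v ∉ Q := fun Q hQ h => notMem_erase v U (hQ h)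
  rw [← insert_erase (hV hv), Ex_insert (notMem_erase v U), Ex_insert (notMem_erase v U),
    Ex_congr (G := g v) fun Q hQ => by
      rw [ind_pos (mem_insert_self v Q), one_mul, erase_insert (hn Q hQ)],
    Ex_congr (F := fun Q => ind (v ∈ Q) * g v (Q.erase v)) (G := fun _ => 0) fun Q hQ => by
      rw [ind_neg (hn Q hQ), zero_mul],
    Ex_congr (F := fun Q => ind (v ∉ insert v Q) * g v (insert v Q)) (G := fun _ => 0)
      fun Q _ => by rw [ind_neg (not_not.2 (mem_insert_self v Q)), zero_mul],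
    Ex_congr (F := fun Q => ind (v ∉ Q) * g v Q) (G := g v) fun Q hQ => by
      rw [ind_pos (hn Q hQ), one_mul], Ex_const]
  have h1 : 0 ≤ Ex ρ (U.erase v) (g v) := Ex_nonneg hρ fun Q _ => hg v Q
  have h2 := mul_le_mul_of_nonneg_right (hr v hv) h1
  linarith

lemma Ex2_mgf (hρ : Prob ρ) (η : ℝ) (J : Finset ℕ) :
    Ex ρ J (fun Q => Real.exp (-(η * Q.card))) ≤
      Real.exp (-((1 - Real.exp (-η)) * ∑ t ∈ J, ρ t)) := by
  induction J using Finset.induction_on with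
  | empty => simp [Ex_empty]
  | insert t J ht ih =>
    rw [Ex_insert ht, Ex_congr (G := fun Q => Real.exp (-η) * Real.exp (-(η * Q.card)))
      fun Q hQ => by
        rw [card_insert_of_notMem fun h => ht (hQ h), ← Real.exp_add]
        push_cast
        ring_nf, Ex_const_mul, sum_insert ht, mul_add, neg_add, Real.exp_add]
    have h0 : 0 ≤ Ex ρ J (fun Q => Real.exp (-(η * Q.card))) :=
      Ex_nonneg hρ fun Q _ => (Real.exp_pos _).le
    have h1 := Real.add_one_le_exp (-((1 - Real.exp (-η)) * ρ t))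
    refine le_trans ?_ (mul_le_mul_of_nonneg_left ih (Real.exp_pos _).le)
    have h2 := mul_le_mul_of_nonneg_right h1 h0
    linarith

/-- Lower tail. `Ex (exp (-η * card (Q ∩ J))) = ∏ t ∈ J, (1 - ρ t * (1 - exp (-η)))` by
induction, `1 - exp (-η) ≥ η - η ^ 2 / 2`, and `ind (X < a) ≤ exp (η * (a - X))`. -/
theorem chernoff (hρ : Prob ρ) {J : Finset ℕ} (hJ : J ⊆ U) {η m : ℝ} (h0 : 0 ≤ η) (h1 : η ≤ 1)
    (hm : m ≤ ∑ t ∈ J, ρ t) :
    Ex ρ U (fun Q => ind (((Q ∩ J).card : ℝ) < (1 - η) * m)) ≤ Real.exp (-(η ^ 2 * m / 2)) := by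
  have e1 : Real.exp (-η) ≤ 1 - η + η ^ 2 / 2 := by
    have h2 := Real.quadratic_le_exp_of_nonneg h0
    have h3 : 0 ≤ 1 - η + η ^ 2 / 2 := by nlinarith
    rw [Real.exp_neg, inv_le_iff_one_le_mul₀ (Real.exp_pos η)]
    have h4 := mul_le_mul_of_nonneg_left h2 h3
    nlinarith [sq_nonneg (η ^ 2)]
  have hs : 0 ≤ ∑ t ∈ J, ρ t := sum_nonneg fun t _ => (hρ t).1
  refine le_trans (Ex_mono hρ (G := fun Q => Real.exp (η * ((1 - η) * m)) *
    Real.exp (-(η * (Q ∩ J).card))) fun Q _ => ?_) ?_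
  · by_cases h : ((Q ∩ J).card : ℝ) < (1 - η) * m
    · rw [ind_pos h, ← Real.exp_add]
      refine Real.one_le_exp ?_
      have := mul_le_mul_of_nonneg_left h.le h0
      linarith
    · rw [ind_neg h]
      positivity
  · rw [Ex_const_mul, Ex_local hJ fun Q => by rw [inter_assoc, inter_self],
      Ex_congr (G := fun Q => Real.exp (-(η * Q.card))) fun Q hQ => by
        rw [inter_eq_left.2 hQ]]
    refine le_trans (mul_le_mul_of_nonneg_left (Ex2_mgf hρ η J) (Real.exp_pos _).le) ?_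
    rw [← Real.exp_add, Real.exp_le_exp]
    have h3 : 0 ≤ η - η ^ 2 / 2 := by nlinarith
    have h4 := mul_le_mul_of_nonneg_left hm h3
    have h5 := mul_le_mul_of_nonneg_right (show η - η ^ 2 / 2 ≤ 1 - Real.exp (-η) by linarith) hs
    linarith

end Pool.Agent.Work.MP_9a1701_nt.P
end

-- merged part: Pool.Agent.Work.MP_9a1701_nt.P.An
section
/-!
# Elementary analysis: telescoping sums and the size of the parameters
-/

set_option autoImplicit false
open Finset Filter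

namespace Pool.Agent.Work.MP_9a1701_nt.P

lemma An_logdiff {a b c : ℝ} (ha : 0 < a) (hb : 0 < b) (h : a ≤ (1 + c) * b) :
    Real.log a - Real.log b ≤ c := by
  rw [← Real.log_div ha.ne' hb.ne']
  have h1 := Real.log_le_sub_one_of_pos (div_pos ha hb)
  have h2 : a / b ≤ 1 + c := by rw [div_le_iff₀ hb]; exact h
  linarith

lemma An_log_succ_ge {t : ℝ} (ht : 0 < t) : 1 / (t + 1) ≤ Real.log (t + 1) - Real.log t := by
  have h := An_logdiff (a := t) (b := t + 1) (c := -(1 / (t + 1))) ht (by linarith)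
    (by apply le_of_eq; field_simp; ring)
  linarith

lemma An_log_succ_le {t : ℝ} (ht : 0 < t) : Real.log (t + 1) - Real.log t ≤ 1 / t :=
  An_logdiff (by linarith) ht (by apply le_of_eq; field_simp)

lemma An_step_U {n K : ℝ} (hK : 0 < K) (hn : K + 1 < n) :
    1 / ((K + 1) * Real.log (n / K)) ≤
      Real.log (Real.log (n / K)) - Real.log (Real.log (n / (K + 1))) := by
  have hn0 : 0 < n := by linarith
  have hb : 0 < Real.log (n / (K + 1)) :=
    Real.log_pos (by rw [lt_div_iff₀ (by linarith)]; linarith)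
  have ha : 0 < Real.log (n / K) := Real.log_pos (by rw [lt_div_iff₀ hK]; linarith)
  have e1 : Real.log (n / K) = Real.log n - Real.log K := Real.log_div hn0.ne' hK.ne'
  have e2 : Real.log (n / (K + 1)) = Real.log n - Real.log (K + 1) :=
    Real.log_div hn0.ne' (by linarith)
  have h1 := An_log_succ_ge hK
  have h := An_logdiff (c := -(1 / ((K + 1) * Real.log (n / K)))) hb ha (by
    have e3 : (1 + -(1 / ((K + 1) * Real.log (n / K)))) * Real.log (n / K)
        = Real.log (n / K) - 1 / (K + 1) := by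
      have : K + 1 ≠ 0 := by linarith
      field_simp
      ring
    rw [e3]; linarith)
  linarith

/-- (U) of the paper. With `g K = - log (log (n / K))` one has
`1 / ((K + 1) log (n / K)) ≤ g (K + 1) - g K`, and
`g (K2 + 1) - g K1 ≤ log (log x) - log (log √x) = log 2`. -/
theorem sum_U {x n K1 K2 : ℕ} (hx : 2 ≤ x) (hn : n ≤ x) (h1 : 1 ≤ K1)
    (h2 : √(x : ℝ) * (K2 + 1) ≤ n) :
    ∑ K ∈ Ioc K1 K2, 1 / (K * Real.log ((n : ℝ) / K)) ≤ (1 + 1 / (K1 : ℝ)) * Real.log 2 := by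
  have hx' : (2 : ℝ) ≤ x := by exact_mod_cast hx
  have hK1 : (1 : ℝ) ≤ K1 := by exact_mod_cast h1
  have hl2 : 0 < Real.log 2 := Real.log_pos (by norm_num)
  have hc : 0 < 1 + 1 / (K1 : ℝ) := by positivity
  have hs : 1 < √(x : ℝ) := by
    rw [Real.lt_sqrt (by norm_num)]; linarith
  have key : ∀ m : ℕ, K1 ≤ m → m ≤ K2 →
      ∑ K ∈ Ioc K1 m, 1 / (K * Real.log ((n : ℝ) / K)) ≤ (1 + 1 / (K1 : ℝ)) *
        (Real.log (Real.log ((n : ℝ) / (K1 + 1))) - Real.log (Real.log ((n : ℝ) / (m + 1)))) := by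
    intro m hm
    induction m, hm using Nat.le_induction with
    | base => intro _; simp
    | succ m hm ih =>
      intro hm2
      rw [sum_Ioc_succ_top hm]
      have ih' := ih (by omega)
      have hm' : (K1 : ℝ) ≤ m := by exact_mod_cast hm
      have hm2' : (m : ℝ) + 1 ≤ K2 := by exact_mod_cast hm2
      have hlt : (m : ℝ) + 1 + 1 < n := by nlinarith
      have hst := An_step_U (n := n) (K := (m : ℝ) + 1) (by linarith) hlt
      have ha : 0 < Real.log ((n : ℝ) / (m + 1)) :=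
        Real.log_pos (by rw [lt_div_iff₀ (by linarith)]; linarith)
      push_cast
      have h3 : 1 / (((m : ℝ) + 1) * Real.log ((n : ℝ) / (m + 1))) ≤
          (1 + 1 / (K1 : ℝ)) * (1 / (((m : ℝ) + 1 + 1) * Real.log ((n : ℝ) / (m + 1)))) := by
        have e : 1 / (((m : ℝ) + 1) * Real.log ((n : ℝ) / (m + 1))) =
            (1 + 1 / ((m : ℝ) + 1)) * (1 / (((m : ℝ) + 1 + 1) * Real.log ((n : ℝ) / (m + 1)))) := by
          have : (m : ℝ) + 1 ≠ 0 := by linarith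
          have : (m : ℝ) + 1 + 1 ≠ 0 := by linarith
          field_simp
        rw [e]
        have : 1 / ((m : ℝ) + 1) ≤ 1 / (K1 : ℝ) :=
          one_div_le_one_div_of_le (by linarith) (by linarith)
        have hp : 0 ≤ 1 / (((m : ℝ) + 1 + 1) * Real.log ((n : ℝ) / (m + 1))) := by
          have : 0 < (m : ℝ) + 1 + 1 := by linarith
          positivity
        exact mul_le_mul_of_nonneg_right (by linarith) hp
      have h4 := mul_le_mul_of_nonneg_left hst hc.le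
      linarith
  rcases le_or_gt K2 K1 with hle | hlt
  · rw [Ioc_eq_empty (by omega)]
    simp only [sum_empty]
    positivity
  · refine (key K2 hlt.le le_rfl).trans (mul_le_mul_of_nonneg_left ?_ hc.le)
    have hlt' : (K1 : ℝ) ≤ K2 := by exact_mod_cast hlt.le
    have hn' : (n : ℝ) ≤ x := by exact_mod_cast hn
    have hn0 : (K2 : ℝ) + 1 < n := by nlinarith
    have hlx : 0 < Real.log x := Real.log_pos (by linarith)
    have ha : 0 < Real.log ((n : ℝ) / (K1 + 1)) :=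
      Real.log_pos (by rw [lt_div_iff₀ (by linarith)]; linarith)
    have ha2 : Real.log ((n : ℝ) / (K1 + 1)) ≤ Real.log x := by
      apply Real.log_le_log (by apply div_pos <;> linarith)
      rw [div_le_iff₀ (by linarith)]; nlinarith
    have hb : Real.log x / 2 ≤ Real.log ((n : ℝ) / (K2 + 1)) := by
      rw [← Real.log_sqrt (by linarith)]
      apply Real.log_le_log (by linarith)
      rw [le_div_iff₀ (by linarith)]; exact h2
    have h5 := Real.log_le_log ha ha2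
    have h6 := Real.log_le_log (by linarith) hb
    rw [Real.log_div hlx.ne' (by norm_num)] at h6
    linarith

lemma An_log_pos {u : ℕ} (hu : 2 ≤ u) : 0 < Real.log (u : ℝ) :=
  Real.log_pos (by exact_mod_cast hu)

lemma ll_mono {u v : ℕ} (hu : 2 ≤ u) (h : u ≤ v) : ll u ≤ ll v := by
  unfold ll
  have hu' : (2 : ℝ) ≤ u := by exact_mod_cast hu
  exact Real.log_le_log (An_log_pos hu) (Real.log_le_log (by linarith) (by exact_mod_cast h))

lemma An_ll_succ_le {t : ℕ} (ht : 2 ≤ t) : ll (t + 1) - ll t ≤ 1 / (t * Real.log t) := by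
  unfold ll
  have ht' : (2 : ℝ) ≤ t := by exact_mod_cast ht
  have hb := An_log_pos ht
  refine An_logdiff (An_log_pos (by omega)) hb ?_
  have h1 := An_log_succ_le (t := (t : ℝ)) (by linarith)
  have e : (1 + 1 / ((t : ℝ) * Real.log t)) * Real.log t = Real.log t + 1 / t := by
    field_simp
  rw [e]; push_cast; linarith

lemma An_ll_succ_ge {t : ℕ} (ht : 2 ≤ t) :
    1 / (((t + 1 : ℕ) : ℝ) * Real.log ((t + 1 : ℕ) : ℝ)) ≤ ll (t + 1) - ll t := by
  unfold ll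
  have ht' : (2 : ℝ) ≤ t := by exact_mod_cast ht
  have hb := An_log_pos (u := t + 1) (by omega)
  have h1 := An_log_succ_ge (t := (t : ℝ)) (by linarith)
  have h := An_logdiff (c := -(1 / (((t + 1 : ℕ) : ℝ) * Real.log ((t + 1 : ℕ) : ℝ))))
    (An_log_pos ht) hb (by
      have e : (1 + -(1 / (((t + 1 : ℕ) : ℝ) * Real.log ((t + 1 : ℕ) : ℝ)))) *
          Real.log ((t + 1 : ℕ) : ℝ) = Real.log ((t + 1 : ℕ) : ℝ) - 1 / ((t + 1 : ℕ) : ℝ) := by
        have : ((t + 1 : ℕ) : ℝ) ≠ 0 := by positivity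
        field_simp
        ring
      rw [e]; push_cast; linarith)
  linarith

lemma ll_le_sum {u v : ℕ} (hu : 2 ≤ u) (h : u ≤ v) :
    ll v - ll u ≤ ∑ t ∈ Ico u v, 1 / (t * Real.log t) := by
  induction v, h using Nat.le_induction with
  | base => simp
  | succ v hv ih =>
    rw [sum_Ico_succ_top hv]
    have := An_ll_succ_le (t := v) (by omega)
    linarith

/-- `1 / ((t + 1) log (t + 1)) ≤ ll (t + 1) - ll t`. -/
lemma sum_le_ll {u v : ℕ} (hu : 2 ≤ u) (h : u ≤ v) :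
    ∑ t ∈ Ico u v, 1 / (t * Real.log t) ≤ ll v - ll u + 1 / (u * Real.log u) := by
  have key : ∑ t ∈ Ico u v, 1 / (t * Real.log t) ≤
      ll v - ll u + 1 / (u * Real.log u) - 1 / (v * Real.log v) := by
    induction v, h using Nat.le_induction with
    | base => simp
    | succ v hv ih =>
      rw [sum_Ico_succ_top hv]
      have := An_ll_succ_ge (t := v) (by omega)
      linarith
  have : 0 ≤ 1 / ((v : ℝ) * Real.log v) := by
    have := An_log_pos (u := v) (by omega)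
    positivity
  linarith

lemma le_sp_sq (x : ℕ) : x ≤ sp x ^ 2 := (Nat.lt_succ_sqrt' x).le

lemma sqrt_le_sp (x : ℕ) : √(x : ℝ) ≤ sp x :=
  Real.sqrt_le_iff.mpr ⟨by positivity, by exact_mod_cast le_sp_sq x⟩

lemma sp_le {x : ℕ} (hx : 1 ≤ x) : (sp x : ℝ) ≤ 2 * √(x : ℝ) := by
  have h1 : ((Nat.sqrt x : ℕ) : ℝ) ≤ √(x : ℝ) := Real.nat_sqrt_le_real_sqrt
  have h2 : 1 ≤ √(x : ℝ) := Real.one_le_sqrt.mpr (by exact_mod_cast hx)
  unfold sp; push_cast; linarith

lemma le_Lp (δ : ℝ) (x : ℕ) : (x : ℝ) ^ δ ≤ Lp δ x := Nat.le_ceil _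

lemma Lp_le {δ : ℝ} (h0 : 0 < δ) {x : ℕ} (hx : 1 ≤ x) : (Lp δ x : ℝ) ≤ 2 * (x : ℝ) ^ δ := by
  have h1 : (1 : ℝ) ≤ (x : ℝ) ^ δ := Real.one_le_rpow (by exact_mod_cast hx) h0.le
  have h2 := Nat.ceil_lt_add_one (a := (x : ℝ) ^ δ) (by linarith)
  unfold Lp; linarith

lemma An_log_ev (M : ℝ) : ∀ᶠ x : ℕ in atTop, M ≤ Real.log x :=
  (Real.tendsto_log_atTop.comp tendsto_natCast_atTop_atTop).eventually_ge_atTop M

lemma An_rpow_ev {δ : ℝ} (h0 : 0 < δ) (M : ℝ) : ∀ᶠ x : ℕ in atTop, M ≤ (x : ℝ) ^ δ :=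
  ((tendsto_rpow_atTop h0).comp tendsto_natCast_atTop_atTop).eventually_ge_atTop M

lemma An_log_pow {δ : ℝ} (h0 : 0 < δ) (a : ℕ) {C : ℝ} (hC : 0 < C) :
    ∀ᶠ x : ℕ in atTop, C * (Real.log x + 1) ^ a ≤ (x : ℝ) ^ δ := by
  have h1 := (isLittleO_log_rpow_rpow_atTop (a : ℝ) h0).bound
    (c := 1 / (C * 2 ^ a)) (by positivity)
  filter_upwards [tendsto_natCast_atTop_atTop.eventually h1, An_log_ev 1] with x hx hl
  rw [Real.rpow_natCast, Real.norm_of_nonneg (by positivity),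
    Real.norm_of_nonneg (by positivity)] at hx
  have h2 : (Real.log x + 1) ^ a ≤ (2 * Real.log x) ^ a :=
    pow_le_pow_left₀ (by linarith) (by linarith) a
  rw [mul_pow] at h2
  have h3 : C * 2 ^ a * Real.log x ^ a ≤ (x : ℝ) ^ δ := by
    have := mul_le_mul_of_nonneg_left hx (show 0 ≤ C * 2 ^ a by positivity)
    rwa [← mul_assoc, mul_one_div_cancel (by positivity), one_mul] at this
  calc C * (Real.log x + 1) ^ a ≤ C * (2 ^ a * Real.log x ^ a) :=
        mul_le_mul_of_nonneg_left h2 hC.le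
    _ = C * 2 ^ a * Real.log x ^ a := by ring
    _ ≤ _ := h3

lemma log_pow_le_Lp {δ : ℝ} (h0 : 0 < δ) (a : ℕ) {C : ℝ} (hC : 0 < C) :
    ∀ᶠ x : ℕ in atTop, C * (Real.log x + 1) ^ a ≤ Lp δ x :=
  (An_log_pow h0 a hC).mono fun x hx => hx.trans (le_Lp δ x)

lemma log_pow_le_sp (a : ℕ) {C : ℝ} (hC : 0 < C) :
    ∀ᶠ x : ℕ in atTop, C * (Real.log x + 1) ^ a ≤ sp x := by
  refine (An_log_pow (δ := 1 / 2) (by norm_num) a hC).mono fun x hx => hx.trans ?_
  rw [← Real.sqrt_eq_rpow]; exact sqrt_le_sp x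

lemma An_sp_pos (x : ℕ) : 0 < sp x := Nat.succ_pos _

lemma An_cube {δ : ℝ} (h0 : 0 < δ) (h1 : δ ≤ 1 / 10) :
    ∀ᶠ x : ℕ in atTop, Lp δ x * (Lp δ x ^ 2 * sp x) ≤ x := by
  filter_upwards [An_rpow_ev (δ := 1 / 5) (by norm_num) 16, eventually_ge_atTop 1] with x h16 hx
  have hx' : (1 : ℝ) ≤ x := by exact_mod_cast hx
  have hL := Lp_le h0 hx
  have hs := sp_le hx
  have h2 : (x : ℝ) ^ δ ≤ (x : ℝ) ^ (1 / 10 : ℝ) := Real.rpow_le_rpow_of_exponent_le hx' h1
  set y := (x : ℝ) ^ (1 / 10 : ℝ) with hy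
  have hy0 : 0 < y := by positivity
  have e10 : y ^ 10 = x := by
    rw [hy, ← Real.rpow_natCast, ← Real.rpow_mul (by linarith)]; norm_num
  have e2 : (x : ℝ) ^ (1 / 5 : ℝ) = y ^ 2 := by
    rw [hy, ← Real.rpow_natCast, ← Real.rpow_mul (by linarith)]; norm_num
  have e5 : √(x : ℝ) = y ^ 5 := by
    rw [hy, ← Real.rpow_natCast, ← Real.rpow_mul (by linarith), Real.sqrt_eq_rpow]; norm_num
  rw [e2] at h16
  rw [e5] at hs
  have hL2 : (Lp δ x : ℝ) ≤ 2 * y := by linarith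
  have h3 : (Lp δ x : ℝ) * ((Lp δ x : ℝ) ^ 2 * sp x) ≤ (2 * y) * ((2 * y) ^ 2 * (2 * y ^ 5)) := by
    gcongr
  have h4 : (2 * y) * ((2 * y) ^ 2 * (2 * y ^ 5)) = 16 * y ^ 8 := by ring
  have h5 : 16 * y ^ 8 ≤ y ^ 2 * y ^ 8 := mul_le_mul_of_nonneg_right h16 (by positivity)
  have h6 : y ^ 2 * y ^ 8 = x := by rw [← e10]; ring
  have : (Lp δ x : ℝ) * ((Lp δ x : ℝ) ^ 2 * sp x) ≤ x := by linarith
  exact_mod_cast this

lemma An_ip_mul (δ : ℝ) (x : ℕ) : Lp δ x ^ 2 * (ip δ x * sp x) ≤ x := by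
  have := Nat.div_mul_le_self x (Lp δ x ^ 2 * sp x)
  unfold ip
  calc _ = x / (Lp δ x ^ 2 * sp x) * (Lp δ x ^ 2 * sp x) := by ring
    _ ≤ x := this

/-- Sizes: `L ≈ x ^ δ`, `s ≈ √x`, `i1 s ≈ x / L ^ 2`. -/
theorem par1 {δ η : ℝ} (h0 : 0 < δ) (h1 : δ ≤ 1 / 10) (hη : 0 < η) :
    ∀ᶠ x : ℕ in atTop, 2 ≤ Lp δ x ∧ Lp δ x ≤ ip δ x ∧ ip δ x * sp x + Lp δ x ≤ x ∧
      Lp δ x * (ip δ x * sp x) ≤ ⌊η * x⌋₊ ∧ ((ip δ x * sp x : ℕ) : ℝ) ≤ η * x ∧
      1 / (Lp δ x : ℝ) ≤ η ∧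
      √(x : ℝ) * (2 * (x : ℝ) / (Lp δ x * sp x) + 1) ≤ ⌊η * x⌋₊ := by
  filter_upwards [An_cube h0 h1, An_rpow_ev h0 2, An_rpow_ev h0 (4 / η),
    An_rpow_ev (δ := 1 / 2) (by norm_num) (4 / η), eventually_ge_atTop 1]
    with x hc h2 h4 hs4 hx
  have hx' : (1 : ℝ) ≤ x := by exact_mod_cast hx
  have hL := le_Lp δ x
  have hL2' : (2 : ℝ) ≤ Lp δ x := h2.trans hL
  have hL2 : 2 ≤ Lp δ x := by exact_mod_cast hL2'
  have hs0 := An_sp_pos x
  have hA : Lp δ x ≤ ip δ x := by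
    unfold ip
    rw [Nat.le_div_iff_mul_le (by positivity)]; exact hc
  have hm := An_ip_mul δ x
  have hB : ip δ x * sp x + Lp δ x ≤ x := by
    have h5 : ip δ x ≤ ip δ x * sp x := Nat.le_mul_of_pos_right _ hs0
    have h6 : 2 ^ 2 * (ip δ x * sp x) ≤ Lp δ x ^ 2 * (ip δ x * sp x) :=
      Nat.mul_le_mul_right _ (Nat.pow_le_pow_left hL2 2)
    omega
  have hηL : 4 ≤ η * Lp δ x := by
    have := h4.trans hL
    rw [div_le_iff₀ hη] at this; linarith
  have hm' : (Lp δ x : ℝ) ^ 2 * ((ip δ x * sp x : ℕ) : ℝ) ≤ x := by exact_mod_cast hm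
  have hp0 : (0 : ℝ) ≤ ((ip δ x * sp x : ℕ) : ℝ) := by positivity
  have hC : (Lp δ x : ℝ) * ((ip δ x * sp x : ℕ) : ℝ) ≤ η * x := by
    have h7 : (0 : ℝ) ≤ (Lp δ x : ℝ) * ((ip δ x * sp x : ℕ) : ℝ) := by positivity
    have h8 := mul_le_mul_of_nonneg_left hm' hη.le
    have h9 := mul_le_mul_of_nonneg_right hηL h7
    nlinarith
  rw [← Real.sqrt_eq_rpow] at hs4
  have hsq : √(x : ℝ) * √(x : ℝ) = x := Real.mul_self_sqrt (by linarith)
  have hs1 : 1 ≤ √(x : ℝ) := Real.one_le_sqrt.mpr hx'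
  have hs5 : 4 ≤ η * √(x : ℝ) := by rw [div_le_iff₀ hη] at hs4; linarith
  have hs6 : 4 * √(x : ℝ) ≤ η * x := by nlinarith
  refine ⟨hL2, hA, hB, ?_, ?_, ?_, ?_⟩
  · apply Nat.le_floor; rw [Nat.cast_mul]; exact hC
  · nlinarith
  · rw [div_le_iff₀ (by linarith)]; linarith
  · have hf := Nat.lt_floor_add_one (η * x)
    have hss := sqrt_le_sp x
    have hs0' : (0 : ℝ) < sp x := by linarith
    have h10 : √(x : ℝ) * (2 * (x : ℝ) / (Lp δ x * sp x)) ≤ η * x / 2 := by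
      rw [← mul_div_assoc, div_le_iff₀ (by positivity)]
      have h11 : √(x : ℝ) * (2 * x) ≤ sp x * (2 * x) :=
        mul_le_mul_of_nonneg_right hss (by linarith)
      have h12 := mul_le_mul_of_nonneg_right hηL (show (0 : ℝ) ≤ x * sp x by positivity)
      nlinarith
    rw [mul_add, mul_one]
    linarith

/-- `log (log a / log b) ≤ log a / log b - 1`; `i1 s ≥ x / (2 L ^ 2) ≥ x ^ (1 - 2 δ) / 8`. -/
theorem par2 {δ : ℝ} (h0 : 0 < δ) (h1 : δ ≤ 1 / 10) :
    ∀ᶠ x : ℕ in atTop, ll (Lp δ x * sp x) - ll (sp x) ≤ 3 * δ ∧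
      ll (x + 1) - ll (ip δ x * sp x) ≤ 4 * δ ∧
      Real.log 2 - 8 * δ ≤ ll (ip δ x * sp x) - ll (Lp δ x * sp x) ∧
      ll (ip δ x * sp x) - ll (Lp δ x * sp x) ≤ 1 := by
  filter_upwards [par1 h0 h1 one_pos, An_log_ev (10 / δ), eventually_ge_atTop 1]
    with x hp hl hx
  obtain ⟨hL2, hA, hB, -⟩ := hp
  have hx' : (1 : ℝ) ≤ x := by exact_mod_cast hx
  have hl10 : 10 ≤ δ * Real.log x := by rw [div_le_iff₀ h0] at hl; linarith
  have hl2 : Real.log 2 ≤ 1 := by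
    have := Real.log_le_sub_one_of_pos (show (0 : ℝ) < 2 by norm_num); linarith
  have hl2' : 0 < Real.log 2 := Real.log_pos (by norm_num)
  have hlx : 100 ≤ Real.log x := by nlinarith [Real.log_nonneg hx']
  have hL2' : (2 : ℝ) ≤ Lp δ x := by exact_mod_cast hL2
  have hs0 := An_sp_pos x
  have hs0' : (0 : ℝ) < sp x := by exact_mod_cast hs0
  have hsq0 : 0 < √(x : ℝ) := Real.sqrt_pos.mpr (by linarith)
  have hlL : Real.log (Lp δ x) ≤ Real.log 2 + δ * Real.log x := by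
    have := Real.log_le_log (by linarith) (Lp_le h0 hx)
    rwa [Real.log_mul (by norm_num) (by positivity), Real.log_rpow (by linarith)] at this
  have hlL0 : 0 ≤ Real.log (Lp δ x) := Real.log_nonneg (by linarith)
  have hls1 : Real.log x / 2 ≤ Real.log (sp x) := by
    rw [← Real.log_sqrt (by linarith)]; exact Real.log_le_log hsq0 (sqrt_le_sp x)
  have hls2 : Real.log (sp x) ≤ Real.log 2 + Real.log x / 2 := by
    have := Real.log_le_log hs0' (sp_le hx)
    rwa [Real.log_mul (by norm_num) hsq0.ne', Real.log_sqrt (by linarith)] at this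
  have eB : Real.log ((Lp δ x * sp x : ℕ) : ℝ) = Real.log (Lp δ x) + Real.log (sp x) := by
    rw [Nat.cast_mul, Real.log_mul (by linarith) hs0'.ne']
  have hi0 : 0 < ip δ x := by omega
  have hA0 : (0 : ℝ) < ((ip δ x * sp x : ℕ) : ℝ) := by exact_mod_cast Nat.mul_pos hi0 hs0
  have hA1 : Real.log ((ip δ x * sp x : ℕ) : ℝ) ≤ Real.log x :=
    Real.log_le_log hA0 (by exact_mod_cast (by omega : ip δ x * sp x ≤ x))
  have hlow : x ≤ 2 * (Lp δ x ^ 2 * (ip δ x * sp x)) := by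
    have h3 := Nat.lt_div_mul_add (a := x) (b := Lp δ x ^ 2 * sp x) (by positivity)
    have h4 : Lp δ x ^ 2 * sp x ≤ ip δ x * (Lp δ x ^ 2 * sp x) := Nat.le_mul_of_pos_left _ hi0
    have h5 : Lp δ x ^ 2 * (ip δ x * sp x) = ip δ x * (Lp δ x ^ 2 * sp x) := by ring
    rw [h5]
    change x < ip δ x * (Lp δ x ^ 2 * sp x) + Lp δ x ^ 2 * sp x at h3
    omega
  have hA2 : Real.log x ≤ Real.log 2 + (2 * Real.log (Lp δ x) +
      Real.log ((ip δ x * sp x : ℕ) : ℝ)) := by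
    have h6 : (x : ℝ) ≤ 2 * ((Lp δ x : ℝ) ^ 2 * ((ip δ x * sp x : ℕ) : ℝ)) := by
      exact_mod_cast hlow
    have := Real.log_le_log (by linarith) h6
    rwa [Real.log_mul (by norm_num) (by positivity), Real.log_mul (by positivity) hA0.ne',
      Real.log_pow, Nat.cast_ofNat] at this
  have hX : Real.log ((x + 1 : ℕ) : ℝ) ≤ Real.log 2 + Real.log x := by
    rw [← Real.log_mul (by norm_num) (by linarith)]
    apply Real.log_le_log (by positivity); push_cast; linarith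
  have hX0 : 0 < Real.log ((x + 1 : ℕ) : ℝ) := An_log_pos (by omega)
  unfold ll
  generalize Real.log ((ip δ x * sp x : ℕ) : ℝ) = A at *
  generalize Real.log ((Lp δ x * sp x : ℕ) : ℝ) = B at *
  generalize Real.log ((x + 1 : ℕ) : ℝ) = X at *
  generalize Real.log (Lp δ x) = l at *
  generalize Real.log (sp x) = s at *
  generalize Real.log (x : ℝ) = y at *
  have hdy : δ * y ≤ y / 10 := by nlinarith
  have hAl : y - 2 * (δ * y) - 3 ≤ A := by linarith
  have hA7 : 7 / 10 * y ≤ A := by linarith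
  have hdA : 7 / 10 * (δ * y) ≤ δ * A := by nlinarith
  have hds : δ * y / 2 ≤ δ * s := by nlinarith
  have hApos : 0 < A := by linarith
  have hBpos : 0 < B := by linarith
  refine ⟨An_logdiff hBpos (by linarith) (by linarith), An_logdiff hX0 hApos (by linarith), ?_,
    An_logdiff hApos hBpos (by linarith)⟩
  have h7 := An_logdiff (a := 2 * B) (c := 8 * δ) (by linarith) hApos (by linarith)
  rw [Real.log_mul (by norm_num) hBpos.ne'] at h7
  linarith

end Pool.Agent.Work.MP_9a1701_nt.P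
end
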