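import Pool.Agent.Work.MP_9a1701_nt.P.Setup
import Pool.Agent.Lib.MR.Lbound
import Pool.Agent.Lib.MR.Kernel

/-!
# Averaging over the length of the block
-/

set_option autoImplicit false
open Finset Filter

namespace Pool.Agent.Work.MP_9a1701_nt.P

open Pool.Agent.Lib.MR MeasureTheory

/-- The proof of `short_le_MS` with the bound for the smoothed sums as a hypothesis. -/
theorem short_le_MS' {a : ℕ → ℂ} {T B : ℝ} (hT : 0 < T) {x₀ : ℕ} (hx : 1 ≤ x₀) (X H : ℕ)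
    (hB : ∀ j, j ≤ X + H → ‖smo a T j‖ ≤ B) :
    ∑ x ∈ Icc x₀ X, ‖∑ j ∈ range H, a (x + 1 + j)‖ ^ 2 ≤
      2 * (H : ℝ) ^ 2 / (Real.pi * x₀) * MS T Set.univ (DP (Icc 1 (X + H)) a) + 8 * X * B ^ 2 := by
  have hπ := Real.pi_pos
  have hx' : (0 : ℝ) < x₀ := by exact_mod_cast hx
  set w : ℕ → ℝ := fun j => ‖smo a T j‖ ^ 2 * (1 - ((j : ℝ) / (j + 1)) ^ (2 * T)) with hw
  have hρ : ∀ j : ℕ, x₀ ≤ j → 0 ≤ w j ∧
      ‖smo a T j * ((1 - ((j : ℝ) / (j + 1)) ^ T : ℝ) : ℂ)‖ ^ 2 ≤ T / x₀ * w j := by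
    intro j hj
    obtain ⟨h1, h2, h3⟩ := ratio_bounds hT (hx.trans hj)
    have h4 : ((j : ℝ) / (j + 1)) ^ T ≤ 1 :=
      le_trans (le_mul_of_one_le_right h1 (le_add_of_nonneg_right (by positivity))) h2
    have h5 : ((j : ℝ) / (j + 1)) ^ (2 * T) = (((j : ℝ) / (j + 1)) ^ T) ^ 2 := by
      rw [mul_comm, Real.rpow_mul (by positivity), Real.rpow_two]
    have h6 : T / j ≤ T / x₀ := by gcongr
    simp only [hw, h5]
    set r := ((j : ℝ) / (j + 1)) ^ T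
    have h7 : 1 - r ≤ 1 - r ^ 2 := by nlinarith
    refine ⟨mul_nonneg (by positivity) (by nlinarith), ?_⟩
    rw [norm_mul, Complex.norm_real, Real.norm_of_nonneg (by linarith), mul_pow, mul_left_comm]
    refine mul_le_mul_of_nonneg_left ?_ (by positivity)
    rw [sq (1 - r)]
    exact mul_le_mul (by linarith) h7 (by linarith) (by positivity)
  have hW : Real.pi * T * ∑ j ∈ Icc x₀ (X + H), w j ≤ MS T Set.univ (DP (Icc 1 (X + H)) a) := by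
    refine le_trans ?_ (sum_sq_le_MS (Icc 1 (X + H)) id (fun i hi => (mem_Icc.1 hi).1) a hT (X + H))
    refine mul_le_mul_of_nonneg_left ?_ (by positivity)
    have e : ∀ j ∈ Icc 1 (X + H), ‖∑ i ∈ Icc 1 (X + H) with id i ≤ j,
        a i * (((((id i : ℕ) : ℝ) / j) ^ T : ℝ) : ℂ)‖ ^ 2 * (1 - ((j : ℝ) / (j + 1)) ^ (2 * T))
        = w j := fun j hj => by
      have : (Icc 1 (X + H)).filter (fun i => id i ≤ j) = Icc 1 j := by
        ext i; have := mem_Icc.1 hj; simp only [mem_filter, mem_Icc, id]; omega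
      rw [this]; rfl
    rw [sum_congr rfl e]
    refine sum_le_sum_of_subset_of_nonneg (Icc_subset_Icc_left hx) fun j hj _ => ?_
    refine mul_nonneg (by positivity) (sub_nonneg.2 (Real.rpow_le_one (by positivity) ?_ (by positivity)))
    exact div_le_one_of_le₀ (by linarith) (by positivity)
  have h1 : ∀ x ∈ Icc x₀ X, ‖∑ j ∈ range H, a (x + 1 + j)‖ ^ 2
      ≤ 2 * H * (T / x₀) * ∑ k ∈ range H, w (x + k) + 8 * B ^ 2 := by
    intro x hxm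
    obtain ⟨hx1, hx2⟩ := mem_Icc.1 hxm
    have b1 : ‖smo a T (x + H)‖ ≤ B := hB _ (by omega)
    have b2 : ‖smo a T x‖ ≤ B := hB _ (by omega)
    rw [sum_eq_smo a T]
    set Z := ∑ k ∈ range H,
      smo a T (x + k) * ((1 - (((x + k : ℕ) : ℝ) / ((x + k : ℕ) + 1)) ^ T : ℝ) : ℂ) with hZ
    have b3 : ‖Z‖ ^ 2 ≤ H * (T / x₀ * ∑ k ∈ range H, w (x + k)) := by
      refine (pow_le_pow_left₀ (norm_nonneg _) (norm_sum_le _ _) 2).trans
        (sq_sum_le_card_mul_sum_sq.trans ?_)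
      rw [card_range]
      refine mul_le_mul_of_nonneg_left ?_ (by positivity)
      rw [mul_sum]
      exact sum_le_sum fun k _ => (hρ (x + k) (by omega)).2
    have b4 : ‖smo a T (x + H) - smo a T x + Z‖ ≤ 2 * B + ‖Z‖ :=
      (norm_add_le _ _).trans (by linarith [norm_sub_le (smo a T (x + H)) (smo a T x)])
    have b5 := pow_le_pow_left₀ (norm_nonneg _) b4 2
    nlinarith [sq_nonneg (2 * B - ‖Z‖)]
  have h2 : ∑ x ∈ Icc x₀ X, ∑ k ∈ range H, w (x + k) ≤ H * ∑ j ∈ Icc x₀ (X + H), w j := by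
    rw [sum_comm]
    calc _ ≤ ∑ _k ∈ range H, ∑ j ∈ Icc x₀ (X + H), w j := sum_le_sum fun k hk => by
          rw [← sum_image (s := Icc x₀ X) (g := fun x => x + k) (f := w)
            (fun a _ b _ h => by simpa using h)]
          refine sum_le_sum_of_subset_of_nonneg (fun j hj => ?_) fun j hj _ =>
            (hρ j (mem_Icc.1 hj).1).1
          obtain ⟨y, hy, rfl⟩ := mem_image.1 hj
          have := mem_Icc.1 hy
          have := mem_range.1 hk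
          rw [mem_Icc]; omega
      _ = _ := by simp
  refine (sum_le_sum h1).trans ?_
  rw [sum_add_distrib, ← mul_sum, sum_const, nsmul_eq_mul]
  have h3 : ((Icc x₀ X).card : ℝ) ≤ X := by
    rw [Nat.card_Icc]; exact_mod_cast (by omega : X + 1 - x₀ ≤ X)
  refine add_le_add ?_ (by nlinarith [sq_nonneg B])
  calc _ ≤ 2 * H * (T / x₀) * (H * ∑ j ∈ Icc x₀ (X + H), w j) := by gcongr
    _ = 2 * (H : ℝ) ^ 2 / (Real.pi * x₀) * (Real.pi * T * ∑ j ∈ Icc x₀ (X + H), w j) := by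
        field_simp
    _ ≤ _ := by gcongr

lemma Avg_nit_diff {m : ℕ} (hm : 1 ≤ m) (u : ℝ) : ‖nit m u - nit (m + 1) u‖ ≤ |u| * (m : ℝ)⁻¹ := by
  have hm' : (0 : ℝ) < m := by exact_mod_cast hm
  have h1 : nit m u - nit (m + 1) u = -(nit m u *
      (Complex.exp (Complex.I * ((u * (Real.log (m + 1 : ℕ) - Real.log m) : ℝ) : ℂ)) - 1)) := by
    rw [mul_sub, mul_one, neg_sub]
    congr 1
    simp only [nit]
    rw [← Complex.exp_add]
    congr 1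
    push_cast
    ring
  rw [h1, norm_neg, norm_mul, norm_nit, one_mul]
  refine Real.norm_exp_I_mul_ofReal_sub_one_le.trans ?_
  rw [Real.norm_eq_abs, abs_mul]
  refine mul_le_mul_of_nonneg_left ?_ (abs_nonneg u)
  have h2 : Real.log m ≤ Real.log (m + 1 : ℕ) := Real.log_le_log hm' (by push_cast; linarith)
  rw [abs_of_nonneg (by linarith), ← Real.log_div (by positivity) hm'.ne']
  refine (Real.log_le_sub_one_of_pos (by positivity)).trans (le_of_eq ?_)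
  push_cast
  field_simp
  ring

/-- Abel summation, `‖nit (m+1) u - nit m u‖ ≤ |u| / m`. -/
lemma DP_low {b : ℕ → ℝ} {B : ℝ} (hB : ∀ z, |∑ m ∈ Icc 1 z, b m| ≤ B) (N : ℕ) (u : ℝ) :
    ‖DP (Icc 1 N) (fun m => (b m : ℂ)) u‖ ≤ B * (1 + |u| * (1 + Real.log N)) := by
  have hB0 : 0 ≤ B := (abs_nonneg _).trans (hB 0)
  have hS : ∀ z, ‖((∑ m ∈ Icc 1 z, b m : ℝ) : ℂ)‖ ≤ B := fun z => by
    rw [Complex.norm_real, Real.norm_eq_abs]; exact hB z
  have key : ∀ M : ℕ, ‖DP (Icc 1 M) (fun m => (b m : ℂ)) u -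
      ((∑ m ∈ Icc 1 M, b m : ℝ) : ℂ) * nit (M + 1) u‖ ≤
        B * |u| * ∑ i ∈ range M, (((i + 1 : ℕ) : ℝ))⁻¹ := by
    intro M
    induction M with
    | zero => simp [DP]
    | succ M ih =>
      have e : DP (Icc 1 (M + 1)) (fun m => (b m : ℂ)) u -
          ((∑ m ∈ Icc 1 (M + 1), b m : ℝ) : ℂ) * nit (M + 1 + 1) u =
          (DP (Icc 1 M) (fun m => (b m : ℂ)) u -
            ((∑ m ∈ Icc 1 M, b m : ℝ) : ℂ) * nit (M + 1) u) +
          ((∑ m ∈ Icc 1 (M + 1), b m : ℝ) : ℂ) * (nit (M + 1) u - nit (M + 1 + 1) u) := by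
        simp only [DP]
        rw [sum_Icc_succ_top (by omega : 1 ≤ M + 1), sum_Icc_succ_top (by omega : 1 ≤ M + 1),
          Complex.ofReal_add]
        ring
      rw [e, sum_range_succ, mul_add]
      refine (norm_add_le _ _).trans (add_le_add ih ?_)
      rw [norm_mul, mul_assoc]
      exact mul_le_mul (hS _) (Avg_nit_diff (by omega) u) (norm_nonneg _) hB0
  have hh : ∑ i ∈ range N, (((i + 1 : ℕ) : ℝ))⁻¹ ≤ 1 + Real.log N := by
    have h := harmonic_le_one_add_log N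
    rw [harmonic] at h
    push_cast at h ⊢
    exact h
  have h1 := key N
  have h2 : ‖((∑ m ∈ Icc 1 N, b m : ℝ) : ℂ) * nit (N + 1) u‖ ≤ B := by
    rw [norm_mul, norm_nit, mul_one]; exact hS N
  have h3 := norm_add_le (DP (Icc 1 N) (fun m => (b m : ℂ)) u -
      ((∑ m ∈ Icc 1 N, b m : ℝ) : ℂ) * nit (N + 1) u)
      (((∑ m ∈ Icc 1 N, b m : ℝ) : ℂ) * nit (N + 1) u)
  rw [sub_add_cancel] at h3
  have h4 := mul_le_mul_of_nonneg_left hh (mul_nonneg hB0 (abs_nonneg u))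
  nlinarith

/-- `lb_periodic` with `q = 1`. -/
lemma DP_mid (E : ℕ) : ∃ c : ℝ, 0 < c ∧ ∃ C : ℝ, 0 ≤ C ∧ ∀ K1 K2 : ℕ, 1 ≤ K1 → K1 ≤ K2 →
    K2 ≤ 2 * K1 → ∀ u : ℝ, u ≠ 0 → |u| ≤ (K1 : ℝ) ^ E →
      ‖DP (Ioc K1 K2) (fun _ => 1) u‖ ≤ 6 * K1 / |u| + C * K1 * (K1 : ℝ) ^ (-c) := by
  obtain ⟨c, hc, C, hC, h⟩ := lb_periodic (q := 1) (fun _ => 1) (fun _ => by simp) E
  refine ⟨c, hc, 3 * C, by positivity, fun K1 K2 h1 h12 h21 u hu hE => ?_⟩
  have k1 : (1 : ℝ) ≤ K1 := by exact_mod_cast h1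
  have k12 : (K1 : ℝ) ≤ K2 := by exact_mod_cast h12
  have k21 : (K2 : ℝ) ≤ 2 * K1 := by exact_mod_cast h21
  have a1 := h K1 h1 u hu hE
  have a2 := h K2 (h1.trans h12) u hu (hE.trans (pow_le_pow_left₀ (by linarith) k12 E))
  have e : DP (Ioc K1 K2) (fun _ => 1) u =
      ∑ n ∈ Icc 1 K2, 1 * nit n u - ∑ n ∈ Icc 1 K1, 1 * nit n u := by
    have hd : Icc 1 K2 = Icc 1 K1 ∪ Ioc K1 K2 := by
      ext n; simp only [mem_Icc, mem_union, mem_Ioc]; omega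
    rw [hd, sum_union, DP]
    · ring
    · rw [disjoint_left]; intro n p q
      simp only [mem_Icc, mem_Ioc] at p q; omega
  have r1 : (K1 : ℝ) ^ (1 - c) = K1 * (K1 : ℝ) ^ (-c) := by
    rw [sub_eq_add_neg, Real.rpow_add (by linarith), Real.rpow_one]
  have r2 : (K2 : ℝ) ^ (1 - c) ≤ 2 * K1 * (K1 : ℝ) ^ (-c) := by
    rw [sub_eq_add_neg, Real.rpow_add (by linarith), Real.rpow_one]
    exact mul_le_mul k21 (Real.rpow_le_rpow_of_nonpos (by linarith) k12 (by linarith))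
      (Real.rpow_nonneg (by linarith) _) (by linarith)
  have hu' : 0 < |u| := abs_pos.2 hu
  rw [e]
  refine (norm_sub_le _ _).trans ((add_le_add a2 a1).trans ?_)
  rw [r1]
  have r3 := mul_le_mul_of_nonneg_left r2 hC
  have r4 : 2 * ((1 : ℕ) : ℝ) / |u| * K2 ≤ 2 * ((1 : ℕ) : ℝ) / |u| * (2 * K1) :=
    mul_le_mul_of_nonneg_left k21 (by positivity)
  have r5 : 6 * (K1 : ℝ) / |u| =
      2 * ((1 : ℕ) : ℝ) / |u| * (2 * K1) + 2 * ((1 : ℕ) : ℝ) / |u| * K1 := by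
    push_cast; ring
  rw [r5]
  nlinarith

/-- The collected coefficients. -/
noncomputable def Avg_a (K1 K2 N : ℕ) (b : ℕ → ℝ) (n : ℕ) : ℂ :=
  ∑ K ∈ Ioc K1 K2, ∑ m ∈ (Icc 1 N).filter (fun m => K * m = n), (b m : ℂ)

lemma Avg_sum (K1 K2 N : ℕ) (b : ℕ → ℝ) (S : Finset ℕ) (φ : ℕ → ℂ) :
    ∑ i ∈ S, Avg_a K1 K2 N b i * φ i =
      ∑ K ∈ Ioc K1 K2, ∑ m ∈ (Icc 1 N).filter (fun m => K * m ∈ S), (b m : ℂ) * φ (K * m) := by
  simp only [Avg_a, sum_mul]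
  rw [sum_comm]
  refine sum_congr rfl fun K _ => ?_
  rw [← sum_fiberwise_eq_sum_filter (Icc 1 N) S (fun m => K * m)]
  refine sum_congr rfl fun i _ => sum_congr rfl fun m hm => ?_
  rw [(mem_filter.1 hm).2]

lemma Avg_short (K1 K2 N : ℕ) (b : ℕ → ℝ) (n H : ℕ) :
    ‖∑ j ∈ range H, Avg_a K1 K2 N b (n + 1 + j)‖ ^ 2 = (∑ K ∈ Ioc K1 K2,
      ∑ m ∈ (Icc 1 N).filter (fun m => n < K * m ∧ K * m ≤ n + H), b m) ^ 2 := by
  have h1 : ∑ j ∈ range H, Avg_a K1 K2 N b (n + 1 + j) =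
      ∑ i ∈ Ico (n + 1) (n + 1 + H), Avg_a K1 K2 N b i * 1 := by
    rw [sum_Ico_eq_sum_range, Nat.add_sub_cancel_left]
    simp
  have h2 : ∑ K ∈ Ioc K1 K2, ∑ m ∈ (Icc 1 N).filter (fun m => K * m ∈ Ico (n + 1) (n + 1 + H)),
      (b m : ℂ) * 1 = ((∑ K ∈ Ioc K1 K2,
      ∑ m ∈ (Icc 1 N).filter (fun m => n < K * m ∧ K * m ≤ n + H), b m : ℝ) : ℂ) := by
    push_cast
    refine sum_congr rfl fun K _ => sum_congr ?_ fun m _ => mul_one _
    refine filter_congr fun m _ => ?_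
    rw [mem_Ico]; omega
  rw [h1, Avg_sum K1 K2 N b _ (fun _ => 1), h2, Complex.norm_real, Real.norm_eq_abs, sq_abs]

lemma Avg_DP (K1 K2 N : ℕ) (b : ℕ → ℝ) {Z : ℕ} (hZ : K2 * N ≤ Z) :
    DP (Icc 1 Z) (Avg_a K1 K2 N b) =
      fun u => DP (Ioc K1 K2) (fun _ => 1) u * DP (Icc 1 N) (fun m => (b m : ℂ)) u := by
  funext u
  rw [DP, Avg_sum K1 K2 N b _ (fun i => nit i u), DP, DP, sum_mul_sum]
  refine sum_congr rfl fun K hK => ?_
  obtain ⟨k1, k2⟩ := mem_Ioc.1 hK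
  rw [filter_true_of_mem]
  · refine sum_congr rfl fun m hm => ?_
    have := (mem_Icc.1 hm).1
    rw [nit_mul (by omega) (by omega)]
    ring
  · intro m hm
    obtain ⟨m1, m2⟩ := mem_Icc.1 hm
    exact mem_Icc.2 ⟨Nat.mul_pos (by omega) m1, (Nat.mul_le_mul k2 m2).trans hZ⟩

lemma Avg_one {T : ℝ} (hT : 0 < T) (j : ℕ) :
    ∑ i ∈ Icc 1 j, ((i : ℝ) / j) ^ T ≤ 1 + j / T := by
  have h := norm_smo_le (a := fun _ => 1) (fun _ => by simp) hT j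
  have e : smo (fun _ => 1) T j = ((∑ i ∈ Icc 1 j, ((i : ℝ) / j) ^ T : ℝ) : ℂ) := by
    rw [smo, Complex.ofReal_sum]
    exact sum_congr rfl fun i _ => one_mul _
  rw [e, Complex.norm_real, Real.norm_eq_abs] at h
  exact (le_abs_self _).trans h

lemma Avg_smo {K1 K2 N : ℕ} (h1 : 1 ≤ K1) (h21 : K2 ≤ 2 * K1) (hN : 1 ≤ N) {b : ℕ → ℝ}
    (hb : ∀ m, |b m| ≤ 1) {j : ℕ} (hj : j ≤ 3 * (K1 * N)) :
    ‖smo (Avg_a K1 K2 N b) N j‖ ≤ 4 * K1 := by
  have hN' : (0 : ℝ) < N := by exact_mod_cast hN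
  rw [smo, Avg_sum K1 K2 N b _ (fun i => ((((i : ℝ) / j) ^ (N : ℝ) : ℝ) : ℂ))]
  have key : ∀ K ∈ Ioc K1 K2, ‖∑ m ∈ (Icc 1 N).filter (fun m => K * m ∈ Icc 1 j),
      (b m : ℂ) * (((((K * m : ℕ) : ℝ) / j) ^ (N : ℝ) : ℝ) : ℂ)‖ ≤ 4 := by
    intro K hK
    obtain ⟨k1, k2⟩ := mem_Ioc.1 hK
    have hK0 : 0 < K := by omega
    have hq : j / K ≤ 3 * N := by
      refine Nat.div_le_of_le_mul (hj.trans ?_)
      calc 3 * (K1 * N) = K1 * (3 * N) := by ring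
        _ ≤ K * (3 * N) := Nat.mul_le_mul_right _ k1.le
    have hq' : ((j / K : ℕ) : ℝ) ≤ 3 * N := by exact_mod_cast hq
    calc _ ≤ ∑ m ∈ (Icc 1 N).filter (fun m => K * m ∈ Icc 1 j),
          ((m : ℝ) / (j / K : ℕ)) ^ (N : ℝ) := by
          refine (norm_sum_le _ _).trans (sum_le_sum fun m hm => ?_)
          obtain ⟨m1, m2⟩ := mem_filter.1 hm
          obtain ⟨m3, m4⟩ := mem_Icc.1 m2
          have m5 : m ≤ j / K := (Nat.le_div_iff_mul_le hK0).2 (by rwa [mul_comm])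
          have m6 : (0 : ℝ) < (j / K : ℕ) := by
            exact_mod_cast (mem_Icc.1 m1).1.trans m5
          have m7 : (0 : ℝ) < j := by exact_mod_cast m3.trans m4
          have m8 : (K : ℝ) * (j / K : ℕ) ≤ j := by exact_mod_cast Nat.mul_div_le j K
          rw [norm_mul, Complex.norm_real, Complex.norm_real, Real.norm_eq_abs,
            Real.norm_of_nonneg (by positivity)]
          refine (mul_le_of_le_one_left (by positivity) (hb m)).trans ?_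
          refine Real.rpow_le_rpow (by positivity) ?_ hN'.le
          rw [div_le_div_iff₀ m7 m6]
          push_cast
          have m9 : (0 : ℝ) ≤ m := Nat.cast_nonneg m
          nlinarith
      _ ≤ ∑ m ∈ Icc 1 (j / K), ((m : ℝ) / (j / K : ℕ)) ^ (N : ℝ) := by
          refine sum_le_sum_of_subset_of_nonneg (fun m hm => ?_) fun m _ _ => by positivity
          obtain ⟨m1, m2⟩ := mem_filter.1 hm
          exact mem_Icc.2 ⟨(mem_Icc.1 m1).1,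
            (Nat.le_div_iff_mul_le hK0).2 (by rw [mul_comm]; exact (mem_Icc.1 m2).2)⟩
      _ ≤ 1 + ((j / K : ℕ) : ℝ) / N := Avg_one hN' _
      _ ≤ 4 := by
          have : ((j / K : ℕ) : ℝ) / N ≤ 3 := by rwa [div_le_iff₀ hN']
          linarith
  refine (norm_sum_le _ _).trans ((sum_le_sum key).trans ?_)
  rw [sum_const, nsmul_eq_mul, Nat.card_Ioc]
  have : ((K2 - K1 : ℕ) : ℝ) ≤ K1 := by exact_mod_cast (by omega : K2 - K1 ≤ K1)
  linarith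

lemma Avg_low (T : ℝ) {T0 : ℝ} (h : 0 ≤ T0) : (cm T).real {u | |u| ≤ T0} ≤ 2 * T0 := by
  have e : {u : ℝ | |u| ≤ T0} = Set.Icc (-T0) T0 := by
    ext u; simp [abs_le]
  rw [e]
  have h1 : cm T (Set.Icc (-T0) T0) ≤ ENNReal.ofReal (2 * T0) := by
    refine (cm_le_volume T _).trans (le_of_eq ?_)
    rw [Real.volume_Icc]; congr 1; ring
  exact ENNReal.toReal_le_of_le_ofReal (by linarith) h1

lemma Avg_MS {E : ℕ} {c C : ℝ} (hc : 0 < c) (hC : 0 ≤ C) {K1 K2 N : ℕ} (h1 : 1 ≤ K1)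
    (h21 : K2 ≤ 2 * K1) (hN : 1 ≤ N)
    (hD : ∀ u : ℝ, u ≠ 0 → |u| ≤ (K1 : ℝ) ^ E →
      ‖DP (Ioc K1 K2) (fun _ => 1) u‖ ≤ 6 * K1 / |u| + C * K1 * (K1 : ℝ) ^ (-c))
    {b : ℕ → ℝ} {B T0 : ℝ} (hb : ∀ m, |b m| ≤ 1) (hB : ∀ z, |∑ m ∈ Icc 1 z, b m| ≤ B)
    (hT : 1 ≤ T0) :
    MS N Set.univ (fun u => DP (Ioc K1 K2) (fun _ => 1) u * DP (Icc 1 N) (fun m => (b m : ℂ)) u)
      ≤ Real.pi * (216 + 6 * C ^ 2) *
        ((K1 : ℝ) ^ 2 * (N : ℝ) ^ 2 * (1 / T0 ^ 2 + (K1 : ℝ) ^ (-c)) +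
          (K1 : ℝ) ^ 2 * B ^ 2 * T0 ^ 3 * (2 + Real.log N) ^ 2 +
          (K1 : ℝ) ^ 2 * (N : ℝ) ^ 4 / (K1 : ℝ) ^ E) := by
  have hπ := Real.pi_gt_three
  have k1 : (1 : ℝ) ≤ K1 := by exact_mod_cast h1
  have n1 : (1 : ℝ) ≤ N := by exact_mod_cast hN
  have hB0 : 0 ≤ B := (abs_nonneg _).trans (hB 0)
  have hl : 0 ≤ Real.log N := Real.log_nonneg n1
  set D := DP (Ioc K1 K2) (fun _ => (1 : ℂ)) with hDd
  set G := DP (Icc 1 N) (fun m => (b m : ℂ)) with hG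
  have tG : Trig G := Trig.DP _ _
  have tF : Trig fun u => D u * G u := (Trig.DP _ _).mul tG
  have hb' : ∀ m, ‖(b m : ℂ)‖ ≤ 1 := fun m => by
    rw [Complex.norm_real, Real.norm_eq_abs]; exact hb m
  have bD : ∀ u, ‖D u‖ ≤ K1 := fun u => by
    refine (norm_DP_le_card _ (fun _ => by simp) u).trans ?_
    rw [Nat.card_Ioc]
    exact_mod_cast (by omega : K2 - K1 ≤ K1)
  have bG : ∀ u, ‖G u‖ ≤ N := fun u => by
    refine (norm_DP_le_card _ hb' u).trans ?_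
    simp
  have habs : Measurable fun u : ℝ => |u| := continuous_abs.measurable
  have m1 : MeasurableSet {u : ℝ | |u| ≤ T0} := measurableSet_le habs measurable_const
  have m2 : MeasurableSet {u : ℝ | T0 < |u| ∧ |u| ≤ (K1 : ℝ) ^ E} :=
    (measurableSet_lt measurable_const habs).inter (measurableSet_le habs measurable_const)
  have m3 : MeasurableSet {u : ℝ | (K1 : ℝ) ^ E < |u|} := measurableSet_lt measurable_const habs
  have cov : (Set.univ : Set ℝ) ⊆ ({u : ℝ | |u| ≤ T0} ∪ {u : ℝ | T0 < |u| ∧ |u| ≤ (K1 : ℝ) ^ E})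
      ∪ {u : ℝ | (K1 : ℝ) ^ E < |u|} := by
    intro u _
    simp only [Set.mem_union, Set.mem_ofPred_eq]
    rcases le_or_gt |u| T0 with p | p
    · exact Or.inl (Or.inl p)
    · rcases le_or_gt |u| ((K1 : ℝ) ^ E) with q | q
      · exact Or.inl (Or.inr ⟨p, q⟩)
      · exact Or.inr q
  have s1 : MS N {u : ℝ | |u| ≤ T0} (fun u => D u * G u) ≤
      2 * ((K1 : ℝ) ^ 2 * B ^ 2 * T0 ^ 3 * (2 + Real.log N) ^ 2) := by
    have h := MS_le_const tF N m1 (c := K1 * (B * (T0 * (2 + Real.log N)))) fun u hu => by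
      rw [norm_mul]
      refine mul_le_mul (bD u) ((DP_low hB N u).trans ?_) (norm_nonneg _) (by linarith)
      refine mul_le_mul_of_nonneg_left ?_ hB0
      have hu' : |u| ≤ T0 := hu
      have := mul_le_mul_of_nonneg_right hu' (by linarith : 0 ≤ 1 + Real.log N)
      linarith
    refine h.trans ((mul_le_mul_of_nonneg_left (Avg_low N (by linarith)) (sq_nonneg _)).trans
      (le_of_eq (by ring)))
  have s3 : MS N {u : ℝ | (K1 : ℝ) ^ E < |u|} (fun u => D u * G u) ≤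
      2 * ((K1 : ℝ) ^ 2 * (N : ℝ) ^ 4 / (K1 : ℝ) ^ E) := by
    have h := MS_le_const tF N m3 (c := K1 * N) fun u _ => by
      rw [norm_mul]
      exact mul_le_mul (bD u) (bG u) (norm_nonneg _) (by linarith)
    refine h.trans ((mul_le_mul_of_nonneg_left (cm_tail N (by positivity)) (sq_nonneg _)).trans
      (le_of_eq (by ring)))
  have r0 : 0 ≤ (K1 : ℝ) ^ (-c) := Real.rpow_nonneg (by linarith) _
  have r1 : (K1 : ℝ) ^ (-c) ≤ 1 := Real.rpow_le_one_of_one_le_of_nonpos k1 (by linarith)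
  have s2 : MS N {u : ℝ | T0 < |u| ∧ |u| ≤ (K1 : ℝ) ^ E} (fun u => D u * G u) ≤
      Real.pi * (216 + 6 * C ^ 2) *
        ((K1 : ℝ) ^ 2 * (N : ℝ) ^ 2 * (1 / T0 ^ 2 + (K1 : ℝ) ^ (-c))) := by
    have h := MS_le_of_le tF tG N m2 (c := K1 * (6 * (1 / T0) + C * (K1 : ℝ) ^ (-c)))
      fun u hu => by
        obtain ⟨p, q⟩ := hu
        rw [norm_mul]
        refine mul_le_mul_of_nonneg_right ((hD u (fun h0 => ?_) q).trans ?_) (norm_nonneg _)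
        · rw [h0, abs_zero] at p; linarith
        · have : 6 * (K1 : ℝ) / |u| ≤ 6 * K1 / T0 := by gcongr
          refine (add_le_add this le_rfl).trans (le_of_eq (by ring))
    have g1 : MS N Set.univ G ≤ Real.pi * (3 * (N : ℝ) ^ 2) := by
      refine (mean_value (Subset.refl _) _ (by linarith)).trans ?_
      have g2 : ∑ n ∈ Icc 1 N, ‖(b n : ℂ)‖ ^ 2 ≤ N := by
        refine (sum_le_card_nsmul _ _ 1 fun n _ => pow_le_one₀ (norm_nonneg _) (hb' n)).trans ?_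
        simp
      refine (mul_le_mul_of_nonneg_left g2 (by positivity)).trans (le_of_eq (by ring))
    have g3 : (6 * (1 / T0) + C * (K1 : ℝ) ^ (-c)) ^ 2 ≤
        (72 + 2 * C ^ 2) * (1 / T0 ^ 2 + (K1 : ℝ) ^ (-c)) := by
      have e : 1 / T0 ^ 2 = (1 / T0) ^ 2 := by ring
      rw [e]
      set x := 1 / T0
      set y := (K1 : ℝ) ^ (-c)
      have g4 : C ^ 2 * y ^ 2 ≤ C ^ 2 * y :=
        mul_le_mul_of_nonneg_left (by nlinarith) (sq_nonneg C)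
      nlinarith [sq_nonneg (6 * x - C * y), mul_nonneg (sq_nonneg C) (sq_nonneg x)]
    refine h.trans ?_
    calc _ ≤ ((K1 : ℝ) ^ 2 * ((72 + 2 * C ^ 2) * (1 / T0 ^ 2 + (K1 : ℝ) ^ (-c)))) *
          (Real.pi * (3 * (N : ℝ) ^ 2)) := by
          rw [mul_pow]
          exact mul_le_mul (mul_le_mul_of_nonneg_left g3 (sq_nonneg _))
            ((MS_mono tG N (Set.subset_univ _)).trans g1) (MS_nonneg _ _ _) (by positivity)
      _ = _ := by ring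
  have t := (MS_mono tF N cov).trans ((MS_union_le tF N _ _).trans
    (add_le_add (MS_union_le tF N _ _) le_rfl))
  have p2 : 2 ≤ Real.pi * (216 + 6 * C ^ 2) := by nlinarith [sq_nonneg C]
  have q1 := mul_le_mul_of_nonneg_right p2
    (by positivity : 0 ≤ (K1 : ℝ) ^ 2 * B ^ 2 * T0 ^ 3 * (2 + Real.log N) ^ 2)
  have q3 := mul_le_mul_of_nonneg_right p2
    (by positivity : 0 ≤ (K1 : ℝ) ^ 2 * (N : ℝ) ^ 4 / (K1 : ℝ) ^ E)
  rw [mul_add, mul_add]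
  linarith

/-- (B4) of the paper. Put `a n = ∑ K ∈ Ioc K1 K2, ∑ m ∈ Icc 1 N with K m = n, b m`, `T = N`,
`X' = K2 N`. Then `DP (Icc 1 (X' + H)) a = DP (Ioc K1 K2) 1 * DP (Icc 1 N) b`, the smoothed sums
are at most `4 K1` (`norm_smo_le` for each `K`), and the mean square splits into `|u| ≤ T0`
(`DP_low`, `cm_le_volume`), `T0 < |u| ≤ K1 ^ E` (`DP_mid`, `mean_value`), `|u| > K1 ^ E`
(`cm_tail`). -/
theorem avg (E : ℕ) : ∃ c : ℝ, 0 < c ∧ ∃ C : ℝ, 0 ≤ C ∧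
    ∀ (K1 K2 N x₀ X H : ℕ) (b : ℕ → ℝ) (B T0 : ℝ), 1 ≤ K1 → K1 ≤ K2 → K2 ≤ 2 * K1 → 1 ≤ x₀ →
      1 ≤ N → X + H ≤ K1 * N → (∀ m, |b m| ≤ 1) → (∀ z, |∑ m ∈ Icc 1 z, b m| ≤ B) → 1 ≤ T0 →
      ∑ n ∈ Icc x₀ X, (∑ K ∈ Ioc K1 K2,
          ∑ m ∈ (Icc 1 N).filter (fun m => n < K * m ∧ K * m ≤ n + H), b m) ^ 2 ≤
        C * (H : ℝ) ^ 2 / x₀ * ((K1 : ℝ) ^ 2 * (N : ℝ) ^ 2 * (1 / T0 ^ 2 + (K1 : ℝ) ^ (-c)) +
          (K1 : ℝ) ^ 2 * B ^ 2 * T0 ^ 3 * (2 + Real.log N) ^ 2 +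
          (K1 : ℝ) ^ 2 * (N : ℝ) ^ 4 / (K1 : ℝ) ^ E) + C * (K1 : ℝ) ^ 3 * N := by
  obtain ⟨c, hc, C, hC, h⟩ := DP_mid E
  refine ⟨c, hc, 432 + 12 * C ^ 2, by positivity, ?_⟩
  intro K1 K2 N x₀ X H b B T0 h1 h12 h21 hx hN hX hb hB hT
  have hπ := Real.pi_pos
  have n1 : (0 : ℝ) < N := by exact_mod_cast hN
  have x1 : (0 : ℝ) < x₀ := by exact_mod_cast hx
  have a1 : K1 * N ≤ K2 * N := Nat.mul_le_mul_right _ h12
  have a2 : K2 * N ≤ 2 * (K1 * N) := by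
    rw [← mul_assoc]; exact Nat.mul_le_mul_right _ h21
  have s := short_le_MS' (a := Avg_a K1 K2 N b) (B := 4 * K1) n1 hx (K2 * N) H
    fun j hj => Avg_smo h1 h21 hN hb (by omega)
  rw [Avg_DP K1 K2 N b (Nat.le_add_right _ _)] at s
  simp only [Avg_short] at s
  have m := Avg_MS hc hC h1 h21 hN (h K1 K2 h1 h12 h21) hb hB hT
  refine (sum_le_sum_of_subset_of_nonneg (Icc_subset_Icc_right (by omega : X ≤ K2 * N))
    fun _ _ _ => sq_nonneg _).trans (s.trans (add_le_add ?_ ?_))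
  · refine (mul_le_mul_of_nonneg_left m (by positivity)).trans (le_of_eq ?_)
    field_simp
    ring
  · have a3 : ((K2 * N : ℕ) : ℝ) ≤ 2 * (K1 * N) := by exact_mod_cast a2
    have a4 : (0 : ℝ) ≤ (K1 : ℝ) ^ 3 * N := by positivity
    calc _ ≤ 8 * (2 * ((K1 : ℝ) * N)) * (4 * K1) ^ 2 := by gcongr
      _ = 256 * ((K1 : ℝ) ^ 3 * N) := by ring
      _ ≤ _ := by
          rw [mul_assoc]
          exact mul_le_mul_of_nonneg_right (by nlinarith [sq_nonneg C]) a4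

end Pool.Agent.Work.MP_9a1701_nt.P
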