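import Pool.Agent.Work.MP_9a1701_nt.P.Ex1
import Pool.Agent.Work.MP_9a1701_nt.P.Setup

-- merged part: Pool.Agent.Work.MP_9a1701_nt.P.Ex3
section
/-!
# Poisson approximation over independent cells
-/

set_option autoImplicit false
open Finset Filter

namespace Pool.Agent.Work.MP_9a1701_nt.P

variable {ρ : ℕ → ℝ} {U : Finset ℕ}

lemma poi_nonneg (k : ℕ) {a : ℝ} (ha : 0 ≤ a) : 0 ≤ poi k a := by
  unfold poi
  positivity

/-- `Real.pow_div_factorial_le_exp`. -/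
lemma poi_le_one (k : ℕ) {a : ℝ} (ha : 0 ≤ a) : poi k a ≤ 1 := by
  unfold poi
  have h := Real.pow_div_factorial_le_exp a ha k
  have h1 : Real.exp (-a) * Real.exp a = 1 := by rw [← Real.exp_add]; simp
  rw [mul_div_assoc, ← h1]
  exact mul_le_mul_of_nonneg_left h (Real.exp_pos _).le

lemma Ex3_deriv_zero (x : ℝ) : HasDerivAt (poi 0) (-poi 0 x) x := by
  have h : poi 0 = fun x => Real.exp (-x) := by
    funext y
    simp [poi]
  rw [h]
  simpa using (hasDerivAt_neg x).exp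

lemma Ex3_deriv_succ (k : ℕ) (x : ℝ) :
    HasDerivAt (poi (k + 1)) (poi k x - poi (k + 1) x) x := by
  have h1 : HasDerivAt (fun y : ℝ => Real.exp (-y)) (Real.exp (-x) * (-1)) x :=
    (hasDerivAt_neg x).exp
  have h2 := (h1.mul (hasDerivAt_pow (k + 1) x)).div_const ((k + 1).factorial : ℝ)
  have h3 : poi k x - poi (k + 1) x =
      (Real.exp (-x) * (-1) * x ^ (k + 1) +
        Real.exp (-x) * (((k + 1 : ℕ) : ℝ) * x ^ (k + 1 - 1))) / ((k + 1).factorial : ℝ) := by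
    unfold poi
    have hk : (k.factorial : ℝ) ≠ 0 := by positivity
    have hk1 : ((k : ℝ) + 1) ≠ 0 := by positivity
    rw [Nat.factorial_succ, Nat.add_sub_cancel]
    push_cast
    field_simp
    ring
  rw [h3]
  exact h2

lemma Ex3_mvt {f f' : ℝ → ℝ} (hf : ∀ x, HasDerivAt f (f' x) x) {s : Set ℝ} (hs : Convex ℝ s)
    {C : ℝ} (hC : ∀ x ∈ s, |f' x| ≤ C) {a b : ℝ} (ha : a ∈ s) (hb : b ∈ s) :
    |f a - f b| ≤ C * |a - b| :=
  hs.norm_image_sub_le_of_norm_hasDerivWithin_le (f := f) (f' := f')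
    (fun x _ => (hf x).hasDerivWithinAt) hC hb ha

lemma Ex3_taylor {f f' : ℝ → ℝ} (hf : ∀ x, HasDerivAt f (f' x) x) {a p : ℝ} (hp : 0 ≤ p)
    (h : ∀ x, a ≤ x → |f' x - f' a| ≤ 2 * |x - a|) :
    |f (a + p) - f a - p * f' a| ≤ 2 * p ^ 2 := by
  have hg : ∀ x, HasDerivAt (fun y => f y - y * f' a) (f' x - f' a) x := fun x => by
    have h0 := (hf x).sub ((hasDerivAt_id x).mul_const (f' a))
    rw [one_mul] at h0
    exact h0
  have h1 := Ex3_mvt hg (convex_Icc a (a + p)) (C := 2 * p)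
    (fun x hx => (h x hx.1).trans (by
      rw [abs_of_nonneg (by linarith [hx.1])]
      linarith [hx.2]))
    (a := a + p) (b := a) ⟨by linarith, le_rfl⟩ ⟨le_rfl, by linarith⟩
  have e1 : f (a + p) - (a + p) * f' a - (f a - a * f' a) = f (a + p) - f a - p * f' a := by ring
  have e2 : |a + p - a| = p := by rw [add_sub_cancel_left, abs_of_nonneg hp]
  rw [e1, e2] at h1
  calc _ ≤ 2 * p * p := h1
    _ = 2 * p ^ 2 := by ring

/-- The derivative of `poi 0` is `- poi 0`, that of `poi (k+1)` is `poi k - poi (k+1)`. -/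
lemma poi_lip (k : ℕ) {a b : ℝ} (ha : 0 ≤ a) (hb : 0 ≤ b) : |poi k a - poi k b| ≤ |a - b| := by
  rcases k with _ | k
  · have h := Ex3_mvt Ex3_deriv_zero (convex_Ici (0 : ℝ)) (C := 1)
      (fun x hx => by
        rw [abs_neg, abs_of_nonneg (poi_nonneg 0 hx)]
        exact poi_le_one 0 hx) ha hb
    rwa [one_mul] at h
  · have h := Ex3_mvt (Ex3_deriv_succ k) (convex_Ici (0 : ℝ)) (C := 1)
      (fun x hx => by
        have h1 := poi_nonneg k hx
        have h2 := poi_le_one k hx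
        have h3 := poi_nonneg (k + 1) hx
        have h4 := poi_le_one (k + 1) hx
        rw [abs_le]
        constructor <;> linarith) ha hb
    rwa [one_mul] at h

lemma poi_step_zero {a p : ℝ} (ha : 0 ≤ a) (hp : 0 ≤ p) :
    |poi 0 (a + p) - (1 - p) * poi 0 a| ≤ 2 * p ^ 2 := by
  have h := Ex3_taylor Ex3_deriv_zero (a := a) hp (fun x hx => by
    have h1 := poi_lip 0 (ha.trans hx) ha
    have e : -poi 0 x - -poi 0 a = -(poi 0 x - poi 0 a) := by ring
    rw [e, abs_neg]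
    linarith [abs_nonneg (x - a)])
  have e : poi 0 (a + p) - (1 - p) * poi 0 a = poi 0 (a + p) - poi 0 a - p * -poi 0 a := by ring
  rw [e]
  exact h

/-- Mean value theorem plus `poi_lip`. -/
lemma poi_step (k : ℕ) {a p : ℝ} (ha : 0 ≤ a) (hp : 0 ≤ p) :
    |poi (k + 1) (a + p) - ((1 - p) * poi (k + 1) a + p * poi k a)| ≤ 2 * p ^ 2 := by
  have h := Ex3_taylor (Ex3_deriv_succ k) (a := a) hp (fun x hx => by
    have h1 := abs_le.1 (poi_lip k (ha.trans hx) ha)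
    have h2 := abs_le.1 (poi_lip (k + 1) (ha.trans hx) ha)
    rw [abs_le]
    constructor <;> linarith [h1.1, h1.2, h2.1, h2.2])
  have e : poi (k + 1) (a + p) - ((1 - p) * poi (k + 1) a + p * poi k a) =
      poi (k + 1) (a + p) - poi (k + 1) a - p * (poi k a - poi (k + 1) a) := by ring
  rw [e]
  exact h

lemma Ex3_indep {V : Finset ℕ} {F G : Finset ℕ → ℝ} (hV : V ⊆ U) (hG : ∀ Q, G Q = G (Q ∩ V))
    (hF : ∀ Q, F Q = F (Q \ V)) :
    Ex ρ U (fun Q => G Q * F Q) = Ex ρ U G * Ex ρ U F := by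
  have hd : Disjoint V (U \ V) := disjoint_sdiff
  have hu : V ∪ U \ V = U := union_sdiff_of_subset hV
  have e1 : ∀ Q Q' : Finset ℕ, Q ⊆ V → Q' ⊆ U \ V → G (Q ∪ Q') = G Q := by
    intro Q Q' hQ hQ'
    rw [hG (Q ∪ Q')]
    congr 1
    ext t
    simp only [mem_inter, mem_union]
    constructor
    · rintro ⟨h | h, h2⟩
      · exact h
      · exact absurd h2 (mem_sdiff.1 (hQ' h)).2
    · exact fun h => ⟨Or.inl h, hQ h⟩
  have e2 : ∀ Q Q' : Finset ℕ, Q ⊆ V → Q' ⊆ U \ V → F (Q ∪ Q') = F Q' := by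
    intro Q Q' hQ hQ'
    rw [hF (Q ∪ Q')]
    congr 1
    ext t
    simp only [Finset.mem_sdiff, mem_union]
    constructor
    · rintro ⟨h | h, h2⟩
      · exact absurd (hQ h) h2
      · exact h
    · exact fun h => ⟨Or.inr h, (mem_sdiff.1 (hQ' h)).2⟩
  have h1 : Ex ρ U F = Ex ρ (U \ V) F := by
    have h := Ex_union (ρ := ρ) hd F
    rw [hu] at h
    rw [h, ← Ex_const (ρ := ρ) (U := V) (Ex ρ (U \ V) F)]
    exact Ex_congr fun Q hQ => Ex_congr fun Q' hQ' => e2 Q Q' hQ hQ'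
  have h := Ex_union (ρ := ρ) hd (fun Q => G Q * F Q)
  rw [hu] at h
  rw [h, h1, Ex_local hV hG, ← Ex_mul_const]
  refine Ex_congr fun Q hQ => ?_
  rw [← Ex_const_mul]
  exact Ex_congr fun Q' hQ' => by rw [e1 Q Q' hQ hQ', e2 Q Q' hQ hQ']

lemma Ex3_mix {V : Finset ℕ} {F G H : Finset ℕ → ℝ} (hV : V ⊆ U) (hG : ∀ Q, G Q = G (Q ∩ V))
    (hF : ∀ Q, F Q = F (Q \ V)) (hH : ∀ Q, H Q = H (Q \ V)) :
    Ex ρ U (fun Q => F Q - G Q * F Q + G Q * H Q) =
      (1 - Ex ρ U G) * Ex ρ U F + Ex ρ U G * Ex ρ U H := by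
  rw [Ex_add, Ex_sub, Ex3_indep hV hG hF, Ex3_indep hV hG hH]
  ring

open Classical in
/-- Le Cam type bound. Induct on `I` for all `k` at once. For the new cell `i` the count is
`count over I + [P i Q]`; independence comes from `Ex_union` and `Ex_local` (split `U` into
`C i` and `U \ C i`), so `b' k = (1 - p) b k + p b (k - 1)`. -/
theorem lecam (hρ : Prob ρ) {ι : Type*} (I : Finset ι) (C : ι → Finset ℕ)
    (hd : ∀ i ∈ I, ∀ j ∈ I, i ≠ j → Disjoint (C i) (C j)) (hU : ∀ i ∈ I, C i ⊆ U)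
    (P : ι → Finset ℕ → Prop) (hP : ∀ i ∈ I, ∀ Q, P i Q ↔ P i (Q ∩ C i)) (k : ℕ) :
    |Ex ρ U (fun Q => ind ((I.filter fun i => P i Q).card = k)) -
        poi k (∑ i ∈ I, Ex ρ U fun Q => ind (P i Q))| ≤
      2 * ∑ i ∈ I, (Ex ρ U fun Q => ind (P i Q)) ^ 2 := by
  induction I using Finset.induction_on generalizing k with
  | empty =>
    simp only [filter_empty, card_empty, sum_empty, mul_zero, Ex_const]
    rcases k with _ | k
    · simp [poi, ind]
    · simp [poi, ind]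
  | insert i I hi ih =>
    have ih' := ih (fun a ha b hb => hd a (mem_insert_of_mem ha) b (mem_insert_of_mem hb))
      (fun a ha => hU a (mem_insert_of_mem ha)) (fun a ha => hP a (mem_insert_of_mem ha))
    have hV : C i ⊆ U := hU i (mem_insert_self _ _)
    have hG : ∀ Q, ind (P i Q) = ind (P i (Q ∩ C i)) := fun Q =>
      ind_congr (hP i (mem_insert_self _ _) Q)
    have hfil : ∀ Q, (I.filter fun j => P j Q) = I.filter fun j => P j (Q \ C i) := by
      intro Q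
      refine filter_congr fun j hj => ?_
      have hj' := mem_insert_of_mem (b := i) hj
      have hne : i ≠ j := fun h => hi (h ▸ hj)
      have hdis := hd i (mem_insert_self _ _) j hj' hne
      have e : (Q \ C i) ∩ C j = Q ∩ C j := by
        ext t
        simp only [mem_inter, Finset.mem_sdiff]
        constructor
        · exact fun h => ⟨h.1.1, h.2⟩
        · exact fun h => ⟨⟨h.1, fun h' => disjoint_left.1 hdis h' h.2⟩, h.2⟩
      rw [hP j hj' Q, hP j hj' (Q \ C i), e]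
    have hF : ∀ m Q, ind ((I.filter fun j => P j Q).card = m) =
        ind ((I.filter fun j => P j (Q \ C i)).card = m) := fun m Q => by rw [hfil Q]
    have hp0 : 0 ≤ Ex ρ U fun Q => ind (P i Q) := Ex_nonneg hρ fun _ _ => ind_nonneg _
    have hp1 : (Ex ρ U fun Q => ind (P i Q)) ≤ 1 := Ex_le_const hρ fun _ _ => ind_le_one _
    have ha : 0 ≤ ∑ j ∈ I, Ex ρ U fun Q => ind (P j Q) :=
      sum_nonneg fun j _ => Ex_nonneg hρ fun _ _ => ind_nonneg _
    have hcard : ∀ Q, ((insert i I).filter fun j => P j Q).card =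
        if P i Q then (I.filter fun j => P j Q).card + 1 else (I.filter fun j => P j Q).card := by
      intro Q
      rw [filter_insert]
      split_ifs with h
      · exact card_insert_of_notMem fun h' => hi (mem_filter.1 h').1
      · rfl
    rw [sum_insert hi, sum_insert hi, add_comm (Ex ρ U fun Q => ind (P i Q))]
    rcases k with _ | k
    · have e : Ex ρ U (fun Q => ind (((insert i I).filter fun j => P j Q).card = 0)) =
          (1 - Ex ρ U fun Q => ind (P i Q)) *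
            Ex ρ U (fun Q => ind ((I.filter fun j => P j Q).card = 0)) +
          (Ex ρ U fun Q => ind (P i Q)) * Ex ρ U (fun _ => 0) := by
        rw [← Ex3_mix hV hG (hF 0) (fun _ => rfl)]
        refine Ex_congr fun Q _ => ?_
        rw [hcard Q]
        by_cases h : P i Q
        · rw [if_pos h, ind_pos h, ind_neg (Nat.succ_ne_zero _)]
          ring
        · rw [if_neg h, ind_neg h]
          ring
      rw [e, Ex_const]
      have h1 := abs_le.1 (ih' 0)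
      have h2 := abs_le.1 (poi_step_zero ha hp0)
      have hE := sum_nonneg fun j (_ : j ∈ I) => sq_nonneg (Ex ρ U fun Q => ind (P j Q))
      generalize (Ex ρ U fun Q => ind (P i Q)) = p at *
      generalize (∑ j ∈ I, (Ex ρ U fun Q => ind (P j Q)) ^ 2) = E at *
      generalize (∑ j ∈ I, Ex ρ U fun Q => ind (P j Q)) = a at *
      generalize (Ex ρ U fun Q => ind ((I.filter fun j => P j Q).card = 0)) = b at *
      have h3 := mul_le_mul_of_nonneg_left h1.1 (sub_nonneg.2 hp1)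
      have h4 := mul_le_mul_of_nonneg_left h1.2 (sub_nonneg.2 hp1)
      have h5 := mul_nonneg hp0 hE
      rw [abs_le]
      constructor <;> linarith [h2.1, h2.2]
    · have e : Ex ρ U (fun Q => ind (((insert i I).filter fun j => P j Q).card = k + 1)) =
          (1 - Ex ρ U fun Q => ind (P i Q)) *
            Ex ρ U (fun Q => ind ((I.filter fun j => P j Q).card = k + 1)) +
          (Ex ρ U fun Q => ind (P i Q)) *
            Ex ρ U (fun Q => ind ((I.filter fun j => P j Q).card = k)) := by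
        rw [← Ex3_mix hV hG (hF (k + 1)) (hF k)]
        refine Ex_congr fun Q _ => ?_
        rw [hcard Q]
        by_cases h : P i Q
        · rw [if_pos h, ind_pos h, ind_congr Nat.add_right_cancel_iff]
          ring
        · rw [if_neg h, ind_neg h]
          ring
      rw [e]
      have h1 := abs_le.1 (ih' (k + 1))
      have h1' := abs_le.1 (ih' k)
      have h2 := abs_le.1 (poi_step k ha hp0)
      generalize (Ex ρ U fun Q => ind (P i Q)) = p at *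
      generalize (∑ j ∈ I, (Ex ρ U fun Q => ind (P j Q)) ^ 2) = E at *
      generalize (∑ j ∈ I, Ex ρ U fun Q => ind (P j Q)) = a at *
      generalize (Ex ρ U fun Q => ind ((I.filter fun j => P j Q).card = k + 1)) = b at *
      generalize (Ex ρ U fun Q => ind ((I.filter fun j => P j Q).card = k)) = b' at *
      have h3 := mul_le_mul_of_nonneg_left h1.1 (sub_nonneg.2 hp1)
      have h4 := mul_le_mul_of_nonneg_left h1.2 (sub_nonneg.2 hp1)
      have h5 := mul_le_mul_of_nonneg_left h1'.1 hp0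
      have h6 := mul_le_mul_of_nonneg_left h1'.2 hp0
      rw [abs_le]
      constructor <;> linarith [h2.1, h2.2]

end Pool.Agent.Work.MP_9a1701_nt.P
end

-- merged part: Pool.Agent.Work.MP_9a1701_nt.P.Blk1
section
/-!
# Blocks: locality, sizes, uniqueness
-/

set_option autoImplicit false
open Finset Filter

namespace Pool.Agent.Work.MP_9a1701_nt.P

variable {A A' : Set ℕ}

open Classical in
/-- The elements of `A` in `[a, b]`. -/
noncomputable def Blk1_S (A : Set ℕ) (a b : ℕ) : Finset ℕ := (Icc a b).filter (fun t => t ∈ A)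

lemma Blk1_mem {a b t : ℕ} : t ∈ Blk1_S A a b ↔ a ≤ t ∧ t ≤ b ∧ t ∈ A := by
  classical
  simp only [Blk1_S, mem_filter, mem_Icc, and_assoc]

lemma Blk1_bsum (A : Set ℕ) (a b : ℕ) : bsum A a b = ∑ t ∈ Blk1_S A a b, t := rfl

lemma Blk1_bcard (A : Set ℕ) (a b : ℕ) : bcard A a b = (Blk1_S A a b).card := rfl

lemma Blk1_S_congr {a b : ℕ} (h : ∀ t, a ≤ t → t ≤ b → (t ∈ A ↔ t ∈ A')) :
    Blk1_S A a b = Blk1_S A' a b := by
  ext t
  rw [Blk1_mem, Blk1_mem]
  constructor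
  · rintro ⟨h1, h2, h3⟩
    exact ⟨h1, h2, (h t h1 h2).1 h3⟩
  · rintro ⟨h1, h2, h3⟩
    exact ⟨h1, h2, (h t h1 h2).2 h3⟩

lemma Blk1_sum_le {X Y : Finset ℕ} {m : ℕ} (hc : X.card = Y.card) (hX : ∀ x ∈ X, x ≤ m)
    (hY : ∀ y ∈ Y, m ≤ y) : ∑ t ∈ X, t ≤ ∑ t ∈ Y, t := by
  have h1 := Finset.sum_le_card_nsmul X (fun t => t) m hX
  have h2 := Finset.card_nsmul_le_sum Y (fun t => t) m hY
  rw [hc] at h1
  exact h1.trans h2

lemma Blk1_insert {v a b : ℕ} (h1 : a ≤ v) (h2 : v ≤ b) :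
    Blk1_S (insert v A) a b = insert v (Blk1_S A a b) := by
  ext t
  rw [mem_insert, Blk1_mem, Blk1_mem, Set.mem_insert_iff]
  constructor
  · rintro ⟨h3, h4, h5 | h5⟩
    · exact Or.inl h5
    · exact Or.inr ⟨h3, h4, h5⟩
  · rintro (h3 | ⟨h3, h4, h5⟩)
    · subst h3
      exact ⟨h1, h2, Or.inl rfl⟩
    · exact ⟨h3, h4, Or.inr h5⟩

/-- Two different windows with the same number of elements: the left one can be compared with
the right one after removing one element on each side. -/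
lemma Blk1_cmp {a b a' b' : ℕ} (haa : a ≤ a')
    (hc : (Blk1_S A a b).card = (Blk1_S A a' b').card) (hne : Blk1_S A a b ≠ Blk1_S A a' b') :
    ∃ e e' : ℕ, e < a' ∧ b < e' ∧ a' ≤ e' ∧
      ∑ t ∈ Blk1_S A a b, t + e' ≤ ∑ t ∈ Blk1_S A a' b', t + e := by
  classical
  have hbb : b < b' := by
    by_contra hb
    have hsub : Blk1_S A a' b' ⊆ Blk1_S A a b := by
      intro t ht
      rw [Blk1_mem] at ht ⊢
      exact ⟨by omega, by omega, ht.2.2⟩
    exact hne (Finset.eq_of_subset_of_card_le hsub hc.le).symm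
  have hX : ∀ t ∈ Blk1_S A a b \ Blk1_S A a' b', t < a' := by
    intro t ht
    rw [Finset.mem_sdiff, Blk1_mem, Blk1_mem] at ht
    by_contra h
    exact ht.2 ⟨by omega, by omega, ht.1.2.2⟩
  have hY : ∀ t ∈ Blk1_S A a' b' \ Blk1_S A a b, b < t ∧ a' ≤ t := by
    intro t ht
    rw [Finset.mem_sdiff, Blk1_mem, Blk1_mem] at ht
    refine ⟨?_, ht.1.1⟩
    by_contra h
    exact ht.2 ⟨by omega, by omega, ht.1.2.2⟩
  have hcc : (Blk1_S A a b \ Blk1_S A a' b').card = (Blk1_S A a' b' \ Blk1_S A a b).card :=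
    Finset.card_sdiff_comm hc
  have hne1 : (Blk1_S A a b \ Blk1_S A a' b').Nonempty := by
    rw [Finset.sdiff_nonempty]
    intro hsub
    exact hne (Finset.eq_of_subset_of_card_le hsub hc.ge)
  have hne2 : (Blk1_S A a' b' \ Blk1_S A a b).Nonempty := by
    rw [← Finset.card_pos, ← hcc, Finset.card_pos]
    exact hne1
  obtain ⟨e, he⟩ := hne1
  obtain ⟨e', he'⟩ := hne2
  refine ⟨e, e', hX e he, (hY e' he').1, (hY e' he').2, ?_⟩
  have s1 := Finset.sum_inter_add_sum_sdiff (Blk1_S A a b) (Blk1_S A a' b') (fun t => t)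
  have s2 := Finset.sum_inter_add_sum_sdiff (Blk1_S A a' b') (Blk1_S A a b) (fun t => t)
  rw [Finset.inter_comm] at s2
  have s3 := Finset.add_sum_erase _ (fun t => t) he
  have s4 := Finset.add_sum_erase _ (fun t => t) he'
  have s5 : ∑ t ∈ (Blk1_S A a b \ Blk1_S A a' b').erase e, t ≤
      ∑ t ∈ (Blk1_S A a' b' \ Blk1_S A a b).erase e', t := by
    refine Blk1_sum_le (m := a') ?_ ?_ ?_
    · rw [Finset.card_erase_of_mem he, Finset.card_erase_of_mem he', hcc]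
    · intro x hx
      exact (hX x (Finset.mem_of_mem_erase hx)).le
    · intro y hy
      exact (hY y (Finset.mem_of_mem_erase hy)).2
  omega

lemma bsum_congr {a b : ℕ} (h : ∀ t, a ≤ t → t ≤ b → (t ∈ A ↔ t ∈ A')) :
    bsum A a b = bsum A' a b := by
  rw [Blk1_bsum, Blk1_bsum, Blk1_S_congr h]

lemma bcard_congr {a b : ℕ} (h : ∀ t, a ≤ t → t ≤ b → (t ∈ A ↔ t ∈ A')) :
    bcard A a b = bcard A' a b := by
  rw [Blk1_bcard, Blk1_bcard, Blk1_S_congr h]

lemma blk_congr {lo hi : ℕ} (h : ∀ t, lo ≤ t → t < hi → (t ∈ A ↔ t ∈ A')) :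
    blk A lo hi = blk A' lo hi := by
  ext p
  rw [mem_blk, mem_blk]
  constructor
  · rintro ⟨h1, h2, h3, h4, h5⟩
    exact ⟨h1, h2, h3, (h _ h1 (by omega)).1 h4, (h _ (by omega) h3).1 h5⟩
  · rintro ⟨h1, h2, h3, h4, h5⟩
    exact ⟨h1, h2, h3, (h _ h1 (by omega)).2 h4, (h _ (by omega) h3).2 h5⟩

lemma cnt_congr {lo hi : ℕ} (h : ∀ t, lo ≤ t → t < hi → (t ∈ A ↔ t ∈ A')) (n : ℕ) :
    cnt A lo hi n = cnt A' lo hi n := by
  unfold cnt
  rw [blk_congr h]
  congr 1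
  refine Finset.filter_congr fun p hp => ?_
  rw [mem_blk] at hp
  rw [bsum_congr (A := A) (A' := A') fun t h1 h2 => h t (by omega) (by omega)]

lemma cntK_congr {lo hi : ℕ} (h : ∀ t, lo ≤ t → t < hi → (t ∈ A ↔ t ∈ A')) (K n : ℕ) :
    cntK A lo hi K n = cntK A' lo hi K n := by
  unfold cntK
  rw [blk_congr h]
  congr 1
  refine Finset.filter_congr fun p hp => ?_
  rw [mem_blk] at hp
  rw [bsum_congr (A := A) (A' := A') fun t h1 h2 => h t (by omega) (by omega),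
    bcard_congr (A := A) (A' := A') fun t h1 h2 => h t (by omega) (by omega)]

lemma cntGe_congr {lo hi : ℕ} (h : ∀ t, lo ≤ t → t < hi → (t ∈ A ↔ t ∈ A')) (M n : ℕ) :
    cntGe A lo hi M n = cntGe A' lo hi M n := by
  unfold cntGe
  rw [blk_congr h]
  congr 1
  refine Finset.filter_congr fun p hp => ?_
  rw [mem_blk] at hp
  rw [bsum_congr (A := A) (A' := A') fun t h1 h2 => h t (by omega) (by omega),
    bcard_congr (A := A) (A' := A') fun t h1 h2 => h t (by omega) (by omega)]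

lemma le_bsum {a b : ℕ} (hab : a ≤ b) (hb : b ∈ A) : b ≤ bsum A a b := by
  rw [Blk1_bsum]
  exact Finset.single_le_sum (f := fun t => t) (fun _ _ => Nat.zero_le _)
    (Blk1_mem.2 ⟨hab, le_rfl, hb⟩)

lemma rep_eq_cnt {n x : ℕ} (hn : n ≤ x) : rep A n = cnt A 1 (x + 1) n := by
  unfold rep cnt
  rw [← Set.ncard_coe_finset]
  congr 1
  ext p
  simp only [Set.mem_ofPred_eq, Finset.coe_filter, mem_blk]
  constructor
  · rintro ⟨h1, h2, h3, h4, h5⟩
    have := le_bsum (A := A) h2 h4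
    exact ⟨⟨h1, h2, by omega, h3, h4⟩, h5⟩
  · rintro ⟨⟨h1, h2, -, h3, h4⟩, h5⟩
    exact ⟨h1, h2, h3, h4, h5⟩

lemma rep_congr {n : ℕ} (h : ∀ t, 1 ≤ t → t ≤ n → (t ∈ A ↔ t ∈ A')) : rep A n = rep A' n := by
  rw [rep_eq_cnt (le_refl n), rep_eq_cnt (le_refl n)]
  exact cnt_congr (fun t h1 h2 => h t h1 (by omega)) n

lemma bcard_pos {a b : ℕ} (hab : a ≤ b) (ha : a ∈ A) : 1 ≤ bcard A a b := by
  rw [Blk1_bcard]
  exact Finset.card_pos.2 ⟨a, Blk1_mem.2 ⟨le_rfl, hab, ha⟩⟩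

lemma bcard_le (A : Set ℕ) (a b : ℕ) : bcard A a b ≤ b + 1 - a := by
  rw [Blk1_bcard, ← Nat.card_Icc]
  refine Finset.card_le_card fun t ht => ?_
  rw [Blk1_mem] at ht
  exact mem_Icc.2 ⟨ht.1, ht.2.1⟩

lemma bcard_mul_le (A : Set ℕ) (a b : ℕ) : bcard A a b * a ≤ bsum A a b := by
  rw [Blk1_bcard, Blk1_bsum, ← smul_eq_mul]
  exact Finset.card_nsmul_le_sum _ (fun t => t) a fun t ht => (Blk1_mem.1 ht).1

lemma bsum_le_bcard_mul (A : Set ℕ) (a b : ℕ) : bsum A a b ≤ bcard A a b * b := by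
  rw [Blk1_bcard, Blk1_bsum, ← smul_eq_mul]
  exact Finset.sum_le_card_nsmul _ (fun t => t) b fun t ht => (Blk1_mem.1 ht).2.1

lemma card_range {lo hi : ℕ} {p : ℕ × ℕ} (hp : p ∈ blk A lo hi) :
    1 ≤ bcard A p.1 p.2 ∧ bcard A p.1 p.2 * lo ≤ bsum A p.1 p.2 ∧
      bsum A p.1 p.2 < bcard A p.1 p.2 * hi := by
  rw [mem_blk] at hp
  obtain ⟨h1, h2, h3, h4, -⟩ := hp
  have h5 := bcard_pos (A := A) h2 h4
  refine ⟨h5, (Nat.mul_le_mul_left _ h1).trans (bcard_mul_le A _ _), ?_⟩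
  exact (bsum_le_bcard_mul A _ _).trans_lt (Nat.mul_lt_mul_of_pos_left h3 h5)

lemma bcard_lt_right {a b b' : ℕ} (hab : a ≤ b') (hb : b < b') (hb' : b' ∈ A) :
    bcard A a b < bcard A a b' := by
  rw [Blk1_bcard, Blk1_bcard]
  refine Finset.card_lt_card ((Finset.ssubset_iff_of_subset ?_).2 ⟨b', ?_, ?_⟩)
  · intro t ht
    rw [Blk1_mem] at ht ⊢
    exact ⟨ht.1, by omega, ht.2.2⟩
  · exact Blk1_mem.2 ⟨hab, le_rfl, hb'⟩
  · rw [Blk1_mem]
    omega

lemma bcard_lt_left {a a' b : ℕ} (hab : a ≤ b) (ha : a < a') (ha' : a ∈ A) :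
    bcard A a' b < bcard A a b := by
  rw [Blk1_bcard, Blk1_bcard]
  refine Finset.card_lt_card ((Finset.ssubset_iff_of_subset ?_).2 ⟨a, ?_, ?_⟩)
  · intro t ht
    rw [Blk1_mem] at ht ⊢
    exact ⟨by omega, ht.2.1, ht.2.2⟩
  · exact Blk1_mem.2 ⟨le_rfl, hab, ha'⟩
  · rw [Blk1_mem]
    omega

lemma bsum_lt_right {a b b' : ℕ} (hab : a ≤ b') (hb : b < b') (hb' : b' ∈ A) :
    bsum A a b < bsum A a b' := by
  rw [Blk1_bsum, Blk1_bsum]
  refine Finset.sum_lt_sum_of_subset (f := fun t => t) (i := b') ?_ ?_ ?_ (by omega)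
    fun _ _ _ => Nat.zero_le _
  · intro t ht
    rw [Blk1_mem] at ht ⊢
    exact ⟨ht.1, by omega, ht.2.2⟩
  · exact Blk1_mem.2 ⟨hab, le_rfl, hb'⟩
  · rw [Blk1_mem]
    omega

/-- A block is determined by its first element and its sum. -/
lemma end_unique {a b b' : ℕ} (hab : a ≤ b) (hab' : a ≤ b') (hb : b ∈ A) (hb' : b' ∈ A)
    (h : bsum A a b = bsum A a b') : b = b' := by
  rcases lt_trichotomy b b' with h1 | h1 | h1
  · exact absurd h (bsum_lt_right hab' h1 hb').ne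
  · exact h1
  · exact absurd h.symm (bsum_lt_right hab h1 hb).ne

/-- Two blocks with the same number of elements and the same sum agree. If `a < a'`, the two
set differences have equal size, the first lies below `a'`, the second above `b`. -/
lemma cntK_le_one (A : Set ℕ) (lo hi K n : ℕ) : cntK A lo hi K n ≤ 1 := by
  have key : ∀ p q : ℕ × ℕ, p ∈ blk A lo hi → q ∈ blk A lo hi → p.1 ≤ q.1 →
      bcard A p.1 p.2 = bcard A q.1 q.2 → bsum A p.1 p.2 = bsum A q.1 q.2 → p = q := by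
    intro p q hp hq hpq hc hs
    rw [mem_blk] at hp hq
    by_cases hne : Blk1_S A p.1 p.2 = Blk1_S A q.1 q.2
    · have m1 : q.1 ∈ Blk1_S A p.1 p.2 := hne ▸ Blk1_mem.2 ⟨le_rfl, hq.2.1, hq.2.2.2.1⟩
      have m2 : q.2 ∈ Blk1_S A p.1 p.2 := hne ▸ Blk1_mem.2 ⟨hq.2.1, le_rfl, hq.2.2.2.2⟩
      have m3 : p.1 ∈ Blk1_S A q.1 q.2 := hne ▸ Blk1_mem.2 ⟨le_rfl, hp.2.1, hp.2.2.2.1⟩
      have m4 : p.2 ∈ Blk1_S A q.1 q.2 := hne ▸ Blk1_mem.2 ⟨hp.2.1, le_rfl, hp.2.2.2.2⟩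
      rw [Blk1_mem] at m1 m2 m3 m4
      exact Prod.ext (by omega) (by omega)
    · exfalso
      obtain ⟨e, e', h1, h2, h3, h4⟩ := Blk1_cmp hpq hc hne
      rw [Blk1_bsum, Blk1_bsum] at hs
      omega
  unfold cntK
  refine Finset.card_le_one.2 fun p hp q hq => ?_
  rw [mem_filter] at hp hq
  rcases le_total p.1 q.1 with h | h
  · exact key p q hp.1 hq.1 h (hp.2.1.trans hq.2.1.symm) (hp.2.2.trans hq.2.2.symm)
  · exact (key q p hq.1 hp.1 h (hq.2.1.trans hp.2.1.symm) (hq.2.2.trans hp.2.2.symm)).symm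

/-- (Uq) of the paper. With `C = A ∩ [a,b]`, `C' = A ∩ [a',b']`, `a ≤ a'`: if `C = C'` the
sums give `v = v'` and the end points are the minimum and maximum of `insert v C`; otherwise
`C \ C'` lies below `a'`, `C' \ C` above `b`, pick `e`, `e'` in them: `e < a' ≤ v'`,
`v ≤ b < e'`, so the first sum is smaller. -/
theorem uniq {v v' a b a' b' : ℕ} (hv : v ∉ A) (hv' : v' ∉ A)
    (ha : a ∈ insert v A) (hb : b ∈ insert v A) (h1 : a ≤ v) (h2 : v ≤ b)
    (ha' : a' ∈ insert v' A) (hb' : b' ∈ insert v' A) (h1' : a' ≤ v') (h2' : v' ≤ b')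
    (hc : bcard (insert v A) a b = bcard (insert v' A) a' b')
    (hs : bsum (insert v A) a b = bsum (insert v' A) a' b') : v = v' ∧ a = a' ∧ b = b' := by
  classical
  have key : ∀ v v' a b a' b' : ℕ, v ∉ A → v' ∉ A → a ∈ insert v A → b ∈ insert v A →
      a ≤ v → v ≤ b → a' ∈ insert v' A → b' ∈ insert v' A → a' ≤ v' → v' ≤ b' →
      bcard (insert v A) a b = bcard (insert v' A) a' b' →
      bsum (insert v A) a b = bsum (insert v' A) a' b' → a ≤ a' →
      v = v' ∧ a = a' ∧ b = b' := by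
    intro v v' a b a' b' hv hv' ha hb h1 h2 ha' hb' h1' h2' hc hs haa
    have n1 : v ∉ Blk1_S A a b := fun h => hv (Blk1_mem.1 h).2.2
    have n2 : v' ∉ Blk1_S A a' b' := fun h => hv' (Blk1_mem.1 h).2.2
    rw [Blk1_bcard, Blk1_bcard, Blk1_insert h1 h2, Blk1_insert h1' h2',
      Finset.card_insert_of_notMem n1, Finset.card_insert_of_notMem n2] at hc
    rw [Blk1_bsum, Blk1_bsum, Blk1_insert h1 h2, Blk1_insert h1' h2',
      Finset.sum_insert n1, Finset.sum_insert n2] at hs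
    by_cases hne : Blk1_S A a b = Blk1_S A a' b'
    · have hvv : v = v' := by
        rw [hne] at hs
        omega
      subst hvv
      have hE : Blk1_S (insert v A) a b = Blk1_S (insert v A) a' b' := by
        rw [Blk1_insert h1 h2, Blk1_insert h1' h2', hne]
      have m1 : a' ∈ Blk1_S (insert v A) a b := hE ▸ Blk1_mem.2 ⟨le_rfl, by omega, ha'⟩
      have m2 : b' ∈ Blk1_S (insert v A) a b := hE ▸ Blk1_mem.2 ⟨by omega, le_rfl, hb'⟩
      have m3 : a ∈ Blk1_S (insert v A) a' b' := hE ▸ Blk1_mem.2 ⟨le_rfl, by omega, ha⟩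
      have m4 : b ∈ Blk1_S (insert v A) a' b' := hE ▸ Blk1_mem.2 ⟨by omega, le_rfl, hb⟩
      rw [Blk1_mem] at m1 m2 m3 m4
      exact ⟨rfl, by omega, by omega⟩
    · exfalso
      obtain ⟨e, e', h3, h4, h5, h6⟩ := Blk1_cmp (A := A) haa (by omega) hne
      omega
  rcases le_total a a' with h | h
  · exact key v v' a b a' b' hv hv' ha hb h1 h2 ha' hb' h1' h2' hc hs h
  · obtain ⟨e1, e2, e3⟩ := key v' v a' b' a b hv' hv ha' hb' h1' h2' ha hb h1 h2 hc.symm hs.symm h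
    exact ⟨e1.symm, e2.symm, e3.symm⟩

/-- At most `s` elements below `s`, at most `x / s ≤ s` elements from `s` on. -/
lemma bcard_le_two_mul {a b x s : ℕ} (hs : 1 ≤ s) (hx : x ≤ s ^ 2) (h : bsum A a b ≤ x) :
    bcard A a b ≤ 2 * s := by
  classical
  rw [Blk1_bsum] at h
  rw [Blk1_bcard, ← Finset.card_filter_add_card_filter_not (s := Blk1_S A a b) (fun t => t < s)]
  have h1 : ((Blk1_S A a b).filter fun t => t < s).card ≤ s := by
    conv_rhs => rw [← Finset.card_range s]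
    refine Finset.card_le_card fun t ht => ?_
    rw [mem_filter] at ht
    exact mem_range.2 ht.2
  have h2 : ((Blk1_S A a b).filter fun t => ¬ t < s).card * s ≤ s * s := by
    have h3 := Finset.card_nsmul_le_sum ((Blk1_S A a b).filter fun t => ¬ t < s) (fun t => t) s
      fun t ht => not_lt.1 (mem_filter.1 ht).2
    have h4 : ∑ t ∈ (Blk1_S A a b).filter (fun t => ¬ t < s), t ≤ ∑ t ∈ Blk1_S A a b, t :=
      Finset.sum_le_sum_of_subset (Finset.filter_subset _ _)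
    rw [smul_eq_mul] at h3
    calc _ ≤ _ := h3
      _ ≤ _ := h4
      _ ≤ x := h
      _ ≤ s ^ 2 := hx
      _ = s * s := sq s
  have h5 := Nat.le_of_mul_le_mul_right h2 hs
  omega

open Classical in
/-- `b ↦ bcard A t b` is injective with values in `[1, bet]`. -/
lemma start_count (A : Set ℕ) {x s t : ℕ} (hs : 1 ≤ s) (hx : x ≤ s ^ 2) (ht : 1 ≤ t) :
    ((((blk A 1 (x + 1)).filter fun p => p.1 = t ∧ bsum A p.1 p.2 ≤ x).card : ℕ) : ℝ) ≤
      ind (t ∈ A) * bet x s t := by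
  by_cases hA : t ∈ A
  · rw [ind_pos hA, one_mul]
    have key : ∀ M : ℕ, (∀ b, bsum A t b ≤ x → bcard A t b ≤ M) →
        ((blk A 1 (x + 1)).filter fun p => p.1 = t ∧ bsum A p.1 p.2 ≤ x).card ≤ M := by
      intro M hM
      have hI : (Icc 1 M).card = M := by simp
      rw [← hI]
      refine Finset.card_le_card_of_injOn (fun p => bcard A p.1 p.2) ?_ ?_
      · intro p hp
        rw [Finset.mem_coe, mem_filter, mem_blk] at hp
        obtain ⟨⟨-, h2, -, h4, -⟩, h6, h7⟩ := hp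
        refine Finset.mem_coe.2 (mem_Icc.2 ⟨bcard_pos h2 h4, ?_⟩)
        show bcard A p.1 p.2 ≤ M
        rw [h6] at h7 ⊢
        exact hM _ h7
      · intro p hp q hq hpq
        rw [Finset.mem_coe, mem_filter, mem_blk] at hp hq
        obtain ⟨⟨-, h2, -, -, h5⟩, h6, -⟩ := hp
        obtain ⟨⟨-, h2', -, -, h5'⟩, h6', -⟩ := hq
        simp only at hpq
        rw [h6, h6'] at hpq
        refine Prod.ext (h6.trans h6'.symm) ?_
        rcases lt_trichotomy p.2 q.2 with h | h | h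
        · exact absurd hpq (bcard_lt_right (by omega) h h5').ne
        · exact h
        · exact absurd hpq.symm (bcard_lt_right (by omega) h h5).ne
    unfold bet
    split_ifs with hts
    · exact_mod_cast key (2 * s) fun b hb => bcard_le_two_mul hs hx hb
    · have h1 := key (x / t) fun b hb =>
        (Nat.le_div_iff_mul_le ht).2 ((bcard_mul_le A t b).trans hb)
      exact (Nat.cast_le.2 h1).trans Nat.cast_div_le
  · rw [ind_neg hA, zero_mul]
    have : ((blk A 1 (x + 1)).filter fun p => p.1 = t ∧ bsum A p.1 p.2 ≤ x) = ∅ := by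
      refine Finset.filter_eq_empty_iff.2 fun p hp h => hA ?_
      rw [mem_blk] at hp
      exact h.1 ▸ hp.2.2.2.1
    rw [this]
    simp

/-- `p ↦ (p.1, bcard)` is injective into `[i s, (i+1) s) × [1, x / (i s)]`. -/
lemma cell_count (A : Set ℕ) {x s i : ℕ} (hs : 1 ≤ s) (hi : 1 ≤ i) :
    ((((blk A (i * s) ((i + 1) * s)).filter fun p => bsum A p.1 p.2 ≤ x).card : ℕ) : ℝ) ≤
      (x : ℝ) / i := by
  have his : 0 < i * s := Nat.mul_pos hi hs
  have key : ((blk A (i * s) ((i + 1) * s)).filter fun p => bsum A p.1 p.2 ≤ x).card ≤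
      (Ico (i * s) ((i + 1) * s) ×ˢ Icc 1 (x / (i * s))).card := by
    refine Finset.card_le_card_of_injOn (fun p => (p.1, bcard A p.1 p.2)) ?_ ?_
    · intro p hp
      rw [Finset.mem_coe, mem_filter] at hp
      obtain ⟨h1, h2, -⟩ := card_range hp.1
      have h3 := mem_blk.1 hp.1
      refine Finset.mem_coe.2 (mem_product.2 ⟨mem_Ico.2 ⟨h3.1, ?_⟩, mem_Icc.2 ⟨h1, ?_⟩⟩)
      · exact lt_of_le_of_lt h3.2.1 h3.2.2.1
      · exact (Nat.le_div_iff_mul_le his).2 (h2.trans hp.2)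
    · intro p hp q hq hpq
      rw [Finset.mem_coe, mem_filter, mem_blk] at hp hq
      obtain ⟨⟨-, h2, -, -, h5⟩, -⟩ := hp
      obtain ⟨⟨-, h2', -, -, h5'⟩, -⟩ := hq
      simp only [Prod.mk.injEq] at hpq
      obtain ⟨h6, h7⟩ := hpq
      rw [h6] at h7
      refine Prod.ext h6 ?_
      rcases lt_trichotomy p.2 q.2 with h | h | h
      · exact absurd h7 (bcard_lt_right (by omega) h h5').ne
      · exact h
      · exact absurd h7.symm (bcard_lt_right (by omega) h h5).ne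
  have hcard : (Ico (i * s) ((i + 1) * s) ×ˢ Icc 1 (x / (i * s))).card = s * (x / (i * s)) := by
    rw [card_product, Nat.card_Ico, Nat.card_Icc, add_mul, one_mul, Nat.add_sub_cancel_left,
      Nat.add_sub_cancel]
  rw [hcard] at key
  have hs' : (0 : ℝ) < s := by exact_mod_cast hs
  have hi' : (0 : ℝ) < i := by exact_mod_cast hi
  calc _ ≤ ((s * (x / (i * s)) : ℕ) : ℝ) := Nat.cast_le.2 key
    _ = (s : ℝ) * ((x / (i * s) : ℕ) : ℝ) := Nat.cast_mul _ _
    _ ≤ (s : ℝ) * ((x : ℝ) / ((i * s : ℕ) : ℝ)) :=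
        mul_le_mul_of_nonneg_left Nat.cast_div_le hs'.le
    _ = (x : ℝ) / i := by
        push_cast
        field_simp

end Pool.Agent.Work.MP_9a1701_nt.P
end

-- merged part: Pool.Agent.Work.MP_9a1701_nt.P.Blk2
section
/-!
# The count of representations against the count of occupied cells
-/

set_option autoImplicit false
open Finset Filter

namespace Pool.Agent.Work.MP_9a1701_nt.P

/-- `sum_Ioo_inv_sq_le`. -/
lemma sum_inv_sq_le {L i1 : ℕ} (hL : 1 ≤ L) :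
    ∑ i ∈ Ico L i1, 1 / (i : ℝ) ^ 2 ≤ 2 / (L : ℝ) := by
  obtain ⟨m, rfl⟩ : ∃ m, L = m + 1 := ⟨L - 1, by omega⟩
  have h := sum_Ioo_inv_sq_le (α := ℝ) m i1
  rw [← Ico_add_one_left_eq_Ioo] at h
  simpa only [one_div, Nat.cast_succ] using h

open Classical in
/-- Blocks that start in the cell `i` and leave it:
`p ↦ (bcard A p.1 ((i+1) s - 1), bcard A p.1 p.2)` is injective into `[1, x / (i s)] ^ 2`. -/
lemma cross_count (A : Set ℕ) {x s i : ℕ} (hs : 1 ≤ s) (hi : 1 ≤ i) :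
    ((((blk A 1 (x + 1)).filter fun p => p.1 ∈ Ico (i * s) ((i + 1) * s) ∧ (i + 1) * s ≤ p.2 ∧
      bsum A p.1 p.2 ≤ x).card : ℕ) : ℝ) ≤ ((x : ℝ) / (i * s)) ^ 2 := by
  have h0 : 0 < i * s := Nat.mul_pos hi hs
  have h := card_le_card_of_injOn (s := (blk A 1 (x + 1)).filter fun p =>
      p.1 ∈ Ico (i * s) ((i + 1) * s) ∧ (i + 1) * s ≤ p.2 ∧ bsum A p.1 p.2 ≤ x)
    (t := Icc 1 (x / (i * s)) ×ˢ Icc 1 (x / (i * s)))
    (fun p => (bcard A p.1 ((i + 1) * s - 1), bcard A p.1 p.2))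
    (fun p hp => by
      obtain ⟨h1, h2, h3, h4⟩ := mem_filter.1 (mem_coe.1 hp)
      obtain ⟨-, a2, -, a4, a5⟩ := mem_blk.1 h1
      obtain ⟨b1, b2⟩ := mem_Ico.1 h2
      have c1 : bcard A p.1 p.2 ≤ x / (i * s) := (Nat.le_div_iff_mul_le h0).2
        ((Nat.mul_le_mul_left _ b1).trans ((bcard_mul_le A _ _).trans h4))
      have c2 := bcard_lt_right (b := (i + 1) * s - 1) a2 (by omega) a5
      have c3 := bcard_pos (b := (i + 1) * s - 1) (by omega) a4
      exact mem_coe.2 (mem_product.2 ⟨mem_Icc.2 ⟨c3, c2.le.trans c1⟩,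
        mem_Icc.2 ⟨c3.trans c2.le, c1⟩⟩))
    (fun p hp q hq e => by
      obtain ⟨h1, h2, -⟩ := mem_filter.1 (mem_coe.1 hp)
      obtain ⟨h3, h4, -⟩ := mem_filter.1 (mem_coe.1 hq)
      obtain ⟨-, a2, -, a4, a5⟩ := mem_blk.1 h1
      obtain ⟨-, b2, -, b4, b5⟩ := mem_blk.1 h3
      have c1 := (mem_Ico.1 h2).2
      have c2 := (mem_Ico.1 h4).2
      obtain ⟨e1, e2⟩ := Prod.mk.inj e
      have e3 : p.1 = q.1 := by
        rcases lt_trichotomy p.1 q.1 with h | h | h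
        · exact absurd e1 (bcard_lt_left (by omega) h a4).ne'
        · exact h
        · exact absurd e1 (bcard_lt_left (by omega) h b4).ne
      refine Prod.ext e3 ?_
      rw [← e3] at e2 b2
      rcases lt_trichotomy p.2 q.2 with h | h | h
      · exact absurd e2 (bcard_lt_right b2 h b5).ne
      · exact h
      · exact absurd e2 (bcard_lt_right a2 h a5).ne')
  rw [card_product, Nat.card_Icc, Nat.add_sub_cancel, ← sq] at h
  refine (Nat.cast_le.2 h).trans ?_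
  rw [Nat.cast_pow, ← Nat.cast_mul]
  exact pow_le_pow_left₀ (Nat.cast_nonneg _) Nat.cast_div_le _

lemma Zi_nonneg (A : Set ℕ) (x s i : ℕ) : 0 ≤ Zi A x s i := by
  refine sum_nonneg fun n _ => sub_nonneg.2 ?_
  by_cases h : cnt A (i * s) ((i + 1) * s) n ≠ 0
  · rw [ind_pos h]
    exact_mod_cast Nat.pos_of_ne_zero h
  · rw [ind_neg h]
    exact Nat.cast_nonneg _

lemma Blk2_abs (T : Finset ℕ) (f g : ℕ → ℕ) (k : ℕ) (c : ℕ → ℝ) (h0 : ∀ n ∈ T, 0 ≤ c n)
    (h1 : ∀ n ∈ T, f n ≠ g n → 1 ≤ c n) :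
    |((T.filter fun n => f n = k).card : ℝ) - (T.filter fun n => g n = k).card| ≤
      ∑ n ∈ T, c n := by
  rw [card_filter, card_filter, Nat.cast_sum, Nat.cast_sum, ← sum_sub_distrib]
  refine (abs_sum_le_sum_abs _ _).trans (sum_le_sum fun n hn => ?_)
  by_cases h : f n = g n
  · rw [h, sub_self, abs_zero]
    exact h0 n hn
  · refine le_trans ?_ (h1 n hn h)
    split_ifs <;> simp

lemma Blk2_sum (A : Set ℕ) (lo hi : ℕ) (T : Finset ℕ) : ∑ n ∈ T, (cnt A lo hi n : ℝ) =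
    (((blk A lo hi).filter fun p => bsum A p.1 p.2 ∈ T).card : ℝ) := by
  rw [← sum_card_fiberwise_eq_card_filter, Nat.cast_sum]
  rfl

/-- (a) of the paper. For `n ≤ x`, `rep A n = cnt A 1 (x+1) n` is at least the sum over the
cells of `cnt`, which is at least `Yc`; so `|Rk - Fk|` is at most the number of `n` with
`rep ≠ Yc`, at most `∑ (rep - Yc)`. A block with sum at most `x` starts outside the cells
(`start_count`), or leaves its cell `p.1 / s` (`cross_count`, `x ≤ s ^ 2`), or lies in it. -/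
theorem disc (A : Set ℕ) {x s L i1 : ℕ} (k : ℕ) (hs : 1 ≤ s) (hL : 1 ≤ L) (hx : x ≤ s ^ 2)
    (hi : i1 * s ≤ x) :
    |Rk A k x - Fk A x s L i1 k| ≤
      Wt A x s L i1 + 2 * x / L + ∑ i ∈ Ico L i1, Zi A x s i := by
  classical
  have h1 : ∀ n ∈ Icc 1 x, Yc A s L i1 n ≤ rep A n := fun n hn => by
    rw [rep_eq_cnt (mem_Icc.1 hn).2]
    refine card_le_card_of_surjOn (fun p => p.1 / s) fun i hi' => ?_
    obtain ⟨a1, a2⟩ := mem_filter.1 (mem_coe.1 hi')
    obtain ⟨a3, a4⟩ := mem_Ico.1 a1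
    obtain ⟨p, hp⟩ := card_pos.1 (Nat.pos_of_ne_zero a2)
    obtain ⟨b1, b2⟩ := mem_filter.1 hp
    obtain ⟨c1, c2, c3, c4, c5⟩ := mem_blk.1 b1
    have d1 : 0 < i * s := Nat.mul_pos (by omega) hs
    have d2 : (i + 1) * s ≤ i1 * s := Nat.mul_le_mul_right _ a4
    exact ⟨p, mem_coe.2 (mem_filter.2 ⟨mem_blk.2 ⟨by omega, c2, by omega, c4, c5⟩, b2⟩),
      Nat.div_eq_of_lt_le c1 (c2.trans_lt c3)⟩
  refine (Blk2_abs (Icc 1 x) (rep A) (Yc A s L i1) k (fun n => (rep A n : ℝ) - Yc A s L i1 n)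
    (fun n hn => sub_nonneg.2 (Nat.cast_le.2 (h1 n hn))) fun n hn h => ?_).trans ?_
  · have h2 : Yc A s L i1 n + 1 ≤ rep A n := lt_of_le_of_ne (h1 n hn) h.symm
    have h3 : (Yc A s L i1 n : ℝ) + 1 ≤ rep A n := by exact_mod_cast h2
    linarith
  have h2 : ((blk A 1 (x + 1)).filter fun p => bsum A p.1 p.2 ∈ Icc 1 x) ⊆
      (((Icc 1 x).filter fun t => t ∉ Ico (L * s) (i1 * s)).biUnion fun t =>
        (blk A 1 (x + 1)).filter fun p => p.1 = t ∧ bsum A p.1 p.2 ≤ x) ∪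
      (((Ico L i1).biUnion fun i => (blk A 1 (x + 1)).filter fun p =>
        p.1 ∈ Ico (i * s) ((i + 1) * s) ∧ (i + 1) * s ≤ p.2 ∧ bsum A p.1 p.2 ≤ x) ∪
      (Ico L i1).biUnion fun i => (blk A (i * s) ((i + 1) * s)).filter fun p =>
        bsum A p.1 p.2 ∈ Icc 1 x) := fun p hp => by
    obtain ⟨a1, a2⟩ := mem_filter.1 hp
    obtain ⟨b1, b2, b3, b4, b5⟩ := mem_blk.1 a1
    have a3 := (mem_Icc.1 a2).2
    by_cases c : p.1 ∈ Ico (L * s) (i1 * s)
    · have d1 : p.1 / s ∈ Ico L i1 := mem_Ico.2 ⟨(Nat.le_div_iff_mul_le hs).2 (mem_Ico.1 c).1,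
        (Nat.div_lt_iff_lt_mul hs).2 (mem_Ico.1 c).2⟩
      have d2 := Nat.div_mul_le_self p.1 s
      have d3 : p.1 < (p.1 / s + 1) * s := (Nat.div_lt_iff_lt_mul hs).1 (Nat.lt_succ_self _)
      refine mem_union_right _ ?_
      by_cases c' : (p.1 / s + 1) * s ≤ p.2
      · exact mem_union_left _ (mem_biUnion.2 ⟨_, d1, mem_filter.2 ⟨a1, mem_Ico.2 ⟨d2, d3⟩, c', a3⟩⟩)
      · exact mem_union_right _ (mem_biUnion.2 ⟨_, d1, mem_filter.2
          ⟨mem_blk.2 ⟨d2, b2, not_le.1 c', b4, b5⟩, a2⟩⟩)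
    · exact mem_union_left _ (mem_biUnion.2 ⟨p.1, mem_filter.2 ⟨mem_Icc.2 ⟨b1, by omega⟩, c⟩,
        mem_filter.2 ⟨a1, rfl, a3⟩⟩)
  have h3 := (card_le_card h2).trans ((card_union_le _ _).trans (add_le_add card_biUnion_le
    ((card_union_le _ _).trans (add_le_add card_biUnion_le card_biUnion_le))))
  have h4 := (Nat.cast_le (α := ℝ)).2 h3
  rw [Nat.cast_add, Nat.cast_add, Nat.cast_sum, Nat.cast_sum, Nat.cast_sum] at h4
  have h5 := h4.trans (add_le_add (sum_le_sum fun t ht =>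
    start_count A hs hx (mem_Icc.1 (mem_filter.1 ht).1).1) (add_le_add (sum_le_sum fun i hi' =>
      cross_count A hs (hL.trans (mem_Ico.1 hi').1)) le_rfl))
  have hs' : (0 : ℝ) < s := by exact_mod_cast hs
  have hx' : (x : ℝ) ≤ s ^ 2 := by exact_mod_cast hx
  have h6 : ∑ i ∈ Ico L i1, ((x : ℝ) / (i * s)) ^ 2 ≤ 2 * x / L := by
    calc ∑ i ∈ Ico L i1, ((x : ℝ) / (i * s)) ^ 2
        ≤ ∑ i ∈ Ico L i1, (x : ℝ) * (1 / (i : ℝ) ^ 2) := sum_le_sum fun i _ => by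
          have e : ((x : ℝ) / (i * s)) ^ 2 = x / s ^ 2 * (x * (1 / (i : ℝ) ^ 2)) := by ring
          rw [e]
          exact mul_le_of_le_one_left (by positivity) ((div_le_one (by positivity)).2 hx')
      _ ≤ (x : ℝ) * (2 / L) := by
          rw [← mul_sum]
          exact mul_le_mul_of_nonneg_left (sum_inv_sq_le hL) (Nat.cast_nonneg _)
      _ = _ := by ring
  have h7 : ∑ n ∈ Icc 1 x, (rep A n : ℝ) =
      (((blk A 1 (x + 1)).filter fun p => bsum A p.1 p.2 ∈ Icc 1 x).card : ℝ) := by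
    rw [← Blk2_sum]
    exact sum_congr rfl fun n hn => by rw [rep_eq_cnt (mem_Icc.1 hn).2]
  have h8 : ∑ n ∈ Icc 1 x, (Yc A s L i1 n : ℝ) =
      ∑ i ∈ Ico L i1, ∑ n ∈ Icc 1 x, ind (cnt A (i * s) ((i + 1) * s) n ≠ 0) := by
    rw [sum_comm]
    refine sum_congr rfl fun n _ => ?_
    rw [Yc, card_filter, Nat.cast_sum]
    refine sum_congr rfl fun i _ => ?_
    split_ifs with h
    · rw [ind_pos h, Nat.cast_one]
    · rw [ind_neg h, Nat.cast_zero]
  simp only [Zi, Wt, sum_sub_distrib, Blk2_sum]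
  rw [h7, h8]
  linarith

/-- Bounded differences: `Yc` changes only at those `n` that are a block sum in the cell `i`
for one of the two sets (`cnt_congr`, `cell_count`). -/
theorem bdiff {A A' : Set ℕ} {x s L i1 i : ℕ} (k : ℕ) (hs : 1 ≤ s) (hi : 1 ≤ i)
    (h : ∀ t, t ∉ Ico (i * s) ((i + 1) * s) → (t ∈ A ↔ t ∈ A')) :
    |Fk A x s L i1 k - Fk A' x s L i1 k| ≤ 2 * x / i := by
  refine (Blk2_abs (Icc 1 x) (Yc A s L i1) (Yc A' s L i1) k
    (fun n => (cnt A (i * s) ((i + 1) * s) n : ℝ) + cnt A' (i * s) ((i + 1) * s) n)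
    (fun n _ => by positivity) fun n _ h1 => ?_).trans ?_
  · have h2 : 1 ≤ cnt A (i * s) ((i + 1) * s) n + cnt A' (i * s) ((i + 1) * s) n := by
      by_contra h2
      refine h1 (congrArg card (filter_congr fun j _ => ?_))
      by_cases e : j = i
      · rw [e]
        omega
      · rw [cnt_congr fun t h3 h4 => h t fun h5 => e ?_]
        rw [← Nat.div_eq_of_lt_le h3 h4, Nat.div_eq_of_lt_le (mem_Ico.1 h5).1 (mem_Ico.1 h5).2]
    exact_mod_cast h2
  have h1 : ∀ B : Set ℕ, ∑ n ∈ Icc 1 x, (cnt B (i * s) ((i + 1) * s) n : ℝ) ≤ x / i := fun B => by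
    rw [Blk2_sum]
    refine le_trans (Nat.cast_le.2 (card_le_card fun p hp => ?_)) (cell_count B hs hi)
    exact mem_filter.2 ⟨(mem_filter.1 hp).1, (mem_Icc.1 (mem_filter.1 hp).2).2⟩
  rw [sum_add_distrib, two_mul, add_div]
  exact add_le_add (h1 A) (h1 A')

lemma Fk_congr {A A' : Set ℕ} {x s L i1 : ℕ} (k : ℕ)
    (h : ∀ i ∈ Ico L i1, ∀ t ∈ Ico (i * s) ((i + 1) * s), (t ∈ A ↔ t ∈ A')) :
    Fk A x s L i1 k = Fk A' x s L i1 k := by
  have h1 : ∀ n, Yc A s L i1 n = Yc A' s L i1 n := fun n =>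
    congrArg card (filter_congr fun i hi => by
      rw [cnt_congr fun t h3 h4 => h i hi t (mem_Ico.2 ⟨h3, h4⟩)])
  simp only [Fk, h1]

end Pool.Agent.Work.MP_9a1701_nt.P
end

-- merged part: Pool.Agent.Work.MP_9a1701_nt.P.Blk3
section
/-!
# Equal sums in one cell: reduction to separated pairs
-/

set_option autoImplicit false
open Finset Filter

namespace Pool.Agent.Work.MP_9a1701_nt.P

/-- Two separated blocks in the cell `i` with the same sum: the left one has more elements, so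
`(c' + 1) * (i * s) ≤ sum < c' * ((i + 1) * s)`. -/
lemma sep_card {A : Set ℕ} {s i : ℕ} {p q : ℕ × ℕ} (hs : 1 ≤ s) (hi : 1 ≤ i)
    (hp : p ∈ blk A (i * s) ((i + 1) * s)) (hq : q ∈ blk A (i * s) ((i + 1) * s))
    (h : p.2 < q.1) (he : bsum A p.1 p.2 = bsum A q.1 q.2) : i ≤ bcard A q.1 q.2 := by
  obtain ⟨c1, c2, -⟩ := card_range hp
  obtain ⟨-, -, d3⟩ := card_range hq
  have e1 := bsum_le_bcard_mul A p.1 p.2
  have e2 := bcard_mul_le A q.1 q.2
  set c := bcard A p.1 p.2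
  set c' := bcard A q.1 q.2
  have e3 : c * p.2 < c * q.1 := Nat.mul_lt_mul_of_pos_left h (by omega)
  have e4 : c' * q.1 < c * q.1 := by omega
  have e5 : c' < c := Nat.lt_of_mul_lt_mul_right e4
  have e6 : (c' + 1) * (i * s) ≤ c * (i * s) := Nat.mul_le_mul_right _ e5
  have e7 : ((c' + 1) * i) * s < (c' * (i + 1)) * s := by
    calc ((c' + 1) * i) * s = (c' + 1) * (i * s) := by ring
      _ < c' * ((i + 1) * s) := by omega
      _ = (c' * (i + 1)) * s := by ring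
  have e8 : (c' + 1) * i < c' * (i + 1) := Nat.lt_of_mul_lt_mul_right e7
  nlinarith

lemma Blk3_add {A : Set ℕ} {a u w b : ℕ} (huw : u < w) (hub : u ≤ b) (haw : a ≤ w)
    (hgap : ∀ t, u < t → t < w → t ∉ A) : bsum A a b = bsum A a u + bsum A w b := by
  classical
  unfold bsum
  rw [← sum_union]
  · refine sum_congr ?_ fun _ _ => rfl
    ext t
    simp only [mem_union, mem_filter, mem_Icc]
    constructor
    · rintro ⟨⟨h1, h2⟩, h3⟩
      by_cases h4 : t ≤ u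
      · exact Or.inl ⟨⟨h1, h4⟩, h3⟩
      · by_cases h5 : t < w
        · exact absurd h3 (hgap t (by omega) h5)
        · exact Or.inr ⟨⟨by omega, h2⟩, h3⟩
    · rintro (⟨⟨h1, h2⟩, h3⟩ | ⟨⟨h1, h2⟩, h3⟩)
      · exact ⟨⟨h1, by omega⟩, h3⟩
      · exact ⟨⟨by omega, h2⟩, h3⟩
  · rw [disjoint_left]
    intro t h1 h2
    simp only [mem_filter, mem_Icc] at h1 h2
    omega

lemma Blk3_mono {A : Set ℕ} (a : ℕ) {b b' : ℕ} (h : b ≤ b') : bsum A a b ≤ bsum A a b' := by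
  classical
  unfold bsum
  refine sum_le_sum_of_subset ?_
  intro t ht
  simp only [mem_filter, mem_Icc] at ht ⊢
  exact ⟨⟨ht.1.1, ht.1.2.trans h⟩, ht.2⟩

/-- Two blocks with the same sum and `a < a'` give a separated pair with equal sums that starts
at `a`, from which the common sum is recovered. If `b < a'` take the blocks themselves, else
`u` = largest element of `A` below `a'`, `w` = least element of `A` above `b` (here `b < b'`). -/
lemma sep_pair {A : Set ℕ} {lo hi : ℕ} {p p' : ℕ × ℕ} (hlo : 1 ≤ lo) (hp : p ∈ blk A lo hi)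
    (hp' : p' ∈ blk A lo hi) (h : p.1 < p'.1) (he : bsum A p.1 p.2 = bsum A p'.1 p'.2) :
    ∃ u w : ℕ, (p.1, u) ∈ blk A lo hi ∧ (w, p'.2) ∈ blk A lo hi ∧ u < w ∧
      bsum A p.1 u = bsum A w p'.2 ∧ bsum A p.1 u ≤ bsum A p.1 p.2 ∧
      (bsum A p.1 p.2 = bsum A p.1 u ∨
        bsum A p.1 p.2 + bsum A w p'.2 = bsum A p.1 p'.2) := by
  classical
  obtain ⟨a, b⟩ := p
  obtain ⟨a', b'⟩ := p'
  obtain ⟨p1, p2, p3, p4, p5⟩ := mem_blk.1 hp
  obtain ⟨q1, q2, q3, q4, q5⟩ := mem_blk.1 hp'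
  simp only at *
  by_cases hb : b < a'
  · exact ⟨b, a', hp, hp', hb, he, le_rfl, Or.inl rfl⟩
  have hne : ((Ico a a').filter fun t => t ∈ A).Nonempty :=
    ⟨a, by simp only [mem_filter, mem_Ico]; exact ⟨⟨le_rfl, h⟩, p4⟩⟩
  obtain ⟨u, hu, hu'⟩ := exists_max_image _ (fun t : ℕ => t) hne
  simp only [mem_filter, mem_Ico] at hu hu'
  obtain ⟨⟨u1, u2⟩, u3⟩ := hu
  have s1 : bsum A a b = bsum A a u + bsum A a' b :=
    Blk3_add u2 (by omega) h.le fun t t1 t2 t3 => by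
      have := hu' t ⟨⟨by omega, t2⟩, t3⟩
      omega
  have s0 : u ≤ bsum A a u := le_bsum u1 u3
  have hbb : b < b' := by
    by_contra hc
    have := Blk3_mono (A := A) a' (show b' ≤ b by omega)
    omega
  have hne' : ((Ioc b b').filter fun t => t ∈ A).Nonempty :=
    ⟨b', by simp only [mem_filter, mem_Ioc]; exact ⟨⟨hbb, le_rfl⟩, q5⟩⟩
  obtain ⟨w, hw, hw'⟩ := exists_min_image _ (fun t : ℕ => t) hne'
  simp only [mem_filter, mem_Ioc] at hw hw'
  obtain ⟨⟨w1, w2⟩, w3⟩ := hw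
  have gap : ∀ t, b < t → t < w → t ∉ A := fun t t1 t2 t3 => by
    have := hw' t ⟨⟨t1, by omega⟩, t3⟩
    omega
  have s2 : bsum A a' b' = bsum A a' b + bsum A w b' := Blk3_add w1 hbb.le (by omega) gap
  have s3 : bsum A a b' = bsum A a b + bsum A w b' := Blk3_add w1 hbb.le (by omega) gap
  refine ⟨u, w, mem_blk.2 ⟨p1, u1, by simp only; omega, p4, u3⟩,
    mem_blk.2 ⟨by simp only; omega, w2, q3, w3, q5⟩, by omega, by omega, by omega,
    Or.inr s3.symm⟩

open Classical in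
/-- Blocks with small sum that have a block with the same sum and a larger first element. -/
noncomputable def Blk3_S (A : Set ℕ) (lo hi x : ℕ) : Finset (ℕ × ℕ) :=
  (blk A lo hi).filter fun p => bsum A p.1 p.2 ∈ Icc 1 x ∧
    ∃ p' ∈ blk A lo hi, p.1 < p'.1 ∧ bsum A p.1 p.2 = bsum A p'.1 p'.2

lemma Blk3_one (A : Set ℕ) (lo hi x : ℕ) {n : ℕ} (hn : n ∈ Icc 1 x) :
    (cnt A lo hi n : ℝ) - ind (cnt A lo hi n ≠ 0) ≤
      (((Blk3_S A lo hi x).filter fun p => bsum A p.1 p.2 = n).card : ℝ) := by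
  classical
  by_cases h0 : cnt A lo hi n = 0
  · rw [ind_neg (by simpa using h0), h0]
    simp
  rw [ind_pos h0]
  unfold cnt at h0 ⊢
  obtain ⟨p0, hp0, hmax⟩ := exists_max_image _ (fun p : ℕ × ℕ => p.1) (card_ne_zero.1 h0)
  have hsub : ((blk A lo hi).filter fun p => bsum A p.1 p.2 = n).erase p0 ⊆
      (Blk3_S A lo hi x).filter fun p => bsum A p.1 p.2 = n := by
    intro p hp
    obtain ⟨hne, hp⟩ := mem_erase.1 hp
    have hle := hmax p hp
    obtain ⟨hp1, hp2⟩ := mem_filter.1 hp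
    obtain ⟨hq1, hq2⟩ := mem_filter.1 hp0
    refine mem_filter.2 ⟨mem_filter.2 ⟨hp1, hp2 ▸ hn, p0, hq1, ?_, hp2.trans hq2.symm⟩, hp2⟩
    refine lt_of_le_of_ne hle fun heq => hne ?_
    obtain ⟨-, a2, -, -, a5⟩ := mem_blk.1 hp1
    obtain ⟨-, b2, -, -, b5⟩ := mem_blk.1 hq1
    refine Prod.ext heq (end_unique (A := A) a2 (heq ▸ b2) a5 b5 ?_)
    rw [hp2, heq, hq2]
  have h1 := card_le_card hsub
  have h2 := card_erase_add_one hp0
  have h3 : ((blk A lo hi).filter fun p => bsum A p.1 p.2 = n).card ≤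
      ((Blk3_S A lo hi x).filter fun p => bsum A p.1 p.2 = n).card + 1 := by omega
  have h4 : (((blk A lo hi).filter fun p => bsum A p.1 p.2 = n).card : ℝ) ≤
      (((Blk3_S A lo hi x).filter fun p => bsum A p.1 p.2 = n).card : ℝ) + 1 := by
    exact_mod_cast h3
  linarith

open Classical in
/-- Right partners of a block. -/
noncomputable def Blk3_T (A : Set ℕ) (lo hi x i : ℕ) (q : ℕ × ℕ) : Finset (ℕ × ℕ) :=
  if q ∈ blk A lo hi ∧ bsum A q.1 q.2 ≤ x then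
    (blk A (q.2 + 1) hi).filter fun r => i ≤ bcard A r.1 r.2 ∧ bsum A r.1 r.2 = bsum A q.1 q.2
  else ∅

lemma Blk3_T_card (A : Set ℕ) (lo hi x i : ℕ) (q : ℕ × ℕ) :
    ((Blk3_T A lo hi x i q).card : ℝ) =
      ind (q ∈ blk A lo hi ∧ bsum A q.1 q.2 ≤ x) *
        (cntGe A (q.2 + 1) hi i (bsum A q.1 q.2) : ℝ) := by
  unfold Blk3_T
  split_ifs with h
  · rw [ind_pos h, one_mul]
    rfl
  · rw [ind_neg h]
    simp

lemma Blk3_two (A : Set ℕ) {x s i : ℕ} (hs : 1 ≤ s) (hi : 1 ≤ i) :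
    (Blk3_S A (i * s) ((i + 1) * s) x).card * 1 ≤
      ((Ico (i * s) ((i + 1) * s) ×ˢ Ico (i * s) ((i + 1) * s)).sigma
        (Blk3_T A (i * s) ((i + 1) * s) x i)).card * 2 := by
  classical
  have hlo : 1 ≤ i * s := Nat.mul_pos hi hs
  refine card_mul_le_card_mul
    (fun (p : ℕ × ℕ) (t : Σ _ : ℕ × ℕ, ℕ × ℕ) => p.1 = t.1.1 ∧
      (bsum A p.1 p.2 = bsum A t.1.1 t.1.2 ∨
        bsum A p.1 p.2 + bsum A t.2.1 t.2.2 = bsum A t.1.1 t.2.2)) ?_ ?_
  · intro p hp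
    obtain ⟨hp1, hx, p', hp', hlt, he⟩ := mem_filter.1 hp
    obtain ⟨u, w, h1, h2, h3, h4, h5, h6⟩ := sep_pair hlo hp1 hp' hlt he
    refine card_pos.2 ⟨⟨(p.1, u), (w, p'.2)⟩, ?_⟩
    rw [mem_bipartiteAbove]
    refine ⟨mem_sigma.2 ⟨?_, ?_⟩, rfl, h6⟩
    · obtain ⟨a1, a2, a3, -, -⟩ := mem_blk.1 h1
      simp only at a1 a2 a3
      simp only [mem_product, mem_Ico]
      omega
    · have hx' := (mem_Icc.1 hx).2
      have hc := sep_card hs hi h1 h2 h3 h4
      unfold Blk3_T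
      rw [if_pos ⟨h1, h5.trans hx'⟩]
      obtain ⟨-, a2, a3, a4, a5⟩ := mem_blk.1 h2
      exact mem_filter.2 ⟨mem_blk.2 ⟨h3, a2, a3, a4, a5⟩, hc, h4.symm⟩
  · intro t _
    refine le_trans (card_le_card_of_injOn (fun p : ℕ × ℕ => bsum A p.1 p.2)
      (t := {bsum A t.1.1 t.1.2, bsum A t.1.1 t.2.2 - bsum A t.2.1 t.2.2}) ?_ ?_) card_le_two
    · intro p hp
      have hp := (mem_bipartiteBelow _).1 (mem_coe.1 hp)
      simp only [coe_insert, coe_singleton, Set.mem_insert_iff, Set.mem_singleton_iff]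
      rcases hp.2.2 with h | h
      · exact Or.inl h
      · exact Or.inr (by omega)
    · intro p hp q hq hpq
      have hp := (mem_bipartiteBelow _).1 (mem_coe.1 hp)
      have hq := (mem_bipartiteBelow _).1 (mem_coe.1 hq)
      have heq : p.1 = q.1 := hp.2.1.trans hq.2.1.symm
      obtain ⟨-, a2, -, -, a5⟩ := mem_blk.1 (mem_filter.1 hp.1).1
      obtain ⟨-, b2, -, -, b5⟩ := mem_blk.1 (mem_filter.1 hq.1).1
      refine Prod.ext heq (end_unique (A := A) a2 (heq ▸ b2) a5 b5 ?_)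
      simp only at hpq
      rw [hpq, heq]

/-- (b) of the paper. `cnt - ind` is at most the number of blocks with sum `n` that have a
block with the same sum and a larger first element (first elements are distinct by
`end_unique`); such a block is determined by the separated pair and one bit. -/
theorem pairs (A : Set ℕ) {x s i : ℕ} (hs : 1 ≤ s) (hi : 1 ≤ i) :
    Zi A x s i ≤ 2 * ∑ p ∈ Ico (i * s) ((i + 1) * s) ×ˢ Ico (i * s) ((i + 1) * s),
      ind (p ∈ blk A (i * s) ((i + 1) * s) ∧ bsum A p.1 p.2 ≤ x) *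
        (cntGe A (p.2 + 1) ((i + 1) * s) i (bsum A p.1 p.2) : ℝ) := by
  classical
  have h1 : Zi A x s i ≤ ((Blk3_S A (i * s) ((i + 1) * s) x).card : ℝ) := by
    unfold Zi
    refine (sum_le_sum fun n hn => Blk3_one A _ _ x hn).trans (le_of_eq ?_)
    rw [card_eq_sum_card_fiberwise (f := fun p : ℕ × ℕ => bsum A p.1 p.2) (t := Icc 1 x)]
    · push_cast
      rfl
    · intro p hp
      exact mem_coe.2 (mem_filter.1 (mem_coe.1 hp)).2.1
  have h2 := Blk3_two A (x := x) hs hi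
  rw [card_sigma] at h2
  have h3 : ((Blk3_S A (i * s) ((i + 1) * s) x).card : ℝ) ≤
      (∑ p ∈ Ico (i * s) ((i + 1) * s) ×ˢ Ico (i * s) ((i + 1) * s),
        ((Blk3_T A (i * s) ((i + 1) * s) x i p).card : ℝ)) * 2 := by
    rw [mul_one] at h2
    exact_mod_cast h2
  simp only [Blk3_T_card] at h3
  linarith

end Pool.Agent.Work.MP_9a1701_nt.P
end

-- merged part: Pool.Agent.Work.MP_9a1701_nt.P.Blk4
section
/-!
# Lower bound for the number of blocks in a cell; splitting by length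
-/

set_option autoImplicit false
open Finset Filter

namespace Pool.Agent.Work.MP_9a1701_nt.P

lemma Blk4_self {A : Set ℕ} {a : ℕ} (ha : a ∈ A) : bcard A a a = 1 := by
  classical
  unfold bcard
  rw [Icc_self, filter_singleton, if_pos ha, card_singleton]

lemma Blk4_succ (A : Set ℕ) {a m : ℕ} (h : a ≤ m) :
    (m + 1 ∈ A ∧ bcard A a (m + 1) = bcard A a m + 1) ∨ bcard A a (m + 1) = bcard A a m := by
  classical
  unfold bcard
  have hI : Icc a (m + 1) = insert (m + 1) (Icc a m) := by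
    ext t
    simp only [mem_Icc, mem_insert]
    omega
  rw [hI, filter_insert]
  by_cases hm : m + 1 ∈ A
  · left
    refine ⟨hm, ?_⟩
    rw [if_pos hm, card_insert_of_notMem]
    simp
  · right
    rw [if_neg hm]

lemma Blk4_end {A : Set ℕ} {a j : ℕ} (ha : a ∈ A) (h1 : 1 ≤ j) (m : ℕ) (hm : a ≤ m) :
    j ≤ bcard A a m → ∃ b, a ≤ b ∧ b ≤ m ∧ b ∈ A ∧ bcard A a b = j := by
  induction m, hm using Nat.le_induction with
  | base =>
    intro h
    rw [Blk4_self ha] at h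
    exact ⟨a, le_rfl, le_rfl, ha, by rw [Blk4_self ha]; omega⟩
  | succ m hm ih =>
    intro h
    by_cases hj : j ≤ bcard A a m
    · obtain ⟨b, h2, h3, h4, h5⟩ := ih hj
      exact ⟨b, h2, by omega, h4, h5⟩
    · rcases Blk4_succ A hm with ⟨h2, h3⟩ | h3
      · exact ⟨m + 1, by omega, le_rfl, h2, by omega⟩
      · omega

open Classical in
/-- For `a ∈ A`, `b ↦ bcard A a b` maps `A ∩ [a, hi)` bijectively onto `[1, m]`,
`m = bcard A a (hi - 1)`. -/
lemma exists_end {A : Set ℕ} {a hi j : ℕ} (ha : a ∈ A) (hahi : a < hi) (h1 : 1 ≤ j)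
    (h2 : j ≤ bcard A a (hi - 1)) : ∃ b, a ≤ b ∧ b < hi ∧ b ∈ A ∧ bcard A a b = j := by
  obtain ⟨b, h3, h4, h5, h6⟩ := Blk4_end ha h1 (hi - 1) (by omega) h2
  exact ⟨b, h3, by omega, h5, h6⟩

/-- (e) of the paper. Let `κ = x / hi` (natural division). At most `κ` elements `a` of
`A ∩ [lo, hi)` have `bcard A a (hi - 1) < κ`; each other one starts a block of every length
`j ∈ (n0 / lo, κ]`, with sum in `(n0, x]`. -/
theorem mass (A : Set ℕ) {lo hi x n0 : ℕ} (hlo : 1 ≤ lo) (hh : lo ≤ hi) :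
    (∑ t ∈ Ico lo hi, ind (t ∈ A)) * ((x : ℝ) / hi - 1 - n0 / lo) - ((x : ℝ) / lo) ^ 2 ≤
      ∑ n ∈ Ioc n0 x, (cnt A lo hi n : ℝ) := by
  classical
  have hhi : 1 ≤ hi := hlo.trans hh
  have hlo' : (0 : ℝ) < lo := by exact_mod_cast hlo
  have hhi' : (0 : ℝ) < hi := by exact_mod_cast hhi
  set κ := x / hi with hκ
  set μ := n0 / lo with hμ
  set S := (Ico lo hi).filter (fun t => t ∈ A) with hS
  set G := S.filter (fun a => κ ≤ bcard A a (hi - 1)) with hG
  set B := S.filter (fun a => ¬ κ ≤ bcard A a (hi - 1)) with hB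
  set F := (blk A lo hi).filter (fun p => bsum A p.1 p.2 ∈ Ioc n0 x) with hF
  have hN : ∑ t ∈ Ico lo hi, ind (t ∈ A) = (S.card : ℝ) := by
    rw [hS, card_filter]
    push_cast
    refine sum_congr rfl fun t _ => ?_
    by_cases ht : t ∈ A
    · rw [ind_pos ht, if_pos ht]
    · rw [ind_neg ht, if_neg ht]
  have hGB : G.card + B.card = S.card := card_filter_add_card_filter_not _
  have hBκ : B.card ≤ κ := by
    rw [← Finset.card_range κ]
    refine card_le_card_of_injOn (fun a => bcard A a (hi - 1)) ?_ ?_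
    · intro a ha
      have := (mem_filter.1 (mem_coe.1 ha)).2
      simp only [coe_range, Set.mem_Iio]
      omega
    · intro a ha a' ha' hE
      have h1 := mem_filter.1 (mem_filter.1 (mem_coe.1 ha)).1
      have h2 := mem_filter.1 (mem_filter.1 (mem_coe.1 ha')).1
      have h3 := mem_Ico.1 h1.1
      have h4 := mem_Ico.1 h2.1
      simp only at hE
      rcases lt_trichotomy a a' with h | h | h
      · have := bcard_lt_left (A := A) (b := hi - 1) (by omega) h h1.2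
        omega
      · exact h
      · have := bcard_lt_left (A := A) (b := hi - 1) (by omega) h h2.2
        omega
  have hsum : ∑ n ∈ Ioc n0 x, (cnt A lo hi n : ℝ) = (F.card : ℝ) := by
    rw [card_eq_sum_card_fiberwise (f := fun p : ℕ × ℕ => bsum A p.1 p.2) (s := F)
      (t := Ioc n0 x) (fun p hp => mem_coe.2 (mem_filter.1 (mem_coe.1 hp)).2)]
    push_cast
    refine sum_congr rfl fun n hn => ?_
    unfold cnt
    congr 2
    ext p
    simp only [hF, mem_filter]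
    constructor
    · rintro ⟨h1, h2⟩
      exact ⟨⟨h1, by rw [h2]; exact hn⟩, h2⟩
    · rintro ⟨⟨h1, -⟩, h2⟩
      exact ⟨h1, h2⟩
  have hGF : G.card * (κ - μ) ≤ F.card := by
    rw [← Nat.card_Ioc μ κ, ← card_product]
    refine card_le_card_of_surjOn (fun p : ℕ × ℕ => (p.1, bcard A p.1 p.2)) ?_
    rintro ⟨a, j⟩ hp
    obtain ⟨ha, hj⟩ := mem_product.1 (mem_coe.1 hp)
    obtain ⟨ha1, ha2⟩ := mem_filter.1 ha
    obtain ⟨ha3, ha4⟩ := mem_filter.1 ha1
    obtain ⟨ha5, ha6⟩ := mem_Ico.1 ha3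
    obtain ⟨hj1, hj2⟩ := mem_Ioc.1 hj
    simp only at ha2 ha4 ha5 ha6 hj1 hj2
    obtain ⟨b, hb1, hb2, hb3, hb4⟩ := exists_end (j := j) ha4 ha6
      (Nat.lt_of_le_of_lt (Nat.zero_le μ) hj1) (hj2.trans ha2)
    have hp' : (a, b) ∈ blk A lo hi := mem_blk.2 ⟨ha5, hb1, hb2, ha4, hb3⟩
    obtain ⟨-, hc1, hc2⟩ := card_range hp'
    simp only [hb4] at hc1 hc2
    refine ⟨(a, b), mem_coe.2 (mem_filter.2 ⟨hp', mem_Ioc.2 ⟨?_, ?_⟩⟩), by simp only [hb4]⟩
    · have h1 : n0 < (μ + 1) * lo := by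
        rw [hμ, mul_comm]
        exact Nat.lt_mul_div_succ n0 hlo
      have h2 : (μ + 1) * lo ≤ j * lo := Nat.mul_le_mul_right _ hj1
      simp only
      omega
    · have h1 : κ * hi ≤ x := Nat.div_mul_le_self x hi
      have h2 : j * hi ≤ κ * hi := Nat.mul_le_mul_right _ hj2
      simp only
      omega
  have hκ1 : (κ : ℝ) ≤ (x : ℝ) / lo := by
    refine (Nat.cast_div_le (m := x) (n := hi)).trans ?_
    have : (lo : ℝ) ≤ hi := by exact_mod_cast hh
    gcongr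
  have hκ2 : (x : ℝ) / hi - 1 ≤ κ := by
    have h1 : x < hi * (κ + 1) := Nat.lt_mul_div_succ x hhi
    have h2 : (x : ℝ) < hi * (κ + 1) := by exact_mod_cast h1
    rw [sub_le_iff_le_add, div_le_iff₀ hhi']
    linarith
  have hμ1 : (μ : ℝ) ≤ (n0 : ℝ) / lo := Nat.cast_div_le
  have hd1 : (x : ℝ) / hi - 1 - n0 / lo ≤ ((κ - μ : ℕ) : ℝ) := by
    have h1 : κ ≤ (κ - μ) + μ := by omega
    have h2 : (κ : ℝ) ≤ ((κ - μ : ℕ) : ℝ) + μ := by exact_mod_cast h1
    linarith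
  have hd2 : ((κ - μ : ℕ) : ℝ) ≤ (x : ℝ) / lo :=
    le_trans (by exact_mod_cast Nat.sub_le κ μ) hκ1
  have hB1 : (B.card : ℝ) ≤ (x : ℝ) / lo := le_trans (by exact_mod_cast hBκ) hκ1
  have hGF' : (G.card : ℝ) * ((κ - μ : ℕ) : ℝ) ≤ F.card := by exact_mod_cast hGF
  have hGB' : (G.card : ℝ) + B.card = S.card := by exact_mod_cast hGB
  rw [hN, hsum]
  have h1 : (S.card : ℝ) * ((x : ℝ) / hi - 1 - n0 / lo) ≤ S.card * ((κ - μ : ℕ) : ℝ) :=
    mul_le_mul_of_nonneg_left hd1 (Nat.cast_nonneg _)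
  have h2 : (B.card : ℝ) * ((κ - μ : ℕ) : ℝ) ≤ ((x : ℝ) / lo) ^ 2 := by
    rw [sq]
    exact mul_le_mul hB1 hd2 (Nat.cast_nonneg _) (by positivity)
  rw [← hGB', add_mul] at h1
  rw [← hGB']
  linarith

lemma cntGe_eq_sum (A : Set ℕ) {lo hi : ℕ} (hlo : 1 ≤ lo) {z : ℕ} (hz : lo ≤ z) (M n : ℕ) :
    cntGe A z hi M n =
      ∑ K ∈ (Icc 1 n).filter (fun K => M ≤ K ∧ K * lo ≤ n ∧ n < K * hi), cntK A z hi K n := by
  classical
  unfold cntGe
  rw [card_eq_sum_card_fiberwise (f := fun p : ℕ × ℕ => bcard A p.1 p.2)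
    (t := (Icc 1 n).filter (fun K => M ≤ K ∧ K * lo ≤ n ∧ n < K * hi))]
  · refine sum_congr rfl fun K hK => ?_
    unfold cntK
    congr 1
    ext p
    have hM := (mem_filter.1 hK).2.1
    simp only [mem_filter]
    constructor
    · rintro ⟨⟨h1, -, h2⟩, h3⟩
      exact ⟨h1, h3, h2⟩
    · rintro ⟨h1, h3, h2⟩
      exact ⟨⟨h1, by omega, h2⟩, h3⟩
  · intro p hp
    obtain ⟨h1, h2, h3⟩ := mem_filter.1 (mem_coe.1 hp)
    obtain ⟨h4, h5, h6⟩ := card_range h1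
    rw [h3] at h5 h6
    have h7 : bcard A p.1 p.2 * lo ≤ bcard A p.1 p.2 * z := Nat.mul_le_mul_left _ hz
    have h8 : bcard A p.1 p.2 * 1 ≤ bcard A p.1 p.2 * lo := Nat.mul_le_mul_left _ hlo
    have h9 : bcard A p.1 p.2 ≤ n := by omega
    exact mem_coe.2 (mem_filter.2 ⟨mem_Icc.2 ⟨h4, h9⟩, h2, h7.trans h5, h6⟩)

lemma cnt_eq_cntGe (A : Set ℕ) {lo hi M n : ℕ} (h : M * hi ≤ n) :
    cnt A lo hi n = cntGe A lo hi (M + 1) n := by
  classical
  unfold cnt cntGe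
  congr 1
  refine filter_congr fun p hp => ?_
  obtain ⟨-, -, h6⟩ := card_range hp
  constructor
  · intro h3
    refine ⟨?_, h3⟩
    rw [h3] at h6
    exact Nat.lt_of_mul_lt_mul_right (lt_of_le_of_lt h h6)
  · exact fun h3 => h3.2

lemma cntGe_anti (A : Set ℕ) (lo hi : ℕ) {M M' : ℕ} (h : M ≤ M') (n : ℕ) :
    cntGe A lo hi M' n ≤ cntGe A lo hi M n := by
  classical
  unfold cntGe
  refine card_le_card fun p hp => ?_
  obtain ⟨h1, h2, h3⟩ := mem_filter.1 hp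
  exact mem_filter.2 ⟨h1, h.trans h2, h3⟩

/-- If `K1` is the least admissible length, all lie in `[K1, K1 + K1 / i]`. -/
lemma sum_inv_le {s i M n : ℕ} (hs : 1 ≤ s) (hM : 1 ≤ M) (hi : M ≤ i) :
    ∑ K ∈ (Icc 1 n).filter (fun K => M ≤ K ∧ K * (i * s) ≤ n ∧ n < K * ((i + 1) * s)),
      1 / (K : ℝ) ≤ 2 / M := by
  set S := (Icc 1 n).filter (fun K => M ≤ K ∧ K * (i * s) ≤ n ∧ n < K * ((i + 1) * s)) with hS
  have hM' : (0 : ℝ) < M := by exact_mod_cast hM
  rcases S.eq_empty_or_nonempty with h | h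
  · rw [h, sum_empty]
    positivity
  · set K1 := S.min' h with hK1
    have hK1m := mem_filter.1 (S.min'_mem h)
    rw [← hK1] at hK1m
    obtain ⟨-, h1, -, h3⟩ := hK1m
    have hi0 : 0 < i := by omega
    have hsub : S ⊆ Icc K1 (K1 + K1 / i) := by
      intro K hK
      have h4 : K1 ≤ K := S.min'_le K hK
      obtain ⟨-, -, h5, -⟩ := mem_filter.1 hK
      refine mem_Icc.2 ⟨h4, ?_⟩
      obtain ⟨d, rfl⟩ := Nat.exists_eq_add_of_le h4
      have h6 : (K1 + d) * i * s < K1 * (i + 1) * s := by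
        rw [mul_assoc, mul_assoc]
        omega
      have h7 : (K1 + d) * i < K1 * (i + 1) := Nat.lt_of_mul_lt_mul_right h6
      have h8 : d * i ≤ K1 := by nlinarith
      exact Nat.add_le_add_left ((Nat.le_div_iff_mul_le hi0).2 h8) _
    have hcard : S.card ≤ K1 / i + 1 := by
      have := card_le_card hsub
      rw [Nat.card_Icc] at this
      generalize K1 / i = d at this ⊢
      omega
    have hK1' : (M : ℝ) ≤ K1 := by exact_mod_cast h1
    have hi' : (M : ℝ) ≤ i := by exact_mod_cast hi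
    have hK0 : (0 : ℝ) < K1 := hM'.trans_le hK1'
    have hi0' : (0 : ℝ) < i := hM'.trans_le hi'
    have hcard' : (S.card : ℝ) ≤ (K1 : ℝ) / i + 1 := by
      have h9 : (S.card : ℝ) ≤ ((K1 / i : ℕ) : ℝ) + 1 := by exact_mod_cast hcard
      have h10 : ((K1 / i : ℕ) : ℝ) ≤ (K1 : ℝ) / i := Nat.cast_div_le
      linarith
    calc ∑ K ∈ S, 1 / (K : ℝ) ≤ ∑ _K ∈ S, 1 / (K1 : ℝ) := by
          refine sum_le_sum fun K hK => ?_
          have h4 : (K1 : ℝ) ≤ K := by exact_mod_cast S.min'_le K hK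
          exact one_div_le_one_div_of_le hK0 h4
      _ = S.card * (1 / (K1 : ℝ)) := by rw [sum_const, nsmul_eq_mul]
      _ ≤ ((K1 : ℝ) / i + 1) * (1 / (K1 : ℝ)) := by gcongr
      _ = 1 / (i : ℝ) + 1 / (K1 : ℝ) := by field_simp
      _ ≤ 1 / (M : ℝ) + 1 / (M : ℝ) :=
          add_le_add (one_div_le_one_div_of_le hM' hi') (one_div_le_one_div_of_le hM' hK1')
      _ = 2 / M := by ring

end Pool.Agent.Work.MP_9a1701_nt.P
end

-- merged part: Pool.Agent.Work.MP_9a1701_nt.P.Core1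
section
/-!
# Consequences of the point bound; the expected number of blocks
-/

set_option autoImplicit false
open Finset Filter

namespace Pool.Agent.Work.MP_9a1701_nt.P

variable {D : Set ℕ} {ρ : ℕ → ℝ} {x s L i1 : ℕ}

lemma Core1_sum_ind {α : Type*} (T S : Finset α) (P : α → Prop) (h : ∀ p ∈ T, P p → p ∈ S) :
    ∑ p ∈ T, ind (P p) ≤ (S.card : ℝ) := by
  classical
  unfold ind
  rw [sum_boole]
  exact_mod_cast card_le_card fun p hp => h p (mem_filter.1 hp).1 (mem_filter.1 hp).2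

lemma Core1_split (f : ℕ → ℝ) (s : ℕ) {L i1 : ℕ} (h : L ≤ i1) :
    ∑ t ∈ Ico (L * s) (i1 * s), f t = ∑ i ∈ Ico L i1, ∑ t ∈ Ico (i * s) ((i + 1) * s), f t := by
  induction i1, h using Nat.le_induction with
  | base => simp
  | succ m hm ih =>
    rw [sum_Ico_succ_top hm, ← ih, sum_Ico_consecutive _ (Nat.mul_le_mul_right _ hm)
      (Nat.mul_le_mul_right _ (Nat.le_succ m))]

/-- `cntGe_eq_sum`, `Ex_sum`, the point bound and `sum_inv_le`. -/
lemma pt_ge (h : HPT D ρ x s L i1) (hs : 1 ≤ s) (hL : 1 ≤ L) {i : ℕ} (hi : i ∈ Ico L i1)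
    {z : ℕ} (hz : i * s ≤ z) {M : ℕ} (h1 : L ≤ M) (h2 : M ≤ i) (n : ℕ) :
    Ex ρ (Icc 1 x) (fun Q => (cntGe (cfg D Q) z ((i + 1) * s) M n : ℝ)) ≤ 8 / M := by
  have hiL := (mem_Ico.1 hi).1
  have hlo : 1 ≤ i * s := Nat.mul_pos (by omega) hs
  have h0 : ∀ Q : Finset ℕ, (cntGe (cfg D Q) z ((i + 1) * s) M n : ℝ) =
      ∑ K ∈ (Icc 1 n).filter (fun K => M ≤ K ∧ K * (i * s) ≤ n ∧ n < K * ((i + 1) * s)),
        (cntK (cfg D Q) z ((i + 1) * s) K n : ℝ) := by
    intro Q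
    rw [cntGe_eq_sum _ hlo hz]
    push_cast
    rfl
  simp only [h0]
  rw [Ex_sum]
  have h3 := sum_inv_le (s := s) (i := i) (M := M) (n := n) hs (by omega) h2
  calc _ ≤ ∑ K ∈ (Icc 1 n).filter (fun K => M ≤ K ∧ K * (i * s) ≤ n ∧ n < K * ((i + 1) * s)),
        4 * (1 / (K : ℝ)) := by
        refine sum_le_sum fun K hK => ?_
        rw [mul_one_div]
        exact h i hi z hz K (h1.trans (mem_filter.1 hK).2.1) n
    _ ≤ 4 * (2 / M) := by
        rw [← mul_sum]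
        exact mul_le_mul_of_nonneg_left h3 (by norm_num)
    _ = 8 / M := by ring

/-- `cnt_eq_cntGe` with `M = L`, `cntGe_anti`, `pt_ge`. -/
lemma cell_mean_le (hρ : Prob ρ) (h : HPT D ρ x s L i1) (hs : 1 ≤ s) (hL : 1 ≤ L) {i : ℕ}
    (hi : i ∈ Ico L i1) {n : ℕ} (hn : L * (i1 * s) ≤ n) :
    Ex ρ (Icc 1 x) (fun Q => (cnt (cfg D Q) (i * s) ((i + 1) * s) n : ℝ)) ≤ 8 / L := by
  obtain ⟨hiL, hi1⟩ := mem_Ico.1 hi
  have h1 : L * ((i + 1) * s) ≤ n :=
    le_trans (Nat.mul_le_mul_left _ (Nat.mul_le_mul_right _ hi1)) hn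
  refine le_trans (Ex_mono hρ fun Q _ => ?_) (pt_ge h hs hL hi le_rfl le_rfl hiL n)
  rw [cnt_eq_cntGe _ h1]
  exact_mod_cast cntGe_anti _ _ _ (Nat.le_succ L) n

/-- `pairs`, then `Ex_mul_le` with `V = range (p.2 + 1)` for each `p`, `pt_ge` with `M = i`,
`cell_count`: the cell `i` contributes at most `2 * (8 / i) * (x / i)`; `sum_inv_sq_le`. -/
theorem Ex_Z_le (hρ : Prob ρ) (h : HPT D ρ x s L i1) (hs : 1 ≤ s) (hL : 1 ≤ L) :
    Ex ρ (Icc 1 x) (fun Q => ∑ i ∈ Ico L i1, Zi (cfg D Q) x s i) ≤ 32 * x / L := by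
  rw [Ex_sum]
  have key : ∀ i ∈ Ico L i1, Ex ρ (Icc 1 x) (fun Q => Zi (cfg D Q) x s i) ≤
      16 * x * (1 / (i : ℝ) ^ 2) := by
    intro i hi
    have hiL := (mem_Ico.1 hi).1
    have hi1 : 1 ≤ i := by omega
    have hi0 : (0 : ℝ) < i := by exact_mod_cast hi1
    refine le_trans (Ex_mono hρ fun Q _ => pairs (cfg D Q) (x := x) hs hi1) ?_
    rw [Ex_const_mul, Ex_sum]
    have h1 : ∀ p ∈ Ico (i * s) ((i + 1) * s) ×ˢ Ico (i * s) ((i + 1) * s),
        Ex ρ (Icc 1 x) (fun Q => ind (p ∈ blk (cfg D Q) (i * s) ((i + 1) * s) ∧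
          bsum (cfg D Q) p.1 p.2 ≤ x) *
          (cntGe (cfg D Q) (p.2 + 1) ((i + 1) * s) i (bsum (cfg D Q) p.1 p.2) : ℝ)) ≤
        8 / i * Ex ρ (Icc 1 x) (fun Q => ind (p ∈ blk (cfg D Q) (i * s) ((i + 1) * s) ∧
          bsum (cfg D Q) p.1 p.2 ≤ x)) := by
      intro p hp
      have hp2 := (mem_Ico.1 (mem_product.1 hp).2).1
      have hlow : ∀ (Q : Finset ℕ) (t : ℕ), t ≤ p.2 →
          (t ∈ cfg D Q ↔ t ∈ cfg D (Q ∩ range (p.2 + 1))) := by
        intro Q t ht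
        simp only [mem_cfg, mem_inter, mem_range, Nat.lt_succ_iff, ht, and_true]
      have hsum : ∀ Q : Finset ℕ, bsum (cfg D Q) p.1 p.2 =
          bsum (cfg D (Q ∩ range (p.2 + 1))) p.1 p.2 :=
        fun Q => bsum_congr fun t _ ht => hlow Q t ht
      refine Ex_mul_le hρ (range (p.2 + 1)) _ (fun Q => bsum (cfg D Q) p.1 p.2)
        (fun Q n => (cntGe (cfg D Q) (p.2 + 1) ((i + 1) * s) i n : ℝ)) _
        (fun Q => ind_nonneg _) (fun Q => ind_congr ?_) hsum (fun Q n => ?_) fun n => ?_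
      · rw [← hsum Q, mem_blk, mem_blk]
        refine and_congr_left fun _ => and_congr_right fun _ => and_congr_right fun h12 =>
          and_congr_right fun _ => ?_
        rw [hlow Q p.1 h12, hlow Q p.2 le_rfl]
      · congr 1
        refine cntGe_congr (fun t ht _ => ?_) _ _
        have : ¬ t < p.2 + 1 := by omega
        simp only [mem_cfg, Finset.mem_sdiff, mem_range, this, not_false_eq_true, and_true]
      · exact pt_ge h hs hL hi (by omega) hiL le_rfl n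
    refine le_trans (mul_le_mul_of_nonneg_left (sum_le_sum h1) (by norm_num)) ?_
    rw [← mul_sum, ← Ex_sum]
    have h2 : Ex ρ (Icc 1 x) (fun Q => ∑ p ∈ Ico (i * s) ((i + 1) * s) ×ˢ Ico (i * s) ((i + 1) * s),
        ind (p ∈ blk (cfg D Q) (i * s) ((i + 1) * s) ∧ bsum (cfg D Q) p.1 p.2 ≤ x)) ≤
        (x : ℝ) / i := by
      refine Ex_le_const hρ fun Q _ => le_trans ?_ (cell_count (cfg D Q) (x := x) hs hi1)
      exact Core1_sum_ind _ _ _ fun p _ hp => mem_filter.2 hp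
    calc _ ≤ 2 * (8 / (i : ℝ) * ((x : ℝ) / i)) := by gcongr
      _ = _ := by field_simp; ring
  refine le_trans (sum_le_sum key) ?_
  rw [← mul_sum]
  calc _ ≤ 16 * (x : ℝ) * (2 / L) := mul_le_mul_of_nonneg_left (sum_inv_sq_le hL) (by positivity)
    _ = _ := by ring

/-- A block of length `K` with sum `n` lies in the only cell with `K i s ≤ n < K (i+1) s`. -/
theorem lam_le (hs : 1 ≤ s) (hL : 1 ≤ L) {n : ℕ} (hn : L * (i1 * s) ≤ n) (hx : n ≤ x)
    (u : ℕ → ℝ) (hu : ∀ K ∈ Ioc L (x / (L * s)), 0 ≤ u K)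
    (h : ∀ i ∈ Ico L i1, ∀ K : ℕ, L < K → K * (i * s) ≤ n → n < K * ((i + 1) * s) →
      Ex ρ (Icc 1 x) (fun Q => (cntK (cfg D Q) (i * s) ((i + 1) * s) K n : ℝ)) ≤ u K) :
    lam D ρ x s L i1 n ≤ ∑ K ∈ Ioc L (x / (L * s)), u K := by
  set F : ℕ → Finset ℕ := fun i => (Icc 1 n).filter
    (fun K => L + 1 ≤ K ∧ K * (i * s) ≤ n ∧ n < K * ((i + 1) * s)) with hF
  have h1 : ∀ i ∈ Ico L i1, Ex ρ (Icc 1 x)
      (fun Q => (cnt (cfg D Q) (i * s) ((i + 1) * s) n : ℝ)) ≤ ∑ K ∈ F i, u K := by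
    intro i hi
    obtain ⟨hiL, hi1⟩ := mem_Ico.1 hi
    have hlo : 1 ≤ i * s := Nat.mul_pos (by omega) hs
    have h2 : L * ((i + 1) * s) ≤ n :=
      le_trans (Nat.mul_le_mul_left _ (Nat.mul_le_mul_right _ hi1)) hn
    have h0 : ∀ Q : Finset ℕ, (cnt (cfg D Q) (i * s) ((i + 1) * s) n : ℝ) =
        ∑ K ∈ F i, (cntK (cfg D Q) (i * s) ((i + 1) * s) K n : ℝ) := by
      intro Q
      rw [cnt_eq_cntGe _ h2, cntGe_eq_sum _ hlo le_rfl]
      push_cast
      rfl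
    simp only [h0]
    rw [Ex_sum]
    refine sum_le_sum fun K hK => ?_
    obtain ⟨-, a1, a2, a3⟩ := mem_filter.1 hK
    exact h i hi K a1 a2 a3
  have hlt : ∀ i j, i < j → Disjoint (F i) (F j) := by
    intro i j hij
    rw [disjoint_left]
    intro K hK hK'
    obtain ⟨-, -, -, a3⟩ := mem_filter.1 hK
    obtain ⟨-, -, b2, -⟩ := mem_filter.1 hK'
    have : K * ((i + 1) * s) ≤ K * (j * s) :=
      Nat.mul_le_mul_left _ (Nat.mul_le_mul_right _ hij)
    omega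
  have hdis : Set.PairwiseDisjoint (↑(Ico L i1) : Set ℕ) F := by
    intro i _ j _ hij
    rcases lt_or_gt_of_ne hij with h3 | h3
    · exact hlt i j h3
    · exact (hlt j i h3).symm
  unfold lam
  refine le_trans (sum_le_sum h1) ?_
  rw [← sum_biUnion hdis]
  refine sum_le_sum_of_subset_of_nonneg ?_ fun K hK _ => hu K hK
  intro K hK
  obtain ⟨i, hi, hK⟩ := mem_biUnion.1 hK
  obtain ⟨-, a1, a2, -⟩ := mem_filter.1 hK
  refine mem_Ioc.2 ⟨a1, ?_⟩
  rw [Nat.le_div_iff_mul_le (Nat.mul_pos hL hs)]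
  exact le_trans (Nat.mul_le_mul_left _ (Nat.mul_le_mul_right _ (mem_Ico.1 hi).1)) (a2.trans hx)

/-- `mass` in every cell, `Ex_mem_cfg`; for `t` in the cell `i`:
`x / hi ≥ (x / t) (1 - 1 / L)`, `n0 / lo ≤ 2 n0 / t`. -/
theorem mass_total (hρ : Prob ρ) (hs : 1 ≤ s) (hL : 1 ≤ L) (hLi : L ≤ i1) (hx : x ≤ s ^ 2)
    (hi : i1 * s ≤ x) (n0 : ℕ) :
    ((x : ℝ) - x / L - 2 * n0) * (∑ t ∈ Ico (L * s) (i1 * s), pit D ρ t / t) - i1 * s - 2 * x / L
      ≤ ∑ n ∈ Ioc n0 x, lam D ρ x s L i1 n := by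
  have hs0 : (0 : ℝ) < s := by exact_mod_cast hs
  have hL0 : (1 : ℝ) ≤ L := by exact_mod_cast hL
  have hx0 : (0 : ℝ) ≤ x := Nat.cast_nonneg _
  have hn0 : (0 : ℝ) ≤ n0 := Nat.cast_nonneg _
  set c : ℝ := (x : ℝ) - x / L - 2 * n0 with hc
  have key : ∀ i ∈ Ico L i1,
      ∑ t ∈ Ico (i * s) ((i + 1) * s), (c * (pit D ρ t / t) - 1) - x * (1 / (i : ℝ) ^ 2) ≤
        ∑ n ∈ Ioc n0 x, Ex ρ (Icc 1 x)
          fun Q => (cnt (cfg D Q) (i * s) ((i + 1) * s) n : ℝ) := by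
    intro i hi'
    obtain ⟨hiL, hi1⟩ := mem_Ico.1 hi'
    have hlo : 1 ≤ i * s := Nat.mul_pos (by omega) hs
    have hh : i * s ≤ (i + 1) * s := Nat.mul_le_mul_right _ (Nat.le_succ i)
    have hix : (i + 1) * s ≤ x := le_trans (Nat.mul_le_mul_right _ hi1) hi
    have hiR : (L : ℝ) ≤ i := by exact_mod_cast hiL
    have hi0 : (0 : ℝ) < i := by linarith
    rw [← Ex_sum]
    refine le_trans ?_ (Ex_mono hρ fun Q _ => mass (cfg D Q) (x := x) (n0 := n0) hlo hh)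
    rw [Ex_sub, Ex_const, Ex_mul_const, Ex_sum, sum_mul]
    refine sub_le_sub (sum_le_sum fun t ht => ?_) ?_
    · obtain ⟨t1, t2⟩ := mem_Ico.1 ht
      rw [Ex_mem_cfg D (mem_Icc.2 ⟨by omega, by omega⟩)]
      have a1 : (i : ℝ) * s ≤ t := by exact_mod_cast t1
      have a2 : (t : ℝ) ≤ (i + 1) * s := by exact_mod_cast t2.le
      have his : 0 < (i : ℝ) * s := by positivity
      have ht0 : (0 : ℝ) < t := by linarith
      have b1 : ((x : ℝ) - x / L) / t ≤ x / ((i + 1) * s) := by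
        have e1 : (x : ℝ) - x / L ≤ x * (i / (i + 1)) := by
          have e2 : (x : ℝ) / (i + 1) ≤ x / L :=
            div_le_div_of_nonneg_left hx0 (by linarith) (by linarith)
          have e3 : (x : ℝ) * (i / (i + 1)) = x - x / (i + 1) := by
            field_simp
            ring
          linarith
        calc ((x : ℝ) - x / L) / t ≤ x * (i / (i + 1)) / t := by gcongr
          _ ≤ x * (i / (i + 1)) / (i * s) := by gcongr
          _ = x / ((i + 1) * s) := by field_simp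
      have b2 : (n0 : ℝ) / (i * s) ≤ 2 * n0 / t := by
        rw [div_le_div_iff₀ his ht0]
        have e4 : (t : ℝ) ≤ 2 * (i * s) := by nlinarith
        nlinarith
      have b3 : c / t ≤ x / ((i + 1) * s) - n0 / (i * s) := by
        have : c / t = ((x : ℝ) - x / L) / t - 2 * n0 / t := by rw [hc]; ring
        linarith
      have p0 := pit_nonneg hρ D t
      have p1 := pit_le_one hρ D t
      have b4 := mul_le_mul_of_nonneg_left b3 p0
      push_cast
      have e5 : c * (pit D ρ t / t) = pit D ρ t * (c / t) := by ring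
      rw [e5]
      nlinarith
    · have hxs : (x : ℝ) ≤ (s : ℝ) ^ 2 := by exact_mod_cast hx
      push_cast
      rw [div_pow, mul_one_div, div_le_div_iff₀ (by positivity) (by positivity), mul_pow]
      have := mul_le_mul_of_nonneg_left hxs (show 0 ≤ (x : ℝ) * (i : ℝ) ^ 2 by positivity)
      nlinarith
  unfold lam
  rw [sum_comm]
  refine le_trans ?_ (sum_le_sum key)
  rw [sum_sub_distrib, ← Core1_split _ s hLi, ← mul_sum, sum_sub_distrib, ← mul_sum, sum_const,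
    Nat.card_Ico, nsmul_eq_mul, mul_one]
  have h1 : ((i1 * s - L * s : ℕ) : ℝ) ≤ i1 * s := by exact_mod_cast Nat.sub_le _ _
  have h2 : (x : ℝ) * ∑ i ∈ Ico L i1, 1 / (i : ℝ) ^ 2 ≤ x * (2 / L) :=
    mul_le_mul_of_nonneg_left (sum_inv_sq_le hL) hx0
  have h3 : (x : ℝ) * (2 / L) = 2 * x / L := by ring
  linarith

end Pool.Agent.Work.MP_9a1701_nt.P
end

-- merged part: Pool.Agent.Work.MP_9a1701_nt.P.Core2
section
/-!
# The mean of the truncated count
-/

set_option autoImplicit false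
open Finset Filter

namespace Pool.Agent.Work.MP_9a1701_nt.P

variable {D : Set ℕ} {ρ : ℕ → ℝ} {x s L i1 : ℕ}

lemma Core2_ind_le (c : ℕ) : ind (c ≠ 0) ≤ (c : ℝ) := by
  by_cases h : c = 0
  · rw [ind_neg (by simpa using h)]
    exact Nat.cast_nonneg _
  · rw [ind_pos h]
    exact_mod_cast Nat.one_le_iff_ne_zero.mpr h

lemma Core2_disj {i j : ℕ} (s : ℕ) (h : i ≠ j) :
    Disjoint (Ico (i * s) ((i + 1) * s)) (Ico (j * s) ((j + 1) * s)) := by
  rw [Finset.disjoint_left]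
  intro t h1 h2
  rw [mem_Ico] at h1 h2
  rcases lt_or_gt_of_ne h with h | h
  · have : (i + 1) * s ≤ j * s := Nat.mul_le_mul_right s h
    omega
  · have : (j + 1) * s ≤ i * s := Nat.mul_le_mul_right s h
    omega

lemma Core2_card (I : Finset ℕ) (P : ℕ → Prop) [DecidablePred P] :
    (((I.filter P).card : ℕ) : ℝ) = ∑ n ∈ I, ind (P n) := by
  rw [card_filter]
  push_cast
  refine sum_congr rfl fun n _ => ?_
  by_cases h : P n
  · rw [if_pos h, ind_pos h]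
  · rw [if_neg h, ind_neg h]

/-- `lecam` with the cells `Ico (i s) ((i+1) s)`, `poi_lip`, and `p i ≤ lam i ≤ 8 / L`. -/
lemma mean_point (hρ : Prob ρ) (h : HPT D ρ x s L i1) (hs : 1 ≤ s) (hL : 1 ≤ L)
    (hi : i1 * s ≤ x) {n : ℕ} (hn : L * (i1 * s) ≤ n) (k : ℕ) {l0 : ℝ} (hl : 0 ≤ l0) :
    |Ex ρ (Icc 1 x) (fun Q => ind (Yc (cfg D Q) s L i1 n = k)) - poi k l0| ≤
      16 / L * lam D ρ x s L i1 n + |lam D ρ x s L i1 n - l0| +
        ∑ i ∈ Ico L i1, Ex ρ (Icc 1 x) fun Q =>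
          (cnt (cfg D Q) (i * s) ((i + 1) * s) n : ℝ) -
            ind (cnt (cfg D Q) (i * s) ((i + 1) * s) n ≠ 0) := by
  have hLC := lecam (U := Icc 1 x) hρ (Ico L i1) (fun i => Ico (i * s) ((i + 1) * s))
    (fun i _ j _ hij => Core2_disj s hij)
    (by
      intro i hi0 t ht
      rw [mem_Ico] at hi0 ht
      rw [mem_Icc]
      have h1 : (i + 1) * s ≤ i1 * s := Nat.mul_le_mul_right s hi0.2
      have h2 : 1 * 1 ≤ i * s := Nat.mul_le_mul (hL.trans hi0.1) hs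
      omega)
    (fun i Q => cnt (cfg D Q) (i * s) ((i + 1) * s) n ≠ 0)
    (by
      intro i _ Q
      have : cnt (cfg D Q) (i * s) ((i + 1) * s) n =
          cnt (cfg D (Q ∩ Ico (i * s) ((i + 1) * s))) (i * s) ((i + 1) * s) n := by
        refine cnt_congr (fun t h1 h2 => ?_) n
        rw [mem_cfg, mem_cfg, mem_inter, mem_Ico]
        tauto
      rw [this]) k
  set p : ℕ → ℝ := fun i => Ex ρ (Icc 1 x) fun Q =>
    ind (cnt (cfg D Q) (i * s) ((i + 1) * s) n ≠ 0) with hp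
  set m : ℕ → ℝ := fun i => Ex ρ (Icc 1 x) fun Q =>
    (cnt (cfg D Q) (i * s) ((i + 1) * s) n : ℝ) with hm
  have hp0 : ∀ i, 0 ≤ p i := fun i => Ex_nonneg hρ fun Q _ => ind_nonneg _
  have hpm : ∀ i, p i ≤ m i := fun i => Ex_mono hρ fun Q _ => Core2_ind_le _
  have hm8 : ∀ i ∈ Ico L i1, m i ≤ 8 / L := fun i hi0 => cell_mean_le hρ h hs hL hi0 hn
  have hlam : lam D ρ x s L i1 n = ∑ i ∈ Ico L i1, m i := rfl
  have hE : Ex ρ (Icc 1 x) (fun Q => ind (Yc (cfg D Q) s L i1 n = k)) =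
      Ex ρ (Icc 1 x) (fun Q => ind ((@Finset.filter ℕ
        (fun i => cnt (cfg D Q) (i * s) ((i + 1) * s) n ≠ 0)
        (fun _ => Classical.propDecidable _) (Ico L i1)).card = k)) := by
    refine Ex_congr fun Q _ => ind_congr ?_
    unfold Yc
    congr!
  have h1 : |Ex ρ (Icc 1 x) (fun Q => ind (Yc (cfg D Q) s L i1 n = k)) -
      poi k (∑ i ∈ Ico L i1, p i)| ≤ 2 * ∑ i ∈ Ico L i1, p i ^ 2 := by
    rw [hE]
    exact hLC
  have h2 : ∑ i ∈ Ico L i1, p i ^ 2 ≤ 8 / L * lam D ρ x s L i1 n := by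
    rw [hlam, mul_sum]
    refine sum_le_sum fun i hi0 => ?_
    rw [sq]
    exact mul_le_mul ((hpm i).trans (hm8 i hi0)) (hpm i) (hp0 i) (by positivity)
  have h3 := poi_lip k (sum_nonneg fun i (_ : i ∈ Ico L i1) => hp0 i) hl
  have h4 : ∑ i ∈ Ico L i1, (Ex ρ (Icc 1 x) fun Q =>
      (cnt (cfg D Q) (i * s) ((i + 1) * s) n : ℝ) -
        ind (cnt (cfg D Q) (i * s) ((i + 1) * s) n ≠ 0)) =
      lam D ρ x s L i1 n - ∑ i ∈ Ico L i1, p i := by
    rw [hlam, ← sum_sub_distrib]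
    exact sum_congr rfl fun i _ => Ex_sub _ _
  have h5 : ∑ i ∈ Ico L i1, p i ≤ lam D ρ x s L i1 n := by
    rw [hlam]
    exact sum_le_sum fun i _ => hpm i
  have h6 : |∑ i ∈ Ico L i1, p i - l0| ≤
      |lam D ρ x s L i1 n - l0| + (lam D ρ x s L i1 n - ∑ i ∈ Ico L i1, p i) := by
    have a1 := le_abs_self (lam D ρ x s L i1 n - l0)
    have a2 := neg_abs_le (lam D ρ x s L i1 n - l0)
    rw [abs_le]
    constructor <;> linarith
  have h7 := abs_sub_le (Ex ρ (Icc 1 x) (fun Q => ind (Yc (cfg D Q) s L i1 n = k)))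
    (poi k (∑ i ∈ Ico L i1, p i)) (poi k l0)
  have h8 : (16 : ℝ) / L * lam D ρ x s L i1 n = 2 * (8 / L * lam D ρ x s L i1 n) := by ring
  rw [h4, h8]
  linarith

/-- `|a| = 2 max a 0 - a`, the hypothesis `HUP` and `mass_total`. -/
lemma lam_L1 (hρ : Prob ρ) (hs : 1 ≤ s) (hL : 1 ≤ L) (hLi : L ≤ i1) (hx : x ≤ s ^ 2)
    (hi : i1 * s ≤ x) {n0 : ℕ} {l0 η : ℝ} (hl : 0 ≤ l0) (hη : 0 < η) (hη1 : η ≤ 1 / 4)
    (hup : HUP D ρ x s L i1 n0 l0 η) (hn0 : (n0 : ℝ) ≤ η * x) (hi' : ((i1 * s : ℕ) : ℝ) ≤ η * x)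
    (hLη : 1 / (L : ℝ) ≤ η) (hS : l0 - η ≤ ∑ t ∈ Ico (L * s) (i1 * s), pit D ρ t / t) :
    ∑ n ∈ Ioc n0 x, |lam D ρ x s L i1 n - l0| ≤ (6 + 3 * l0) * η * x ∧
      ∑ n ∈ Ioc n0 x, lam D ρ x s L i1 n ≤ (l0 + 1) * x := by
  have hx0 : (0 : ℝ) ≤ x := Nat.cast_nonneg x
  have hn00 : (0 : ℝ) ≤ n0 := Nat.cast_nonneg n0
  have hM := mass_total (D := D) hρ hs hL hLi hx hi n0
  set S := ∑ t ∈ Ico (L * s) (i1 * s), pit D ρ t / t with hSdef
  have hcard : ((Ioc n0 x).card : ℝ) ≤ x := by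
    rw [Nat.card_Ioc]
    exact_mod_cast Nat.sub_le x n0
  have hconst : ∑ _n ∈ Ioc n0 x, l0 ≤ l0 * x := by
    rw [sum_const, nsmul_eq_mul, mul_comm]
    exact mul_le_mul_of_nonneg_left hcard hl
  have hxL : (x : ℝ) / L ≤ η * x := by
    rw [div_eq_mul_one_div, mul_comm]
    exact mul_le_mul_of_nonneg_right hLη hx0
  have hxL0 : (0 : ℝ) ≤ (x : ℝ) / L := by positivity
  have hi2 : (i1 : ℝ) * s ≤ η * x := by exact_mod_cast hi'
  have hηx : η * x ≤ 1 / 4 * x := mul_le_mul_of_nonneg_right hη1 hx0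
  have hηx0 : 0 ≤ η * x := by positivity
  unfold HUP at hup
  constructor
  · have e1 : ∑ n ∈ Ioc n0 x, |lam D ρ x s L i1 n - l0| =
        2 * ∑ n ∈ Ioc n0 x, max (lam D ρ x s L i1 n - l0) 0 -
          ∑ n ∈ Ioc n0 x, lam D ρ x s L i1 n + ∑ _n ∈ Ioc n0 x, l0 := by
      rw [mul_sum, ← sum_sub_distrib, ← sum_add_distrib]
      refine sum_congr rfl fun n _ => ?_
      rcases le_total (lam D ρ x s L i1 n - l0) 0 with h | h
      · rw [abs_of_nonpos h, max_eq_right h]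
        ring
      · rw [abs_of_nonneg h, max_eq_left h]
        ring
    have c0 : (0 : ℝ) ≤ (x : ℝ) - x / L - 2 * n0 := by linarith
    have c1 : ((x : ℝ) - x / L - 2 * n0) * (l0 - η) ≤ ((x : ℝ) - x / L - 2 * n0) * S :=
      mul_le_mul_of_nonneg_left hS c0
    have c2 : ((x : ℝ) - 3 * (η * x)) * l0 ≤ ((x : ℝ) - x / L - 2 * n0) * l0 :=
      mul_le_mul_of_nonneg_right (by linarith) hl
    have c3 : ((x : ℝ) - x / L - 2 * n0) * η ≤ x * η :=
      mul_le_mul_of_nonneg_right (by linarith) hη.le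
    have c4 : 2 * (x : ℝ) / L = 2 * (x / L) := by ring
    rw [e1]
    rw [c4] at hM
    nlinarith
  · have e2 : ∑ n ∈ Ioc n0 x, lam D ρ x s L i1 n ≤
        ∑ n ∈ Ioc n0 x, max (lam D ρ x s L i1 n - l0) 0 + ∑ _n ∈ Ioc n0 x, l0 := by
      rw [← sum_add_distrib]
      refine sum_le_sum fun n _ => ?_
      have := le_max_left (lam D ρ x s L i1 n - l0) 0
      linarith
    linarith

/-- Sum `mean_point` over `n0 < n ≤ x`; the `n ≤ n0` cost at most `n0`. -/
theorem mean_Fk (hρ : Prob ρ) (h : HPT D ρ x s L i1) (hs : 1 ≤ s) (hL : 1 ≤ L) (hLi : L ≤ i1)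
    (hx : x ≤ s ^ 2) (hi : i1 * s ≤ x) {n0 : ℕ} (hn : L * (i1 * s) ≤ n0) (k : ℕ) {l0 η : ℝ}
    (hl : 0 ≤ l0) (hη : 0 < η) (hη1 : η ≤ 1 / 4)
    (hup : HUP D ρ x s L i1 n0 l0 η) (hn0 : (n0 : ℝ) ≤ η * x) (hi' : ((i1 * s : ℕ) : ℝ) ≤ η * x)
    (hLη : 1 / (L : ℝ) ≤ η) (hS : l0 - η ≤ ∑ t ∈ Ico (L * s) (i1 * s), pit D ρ t / t) :
    |Ex ρ (Icc 1 x) (fun Q => Fk (cfg D Q) x s L i1 k) - x * poi k l0| ≤
      (55 + 19 * l0) * η * x := by
  have hx0 : (0 : ℝ) ≤ x := Nat.cast_nonneg x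
  have hηx : η * x ≤ 1 / 4 * x := mul_le_mul_of_nonneg_right hη1 hx0
  have hn0x : n0 ≤ x := by
    have : (n0 : ℝ) ≤ x := by linarith
    exact_mod_cast this
  obtain ⟨hA, hB⟩ := lam_L1 hρ hs hL hLi hx hi hl hη hη1 hup hn0 hi' hLη hS
  have hZ := Ex_Z_le hρ h hs hL
  set e : ℕ → ℝ := fun n => Ex ρ (Icc 1 x) (fun Q => ind (Yc (cfg D Q) s L i1 n = k)) with he
  set z : ℕ → ℝ := fun n => ∑ i ∈ Ico L i1, Ex ρ (Icc 1 x) fun Q =>
    (cnt (cfg D Q) (i * s) ((i + 1) * s) n : ℝ) -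
      ind (cnt (cfg D Q) (i * s) ((i + 1) * s) n ≠ 0) with hz
  have hF : Ex ρ (Icc 1 x) (fun Q => Fk (cfg D Q) x s L i1 k) = ∑ n ∈ Icc 1 x, e n := by
    rw [← Ex_sum]
    refine Ex_congr fun Q _ => ?_
    unfold Fk
    exact Core2_card _ _
  have hZ' : Ex ρ (Icc 1 x) (fun Q => ∑ i ∈ Ico L i1, Zi (cfg D Q) x s i) =
      ∑ n ∈ Icc 1 x, z n := by
    rw [Ex_sum, hz, sum_comm]
    refine sum_congr rfl fun i _ => ?_
    unfold Zi
    rw [Ex_sum]
  have hz0 : ∀ n, 0 ≤ z n := fun n =>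
    sum_nonneg fun i _ => Ex_nonneg hρ fun Q _ => sub_nonneg.mpr (Core2_ind_le _)
  have hsub : Ioc n0 x ⊆ Icc 1 x := by
    intro n hn1
    rw [mem_Ioc] at hn1
    rw [mem_Icc]
    omega
  have hz1 : ∑ n ∈ Ioc n0 x, z n ≤ 32 * x / L := by
    rw [hZ'] at hZ
    exact (sum_le_sum_of_subset_of_nonneg hsub fun n _ _ => hz0 n).trans hZ
  have hP : (x : ℝ) * poi k l0 = ∑ _n ∈ Icc 1 x, poi k l0 := by
    rw [sum_const, nsmul_eq_mul, Nat.card_Icc, Nat.add_sub_cancel]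
  have hI : Icc 1 x = Ioc 0 x := by
    ext n
    rw [mem_Icc, mem_Ioc]
    omega
  have hsplit : ∑ n ∈ Icc 1 x, |e n - poi k l0| =
      ∑ n ∈ Ioc 0 n0, |e n - poi k l0| + ∑ n ∈ Ioc n0 x, |e n - poi k l0| := by
    rw [hI, sum_Ioc_consecutive _ (Nat.zero_le n0) hn0x]
  have h1 : ∑ n ∈ Ioc 0 n0, |e n - poi k l0| ≤ n0 := by
    have : ∑ n ∈ Ioc 0 n0, |e n - poi k l0| ≤ ∑ _n ∈ Ioc 0 n0, (1 : ℝ) := by
      refine sum_le_sum fun n _ => ?_
      have a1 : 0 ≤ e n := Ex_nonneg hρ fun Q _ => ind_nonneg _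
      have a2 : e n ≤ 1 := Ex_le_const hρ fun Q _ => ind_le_one _
      have a3 := poi_nonneg k hl
      have a4 := poi_le_one k hl
      rw [abs_le]
      constructor <;> linarith
    rw [sum_const, nsmul_eq_mul, Nat.card_Ioc, Nat.sub_zero, mul_one] at this
    exact this
  have h2 : ∑ n ∈ Ioc n0 x, |e n - poi k l0| ≤
      16 / L * ∑ n ∈ Ioc n0 x, lam D ρ x s L i1 n +
        ∑ n ∈ Ioc n0 x, |lam D ρ x s L i1 n - l0| + ∑ n ∈ Ioc n0 x, z n := by
    rw [mul_sum, ← sum_add_distrib, ← sum_add_distrib]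
    refine sum_le_sum fun n hn1 => ?_
    rw [mem_Ioc] at hn1
    exact mean_point hρ h hs hL hi (hn.trans hn1.1.le) k hl
  have h3 : (16 : ℝ) / L * ∑ n ∈ Ioc n0 x, lam D ρ x s L i1 n ≤ 16 * η * ((l0 + 1) * x) := by
    have a1 : (16 : ℝ) / L ≤ 16 * η := by
      rw [div_eq_mul_one_div]
      linarith
    calc (16 : ℝ) / L * ∑ n ∈ Ioc n0 x, lam D ρ x s L i1 n
        ≤ 16 / L * ((l0 + 1) * x) := mul_le_mul_of_nonneg_left hB (by positivity)
      _ ≤ 16 * η * ((l0 + 1) * x) := mul_le_mul_of_nonneg_right a1 (by positivity)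
  have h4 : 32 * (x : ℝ) / L ≤ 32 * (η * x) := by
    have a1 : (x : ℝ) * (1 / L) ≤ x * η := mul_le_mul_of_nonneg_left hLη hx0
    have a2 : 32 * (x : ℝ) / L = 32 * (x * (1 / L)) := by ring
    rw [a2]
    linarith
  rw [hF, hP, ← sum_sub_distrib]
  refine (abs_sum_le_sum_abs _ _).trans ?_
  rw [hsplit]
  have h5 : (55 + 19 * l0) * η * x =
      η * x + (16 * η * ((l0 + 1) * x) + (6 + 3 * l0) * η * x + 32 * (η * x)) := by ring
  rw [h5]
  linarith

end Pool.Agent.Work.MP_9a1701_nt.P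
end

-- merged part: Pool.Agent.Work.MP_9a1701_nt.P.Bridge
section
/-!
# From finite expectations to almost sure statements
-/

set_option autoImplicit false
open Finset Filter

namespace Pool.Agent.Work.MP_9a1701_nt.P

open MeasureTheory ProbabilityTheory Topology

open Classical in
lemma Bridge_mem_atom {Ω : Type*} (E : ℕ → Set Ω) (U Q : Finset ℕ) (hQ : Q ⊆ U) (ω : Ω) :
    ω ∈ (⋂ t ∈ U, if t ∈ Q then E t else (E t)ᶜ) ↔ (U.filter fun t => ω ∈ E t) = Q := by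
  simp only [Set.mem_iInter]
  constructor
  · intro h
    ext t
    rw [mem_filter]
    constructor
    · rintro ⟨htU, ht⟩
      by_contra hn
      have := h t htU
      rw [if_neg hn] at this
      exact this ht
    · intro ht
      have := h t (hQ ht)
      rw [if_pos ht] at this
      exact ⟨hQ ht, this⟩
  · intro h t htU
    by_cases ht : t ∈ Q
    · rw [if_pos ht]
      rw [← h] at ht
      exact (mem_filter.1 ht).2
    · rw [if_neg ht]
      intro hw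
      exact ht (h ▸ mem_filter.2 ⟨htU, hw⟩)

open Classical in
lemma Bridge_meas_atom {Ω : Type*} [MeasurableSpace Ω] (μ : Measure Ω) [IsProbabilityMeasure μ]
    (E : ℕ → Set Ω) (hm : ∀ n, MeasurableSet (E n)) (hind : iIndepSet E μ) (U Q : Finset ℕ)
    (hQ : Q ⊆ U) :
    μ.real (⋂ t ∈ U, if t ∈ Q then E t else (E t)ᶜ) =
      (∏ t ∈ Q, μ.real (E t)) * ∏ t ∈ U \ Q, (1 - μ.real (E t)) := by
  have hi := (iIndepSet_iff_iIndep E μ).1 hind
  have h1 : μ (⋂ t ∈ U, if t ∈ Q then E t else (E t)ᶜ) =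
      ∏ t ∈ U, μ (if t ∈ Q then E t else (E t)ᶜ) := by
    refine hi.meas_biInter ?_
    intro t _
    have h0 : MeasurableSet[MeasurableSpace.generateFrom {E t}] (E t) :=
      MeasurableSpace.measurableSet_generateFrom (Set.mem_singleton _)
    split_ifs
    · exact h0
    · exact h0.compl
  have h2 : μ.real (⋂ t ∈ U, if t ∈ Q then E t else (E t)ᶜ) =
      ∏ t ∈ U, μ.real (if t ∈ Q then E t else (E t)ᶜ) := by
    simp only [measureReal_def]
    rw [h1, ENNReal.toReal_prod]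
  rw [h2, ← prod_sdiff hQ, mul_comm]
  congr 1
  · refine prod_congr rfl fun t ht => ?_
    rw [if_pos ht]
  · refine prod_congr rfl fun t ht => ?_
    rw [if_neg (mem_sdiff.1 ht).2, probReal_compl_eq_one_sub (hm t)]

open Classical in
/-- The event is the disjoint union over `Q ⊆ U` with `P Q` of the sets
`⋂ t ∈ U, if t ∈ Q then E t else (E t)ᶜ`; `iIndepSet_iff_iIndep`, `iIndep.meas_biInter`. -/
lemma meas_eq_Ex {Ω : Type*} [MeasurableSpace Ω] (μ : Measure Ω) [IsProbabilityMeasure μ]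
    (E : ℕ → Set Ω) (hm : ∀ n, MeasurableSet (E n)) (hind : iIndepSet E μ) (U : Finset ℕ)
    (P : Finset ℕ → Prop) :
    μ.real {ω | P (U.filter fun t => ω ∈ E t)} =
      Ex (fun n => μ.real (E n)) U (fun Q => ind (P Q)) := by
  have hset : {ω | P (U.filter fun t => ω ∈ E t)} =
      ⋃ Q ∈ U.powerset.filter P, ⋂ t ∈ U, if t ∈ Q then E t else (E t)ᶜ := by
    ext ω
    simp only [Set.mem_ofPred_eq, Set.mem_iUnion, mem_filter, mem_powerset, exists_prop]
    constructor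
    · intro h
      exact ⟨_, ⟨filter_subset _ _, h⟩, (Bridge_mem_atom E U _ (filter_subset _ _) ω).2 rfl⟩
    · rintro ⟨Q, ⟨hQ, hP⟩, hω⟩
      rw [(Bridge_mem_atom E U Q hQ ω).1 hω]
      exact hP
  rw [hset, measureReal_biUnion_finset]
  · unfold Ex
    rw [sum_filter]
    refine sum_congr rfl fun Q hQ => ?_
    beta_reduce
    by_cases hP : P Q
    · rw [if_pos hP, ind_pos hP, mul_one, Bridge_meas_atom μ E hm hind U Q (mem_powerset.1 hQ)]
    · rw [if_neg hP, ind_neg hP, mul_zero]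
  · intro Q hQ Q' hQ' hne
    have hQU : Q ⊆ U := mem_powerset.1 (mem_filter.1 (mem_coe.1 hQ)).1
    have hQU' : Q' ⊆ U := mem_powerset.1 (mem_filter.1 (mem_coe.1 hQ')).1
    refine Set.disjoint_left.2 fun ω h1 h2 => hne ?_
    rw [← (Bridge_mem_atom E U Q hQU ω).1 h1, ← (Bridge_mem_atom E U Q' hQU' ω).1 h2]
  · intro Q _
    refine U.measurableSet_biInter fun t _ => ?_
    split_ifs
    · exact hm t
    · exact (hm t).compl

lemma Bridge_incr (F : ℕ → ℝ) (hF : ∀ x, F x ≤ F (x + 1) ∧ F (x + 1) ≤ F x + 1) (a d : ℕ) :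
    F a ≤ F (a + d) ∧ F (a + d) ≤ F a + d := by
  induction d with
  | zero => simp
  | succ d ih =>
    have := hF (a + d)
    rw [← add_assoc]
    push_cast
    constructor <;> linarith [ih.1, ih.2, this.1, this.2]

/-- If `F (x + 1) - F x ∈ [0, 1]`, `0 ≤ c ≤ 1` and for every `m` the values
`x j = ⌊(1 + 1 / (m + 1)) ^ j⌋₊` eventually satisfy `|F x - x c| ≤ x / (m + 1)`, then
`F x / x → c`. -/
lemma tendsto_of_grid (F : ℕ → ℝ) (c : ℝ) (hc0 : 0 ≤ c) (hc1 : c ≤ 1)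
    (hF : ∀ x, F x ≤ F (x + 1) ∧ F (x + 1) ≤ F x + 1)
    (h : ∀ m : ℕ, ∀ᶠ j : ℕ in atTop,
      |F ⌊(1 + 1 / ((m : ℝ) + 1)) ^ j⌋₊ - (⌊(1 + 1 / ((m : ℝ) + 1)) ^ j⌋₊ : ℕ) * c| ≤
        1 / ((m : ℝ) + 1) * (⌊(1 + 1 / ((m : ℝ) + 1)) ^ j⌋₊ : ℕ)) :
    Tendsto (fun x : ℕ => F x / x) atTop (𝓝 c) := by
  rw [Metric.tendsto_atTop]
  intro ε hε
  obtain ⟨m, hm⟩ := exists_nat_one_div_lt (show 0 < ε / 4 by positivity)
  obtain ⟨J, hJ⟩ := eventually_atTop.1 (h m)
  set δ : ℝ := 1 / ((m : ℝ) + 1) with hδ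
  have hδ0 : 0 < δ := by positivity
  have hq : 1 < 1 + δ := by linarith
  obtain ⟨N1, hN1⟩ := exists_nat_ge ((1 + δ) ^ J)
  obtain ⟨N2, hN2⟩ := exists_nat_gt (8 / ε)
  refine ⟨max N1 N2 + 1, fun x hx => ?_⟩
  have hx1 : (N1 : ℝ) ≤ x := by exact_mod_cast (by omega : N1 ≤ x)
  have hx2 : (N2 : ℝ) ≤ x := by exact_mod_cast (by omega : N2 ≤ x)
  have hx0 : (1 : ℝ) ≤ x := by exact_mod_cast (by omega : 1 ≤ x)
  have hxp : (0 : ℝ) < x := by linarith
  obtain ⟨j, hj1, hj2⟩ := exists_nat_pow_near hx0 hq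
  have hJj : J ≤ j := by
    by_contra hn
    have : (1 + δ) ^ (j + 1) ≤ (1 + δ) ^ J := pow_le_pow_right₀ hq.le (by omega)
    linarith
  have hg := hJ j hJj
  set y : ℕ := ⌊(1 + δ) ^ j⌋₊ with hy
  have hy1 : (y : ℝ) ≤ (1 + δ) ^ j := Nat.floor_le (by positivity)
  have hy2 : (1 + δ) ^ j < y + 1 := Nat.lt_floor_add_one _
  have hyx : y ≤ x := by exact_mod_cast hy1.trans hj1
  obtain ⟨d, hd⟩ := Nat.exists_eq_add_of_le hyx
  have hi := Bridge_incr F hF y d
  rw [← hd] at hi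
  have hdr : (x : ℝ) = y + d := by exact_mod_cast hd
  have hd0 : (0 : ℝ) ≤ d := Nat.cast_nonneg _
  have hd1 : (d : ℝ) ≤ δ * x + 1 := by
    rw [pow_succ] at hj2
    have : δ * (1 + δ) ^ j ≤ δ * x := mul_le_mul_of_nonneg_left hj1 hδ0.le
    nlinarith
  have hyx' : δ * y ≤ δ * x := mul_le_mul_of_nonneg_left (hy1.trans hj1) hδ0.le
  have hcd : (d : ℝ) * c ≤ d := mul_le_of_le_one_right hd0 hc1
  have hcd0 : 0 ≤ (d : ℝ) * c := mul_nonneg hd0 hc0
  have hab := abs_le.1 hg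
  have hxc : (x : ℝ) * c = y * c + d * c := by rw [hdr]; ring
  have key : |F x - x * c| ≤ 3 * δ * x + 2 := by
    rw [abs_le]
    constructor <;> nlinarith [hab.1, hab.2, hi.1, hi.2]
  rw [Real.dist_eq]
  have e : F x / x - c = (F x - x * c) / x := by field_simp
  rw [e, abs_div, abs_of_pos hxp, div_lt_iff₀ hxp]
  have h8 : 8 < ε * x := by
    rw [div_lt_iff₀ hε] at hN2
    nlinarith
  have h3 : 3 * δ * x ≤ 3 * (ε / 4) * x := by
    have := hm.le
    gcongr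
  nlinarith

lemma Bridge_summable {q : ℝ} (hq : 1 < q) :
    Summable fun j : ℕ => 1 / Real.log (⌊q ^ j⌋₊ : ℕ) ^ 2 := by
  have hl : 0 < Real.log q := Real.log_pos hq
  have hs : Summable fun j : ℕ => 4 / Real.log q ^ 2 * (1 / (j : ℝ) ^ 2) :=
    (Real.summable_one_div_nat_pow.2 (by norm_num)).mul_left _
  refine Summable.of_norm_bounded_eventually_nat hs ?_
  obtain ⟨N, hN⟩ := exists_nat_ge (2 * Real.log 2 / Real.log q)
  filter_upwards [eventually_ge_atTop (N + 1)] with j hj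
  have hjN : (N : ℝ) + 1 ≤ j := by exact_mod_cast hj
  have hN0 : (0 : ℝ) ≤ N := Nat.cast_nonneg _
  have hj0 : (0 : ℝ) < j := by linarith
  have h1 : 1 ≤ q ^ j := one_le_pow₀ hq.le
  have h2 : (1 : ℝ) ≤ (⌊q ^ j⌋₊ : ℕ) := by exact_mod_cast Nat.one_le_floor_iff _ |>.2 h1
  have h3 : q ^ j < (⌊q ^ j⌋₊ : ℕ) + 1 := Nat.lt_floor_add_one _
  have h4 : q ^ j / 2 ≤ (⌊q ^ j⌋₊ : ℕ) := by linarith
  have h5 : Real.log (q ^ j / 2) ≤ Real.log (⌊q ^ j⌋₊ : ℕ) :=
    Real.log_le_log (by positivity) h4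
  rw [Real.log_div (by positivity) (by norm_num), Real.log_pow] at h5
  rw [div_le_iff₀ hl] at hN
  have h6 : j * Real.log q / 2 ≤ Real.log (⌊q ^ j⌋₊ : ℕ) := by nlinarith
  have h7 : 0 < j * Real.log q / 2 := by positivity
  rw [Real.norm_eq_abs, abs_of_nonneg (by positivity)]
  calc 1 / Real.log (⌊q ^ j⌋₊ : ℕ) ^ 2 ≤ 1 / (j * Real.log q / 2) ^ 2 := by gcongr
    _ = 4 / Real.log q ^ 2 * (1 / (j : ℝ) ^ 2) := by field_simp; norm_num

lemma Bridge_Rk_step (A : Set ℕ) (k x : ℕ) :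
    Rk A k x ≤ Rk A k (x + 1) ∧ Rk A k (x + 1) ≤ Rk A k x + 1 := by
  unfold Rk
  constructor
  · exact_mod_cast card_le_card (filter_subset_filter _ (Icc_subset_Icc_right (Nat.le_succ x)))
  · have : ((Icc 1 (x + 1)).filter fun n => rep A n = k) ⊆
        insert (x + 1) ((Icc 1 x).filter fun n => rep A n = k) := by
      intro n hn
      simp only [mem_filter, mem_Icc, mem_insert] at hn ⊢
      by_cases h : n = x + 1
      · exact Or.inl h
      · exact Or.inr ⟨⟨hn.1.1, by omega⟩, hn.2⟩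
    exact_mod_cast (card_le_card this).trans (card_insert_le _ _)

open Classical in
lemma Bridge_Rk_eq {Ω : Type*} (E : ℕ → Set Ω) (D : Set ℕ) (ω : Ω) (k x : ℕ) :
    Rk (D ∪ {t | ω ∈ E t}) k x = Rk (cfg D ((Icc 1 x).filter fun t => ω ∈ E t)) k x := by
  unfold Rk
  congr 2
  refine filter_congr fun n hn => ?_
  rw [rep_congr (A := D ∪ {t | ω ∈ E t}) (A' := cfg D ((Icc 1 x).filter fun t => ω ∈ E t))]
  intro t h1 h2
  have hx := (mem_Icc.1 hn).2
  simp only [mem_cfg, Set.mem_union, Set.mem_ofPred_eq, mem_filter, mem_Icc]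
  constructor
  · rintro (h | h)
    · exact Or.inl h
    · exact Or.inr ⟨⟨h1, by omega⟩, h⟩
  · rintro (h | h)
    · exact Or.inl h
    · exact Or.inr h.2

/-- Borel-Cantelli (`measure_limsup_atTop_eq_zero` or `ae_eventually_notMem`) along each grid:
the probabilities are at most `1 / log (x j) ^ 2 ≤ C / j ^ 2`; `rep_congr` identifies `Rk` of the
random set with `Rk (cfg D Q)`, `Q` its random part in `Icc 1 x`. -/
theorem bridge {Ω : Type*} [MeasurableSpace Ω] (μ : Measure Ω) [IsProbabilityMeasure μ]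
    (E : ℕ → Set Ω) (hm : ∀ n, MeasurableSet (E n)) (hind : iIndepSet E μ) (D : Set ℕ) {l0 : ℝ}
    (hl : 0 ≤ l0) (h : HConc D (fun n => μ.real (E n)) l0) :
    ∀ᵐ ω ∂μ, ∀ k : ℕ,
      Tendsto (fun x : ℕ => Rk (D ∪ {t | ω ∈ E t}) k x / x) atTop (𝓝 (poi k l0)) := by
  classical
  rw [ae_all_iff]
  intro k
  have main : ∀ m : ℕ, ∀ᵐ ω ∂μ, ∀ᶠ j : ℕ in atTop,
      |Rk (D ∪ {t | ω ∈ E t}) k ⌊(1 + 1 / ((m : ℝ) + 1)) ^ j⌋₊ -
          (⌊(1 + 1 / ((m : ℝ) + 1)) ^ j⌋₊ : ℕ) * poi k l0| ≤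
        1 / ((m : ℝ) + 1) * (⌊(1 + 1 / ((m : ℝ) + 1)) ^ j⌋₊ : ℕ) := by
    intro m
    set δ : ℝ := 1 / ((m : ℝ) + 1) with hδ
    have hδ0 : 0 < δ := by positivity
    have hq : 1 < 1 + δ := by linarith
    set B : ℕ → Set Ω := fun j => {ω | δ * (⌊(1 + δ) ^ j⌋₊ : ℕ) <
      |Rk (D ∪ {t | ω ∈ E t}) k ⌊(1 + δ) ^ j⌋₊ - (⌊(1 + δ) ^ j⌋₊ : ℕ) * poi k l0|} with hB
    have hlim : Tendsto (fun j : ℕ => ⌊(1 + δ) ^ j⌋₊) atTop atTop :=
      tendsto_nat_floor_atTop.comp (tendsto_pow_atTop_atTop_of_one_lt hq)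
    have hsum : Summable fun j => μ.real (B j) := by
      refine Summable.of_norm_bounded_eventually_nat (Bridge_summable hq) ?_
      filter_upwards [hlim.eventually (h k δ hδ0)] with j hj
      rw [Real.norm_eq_abs, abs_of_nonneg measureReal_nonneg]
      refine le_trans (le_of_eq ?_) hj
      rw [← meas_eq_Ex μ E hm hind]
      congr 1
      ext ω
      simp only [hB, Set.mem_ofPred_eq]
      rw [Bridge_Rk_eq]
    have hne : ∑' j, μ (B j) ≠ ⊤ := by
      have := hsum.tsum_ofReal_ne_top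
      simpa only [ofReal_measureReal (measure_ne_top μ _)] using this
    filter_upwards [ae_eventually_notMem hne] with ω hω
    filter_upwards [hω] with j hj
    exact not_lt.1 hj
  filter_upwards [ae_all_iff.2 main] with ω hω
  exact tendsto_of_grid _ _ (poi_nonneg k hl) (poi_le_one k hl) (Bridge_Rk_step _ k) hω

end Pool.Agent.Work.MP_9a1701_nt.P
end
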