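import Mathlib

/-!
# Sums of consecutive elements of a set of integers
-/

set_option autoImplicit false
open Finset

namespace Pool.Agent.Work.MP_9a1701_nt.P

open Classical in
/-- The sum of the elements of `A` that lie in `[a, b]`. -/
noncomputable def bsum (A : Set ℕ) (a b : ℕ) : ℕ := ∑ t ∈ (Icc a b).filter (fun t => t ∈ A), t

/-- The number of ways to write `n` as a sum of one or more consecutive positive elements of `A`:
pairs `a ≤ b` of positive elements of `A` such that the elements of `A` in `[a, b]` sum to `n`. -/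
noncomputable def rep (A : Set ℕ) (n : ℕ) : ℕ :=
  Set.ncard {p : ℕ × ℕ | 1 ≤ p.1 ∧ p.1 ≤ p.2 ∧ p.1 ∈ A ∧ p.2 ∈ A ∧ bsum A p.1 p.2 = n}

end Pool.Agent.Work.MP_9a1701_nt.P
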