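import Pool.Agent.Work.MP_9a1701_nt.P.Setup

/-!
# Finite Bernoulli expectations: basic rules
-/

set_option autoImplicit false
open Finset Filter

namespace Pool.Agent.Work.MP_9a1701_nt.P

variable {ρ : ℕ → ℝ} {U V : Finset ℕ} {F G : Finset ℕ → ℝ}

lemma Ex_empty (F : Finset ℕ → ℝ) : Ex ρ ∅ F = F ∅ := by
  simp [Ex]

/-- `Finset.sum_powerset_insert`. -/
lemma Ex_insert {t : ℕ} (ht : t ∉ U) (F : Finset ℕ → ℝ) :
    Ex ρ (insert t U) F = ρ t * Ex ρ U (fun Q => F (insert t Q)) + (1 - ρ t) * Ex ρ U F := by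
  unfold Ex
  rw [sum_powerset_insert ht, add_comm, mul_sum, mul_sum]
  congr 1
  · refine sum_congr rfl fun Q hQ => ?_
    have hQ' : t ∉ Q := fun h => ht (mem_powerset.1 hQ h)
    rw [prod_insert hQ', insert_sdiff_insert, sdiff_insert_of_notMem ht]
    ring
  · refine sum_congr rfl fun Q hQ => ?_
    have hQ' : t ∉ Q := fun h => ht (mem_powerset.1 hQ h)
    rw [insert_sdiff_of_notMem _ hQ', prod_insert fun h => ht (mem_sdiff.1 h).1]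
    ring

lemma Ex_const (c : ℝ) : Ex ρ U (fun _ => c) = c := by
  induction U using Finset.induction_on with
  | empty => exact Ex_empty _
  | insert t U ht ih => rw [Ex_insert ht, ih]; ring

lemma Ex_add (F G : Finset ℕ → ℝ) :
    Ex ρ U (fun Q => F Q + G Q) = Ex ρ U F + Ex ρ U G := by
  simp only [Ex, mul_add, sum_add_distrib]

lemma Ex_sub (F G : Finset ℕ → ℝ) :
    Ex ρ U (fun Q => F Q - G Q) = Ex ρ U F - Ex ρ U G := by
  simp only [Ex, mul_sub, sum_sub_distrib]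

lemma Ex_const_mul (c : ℝ) (F : Finset ℕ → ℝ) :
    Ex ρ U (fun Q => c * F Q) = c * Ex ρ U F := by
  unfold Ex
  rw [mul_sum]
  exact sum_congr rfl fun Q _ => by ring

lemma Ex_mul_const (c : ℝ) (F : Finset ℕ → ℝ) :
    Ex ρ U (fun Q => F Q * c) = Ex ρ U F * c := by
  unfold Ex
  rw [sum_mul]
  exact sum_congr rfl fun Q _ => by ring

lemma Ex_sum {ι : Type*} (I : Finset ι) (F : ι → Finset ℕ → ℝ) :
    Ex ρ U (fun Q => ∑ i ∈ I, F i Q) = ∑ i ∈ I, Ex ρ U (F i) := by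
  unfold Ex
  rw [sum_comm]
  exact sum_congr rfl fun Q _ => mul_sum _ _ _

lemma Ex_congr (h : ∀ Q, Q ⊆ U → F Q = G Q) : Ex ρ U F = Ex ρ U G :=
  sum_congr rfl fun Q hQ => by rw [h Q (mem_powerset.1 hQ)]

lemma Ex_mono (hρ : Prob ρ) (h : ∀ Q, Q ⊆ U → F Q ≤ G Q) : Ex ρ U F ≤ Ex ρ U G :=
  sum_le_sum fun Q hQ => mul_le_mul_of_nonneg_left (h Q (mem_powerset.1 hQ))
    (mul_nonneg (prod_nonneg fun t _ => (hρ t).1) (prod_nonneg fun t _ => sub_nonneg.2 (hρ t).2))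

lemma Ex_nonneg (hρ : Prob ρ) (h : ∀ Q, Q ⊆ U → 0 ≤ F Q) : 0 ≤ Ex ρ U F := by
  have := Ex_mono (F := fun _ => 0) hρ h
  rwa [Ex_const] at this

lemma Ex_le_const (hρ : Prob ρ) {c : ℝ} (h : ∀ Q, Q ⊆ U → F Q ≤ c) : Ex ρ U F ≤ c := by
  have := Ex_mono (G := fun _ => c) hρ h
  rwa [Ex_const] at this

lemma const_le_Ex (hρ : Prob ρ) {c : ℝ} (h : ∀ Q, Q ⊆ U → c ≤ F Q) : c ≤ Ex ρ U F := by
  have := Ex_mono (F := fun _ => c) hρ h
  rwa [Ex_const] at this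

/-- Fubini, by induction on `U` with `Ex_insert`. -/
lemma Ex_union (h : Disjoint U V) (F : Finset ℕ → ℝ) :
    Ex ρ (U ∪ V) F = Ex ρ U (fun Q => Ex ρ V fun Q' => F (Q ∪ Q')) := by
  induction U using Finset.induction_on generalizing F with
  | empty => simp only [Ex_empty, empty_union]
  | insert t U ht ih =>
    obtain ⟨h1, h2⟩ := disjoint_insert_left.1 h
    have h3 : t ∉ U ∪ V := fun hm => (mem_union.1 hm).elim ht h1
    rw [insert_union, Ex_insert h3, Ex_insert ht, ih h2, ih h2]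
    simp only [insert_union]

lemma Ex1_inter {Q Q' : Finset ℕ} (hQ : Q ⊆ V) (hQ' : Q' ⊆ U \ V) : (Q ∪ Q') ∩ V = Q := by
  ext t
  simp only [mem_inter, mem_union]
  exact ⟨fun h => h.1.elim id fun h1 => absurd h.2 (mem_sdiff.1 (hQ' h1)).2,
    fun h => ⟨Or.inl h, hQ h⟩⟩

lemma Ex1_sdiff {Q Q' : Finset ℕ} (hQ : Q ⊆ V) (hQ' : Q' ⊆ U \ V) : (Q ∪ Q') \ V = Q' := by
  ext t
  rw [Finset.mem_sdiff, Finset.mem_union]
  exact ⟨fun h => h.1.elim (fun h1 => absurd (hQ h1) h.2) id,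
    fun h => ⟨Or.inr h, (mem_sdiff.1 (hQ' h)).2⟩⟩

lemma Ex1_local (hV : V ⊆ U) (h : ∀ Q, Q ⊆ U → F Q = F (Q ∩ V)) : Ex ρ U F = Ex ρ V F := by
  conv_lhs => rw [← union_sdiff_of_subset hV, Ex_union disjoint_sdiff]
  refine Ex_congr fun Q hQ => ?_
  rw [← Ex_const (ρ := ρ) (U := U \ V) (F Q)]
  refine Ex_congr fun Q' hQ' => ?_
  rw [h _ (union_subset (hQ.trans hV) (hQ'.trans sdiff_subset)), Ex1_inter hQ hQ']

/-- A function of `Q ∩ V` may be averaged over `V` only. -/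
lemma Ex_local (hV : V ⊆ U) (h : ∀ Q, F Q = F (Q ∩ V)) : Ex ρ U F = Ex ρ V F :=
  Ex1_local hV fun Q _ => h Q

lemma Ex_mem {t : ℕ} (ht : t ∈ U) : Ex ρ U (fun Q => ind (t ∈ Q)) = ρ t := by
  rw [← insert_erase ht, Ex_insert (notMem_erase t U)]
  have h1 : Ex ρ (U.erase t) (fun Q => ind (t ∈ insert t Q)) = 1 := by
    rw [← Ex_const (ρ := ρ) (U := U.erase t) 1]
    exact Ex_congr fun Q _ => ind_pos (mem_insert_self t Q)
  have h2 : Ex ρ (U.erase t) (fun Q => ind (t ∈ Q)) = 0 := by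
    rw [← Ex_const (ρ := ρ) (U := U.erase t) 0]
    exact Ex_congr fun Q hQ => ind_neg fun h => notMem_erase t U (hQ h)
  rw [h1, h2]
  ring

lemma Ex_mem_cfg (D : Set ℕ) {t : ℕ} (ht : t ∈ U) :
    Ex ρ U (fun Q => ind (t ∈ cfg D Q)) = pit D ρ t := by
  unfold pit
  split_ifs with hD
  · rw [← Ex_const (ρ := ρ) (U := U) 1]
    exact Ex_congr fun Q _ => ind_pos (mem_cfg.2 (Or.inl hD))
  · rw [← Ex_mem (ρ := ρ) ht]
    exact Ex_congr fun Q _ => ind_congr (by rw [mem_cfg]; tauto)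

lemma Ex_mem_cfg_le (hρ : Prob ρ) (D : Set ℕ) (t : ℕ) :
    Ex ρ U (fun Q => ind (t ∈ cfg D Q)) ≤ pit D ρ t := by
  by_cases ht : t ∈ U
  · exact (Ex_mem_cfg D ht).le
  unfold pit
  split_ifs with hD
  · exact Ex_le_const hρ fun Q _ => ind_le_one _
  · refine Ex_le_const hρ fun Q hQ => ?_
    rw [ind_neg fun h => (mem_cfg.1 h).elim hD fun h1 => ht (hQ h1)]
    exact (hρ t).1

lemma pit_nonneg (hρ : Prob ρ) (D : Set ℕ) (t : ℕ) : 0 ≤ pit D ρ t := by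
  unfold pit
  split_ifs
  · exact zero_le_one
  · exact (hρ t).1

lemma pit_le_one (hρ : Prob ρ) (D : Set ℕ) (t : ℕ) : pit D ρ t ≤ 1 := by
  unfold pit
  split_ifs
  · exact le_rfl
  · exact (hρ t).2

/-- Conditioning on `Q ∩ V`: `G` and `σ` depend on `Q ∩ V`, `H · n` on `Q \ V`.
Write `U = (U ∩ V) ∪ (U \ V)`, use `Ex_union` and `Ex_local`. -/
lemma Ex_mul_le (hρ : Prob ρ) (V : Finset ℕ) (G : Finset ℕ → ℝ) (σ : Finset ℕ → ℕ)
    (H : Finset ℕ → ℕ → ℝ) (c : ℝ) (hG0 : ∀ Q, 0 ≤ G Q) (hG : ∀ Q, G Q = G (Q ∩ V))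
    (hσ : ∀ Q, σ Q = σ (Q ∩ V)) (hH : ∀ Q n, H Q n = H (Q \ V) n)
    (hc : ∀ n, Ex ρ U (fun Q => H Q n) ≤ c) :
    Ex ρ U (fun Q => G Q * H Q (σ Q)) ≤ c * Ex ρ U G := by
  have h1 : ∀ n, Ex ρ (U \ V) (fun Q => H Q n) ≤ c := by
    intro n
    refine le_trans (Ex1_local (F := fun Q => H Q n) sdiff_subset fun Q hQ => ?_).ge (hc n)
    rw [hH Q n, ← inter_sdiff_assoc, inter_eq_left.2 hQ]
  have h2 : Ex ρ U G = Ex ρ (U ∩ V) G := by
    refine Ex1_local inter_subset_left fun Q hQ => ?_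
    rw [hG Q, ← inter_assoc, inter_eq_left.2 hQ]
  have h3 : U = U ∩ V ∪ U \ V := by rw [union_comm, sdiff_union_inter]
  rw [h2, ← Ex_const_mul]
  conv_lhs => rw [h3, Ex_union (disjoint_sdiff_inter U V).symm]
  refine Ex_mono hρ fun Q hQ => ?_
  have hQV : Q ⊆ V := hQ.trans inter_subset_right
  have h4 : Ex ρ (U \ V) (fun Q' => G (Q ∪ Q') * H (Q ∪ Q') (σ (Q ∪ Q'))) =
      G Q * Ex ρ (U \ V) (fun Q' => H Q' (σ Q)) := by
    rw [← Ex_const_mul]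
    refine Ex_congr fun Q' hQ' => ?_
    rw [hG (Q ∪ Q'), hσ (Q ∪ Q'), hH (Q ∪ Q'), Ex1_inter hQV hQ', Ex1_sdiff hQV hQ']
  rw [h4, mul_comm c]
  exact mul_le_mul_of_nonneg_left (h1 _) (hG0 Q)

lemma markov (hρ : Prob ρ) (h : ∀ Q, 0 ≤ F Q) {a : ℝ} (ha : 0 < a) :
    Ex ρ U (fun Q => ind (a < F Q)) ≤ Ex ρ U F / a := by
  rw [div_eq_mul_inv, ← Ex_mul_const]
  refine Ex_mono hρ fun Q _ => ?_
  rw [← div_eq_mul_inv]
  by_cases hq : a < F Q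
  · rw [ind_pos hq]
    exact (one_le_div ha).2 hq.le
  · rw [ind_neg hq]
    exact div_nonneg (h Q) ha.le

lemma chebyshev (hρ : Prob ρ) (F : Finset ℕ → ℝ) (m : ℝ) {a : ℝ} (ha : 0 < a) :
    Ex ρ U (fun Q => ind (a < |F Q - m|)) ≤ Ex ρ U (fun Q => (F Q - m) ^ 2) / a ^ 2 := by
  refine le_trans (Ex_mono hρ fun Q _ => ?_)
    (markov (F := fun Q => (F Q - m) ^ 2) hρ (fun Q => sq_nonneg _) (pow_pos ha 2))
  refine (ind_congr ?_).le
  rw [sq_lt_sq, abs_of_pos ha]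

end Pool.Agent.Work.MP_9a1701_nt.P
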