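import Pool.Agent.Work.MP_9a1701_nt.P.An
import Pool.Agent.Lib.ANT.Mertens

/-!
# Random points in every long interval
-/

set_option autoImplicit false
open Finset Filter

namespace Pool.Agent.Work.MP_9a1701_nt.P

variable {ρ : ℕ → ℝ}

open Classical in
/-- Primes are sparse in every long interval: `Nat.Ico_filter_coprime_le` with a modulus `a`
such that `φ a / a` is small (`log_le_prod_one_sub_inv_prime_inv` in `Lib/ANT/Mertens`,
`Nat.totient_eq_mul_prod_factors`); a prime above `a` is coprime to `a`. -/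
theorem primes_sparse (n₁ : ℕ) {η : ℝ} (hη : 0 < η) : ∃ L0 : ℕ, ∀ e e' : ℕ, e + L0 ≤ e' →
    (((Ioo e e').filter fun t => t ∈ PP ∨ t < n₁).card : ℝ) + 1 ≤ η * ((e' : ℝ) - e) := by
  obtain ⟨N, hN⟩ : ∃ N : ℕ, Real.exp (2 / η) ≤ N := exists_nat_ge _
  have hlog : 2 / η ≤ Real.log N := by
    rw [Real.le_log_iff_exp_le ((Real.exp_pos _).trans_le hN)]
    exact hN
  obtain ⟨Ps, hPs⟩ : ∃ Ps, Ps = (Ioc 0 N).filter Nat.Prime := ⟨_, rfl⟩
  have hP : ∀ p ∈ Ps, p.Prime := fun p hp => by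
    rw [hPs] at hp
    exact (mem_filter.1 hp).2
  obtain ⟨a, ha⟩ : ∃ a, a = ∏ p ∈ Ps, p := ⟨_, rfl⟩
  have ha0 : a ≠ 0 := by
    rw [ha]
    exact prod_ne_zero_iff.2 fun p hp => (hP p hp).ne_zero
  have haR : (0 : ℝ) < a := by exact_mod_cast Nat.pos_of_ne_zero ha0
  have hphi : (a.totient : ℝ) = a * ∏ p ∈ Ps, (1 - (p : ℝ)⁻¹) := by
    have h := Nat.totient_eq_mul_prod_factors a
    have e : a.primeFactors = Ps := by rw [ha]; exact Nat.primeFactors_prod hP
    rw [e] at h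
    have h2 := congrArg (fun q : ℚ => (q : ℝ)) h
    push_cast at h2
    exact h2
  have hpos : 0 < ∏ p ∈ Ps, (1 - (p : ℝ)⁻¹) := prod_pos fun p hp => by
    have : (1 : ℝ) < p := by exact_mod_cast (hP p hp).one_lt
    linarith [inv_lt_one_of_one_lt₀ this]
  have hsm : ∏ p ∈ Ps, (1 - (p : ℝ)⁻¹) ≤ η / 2 := by
    have h := hlog.trans (Pool.Agent.Lib.ANT.log_le_prod_one_sub_inv_prime_inv N)
    rw [← hPs, prod_inv_distrib, le_inv_comm₀ (by positivity) hpos, inv_div] at h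
    exact h
  obtain ⟨L0, hL0⟩ : ∃ L0 : ℕ, ((n₁ : ℝ) + N + 2 + a) * (2 / η) ≤ L0 := exists_nat_ge _
  refine ⟨L0, fun e e' he => ?_⟩
  obtain ⟨n, rfl⟩ : ∃ n, e' = e + n := ⟨e' - e, by omega⟩
  have hsub : ((Ioo e (e + n)).filter fun t => t ∈ PP ∨ t < n₁) ⊆
      range (n₁ + N + 1) ∪ (Ico e (e + n)).filter fun t => a.Coprime t := by
    intro t ht
    rw [mem_filter, mem_Ioo] at ht
    rw [mem_union, mem_range, mem_filter, mem_Ico]
    by_cases h : t < n₁ + N + 1
    · exact Or.inl h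
    · refine Or.inr ⟨⟨ht.1.1.le, ht.1.2⟩, ?_⟩
      have hp : t.Prime := ht.2.resolve_right (by omega)
      rw [ha]
      refine Nat.Coprime.prod_left fun p hp' => (Nat.coprime_primes (hP p hp') hp).2 ?_
      rw [hPs, mem_filter, mem_Ioc] at hp'
      omega
  have h1 := (card_le_card hsub).trans (card_union_le _ _)
  rw [card_range] at h1
  have h2 := h1.trans (Nat.add_le_add_left (Nat.Ico_filter_coprime_le e n ha0) _)
  have h3 : (((Ioo e (e + n)).filter fun t => t ∈ PP ∨ t < n₁).card : ℝ) ≤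
      (n₁ : ℝ) + N + 1 + (a.totient : ℝ) * (((n / a : ℕ) : ℝ) + 1) := by exact_mod_cast h2
  have h4 : ((n / a : ℕ) : ℝ) ≤ (n : ℝ) / a := Nat.cast_div_le
  have h5 : (a.totient : ℝ) ≤ a := by exact_mod_cast Nat.totient_le a
  have h6 : (a.totient : ℝ) * ((n / a : ℕ) : ℝ) ≤ η / 2 * n := by
    calc _ ≤ (a * (η / 2)) * ((n : ℝ) / a) := by
          rw [hphi]
          gcongr
      _ = η / 2 * n := by field_simp
  have h7 : (L0 : ℝ) ≤ n := by exact_mod_cast (by omega : L0 ≤ n)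
  have h8 : (n₁ : ℝ) + N + 2 + a ≤ η / 2 * n := by
    have h := mul_le_mul_of_nonneg_left (hL0.trans h7) (by positivity : 0 ≤ η / 2)
    have e2 : η / 2 * (((n₁ : ℝ) + N + 2 + a) * (2 / η)) = (n₁ : ℝ) + N + 2 + a := by
      field_simp
    linarith
  push_cast
  rw [mul_add, mul_one] at h3
  linarith

open Classical in
/-- Union bound over the pairs `e, e' ≤ x`; `chernoff` with `η / 2`,
`J = (Ioo e e').filter (t ∉ D ∧ n₁ ≤ t)` and `m = ρ e' (1 - η / 2) (e' - e) ≥ ρ x L / 2`. -/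
theorem good_prob (hρ : Prob ρ) {D : Set ℕ} {n₁ x L : ℕ} {η : ℝ} (h0 : 0 < η) (h1 : η ≤ 1)
    (hL : 1 ≤ L) (hanti : ∀ u v : ℕ, n₁ ≤ u → u ≤ v → ρ v ≤ ρ u)
    (hD : ∀ e e' : ℕ, e + L ≤ e' →
      (((Ioo e e').filter fun t => t ∈ D ∨ t < n₁).card : ℝ) + 1 ≤ η / 2 * ((e' : ℝ) - e)) :
    Ex ρ (Icc 1 x) (fun Q => ind (¬ Good D ρ x L η Q)) ≤
      ((x : ℝ) + 1) ^ 2 * Real.exp (-(η ^ 2 * ρ x * L / 16)) := by
  have key : ∀ e ∈ range (x + 1), ∀ e' ∈ range (x + 1),
      Ex ρ (Icc 1 x) (fun Q => ind (e + L ≤ e' ∧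
        (((Ioo e e').filter fun t => t ∈ Q ∧ t ∉ D).card : ℝ) <
          (1 - η) * ρ e' * ((e' : ℝ) - e))) ≤ Real.exp (-(η ^ 2 * ρ x * L / 16)) := by
    intro e _ e' he'
    rw [mem_range] at he'
    by_cases he : e + L ≤ e'
    swap
    · refine Ex_le_const hρ fun Q _ => ?_
      rw [ind_neg fun h => he h.1]
      exact (Real.exp_pos _).le
    obtain ⟨J, hJ⟩ : ∃ J, J = (Ioo e e').filter fun t => ¬ (t ∈ D ∨ t < n₁) := ⟨_, rfl⟩
    have mJ : ∀ t, t ∈ J ↔ (e < t ∧ t < e') ∧ t ∉ D ∧ n₁ ≤ t := fun t => by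
      rw [hJ, mem_filter, mem_Ioo, not_or, not_lt]
    have hLR : (1 : ℝ) ≤ L := by exact_mod_cast hL
    have hd : (L : ℝ) ≤ (e' : ℝ) - e := by
      have : ((e + L : ℕ) : ℝ) ≤ e' := by exact_mod_cast he
      push_cast at this
      linarith
    have hc : (1 - η / 2) * ((e' : ℝ) - e) ≤ J.card := by
      have h := card_filter_add_card_filter_not (s := Ioo e e') fun t => t ∈ D ∨ t < n₁
      rw [← hJ, Nat.card_Ioo] at h
      have h' : ((Ioo e e').filter fun t => t ∈ D ∨ t < n₁).card + J.card + 1 + e = e' := by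
        omega
      have h2 : (((Ioo e e').filter fun t => t ∈ D ∨ t < n₁).card : ℝ) + J.card + 1 + e = e' := by
        exact_mod_cast h'
      have := hD e e' he
      linarith
    have hn : n₁ ≤ e' := by
      have : (0 : ℝ) < J.card := lt_of_lt_of_le (mul_pos (by linarith) (by linarith)) hc
      obtain ⟨t, ht⟩ := card_pos.1 (by exact_mod_cast this : 0 < J.card)
      have := (mJ t).1 ht
      omega
    have r0 := (hρ e').1
    have hm : ρ e' * ((1 - η / 2) * ((e' : ℝ) - e)) ≤ ∑ t ∈ J, ρ t := by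
      calc _ ≤ ρ e' * J.card := mul_le_mul_of_nonneg_left hc r0
        _ = ∑ _t ∈ J, ρ e' := by rw [sum_const, nsmul_eq_mul, mul_comm]
        _ ≤ _ := sum_le_sum fun t ht =>
          hanti t e' ((mJ t).1 ht).2.2 ((mJ t).1 ht).1.2.le
    have hJU : J ⊆ Icc 1 x := fun t ht => by
      have := (mJ t).1 ht
      rw [mem_Icc]
      omega
    have hch := chernoff hρ hJU (η := η / 2) (by linarith) (by linarith) hm
    have hA : 0 ≤ ρ e' * ((e' : ℝ) - e) := mul_nonneg r0 (by linarith)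
    refine le_trans (Ex_mono hρ fun Q _ => ?_) (hch.trans (Real.exp_le_exp.2 ?_))
    · by_cases h : e + L ≤ e' ∧ (((Ioo e e').filter fun t => t ∈ Q ∧ t ∉ D).card : ℝ) <
          (1 - η) * ρ e' * ((e' : ℝ) - e)
      · rw [ind_pos h, ind_pos]
        have hs : Q ∩ J ⊆ (Ioo e e').filter fun t => t ∈ Q ∧ t ∉ D := fun t ht => by
          rw [mem_inter, mJ] at ht
          rw [mem_filter, mem_Ioo]
          exact ⟨ht.2.1, ht.1, ht.2.2.1⟩
        have hs' : ((Q ∩ J).card : ℝ) ≤ ((Ioo e e').filter fun t => t ∈ Q ∧ t ∉ D).card := by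
          exact_mod_cast card_le_card hs
        have := mul_nonneg (sq_nonneg η) hA
        linarith [h.2]
      · rw [ind_neg h]
        exact ind_nonneg _
    · have hB : ρ x * L ≤ ρ e' * ((e' : ℝ) - e) :=
        mul_le_mul (hanti e' x hn (by omega)) hd (by linarith) r0
      have b1 := mul_le_mul_of_nonneg_left hB (sq_nonneg η)
      have b2 := mul_nonneg (mul_nonneg (sq_nonneg η) hA) (sub_nonneg.2 h1)
      linarith
  calc _ ≤ Ex ρ (Icc 1 x) (fun Q => ∑ e ∈ range (x + 1), ∑ e' ∈ range (x + 1),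
        ind (e + L ≤ e' ∧ (((Ioo e e').filter fun t => t ∈ Q ∧ t ∉ D).card : ℝ) <
          (1 - η) * ρ e' * ((e' : ℝ) - e))) := by
        refine Ex_mono hρ fun Q _ => ?_
        by_cases hG : Good D ρ x L η Q
        · rw [ind_neg (not_not.2 hG)]
          exact sum_nonneg fun _ _ => sum_nonneg fun _ _ => ind_nonneg _
        · rw [ind_pos hG]
          unfold Good at hG
          simp only [not_forall, not_le] at hG
          obtain ⟨e, e', a1, a2, a3⟩ := hG
          refine le_trans ?_ (single_le_sum (f := fun e => ∑ e' ∈ range (x + 1),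
            ind (e + L ≤ e' ∧ (((Ioo e e').filter fun t => t ∈ Q ∧ t ∉ D).card : ℝ) <
              (1 - η) * ρ e' * ((e' : ℝ) - e)))
            (fun _ _ => sum_nonneg fun _ _ => ind_nonneg _) (mem_range.2 (by omega : e < x + 1)))
          refine le_trans ?_ (single_le_sum (f := fun e' =>
            ind (e + L ≤ e' ∧ (((Ioo e e').filter fun t => t ∈ Q ∧ t ∉ D).card : ℝ) <
              (1 - η) * ρ e' * ((e' : ℝ) - e)))
            (fun _ _ => ind_nonneg _) (mem_range.2 (by omega : e' < x + 1)))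
          exact (ind_pos ⟨a2, a3⟩).ge
    _ ≤ ∑ _e ∈ range (x + 1), ∑ _e' ∈ range (x + 1), Real.exp (-(η ^ 2 * ρ x * L / 16)) := by
        rw [Ex_sum]
        refine sum_le_sum fun e he => ?_
        rw [Ex_sum]
        exact sum_le_sum fun e' he' => key e he e' he'
    _ = _ := by
        simp only [sum_const, card_range, nsmul_eq_mul]
        push_cast
        ring

/-- `ρ x ≥ x ^ (-δ / 2)` and `L ≥ x ^ δ`. -/
theorem good_eventually {n₁ : ℕ} (hN : Noise ρ n₁) {δ η : ℝ} (hδ : 0 < δ) (h0 : 0 < η)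
    (h1 : η ≤ 1) : ∀ᶠ x : ℕ in atTop,
      Ex ρ (Icc 1 x) (fun Q => ind (¬ Good PP ρ x (Lp δ x) η Q)) ≤ 1 / (x : ℝ) ^ 3 := by
  obtain ⟨L0, hL0⟩ := primes_sparse n₁ (η := η / 2) (by positivity)
  filter_upwards [log_pow_le_Lp hδ 0 (C := (L0 : ℝ) + 1) (by positivity),
    log_pow_le_Lp (half_pos hδ) 1 (C := 160 / η ^ 2) (by positivity),
    hN.large (δ / 2) (half_pos hδ), eventually_ge_atTop 1] with x a1 a2 a3 hx
  rw [pow_zero, mul_one] at a1
  have a1' : L0 + 1 ≤ Lp δ x := by exact_mod_cast a1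
  have hx1 : (1 : ℝ) ≤ x := by exact_mod_cast hx
  have hx0 : (0 : ℝ) < x := by linarith
  refine (good_prob hN.prob h0 h1 (by omega) hN.anti fun e e' he => hL0 e e' (by omega)).trans ?_
  have b1 : (x : ℝ) ^ (δ / 2) ≤ ρ x * Lp δ x := by
    calc (x : ℝ) ^ (δ / 2) = (x : ℝ) ^ (-(δ / 2)) * (x : ℝ) ^ δ := by
          rw [← Real.rpow_add hx0]
          congr 1
          ring
      _ ≤ _ := mul_le_mul a3 (le_Lp δ x) (by positivity) (hN.prob x).1
  have b2 := a2.trans (Lp_le (half_pos hδ) hx)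
  rw [pow_one] at b2
  have b3 : 5 * (Real.log x + 1) ≤ η ^ 2 * ρ x * Lp δ x / 16 := by
    have c1 := mul_le_mul_of_nonneg_left b2 (sq_nonneg η)
    have c2 := mul_le_mul_of_nonneg_left b1 (sq_nonneg η)
    have c3 : η ^ 2 * (160 / η ^ 2 * (Real.log x + 1)) = 160 * (Real.log x + 1) := by
      field_simp
    linarith
  have b4 : (x : ℝ) ^ 5 * 4 ≤ Real.exp (η ^ 2 * ρ x * Lp δ x / 16) := by
    refine le_trans ?_ (Real.exp_le_exp.2 b3)
    have c1 : Real.exp (5 * (Real.log x + 1)) = (x : ℝ) ^ 5 * Real.exp 5 := by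
      rw [mul_add, mul_one, Real.exp_add, show (5 : ℝ) * Real.log x = (5 : ℕ) * Real.log x by
        norm_num, Real.exp_nat_mul, Real.exp_log hx0]
    rw [c1]
    have := Real.add_one_le_exp (5 : ℝ)
    gcongr
    linarith
  rw [Real.exp_neg, ← div_eq_mul_inv, div_le_div_iff₀ (Real.exp_pos _) (by positivity), one_mul]
  refine le_trans ?_ b4
  calc ((x : ℝ) + 1) ^ 2 * x ^ 3 ≤ (2 * x) ^ 2 * x ^ 3 := by
        gcongr
        linarith
    _ = _ := by ring

end Pool.Agent.Work.MP_9a1701_nt.P
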