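import Pool.Agent.Work.MP_9a1701_nt.P.Range1
import Pool.Agent.Work.MP_9a1701_nt.P.Avg
import Pool.Agent.Work.MP_9a1701_nt.P.An
import Pool.Agent.Work.MP_9a1701_nt.P.Bridge

-- merged part: Pool.Agent.Work.MP_9a1701_nt.P.Range2
section
/-!
# One range of lengths: the oscillating part
-/

set_option autoImplicit false
open Finset Filter

namespace Pool.Agent.Work.MP_9a1701_nt.P

lemma Range2_num {C η x x0 K N l B kc kE lg : ℝ} (hC : 0 ≤ C) (hη : 0 < η) (hx : 0 < x)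
    (h0 : η * x ≤ x0) (hK : 0 ≤ K) (hN : 0 ≤ N) (hl : 1 ≤ l) (hB : 0 ≤ B) (hKN : K * N ≤ 3 * x)
    (h1 : kc ≤ 1 / l ^ 6) (h2 : B * l ^ 9 ≤ 3 * N) (h3 : 0 ≤ lg) (h4 : lg ≤ l) (hE : 0 < kE)
    (h5 : N ^ 2 * l ^ 6 ≤ kE) :
    C * (K * l ^ 3) ^ 2 / x0 * (K ^ 2 * N ^ 2 * (1 / (l ^ 3) ^ 2 + kc) +
      K ^ 2 * B ^ 2 * (l ^ 3) ^ 3 * (2 + lg) ^ 2 + K ^ 2 * N ^ 4 / kE) + C * K ^ 3 * N ≤
      C * (756 / η + 3) * (K * l ^ 3) ^ 2 * x / l ^ 6 := by
  have l0 : 0 < l := by linarith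
  have l6 : 0 < l ^ 6 := by positivity
  have p : K ^ 2 * N ^ 2 ≤ 9 * x ^ 2 := by
    have := pow_le_pow_left₀ (mul_nonneg hK hN) hKN 2
    linarith
  have a1 : K ^ 2 * N ^ 2 * (1 / (l ^ 3) ^ 2 + kc) ≤ 18 * x ^ 2 / l ^ 6 := by
    have e : 1 / (l ^ 3) ^ 2 + kc ≤ 2 / l ^ 6 := by
      rw [← pow_mul, show (2 : ℝ) / l ^ 6 = 1 / l ^ 6 + 1 / l ^ 6 by ring]
      exact add_le_add le_rfl h1
    refine (mul_le_mul_of_nonneg_left e (by positivity)).trans
      ((mul_le_mul_of_nonneg_right p (by positivity)).trans (le_of_eq ?_))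
    ring
  have a2 : K ^ 2 * B ^ 2 * (l ^ 3) ^ 3 * (2 + lg) ^ 2 ≤ 729 * x ^ 2 / l ^ 6 := by
    rw [le_div_iff₀ l6]
    have e1 : (2 + lg) ^ 2 ≤ (3 * l) ^ 2 := pow_le_pow_left₀ (by linarith) (by linarith) 2
    have e2 : (B * l ^ 9) ^ 2 ≤ (3 * N) ^ 2 := pow_le_pow_left₀ (by positivity) h2 2
    have e3 : l ^ 17 ≤ l ^ 18 := pow_le_pow_right₀ hl (by norm_num)
    calc _ = K ^ 2 * B ^ 2 * l ^ 15 * (2 + lg) ^ 2 := by ring
      _ ≤ K ^ 2 * B ^ 2 * l ^ 15 * (3 * l) ^ 2 := mul_le_mul_of_nonneg_left e1 (by positivity)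
      _ = 9 * K ^ 2 * B ^ 2 * l ^ 17 := by ring
      _ ≤ 9 * K ^ 2 * B ^ 2 * l ^ 18 := mul_le_mul_of_nonneg_left e3 (by positivity)
      _ = 9 * K ^ 2 * (B * l ^ 9) ^ 2 := by ring
      _ ≤ 9 * K ^ 2 * (3 * N) ^ 2 := mul_le_mul_of_nonneg_left e2 (by positivity)
      _ = 81 * (K ^ 2 * N ^ 2) := by ring
      _ ≤ _ := by linarith
  have a3 : K ^ 2 * N ^ 4 / kE ≤ 9 * x ^ 2 / l ^ 6 := by
    rw [div_le_div_iff₀ hE l6]
    calc _ = K ^ 2 * N ^ 2 * (N ^ 2 * l ^ 6) := by ring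
      _ ≤ _ := mul_le_mul p h5 (by positivity) (by positivity)
  have a4 : C * K ^ 3 * N ≤ C * K ^ 2 * (3 * x) := by
    rw [show C * K ^ 3 * N = C * K ^ 2 * (K * N) by ring]
    exact mul_le_mul_of_nonneg_left hKN (by positivity)
  have a5 : C * (K * l ^ 3) ^ 2 / x0 ≤ C * (K * l ^ 3) ^ 2 / (η * x) :=
    div_le_div_of_nonneg_left (by positivity) (by positivity) h0
  have x0p : 0 < x0 := lt_of_lt_of_le (by positivity) h0
  refine (add_le_add ((mul_le_mul_of_nonneg_left (add_le_add (add_le_add a1 a2) a3)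
    (by positivity)).trans (mul_le_mul_of_nonneg_right a5 (by positivity))) a4).trans (le_of_eq ?_)
  field_simp
  ring

/-- `avg` with `E = ⌈3 / δ⌉₊`, `T0 = l ^ 3`, `x₀ = ⌊η x⌋₊ + 1`, `b = g - gbar g B`, then
Cauchy-Schwarz. Here `K1 N ≤ 3 x`, `l ^ 9 ≤ N ≤ x`, `B + 1 ≤ 3 N / l ^ 9`, `K1 ≥ x ^ δ / 2`; the
sum of squares is at most `C' H ^ 2 x / (η l ^ 6)`. -/
theorem osc {δ η ε : ℝ} (h0 : 0 < δ) (h1 : δ ≤ 1 / 10) (hη : 0 < η) (hε : 0 < ε) :
    ∀ᶠ x : ℕ in atTop, ∀ K1 K2 l H N B : ℕ, Lp δ x ≤ 2 * K1 → K1 * (Lp δ x * sp x) ≤ 2 * x →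
      K1 ≤ K2 → K2 ≤ 2 * K1 → l = ⌈Real.log x⌉₊ → H = K1 * l ^ 3 → N = (x + H) / K1 + 1 →
      B = N / l ^ 9 + 1 → ∀ g : ℕ → ℝ, (∀ m, 0 ≤ g m) → (∀ m, g m ≤ 1) →
      ∑ n ∈ Ioc ⌊η * x⌋₊ x, |∑ K ∈ Ioc K1 K2,
          ∑ m ∈ (Icc 1 N).filter (fun m => n < K * m ∧ K * m ≤ n + H), (g m - gbar g B m)| ≤
        ε * H * x / (Real.log x + 1) ^ 2 := by
  obtain ⟨c, hc, C, hC, hav⟩ := avg (2 * ⌈3 / δ⌉₊)
  filter_upwards [log_pow_le_Lp h0 ⌈6 / c⌉₊ two_pos, log_pow_le_Lp h0 0 (C := 6) (by norm_num),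
    log_pow_le_sp 9 two_pos, eventually_ge_atTop 1,
    (Real.tendsto_log_atTop.comp tendsto_natCast_atTop_atTop).eventually_ge_atTop
      (max 1 (16 * (C * (756 / η + 3)) / ε ^ 2))] with x e1 e2 e3 e4 e5
  intro K1 K2 l H N B k1 k2 k3 k4 hl hH hN hB g g0 g1
  have x1 : (1 : ℝ) ≤ x := Nat.one_le_cast.2 e4
  have lg1 : 1 ≤ Real.log x := le_of_max_le_left e5
  have lgl : Real.log x ≤ l := hl ▸ Nat.le_ceil _
  have llg : (l : ℝ) ≤ Real.log x + 1 := hl ▸ (Nat.ceil_lt_add_one (by linarith)).le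
  have l1 : (1 : ℝ) ≤ l := lg1.trans lgl
  have l1' : 1 ≤ l := Nat.one_le_cast.1 l1
  have L6 : 6 ≤ Lp δ x := by
    rw [pow_zero, mul_one] at e2
    exact_mod_cast e2
  have K3 : 3 ≤ K1 := by omega
  have s9 : 2 * l ^ 9 ≤ sp x := by
    have := (mul_le_mul_of_nonneg_left (pow_le_pow_left₀ (by linarith) llg 9) two_pos.le).trans e3
    exact_mod_cast this
  have n1 : x + H < K1 * N := hN ▸ Nat.lt_mul_div_succ _ (by omega)
  have n2 : K1 * N ≤ x + H + K1 := by
    rw [hN, mul_add, mul_one]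
    exact Nat.add_le_add_right (Nat.mul_div_le _ _) _
  have n3 : K1 * l ^ 9 ≤ x := by
    have : K1 * (2 * l ^ 9) ≤ K1 * (Lp δ x * sp x) :=
      Nat.mul_le_mul_left _ (s9.trans (Nat.le_mul_of_pos_left _ (by omega)))
    linarith
  have n4 : H ≤ x := hH ▸ (Nat.mul_le_mul_left _ (Nat.pow_le_pow_right l1' (by norm_num))).trans n3
  have n5 : K1 ≤ x := (Nat.le_mul_of_pos_right _ (Nat.pow_pos l1')).trans n3
  have n6 : K1 * N ≤ 3 * x := by omega
  have n7 : N ≤ x := by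
    have := Nat.mul_le_mul_right N K3
    omega
  have n8 : l ^ 9 ≤ N := Nat.le_of_mul_le_mul_left (by omega : K1 * l ^ 9 ≤ K1 * N) (by omega)
  have n9 : (B + 1) * l ^ 9 ≤ 3 * N := by
    have := Nat.div_mul_le_self N (l ^ 9)
    rw [hB, add_assoc, add_mul]
    linarith
  have N1 : 1 ≤ N := (Nat.pow_pos l1').trans_le n8
  have B1 : 1 ≤ B := hB ▸ Nat.le_add_left 1 _
  have K0 : (0 : ℝ) < K1 := Nat.cast_pos.2 (by omega)
  have k1' : (Lp δ x : ℝ) ≤ 2 * K1 := by exact_mod_cast k1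
  have a1 : (K1 : ℝ) ^ (-c) ≤ 1 / (l : ℝ) ^ 6 := by
    have b1 : (l : ℝ) ^ ⌈6 / c⌉₊ ≤ K1 := by
      have := pow_le_pow_left₀ (by linarith) llg ⌈6 / c⌉₊
      linarith
    have b2 : (6 : ℝ) ≤ ⌈6 / c⌉₊ * c := (div_le_iff₀ hc).1 (Nat.le_ceil _)
    rw [Real.rpow_neg K0.le, ← one_div]
    refine one_div_le_one_div_of_le (by positivity) (le_trans ?_
      (Real.rpow_le_rpow (by positivity) b1 hc.le))
    rw [← Real.rpow_natCast, ← Real.rpow_natCast, ← Real.rpow_mul (by linarith)]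
    exact Real.rpow_le_rpow_of_exponent_le l1 (by exact_mod_cast b2)
  have a2 : (N : ℝ) ^ 2 * (l : ℝ) ^ 6 ≤ (K1 : ℝ) ^ (2 * ⌈3 / δ⌉₊) := by
    have b1 : (x : ℝ) ^ δ ≤ (K1 : ℝ) ^ 2 := by
      have : (3 : ℝ) ≤ K1 := by exact_mod_cast K3
      nlinarith [le_Lp δ x]
    have b2 : (3 : ℝ) ≤ δ * ⌈3 / δ⌉₊ := (div_le_iff₀' h0).1 (Nat.le_ceil _)
    have b3 : (N : ℝ) ^ 2 * (l : ℝ) ^ 6 ≤ (x : ℝ) ^ 3 := by
      have : N ^ 2 * l ^ 6 ≤ x ^ 2 * x := Nat.mul_le_mul (Nat.pow_le_pow_left n7 2)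
        ((Nat.pow_le_pow_right l1' (by norm_num)).trans (n8.trans n7))
      rw [← pow_succ] at this
      exact_mod_cast this
    rw [pow_mul]
    refine b3.trans (le_trans ?_ (pow_le_pow_left₀ (by positivity) b1 _))
    rw [← Real.rpow_natCast, ← Real.rpow_natCast, ← Real.rpow_mul (by linarith)]
    exact Real.rpow_le_rpow_of_exponent_le x1 (by exact_mod_cast b2)
  have N0 : (1 : ℝ) ≤ N := Nat.one_le_cast.2 N1
  have hH' : (H : ℝ) = K1 * (l : ℝ) ^ 3 := by rw [hH, Nat.cast_mul, Nat.cast_pow]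
  have key := hav K1 K2 N (⌊η * x⌋₊ + 1) x H (fun m => g m - gbar g B m) (B + 1) ((l : ℝ) ^ 3)
    (by omega) k3 k4 (Nat.le_add_left 1 _) N1 n1.le (abs_sub_gbar_le g0 g1 B1)
    (abs_sum_sub_gbar_le g0 g1 B1) (one_le_pow₀ l1)
  rw [Icc_add_one_left_eq_Ioc, hH'] at key
  replace key := key.trans (Range2_num hC hη (lt_of_lt_of_le one_pos x1)
    (by push_cast; exact (Nat.lt_floor_add_one _).le) K0.le (by linarith) l1 (by positivity)
    (by exact_mod_cast n6) a1 (by exact_mod_cast n9) (Real.log_nonneg N0)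
    ((Real.log_le_log (by linarith) (Nat.cast_le.2 n7)).trans lgl) (by positivity) a2)
  rw [← hH'] at key
  refine (pow_le_pow_iff_left₀ (sum_nonneg fun _ _ => abs_nonneg _) (by positivity) two_ne_zero).1
    (sq_sum_le_card_mul_sum_sq.trans ?_)
  simp only [sq_abs]
  refine (mul_le_mul (b := (x : ℝ)) (Nat.cast_le.2 (by rw [Nat.card_Ioc]; omega)) key
    (sum_nonneg fun _ _ => sq_nonneg _) (by linarith)).trans ?_
  have c1 : 16 * (C * (756 / η + 3)) ≤ l * ε ^ 2 :=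
    (div_le_iff₀ (by positivity)).1 ((le_of_max_le_right e5).trans lgl)
  have c2 : (Real.log x + 1) ^ 4 ≤ (2 * l) ^ 4 := pow_le_pow_left₀ (by linarith) (by linarith) 4
  have c3 : (l : ℝ) ^ 5 ≤ (l : ℝ) ^ 6 := pow_le_pow_right₀ l1 (by norm_num)
  have c0 : 0 ≤ C * (756 / η + 3) := by positivity
  generalize C * (756 / η + 3) = D at *
  have c4 : D * (Real.log x + 1) ^ 4 ≤ ε ^ 2 * (l : ℝ) ^ 6 :=
    calc _ ≤ D * (2 * l) ^ 4 := mul_le_mul_of_nonneg_left c2 c0
      _ = 16 * D * (l : ℝ) ^ 4 := by ring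
      _ ≤ l * ε ^ 2 * (l : ℝ) ^ 4 := mul_le_mul_of_nonneg_right c1 (by positivity)
      _ = ε ^ 2 * (l : ℝ) ^ 5 := by ring
      _ ≤ _ := mul_le_mul_of_nonneg_left c3 (by positivity)
  rw [← mul_div_assoc, div_pow, div_le_div_iff₀ (by positivity) (by positivity)]
  calc _ = (H : ℝ) ^ 2 * (x : ℝ) ^ 2 * (D * (Real.log x + 1) ^ 4) := by ring
    _ ≤ (H : ℝ) ^ 2 * (x : ℝ) ^ 2 * (ε ^ 2 * (l : ℝ) ^ 6) :=
        mul_le_mul_of_nonneg_left c4 (by positivity)
    _ = _ := by ring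

end Pool.Agent.Work.MP_9a1701_nt.P
end

-- merged part: Pool.Agent.Work.MP_9a1701_nt.P.ModA
section
/-!
# The Cramer type model
-/

set_option autoImplicit false
open Finset Filter

namespace Pool.Agent.Work.MP_9a1701_nt.P

open Topology

variable {ρ : ℕ → ℝ}

/-- `K * cntK = ∑ u ∈ Q ∩ V, g u (Q.erase u)` with `V = Ico z hi` and `g v Q'` the number of
blocks of `insert v Q'` with `K` elements, sum `n`, containing `v`; `mecke`, and `uniq` gives
`∑ v ∈ V \ Q, g v Q ≤ 1`. -/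
theorem ptA (hρ : Prob ρ) {x z hi K : ℕ} (hz : 1 ≤ z) (hhi : hi ≤ x + 1) (hK : 1 ≤ K) {r : ℝ}
    (hr0 : 0 ≤ r) (hr : ∀ v ∈ Ico z hi, ρ v ≤ r * (1 - ρ v)) (n : ℕ) :
    Ex ρ (Icc 1 x) (fun Q => (cntK (cfg ∅ Q) z hi K n : ℝ)) ≤ r / K := by
  classical
  let P : ℕ → Finset ℕ → Prop := fun v Q => ∃ p ∈ blk (insert v (cfg ∅ Q)) z hi,
    bcard (insert v (cfg ∅ Q)) p.1 p.2 = K ∧ bsum (insert v (cfg ∅ Q)) p.1 p.2 = n ∧
      p.1 ≤ v ∧ v ≤ p.2
  have hV : Ico z hi ⊆ Icc 1 x := fun v hv => by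
    rw [mem_Ico] at hv; rw [mem_Icc]; omega
  have hK' : (0 : ℝ) < K := by exact_mod_cast hK
  have h1 : ∀ Q : Finset ℕ, (K : ℝ) * (cntK (cfg ∅ Q) z hi K n : ℝ) ≤
      ∑ u ∈ Q ∩ Ico z hi, ind (P u (Q.erase u)) := by
    intro Q
    rcases Nat.eq_zero_or_pos (cntK (cfg ∅ Q) z hi K n) with h0 | h0
    · rw [h0]
      simpa using Finset.sum_nonneg fun u _ => ind_nonneg _
    · have hle : (cntK (cfg ∅ Q) z hi K n : ℝ) ≤ 1 := by exact_mod_cast cntK_le_one _ _ _ _ _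
      obtain ⟨p, hp⟩ := Finset.card_pos.1 h0
      obtain ⟨hp1, hp2, hp3⟩ := mem_filter.1 hp
      have hp1' := mem_blk.1 hp1
      have hsub : (Icc p.1 p.2).filter (fun t => t ∈ cfg ∅ Q) ⊆ Q ∩ Ico z hi := by
        intro t ht
        obtain ⟨ht1, ht2⟩ := mem_filter.1 ht
        rw [mem_Icc] at ht1
        refine mem_inter.2 ⟨by simpa [mem_cfg] using ht2, mem_Ico.2 ⟨by omega, by omega⟩⟩
      have hone : ∀ u ∈ (Icc p.1 p.2).filter (fun t => t ∈ cfg ∅ Q),
          ind (P u (Q.erase u)) = 1 := by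
        intro u hu
        obtain ⟨hu1, hu2⟩ := mem_filter.1 hu
        rw [mem_Icc] at hu1
        have huQ : u ∈ Q := by simpa [mem_cfg] using hu2
        have e : insert u (cfg ∅ (Q.erase u)) = cfg ∅ Q := by
          ext t
          simp only [Set.mem_insert_iff, mem_cfg, Set.mem_empty_iff_false, false_or, mem_erase]
          constructor
          · rintro (rfl | h)
            · exact huQ
            · exact h.2
          · intro h
            by_cases ht : t = u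
            · exact Or.inl ht
            · exact Or.inr ⟨ht, h⟩
        apply ind_pos
        simp only [P, e]
        exact ⟨p, hp1, hp2, hp3, hu1.1, hu1.2⟩
      have hc : (((Icc p.1 p.2).filter (fun t => t ∈ cfg ∅ Q)).card : ℝ) = K := by
        rw [← hp2]; unfold bcard; congr
      calc (K : ℝ) * (cntK (cfg ∅ Q) z hi K n : ℝ) ≤ K * 1 := by gcongr
        _ = ∑ u ∈ (Icc p.1 p.2).filter (fun t => t ∈ cfg ∅ Q), ind (P u (Q.erase u)) := by
          rw [Finset.sum_congr rfl hone, Finset.sum_const, nsmul_eq_mul, hc]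
        _ ≤ _ := Finset.sum_le_sum_of_subset_of_nonneg hsub fun u _ _ => ind_nonneg _
  have h2 : ∀ Q : Finset ℕ, ∑ v ∈ Ico z hi \ Q, ind (P v Q) ≤ 1 := by
    intro Q
    by_cases h : ∃ v ∈ Ico z hi \ Q, P v Q
    · obtain ⟨v, hv, hP⟩ := h
      rw [Finset.sum_eq_single v]
      · exact ind_le_one _
      · intro v' hv' hne
        apply ind_neg
        rintro ⟨p', hp', hc', hs', ha', hb'⟩
        obtain ⟨p, hp, hc, hs, ha, hb⟩ := hP
        have hvQ : v ∉ cfg ∅ Q := by simpa [mem_cfg] using (mem_sdiff.1 hv).2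
        have hvQ' : v' ∉ cfg ∅ Q := by simpa [mem_cfg] using (mem_sdiff.1 hv').2
        have q := mem_blk.1 hp
        have q' := mem_blk.1 hp'
        exact hne (uniq hvQ hvQ' q.2.2.2.1 q.2.2.2.2 ha hb q'.2.2.2.1 q'.2.2.2.2 ha' hb'
          (hc.trans hc'.symm) (hs.trans hs'.symm)).1.symm
      · intro h; exact absurd hv h
    · rw [Finset.sum_eq_zero fun v hv => ind_neg fun hP => h ⟨v, hv, hP⟩]
      norm_num
  rw [le_div_iff₀ hK', mul_comm, ← Ex_const_mul]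
  calc _ ≤ Ex ρ (Icc 1 x) (fun Q => ∑ u ∈ Q ∩ Ico z hi, ind (P u (Q.erase u))) :=
        Ex_mono hρ fun Q _ => h1 Q
    _ ≤ r * Ex ρ (Icc 1 x) (fun Q => ∑ v ∈ Ico z hi \ Q, ind (P v Q)) :=
        mecke hρ hV hr (fun v Q => ind (P v Q)) fun v Q => ind_nonneg _
    _ ≤ r * 1 := mul_le_mul_of_nonneg_left (Ex_le_const hρ fun Q _ => h2 Q) hr0
    _ = r := mul_one r

lemma ModA_zero {c : ℝ} (hc : Tendsto (fun n : ℕ => ρ n * Real.log n) atTop (𝓝 c)) :
    Tendsto ρ atTop (𝓝 0) := by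
  have hl : Tendsto (fun n : ℕ => Real.log n) atTop atTop :=
    Real.tendsto_log_atTop.comp tendsto_natCast_atTop_atTop
  refine (hc.div_atTop hl).congr' ?_
  filter_upwards [hl.eventually_gt_atTop 0] with n hn
  field_simp

lemma ratioA {c : ℝ} (hc : Tendsto (fun n : ℕ => ρ n * Real.log n) atTop (𝓝 c)) {ε : ℝ}
    (hε : 0 < ε) : ∀ᶠ v : ℕ in atTop, ρ v ≤ (c + ε) / Real.log (2 * v) * (1 - ρ v) ∧
      ρ v ≤ 1 * (1 - ρ v) := by
  have h0 := ModA_zero hc
  have h1 : Tendsto (fun v : ℕ => ρ v * Real.log 2 + ρ v * Real.log v) atTop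
      (𝓝 (0 * Real.log 2 + c)) := (h0.mul_const _).add hc
  have h2 : Tendsto (fun v : ℕ => (c + ε) * (1 - ρ v)) atTop (𝓝 ((c + ε) * (1 - 0))) :=
    (tendsto_const_nhds.sub h0).const_mul _
  have h3 := h1.eventually_lt h2 (by linarith)
  have h4 := h0.eventually_lt_const (show (0 : ℝ) < 1 / 2 by norm_num)
  filter_upwards [h3, h4, eventually_ge_atTop 1] with v hv hv' hv1
  have hv2 : (1 : ℝ) ≤ v := by exact_mod_cast hv1
  have hl : 0 < Real.log (2 * v) := Real.log_pos (by linarith)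
  refine ⟨?_, by linarith⟩
  rw [div_mul_eq_mul_div, le_div_iff₀ hl, Real.log_mul (by norm_num) (by linarith)]
  linarith

/-- `ptA` with `r = 1` gives the point bound. For `HUP` use `lam_le` with
`u K = (c + ε) / (K log (n / K))` (in the cell, `2 v ≥ (i+1) s > n / K ≥ i s > 1`), `sum_U` and
`par1`; the bound `lam ≤ c log 2 + η` holds for every `n`. -/
theorem hfinA (hρ : Prob ρ) {c : ℝ} (hc0 : 0 ≤ c)
    (hc : Tendsto (fun n : ℕ => ρ n * Real.log n) atTop (𝓝 c)) :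
    HFin ∅ ρ (c * Real.log 2) := by
  intro δ η h0 h1 hη hη1
  have hε : 0 < η / 3 := by positivity
  have hη' : 0 < η / (3 * (c + 1)) := by positivity
  obtain ⟨v0, hv0⟩ := eventually_atTop.1 (ratioA hc hε)
  filter_upwards [par1 h0 h1 hη, par1 h0 h1 hη',
    log_pow_le_sp 0 (show (0 : ℝ) < (v0 : ℝ) + 1 by positivity)] with x hp hp' hs
  obtain ⟨p1, p2, p3, p4, -, -, p7⟩ := hp
  obtain ⟨-, -, -, -, -, p6, -⟩ := hp'
  have hs' : v0 + 1 ≤ sp x := by
    have : ((v0 + 1 : ℕ) : ℝ) ≤ sp x := by simpa using hs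
    exact_mod_cast this
  set s := sp x with hsdef
  set L := Lp δ x with hL
  set i1 := ip δ x with hi1
  have hs1 : 1 ≤ s := by omega
  have hcell : ∀ i ∈ Ico L i1, s ≤ i * s ∧ 2 ≤ i * s ∧ (i + 1) * s ≤ x + 1 ∧
      (i + 1) * s ≤ 2 * (i * s) := by
    intro i hi
    rw [mem_Ico] at hi
    have a1 : (i + 1) * s ≤ i1 * s := Nat.mul_le_mul_right _ hi.2
    have a2 : 2 * s ≤ i * s := Nat.mul_le_mul_right _ (by omega)
    have a3 : (i + 1) * s = i * s + s := by ring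
    omega
  refine ⟨fun i hi z hz K hK n => ?_, ?_⟩
  · obtain ⟨a1, a2, a3, a4⟩ := hcell i hi
    have hK' : (0 : ℝ) < K := by exact_mod_cast (show 0 < K by omega)
    refine (ptA hρ (r := 1) (by omega) a3 (by omega) zero_le_one
      (fun v hv => (hv0 v (by rw [mem_Ico] at hv; omega)).2) n).trans ?_
    gcongr
    norm_num
  · have key : ∀ n ∈ Ioc ⌊η * x⌋₊ x, max (lam ∅ ρ x s L i1 n - c * Real.log 2) 0 ≤ η := by
      intro n hn
      rw [mem_Ioc] at hn
      have hx2 : 2 ≤ x := by omega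
      have hx1 : (1 : ℝ) ≤ √(x : ℝ) := by
        rw [Real.one_le_sqrt]; exact_mod_cast (show 1 ≤ x by omega)
      have hLs : (0 : ℝ) < (L : ℝ) * s := by
        have : 0 < L * s := Nat.mul_pos (by omega) hs1
        exact_mod_cast this
      have hK2 : √(x : ℝ) * (((x / (L * s) : ℕ) : ℝ) + 1) ≤ n := by
        have b1 : ((x / (L * s) : ℕ) : ℝ) ≤ (x : ℝ) / (L * s) := by
          have := @Nat.cast_div_le ℝ _ _ _ x (L * s)
          simpa using this
        have b2 : (x : ℝ) / (L * s) ≤ 2 * (x : ℝ) / (L * s) := by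
          gcongr
          have : (0 : ℝ) ≤ x := by positivity
          linarith
        have b3 : ((⌊η * x⌋₊ : ℕ) : ℝ) ≤ n := by exact_mod_cast hn.1.le
        calc _ ≤ √(x : ℝ) * (2 * (x : ℝ) / (L * s) + 1) := by gcongr; exact b1.trans b2
          _ ≤ _ := p7.trans b3
      have hce : 0 ≤ c + η / 3 := by positivity
      have hl := lam_le (D := ∅) (ρ := ρ) (x := x) (s := s) (L := L) (i1 := i1) hs1 (by omega)
        (n := n) (by omega) hn.2
        (fun K => (c + η / 3) * (1 / (K * Real.log ((n : ℝ) / K)))) (fun K hK => by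
          rw [mem_Ioc] at hK
          have hK0 : (0 : ℝ) < K := by exact_mod_cast (show 0 < K by omega)
          have hKle : (K : ℝ) ≤ ((x / (L * s) : ℕ) : ℝ) := by exact_mod_cast hK.2
          have hKn : (K : ℝ) ≤ n := by
            have : (0 : ℝ) ≤ ((x / (L * s) : ℕ) : ℝ) := by positivity
            nlinarith
          have : 0 ≤ Real.log ((n : ℝ) / K) := Real.log_nonneg (by rwa [one_le_div hK0])
          positivity) (fun i hi K hK hn1 hn2 => by
          obtain ⟨a1, a2, a3, a4⟩ := hcell i hi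
          have hK0 : (0 : ℝ) < K := by exact_mod_cast (show 0 < K by omega)
          have c1 : (2 : ℝ) ≤ (n : ℝ) / K := by
            rw [le_div_iff₀ hK0]
            have : 2 * K ≤ n := by nlinarith
            exact_mod_cast this
          have hlog : 0 < Real.log ((n : ℝ) / K) := Real.log_pos (by linarith)
          refine (ptA hρ (r := (c + η / 3) / Real.log ((n : ℝ) / K)) (by omega) a3 (by omega)
            (by positivity) (fun v hv => ?_) n).trans (le_of_eq ?_)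
          · rw [mem_Ico] at hv
            refine (hv0 v (by omega)).1.trans (mul_le_mul_of_nonneg_right ?_
              (by linarith [(hρ v).2]))
            have c2 : (n : ℝ) / K ≤ 2 * v := by
              rw [div_le_iff₀ hK0]
              have : n ≤ 2 * v * K := by
                have : K * ((i + 1) * s) ≤ K * (2 * v) := Nat.mul_le_mul_left _ (by omega)
                nlinarith
              exact_mod_cast this
            gcongr
          · field_simp)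
      rw [← Finset.mul_sum] at hl
      have hU := sum_U (K1 := L) hx2 hn.2 (by omega) hK2
      have hl2 : Real.log 2 ≤ 1 := by
        have := Real.log_two_lt_d9; linarith
      have hl0 : 0 ≤ Real.log 2 := Real.log_nonneg (by norm_num)
      have e1 : c * (η / (3 * (c + 1))) ≤ η / 3 := by
        rw [← mul_div_assoc, div_le_div_iff₀ (by positivity) (by norm_num)]
        nlinarith
      have e2 : η / (3 * (c + 1)) ≤ 1 := by
        rw [div_le_one (by positivity)]; linarith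
      have e3 : (c + η / 3) * ((1 + 1 / (L : ℝ)) * Real.log 2) ≤ c * Real.log 2 + η := by
        have f1 : (c + η / 3) * ((1 + 1 / (L : ℝ)) * Real.log 2)
            ≤ (c + η / 3) * ((1 + η / (3 * (c + 1))) * Real.log 2) := by gcongr
        have f2 : 0 ≤ η / 3 + c * (η / (3 * (c + 1))) + η / 3 * (η / (3 * (c + 1))) := by
          positivity
        have f3 : η / 3 * (η / (3 * (c + 1))) ≤ η / 3 := by nlinarith
        have f4 : (c + η / 3) * ((1 + η / (3 * (c + 1))) * Real.log 2) = c * Real.log 2 +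
            (η / 3 + c * (η / (3 * (c + 1))) + η / 3 * (η / (3 * (c + 1)))) * Real.log 2 := by
          ring
        nlinarith
      refine max_le ?_ hη.le
      have := mul_le_mul_of_nonneg_left hU hce
      linarith
    unfold HUP
    refine (Finset.sum_le_card_nsmul _ _ _ key).trans ?_
    rw [nsmul_eq_mul, Nat.card_Ioc, mul_comm]
    gcongr
    exact_mod_cast Nat.sub_le _ _

/-- `|ρ t / t - c / (t log t)| ≤ ε / (t log t)` for large `t`; `ll_le_sum`, `sum_le_ll`. -/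
theorem sum_rho_div {c : ℝ} (hc0 : 0 ≤ c)
    (hc : Tendsto (fun n : ℕ => ρ n * Real.log n) atTop (𝓝 c)) {ε : ℝ} (hε : 0 < ε) :
    ∃ z0 : ℕ, ∀ u v : ℕ, z0 ≤ u → u ≤ v →
      |∑ t ∈ Ico u v, ρ t / t - c * (ll v - ll u)| ≤ ε * (1 + (ll v - ll u)) := by
  obtain ⟨z1, hz1⟩ := eventually_atTop.1
    (hc.eventually (Metric.closedBall_mem_nhds c hε))
  obtain ⟨z2, hz2⟩ := exists_nat_ge ((ε + c) / ε)
  refine ⟨max 3 (max z1 z2), fun u v hu huv => ?_⟩
  have hu3 : 3 ≤ u := le_trans (le_max_left _ _) hu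
  have hu1 : z1 ≤ u := le_trans ((le_max_left _ _).trans (le_max_right _ _)) hu
  have hu2 : z2 ≤ u := le_trans ((le_max_right _ _).trans (le_max_right _ _)) hu
  have hlog : ∀ t : ℕ, 3 ≤ t → 1 ≤ Real.log t := fun t ht => by
    rw [Real.le_log_iff_exp_le (by exact_mod_cast (show 0 < t by omega))]
    have h3 : (3 : ℝ) ≤ t := by exact_mod_cast ht
    have := Real.exp_one_lt_d9
    linarith
  set S := ∑ t ∈ Ico u v, 1 / ((t : ℝ) * Real.log t) with hS
  have a1 := ll_le_sum (show 2 ≤ u by omega) huv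
  have a2 := sum_le_ll (show 2 ≤ u by omega) huv
  rw [← hS] at a1 a2
  have a3 : |∑ t ∈ Ico u v, ρ t / t - c * S| ≤ ε * S := by
    rw [hS, Finset.mul_sum, Finset.mul_sum, ← Finset.sum_sub_distrib]
    refine (Finset.abs_sum_le_sum_abs _ _).trans (Finset.sum_le_sum fun t ht => ?_)
    rw [mem_Ico] at ht
    have b1 := hlog t (by omega)
    have b2 : (0 : ℝ) < t := by exact_mod_cast (show 0 < t by omega)
    have b3 := hz1 t (by omega)
    rw [Real.dist_eq] at b3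
    have e : ρ t / t - c * (1 / ((t : ℝ) * Real.log t))
        = (ρ t * Real.log t - c) * (1 / ((t : ℝ) * Real.log t)) := by
      field_simp
    rw [e, abs_mul, abs_of_nonneg (show 0 ≤ 1 / ((t : ℝ) * Real.log t) by positivity)]
    gcongr
  have a4 : (ε + c) * (1 / ((u : ℝ) * Real.log u)) ≤ ε := by
    have b1 := hlog u hu3
    have b2 : (0 : ℝ) < u := by exact_mod_cast (show 0 < u by omega)
    have b3 : (ε + c) / ε ≤ u := hz2.trans (by exact_mod_cast hu2)
    rw [div_le_iff₀ hε] at b3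
    rw [mul_one_div, div_le_iff₀ (by positivity)]
    have : ε * u * 1 ≤ ε * u * Real.log u := by gcongr
    nlinarith
  rw [abs_le] at a3 ⊢
  have a5 : c * (ll v - ll u) ≤ c * S := by gcongr
  have a6 : c * S ≤ c * (ll v - ll u + 1 / ((u : ℝ) * Real.log u)) := by gcongr
  have a7 : ε * S ≤ ε * (ll v - ll u + 1 / ((u : ℝ) * Real.log u)) := by gcongr
  have a8 : 0 ≤ c * (1 / ((u : ℝ) * Real.log u)) := by
    have := hlog u hu3
    positivity
  constructor <;> nlinarith [a3.1, a3.2]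

/-- `ρ t → 0`, Cesaro. -/
theorem sum_rho_le (hρ : Prob ρ) {c : ℝ}
    (hc : Tendsto (fun n : ℕ => ρ n * Real.log n) atTop (𝓝 c)) {ε : ℝ} (hε : 0 < ε) :
    ∀ᶠ z : ℕ in atTop, ∑ t ∈ Ico 1 z, ρ t ≤ ε * z := by
  have h := (ModA_zero hc).cesaro.eventually_lt_const hε
  filter_upwards [h, eventually_ge_atTop 1] with z hz hz1
  have hz0 : (0 : ℝ) < z := by exact_mod_cast hz1
  rw [inv_mul_lt_iff₀ hz0] at hz
  have : ∑ t ∈ Ico 1 z, ρ t ≤ ∑ t ∈ range z, ρ t :=
    Finset.sum_le_sum_of_subset_of_nonneg (fun t ht => mem_range.2 (mem_Ico.1 ht).2)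
      fun t _ _ => (hρ t).1
  linarith

theorem hmertA {c : ℝ} (hc0 : 0 ≤ c)
    (hc : Tendsto (fun n : ℕ => ρ n * Real.log n) atTop (𝓝 c)) : HMert ∅ ρ c := by
  intro ε hε
  obtain ⟨z0, h⟩ := sum_rho_div hc0 hc hε
  exact ⟨z0, fun u v h1 h2 => by simpa [pit] using h u v h1 h2⟩

theorem hsparseA (hρ : Prob ρ) {c : ℝ}
    (hc : Tendsto (fun n : ℕ => ρ n * Real.log n) atTop (𝓝 c)) : HSparse ∅ ρ := by
  intro ε hε
  simpa [pit] using sum_rho_le hρ hc hε

end Pool.Agent.Work.MP_9a1701_nt.P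
end

-- merged part: Pool.Agent.Work.MP_9a1701_nt.P.Enum
section
/-!
# The gap function of the sums of K consecutive elements
-/

set_option autoImplicit false
open Finset Filter

namespace Pool.Agent.Work.MP_9a1701_nt.P

variable {A : Set ℕ}

lemma dd_strictMono (hA : A.Infinite) : StrictMono (dd A) := by
  exact Nat.nth_strictMono (p := fun t => t ∈ A) hA

lemma dd_mem (hA : A.Infinite) (i : ℕ) : dd A i ∈ A := by
  exact Nat.nth_mem_of_infinite (p := fun t => t ∈ A) hA i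

lemma dd_add_le (hA : A.Infinite) (i j : ℕ) : dd A i + j ≤ dd A (i + j) := by
  induction j with
  | zero => simp
  | succ j ih =>
    have h : dd A (i + j) < dd A (i + (j + 1)) := dd_strictMono hA (by omega)
    omega

lemma Enum_gap (hA : A.Infinite) (i K : ℕ) : (K : ℝ) ≤ (dd A (i + K) : ℝ) - dd A i := by
  have h : ((dd A i + K : ℕ) : ℝ) ≤ dd A (i + K) := Nat.cast_le.2 (dd_add_le hA i K)
  push_cast at h
  linarith

lemma Enum_TT_one (A : Set ℕ) (i : ℕ) : TT A 1 i = dd A i := by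
  simp [TT]

lemma Enum_TT_add (A : Set ℕ) (K k i : ℕ) : TT A (K + k) i = TT A K i + TT A k (i + K) := by
  unfold TT
  rw [sum_range_add]
  simp only [add_assoc]

lemma Enum_TT_low (hA : A.Infinite) (K i : ℕ) : 2 * (K * dd A i) + K * K ≤ 2 * TT A K i + K := by
  induction K with
  | zero => simp
  | succ K ih =>
    have h1 := Enum_TT_add A K 1 i
    have h2 := dd_add_le hA i K
    rw [Enum_TT_one] at h1
    nlinarith

lemma Enum_TT_up (hA : A.Infinite) (k i : ℕ) :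
    2 * TT A k i + k * k + k ≤ 2 * (k * dd A (i + k)) := by
  induction k with
  | zero => simp [TT]
  | succ k ih =>
    have h1 := Enum_TT_add A k 1 i
    have h2 : dd A (i + k) + 1 ≤ dd A (i + (k + 1)) := dd_strictMono hA (by omega)
    have h3 := Nat.mul_le_mul_left (k + 1) h2
    rw [Enum_TT_one] at h1
    nlinarith

lemma TT_succ (A : Set ℕ) (K i : ℕ) : TT A K (i + 1) + dd A i = TT A K i + dd A (i + K) := by
  unfold TT
  have h1 := sum_range_succ (fun j => dd A (i + j)) K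
  have h2 := sum_range_succ' (fun j => dd A (i + j)) K
  have h3 : ∑ j ∈ range K, dd A (i + 1 + j) = ∑ j ∈ range K, dd A (i + (j + 1)) :=
    sum_congr rfl fun j _ => by rw [add_assoc, add_comm 1 j]
  simp only [add_zero] at h2
  omega

lemma TT_strictMono (hA : A.Infinite) {K : ℕ} (hK : 1 ≤ K) : StrictMono (TT A K) := by
  refine strictMono_nat_of_lt_succ fun i => ?_
  have h1 := TT_succ A K i
  have h2 : dd A i < dd A (i + K) := dd_strictMono hA (by omega)
  omega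

lemma Phi_eq (hA : A.Infinite) {K i t : ℕ} (hK : 1 ≤ K) (h1 : TT A K i ≤ t)
    (h2 : t < TT A K (i + 1)) : Phi A K t = 1 / ((dd A (i + K) : ℝ) - dd A i) := by
  have hm := TT_strictMono hA hK
  unfold Phi
  rw [sum_eq_single i]
  · rw [if_pos ⟨h1, h2⟩]
  · intro j _ hj
    rw [if_neg]
    rintro ⟨h3, h4⟩
    have h5 := hm.lt_iff_lt.1 (h3.trans_lt h2)
    have h6 := hm.lt_iff_lt.1 (h1.trans_lt h4)
    omega
  · intro hi
    have h3 : i ≤ TT A K i := hm.le_apply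
    exact absurd (mem_range.2 (by omega)) hi

lemma Phi_cases (hA : A.Infinite) {K : ℕ} (hK : 1 ≤ K) (t : ℕ) :
    (t < TT A K 0 ∧ Phi A K t = 0) ∨ ∃ i, TT A K i ≤ t ∧ t < TT A K (i + 1) := by
  have hm := TT_strictMono hA hK
  by_cases h : t < TT A K 0
  · refine Or.inl ⟨h, ?_⟩
    unfold Phi
    refine sum_eq_zero fun j _ => if_neg ?_
    rintro ⟨h3, -⟩
    have h4 := hm.monotone (Nat.zero_le j)
    omega
  · right
    have hex : ∃ i, t < TT A K (i + 1) := ⟨t, by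
      have h3 : t + 1 ≤ TT A K (t + 1) := hm.le_apply
      omega⟩
    classical
    refine ⟨Nat.find hex, ?_, Nat.find_spec hex⟩
    rcases Nat.eq_zero_or_pos (Nat.find hex) with h0 | h0
    · rw [h0]
      omega
    · have h3 := Nat.find_min hex (m := Nat.find hex - 1) (by omega)
      rw [show Nat.find hex - 1 + 1 = Nat.find hex by omega] at h3
      omega

lemma Phi_nonneg (hA : A.Infinite) {K : ℕ} (hK : 1 ≤ K) (t : ℕ) : 0 ≤ Phi A K t := by
  rcases Phi_cases hA hK t with ⟨-, h⟩ | ⟨i, h1, h2⟩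
  · exact h.ge
  · rw [Phi_eq hA hK h1 h2]
    have h3 := Enum_gap hA i K
    have h4 : (0 : ℝ) ≤ K := Nat.cast_nonneg _
    exact div_nonneg zero_le_one (by linarith)

lemma Phi_le (hA : A.Infinite) {K : ℕ} (hK : 1 ≤ K) (t : ℕ) : Phi A K t ≤ 1 / (K : ℝ) := by
  have h4 : (0 : ℝ) < K := by exact_mod_cast hK
  rcases Phi_cases hA hK t with ⟨-, h⟩ | ⟨i, h1, h2⟩
  · rw [h]
    positivity
  · rw [Phi_eq hA hK h1 h2]
    exact one_div_le_one_div_of_le h4 (Enum_gap hA i K)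

/-- (B2) of the paper. If `j`, `i` are the indices of `t'`, `t` then `j ≤ i ≤ j + k`:
`(K + k) TT K j ≤ K TT (K + k) j`, and
`K TT (K + k) (j + 1) + h K (K + k) ≤ (K + k) TT K (j + 1 + k)` because with `M = dd (j + 1 + k)`
`2 TT K (j + 1 + k) ≥ 2 K M + K (K - 1)` and `2 TT k (j + 1) + k (k + 1) ≤ 2 k M`. -/
theorem Phi_mono (hA : A.Infinite) {K k h t t' : ℕ} (hK : 1 ≤ K) (hk : 2 * h ≤ k)
    (h1 : t' * K ≤ t * (K + k)) (h2 : t * (K + k) ≤ t' * K + h * K * (K + k)) :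
    Phi A (K + k) t' ≤ Phi A K t := by
  have hm := TT_strictMono hA hK
  have hK' : 1 ≤ K + k := by omega
  rcases Phi_cases hA hK' t' with ⟨-, h0⟩ | ⟨j, j1, j2⟩
  · rw [h0]
    exact Phi_nonneg hA hK t
  have a1 : TT A K j ≤ t := by
    have b1 := Enum_TT_add A K k j
    have b2 := Enum_TT_up hA K j
    have b3 := Enum_TT_low hA k (j + K)
    have b4 : k * TT A K j ≤ K * TT A k (j + K) := by
      have c1 : TT A K j ≤ K * dd A (j + K) := by omega
      have c2 : k * dd A (j + K) ≤ TT A k (j + K) := by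
        have c3 : k ≤ k * k := Nat.le_mul_self k
        omega
      calc k * TT A K j ≤ k * (K * dd A (j + K)) := Nat.mul_le_mul_left _ c1
        _ = K * (k * dd A (j + K)) := by ring
        _ ≤ _ := Nat.mul_le_mul_left _ c2
    have b5 : K * TT A (K + k) j ≤ K * t' := Nat.mul_le_mul_left _ j1
    refine Nat.le_of_mul_le_mul_left (c := K + k) ?_ hK'
    rw [b1] at b5
    nlinarith
  have a2 : t < TT A K (j + 1 + k) := by
    have b1 := Enum_TT_add A k K (j + 1)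
    have b2 := Enum_TT_up hA k (j + 1)
    have b3 := Enum_TT_low hA K (j + 1 + k)
    rw [add_comm k K] at b1
    have b5 : K * t' < K * TT A (K + k) (j + 1) := Nat.mul_lt_mul_of_pos_left j2 hK
    rw [b1] at b5
    generalize TT A k (j + 1) = X at *
    generalize TT A K (j + 1 + k) = Y at *
    generalize dd A (j + 1 + k) = M at *
    have c1 := Nat.mul_le_mul_left K b2
    have c2 := Nat.mul_le_mul_left k b3
    have c3 := Nat.mul_le_mul_right (K * (K + k)) hk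
    refine Nat.lt_of_mul_lt_mul_left (a := K + k) ?_
    nlinarith
  rcases Phi_cases hA hK t with ⟨h0, -⟩ | ⟨i, i1, i2⟩
  · have := hm.monotone (Nat.zero_le j)
    omega
  have a3 := hm.lt_iff_lt.1 (a1.trans_lt i2)
  have a4 := hm.lt_iff_lt.1 (i1.trans_lt a2)
  rw [Phi_eq hA hK' j1 j2, Phi_eq hA hK i1 i2]
  have a5 : (dd A j : ℝ) ≤ dd A i := by
    exact_mod_cast (dd_strictMono hA).monotone (show j ≤ i by omega)
  have a6 : (dd A (i + K) : ℝ) ≤ dd A (j + (K + k)) := by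
    exact_mod_cast (dd_strictMono hA).monotone (show i + K ≤ j + (K + k) by omega)
  have a7 := Enum_gap hA i K
  have a8 : (0 : ℝ) < K := by exact_mod_cast hK
  exact one_div_le_one_div_of_le (by linarith) (by linarith)

lemma gg_nonneg (hA : A.Infinite) {K : ℕ} (hK : 1 ≤ K) (m : ℕ) : 0 ≤ gg A K m := by
  exact sum_nonneg fun t _ => Phi_nonneg hA hK t

lemma gg_le_one (hA : A.Infinite) {K : ℕ} (hK : 1 ≤ K) (m : ℕ) : gg A K m ≤ 1 := by
  have a8 : (0 : ℝ) < K := by exact_mod_cast hK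
  have h := sum_le_card_nsmul (Ico (K * m) (K * (m + 1))) (Phi A K) _ fun t _ => Phi_le hA hK t
  rw [Nat.card_Ico, show K * (m + 1) - K * m = K by rw [mul_add_one]; omega, nsmul_eq_mul,
    mul_one_div_cancel a8.ne'] at h
  exact h

lemma gg_ge (hA : A.Infinite) {K k h n m : ℕ} (hK : 1 ≤ K) (hk : 2 * h ≤ k)
    (h1 : n ≤ (K + k) * m) (h2 : (K + k) * (m + 1) ≤ n + h * (K + k)) :
    K * Phi A (K + k) n ≤ gg A K m := by
  have h3 := card_nsmul_le_sum (Ico (K * m) (K * (m + 1))) (Phi A K) (Phi A (K + k) n)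
    fun t ht => by
      obtain ⟨t1, t2⟩ := mem_Ico.1 ht
      have c1 := Nat.mul_le_mul_right K h1
      have c2 := Nat.mul_le_mul_right K h2
      have c3 := Nat.mul_le_mul_right (K + k) t1
      have c4 := Nat.mul_le_mul_right (K + k) t2.le
      exact Phi_mono hA hK hk (by nlinarith) (by nlinarith)
  rw [Nat.card_Ico, show K * (m + 1) - K * m = K by rw [mul_add_one]; omega, nsmul_eq_mul] at h3
  exact h3

/-- (B3) of the paper. Each index `i` contributes at most `1`, and only if `dd i < z + B` and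
`z < dd (i + K)`; at most `K` such indices have `dd i < z`. -/
theorem gg_sum (hA : A.Infinite) {K : ℕ} (hK : 1 ≤ K) (z B : ℕ) :
    ∑ m ∈ Ico z (z + B), gg A K m ≤ ∑ t ∈ Ico z (z + B), ind (t ∈ A) + K := by
  classical
  set c := Nat.count (fun t => t ∈ A) z with hc
  set c' := Nat.count (fun t => t ∈ A) (z + B) with hc'
  have hcc : c ≤ c' := Nat.count_monotone _ (by omega)
  have e1 : ∑ m ∈ Ico z (z + B), gg A K m = ∑ t ∈ Ico (K * z) (K * (z + B)), Phi A K t := by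
    clear hc' hcc c'
    induction B with
    | zero => simp
    | succ B ih =>
      rw [← add_assoc, sum_Ico_succ_top (by omega), ih, gg,
        sum_Ico_consecutive _ (Nat.mul_le_mul_left _ (by omega)) (Nat.mul_le_mul_left _ (by omega))]
  have e2 : ∑ t ∈ Ico z (z + B), ind (t ∈ A) + c = c' := by
    rw [hc']
    clear hc' hcc c' e1
    induction B with
    | zero => simp [hc]
    | succ B ih =>
      rw [← add_assoc, sum_Ico_succ_top (by omega), Nat.count_succ, Nat.cast_add, ← ih]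
      by_cases h : z + B ∈ A
      · rw [ind_pos h, if_pos h]
        push_cast
        ring
      · rw [ind_neg h, if_neg h]
        push_cast
        ring
  have hg : ∀ i, (0 : ℝ) < (dd A (i + K) : ℝ) - dd A i := fun i =>
    lt_of_lt_of_le (by exact_mod_cast hK) (Enum_gap hA i K)
  have e3 : ∀ t ∈ Ico (K * z) (K * (z + B)), Phi A K t ≤ ∑ i ∈ Ico (c - K) c',
      if t ∈ Ico (TT A K i) (TT A K (i + 1)) then 1 / ((dd A (i + K) : ℝ) - dd A i) else 0 := by
    intro t ht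
    obtain ⟨t1, t2⟩ := mem_Ico.1 ht
    have hn : ∀ i ∈ Ico (c - K) c', (0 : ℝ) ≤
        if t ∈ Ico (TT A K i) (TT A K (i + 1)) then 1 / ((dd A (i + K) : ℝ) - dd A i) else 0 :=
      fun i _ => by
        split_ifs
        · exact (one_div_pos.2 (hg i)).le
        · exact le_rfl
    rcases Phi_cases hA hK t with ⟨-, h0⟩ | ⟨i, i1, i2⟩
    · rw [h0]
      exact sum_nonneg hn
    have b1 : dd A i < z + B := by
      have c1 := Enum_TT_low hA K i
      have c3 : K ≤ K * K := Nat.le_mul_self K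
      exact Nat.lt_of_mul_lt_mul_left (a := K) (by omega)
    have b2 : z ≤ dd A (i + K) := by
      have c2 : TT A K (i + 1) ≤ K * dd A (i + K) := by
        unfold TT
        refine (sum_le_card_nsmul _ _ (dd A (i + K)) fun j hj => ?_).trans (by simp)
        exact (dd_strictMono hA).monotone (by have := mem_range.1 hj; omega)
      exact Nat.le_of_mul_le_mul_left (c := K) (by omega) hK
    have b3 : i < c' := (Nat.lt_nth_iff_count_lt (p := fun t => t ∈ A) hA).2 b1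
    have b4 : c ≤ i + K := (Nat.count_le_iff_le_nth (p := fun t => t ∈ A) hA).2 b2
    refine le_trans ?_ (single_le_sum hn (mem_Ico.2 ⟨show c - K ≤ i by omega, b3⟩))
    rw [if_pos (mem_Ico.2 ⟨i1, i2⟩), Phi_eq hA hK i1 i2]
  rw [e1]
  refine (sum_le_sum e3).trans ?_
  rw [sum_comm]
  refine (sum_le_card_nsmul _ _ 1 fun i _ => ?_).trans ?_
  · rw [← sum_filter, sum_const, nsmul_eq_mul, mul_one_div, div_le_one (hg i)]
    have b1 : ((Ico (K * z) (K * (z + B))).filter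
        fun t => t ∈ Ico (TT A K i) (TT A K (i + 1))).card ≤ TT A K (i + 1) - TT A K i := by
      rw [← Nat.card_Ico]
      exact card_le_card fun t ht => (mem_filter.1 ht).2
    have b2 := TT_succ A K i
    have b3 : dd A i ≤ dd A (i + K) := (dd_strictMono hA).monotone (by omega)
    rw [← Nat.cast_sub b3, Nat.cast_le]
    omega
  · rw [Nat.card_Ico, nsmul_eq_mul, mul_one]
    have b1 : c' - (c - K) + c ≤ c' + K := by omega
    have b2 : ((c' - (c - K) : ℕ) : ℝ) + c ≤ c' + K := by exact_mod_cast b1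
    linarith

/-- The block without `v` consists of `dd (i+1), ..., dd (i+K-1)` where `i + 1` is the number of
elements of `A` below `a`; `e = dd i`, `e' = dd (i + K)` and `TT K i < n < TT K (i + 1)`. -/
theorem link (hA : A.Infinite) {v a b d K n : ℕ} (hv : v ∉ A) (hd : d ∈ A) (hda : d < a)
    (h1 : a ≤ v) (h2 : v ≤ b) (hc : bcard (insert v A) a b = K) (hs : bsum (insert v A) a b = n) :
    ∃ e e' : ℕ, e < a ∧ b < e' ∧ e + K ≤ e' ∧ (∀ t ∈ A, e < t → t < e' → a ≤ t ∧ t ≤ b) ∧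
      Phi A K n = 1 / ((e' : ℝ) - e) := by
  classical
  set c := Nat.count (fun t => t ∈ A) a with hc0
  set c' := Nat.count (fun t => t ∈ A) (b + 1) with hc'
  have hcc : c ≤ c' := Nat.count_monotone _ (by omega)
  have l1 : ∀ j, j < c ↔ dd A j < a := fun j => Nat.lt_nth_iff_count_lt (p := fun t => t ∈ A) hA
  have l2 : ∀ j, j < c' ↔ dd A j < b + 1 := fun j =>
    Nat.lt_nth_iff_count_lt (p := fun t => t ∈ A) hA
  have l3 : ∀ t ∈ A, ∃ j, dd A j = t := fun t ht =>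
    ⟨Nat.count (fun t => t ∈ A) t, Nat.nth_count (p := fun t => t ∈ A) ht⟩
  have hm := dd_strictMono hA
  obtain ⟨i, hi⟩ : ∃ i, c = i + 1 := by
    obtain ⟨j, rfl⟩ := l3 d hd
    have := (l1 j).2 hda
    exact ⟨c - 1, by omega⟩
  obtain ⟨k, hk⟩ : ∃ k, c' = i + 1 + k := ⟨c' - c, by omega⟩
  have e1 : (Icc a b).filter (fun t => t ∈ insert v A) =
      insert v ((range k).image fun j => dd A (i + 1 + j)) := by
    ext t
    simp only [mem_filter, mem_Icc, Set.mem_insert_iff, mem_insert, mem_image, mem_range]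
    constructor
    · rintro ⟨⟨t1, t2⟩, rfl | ht⟩
      · exact Or.inl rfl
      · obtain ⟨j, rfl⟩ := l3 t ht
        have b1 := l1 j
        have b2 := l2 j
        exact Or.inr ⟨j - (i + 1), by omega, by rw [show i + 1 + (j - (i + 1)) = j by omega]⟩
    · rintro (rfl | ⟨j, hj, rfl⟩)
      · exact ⟨⟨h1, h2⟩, Or.inl rfl⟩
      · have b1 := l1 (i + 1 + j)
        have b2 := l2 (i + 1 + j)
        exact ⟨⟨by omega, by omega⟩, Or.inr (dd_mem hA _)⟩
  have e2 : v ∉ (range k).image fun j => dd A (i + 1 + j) := fun h => by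
    obtain ⟨j, -, rfl⟩ := mem_image.1 h
    exact hv (dd_mem hA _)
  have e3 : Function.Injective fun j => dd A (i + 1 + j) := fun j j' h => by
    have := hm.injective h
    omega
  have e4 : K = k + 1 := by
    rw [← hc, bcard]
    refine (congrArg card ((filter_congr_decidable _ _ _).trans e1)).trans ?_
    rw [card_insert_of_notMem e2, card_image_of_injective _ e3, Finset.card_range]
  have e5 : n = v + TT A k (i + 1) := by
    rw [← hs, bsum]
    refine (congrArg (fun s => ∑ t ∈ s, t) ((filter_congr_decidable _ _ _).trans e1)).trans ?_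
    rw [sum_insert e2, sum_image fun j _ j' _ h => e3 h, TT]
  have b1 := l1 i
  have b2 := l2 (i + K)
  refine ⟨dd A i, dd A (i + K), by omega, by omega, dd_add_le hA i K, fun t ht t1 t2 => ?_,
    Phi_eq hA (by omega) ?_ ?_⟩
  · obtain ⟨j, rfl⟩ := l3 t ht
    have b3 := l1 j
    have b4 := l2 j
    have b5 := hm.lt_iff_lt.1 t1
    have b6 := hm.lt_iff_lt.1 t2
    omega
  · have b3 := Enum_TT_add A 1 k i
    rw [add_comm 1 k, ← e4, Enum_TT_one] at b3
    omega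
  · have b3 := Enum_TT_add A k 1 (i + 1)
    rw [← e4, Enum_TT_one, show i + 1 + k = i + K by omega] at b3
    omega

end Pool.Agent.Work.MP_9a1701_nt.P
end

-- merged part: Pool.Agent.Work.MP_9a1701_nt.P.PtB
section
/-!
# The point bound with a deterministic part
-/

set_option autoImplicit false
open Finset Filter

namespace Pool.Agent.Work.MP_9a1701_nt.P

open Classical in
/-- Points of `Q` outside `D` in the block. -/
noncomputable def PtB_m (D : Set ℕ) (Q : Finset ℕ) (p : ℕ × ℕ) : ℕ :=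
  ((Icc p.1 p.2).filter fun t => t ∈ Q ∧ t ∉ D).card

/-- Blocks through the inserted point. -/
noncomputable def PtB_S (D : Set ℕ) (z hi K n v : ℕ) (Q : Finset ℕ) : Finset (ℕ × ℕ) :=
  (blk (insert v (cfg D Q)) z hi).filter fun p => bcard (insert v (cfg D Q)) p.1 p.2 = K ∧
    bsum (insert v (cfg D Q)) p.1 p.2 = n ∧ p.1 ≤ v ∧ v ≤ p.2

/-- The weight of an inserted point. -/
noncomputable def PtB_g (D : Set ℕ) (z hi K n v : ℕ) (Q : Finset ℕ) : ℝ :=
  ∑ p ∈ PtB_S D z hi K n v Q, 1 / ((PtB_m D Q p : ℝ) + 1)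

lemma PtB_g_nonneg (D : Set ℕ) (z hi K n v : ℕ) (Q : Finset ℕ) : 0 ≤ PtB_g D z hi K n v Q :=
  sum_nonneg fun _ _ => by positivity

open Classical in
lemma PtB_one {D : Set ℕ} {ρ : ℕ → ℝ} {x lo z hi L K n : ℕ} {η : ℝ} (hlo1 : 1 ≤ lo) (hz : lo ≤ z)
    (hhi : hi + L ≤ x) (hK : L ≤ K) (hpos : ∀ t ∈ Icc lo (hi + L), 0 < (1 - η) * ρ t)
    (Q : Finset ℕ) :
    (cntK (cfg D Q) z hi K n : ℝ) ≤ ind (¬ Good D ρ x L η Q) +
      ∑ u ∈ Q ∩ (Ico z hi).filter (fun t => t ∉ D), PtB_g D z hi K n u (Q.erase u) := by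
  have h1 : (cntK (cfg D Q) z hi K n : ℝ) ≤ 1 := by exact_mod_cast cntK_le_one _ _ _ _ _
  have h0 : 0 ≤ ∑ u ∈ Q ∩ (Ico z hi).filter (fun t => t ∉ D), PtB_g D z hi K n u (Q.erase u) :=
    sum_nonneg fun _ _ => PtB_g_nonneg _ _ _ _ _ _ _
  by_cases hG : Good D ρ x L η Q
  swap
  · rw [ind_pos hG]; linarith
  rw [ind_neg (not_not.2 hG), zero_add]
  rcases Nat.eq_zero_or_pos (cntK (cfg D Q) z hi K n) with h | h
  · rw [h]; exact_mod_cast h0
  obtain ⟨p, hp⟩ := card_pos.1 h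
  obtain ⟨hp1, hp2, hp3⟩ := mem_filter.1 hp
  obtain ⟨b1, b2, b3, b4, b5⟩ := mem_blk.1 hp1
  have hc := bcard_le (cfg D Q) p.1 p.2
  set M := (Icc p.1 p.2).filter fun t => t ∈ Q ∧ t ∉ D with hM
  have hm : 0 < M.card := by
    have g1 := hG (p.1 - 1) (p.2 + 1) (by omega) (by omega)
    have g2 := hpos (p.2 + 1) (mem_Icc.2 ⟨by omega, by omega⟩)
    have g3 : (0 : ℝ) < ((p.2 + 1 : ℕ) : ℝ) - ((p.1 - 1 : ℕ) : ℝ) := by
      have : p.1 - 1 < p.2 + 1 := by omega
      have : ((p.1 - 1 : ℕ) : ℝ) < ((p.2 + 1 : ℕ) : ℝ) := by exact_mod_cast this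
      linarith
    have e : Ioo (p.1 - 1) (p.2 + 1) = Icc p.1 p.2 := by
      ext t; simp only [mem_Ioo, mem_Icc]; omega
    rw [e] at g1
    exact_mod_cast (mul_pos g2 g3).trans_le g1
  have hm' : (0 : ℝ) < M.card := by exact_mod_cast hm
  refine h1.trans ?_
  calc (1 : ℝ) = ∑ _u ∈ M, 1 / (M.card : ℝ) := by
        rw [sum_const, nsmul_eq_mul]; field_simp
    _ ≤ ∑ u ∈ M, PtB_g D z hi K n u (Q.erase u) := sum_le_sum fun u hu => by
        obtain ⟨u1, u2, u3⟩ := mem_filter.1 hu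
        have u4 := mem_Icc.1 u1
        have e : insert u (cfg D (Q.erase u)) = cfg D Q := by
          ext t
          simp only [Set.mem_insert_iff, mem_cfg, mem_erase]
          by_cases ht : t = u
          · subst ht; simp [u2]
          · simp [ht]
        have e2 : (PtB_m D (Q.erase u) p : ℝ) + 1 = M.card := by
          have : (Icc p.1 p.2).filter (fun t => t ∈ Q.erase u ∧ t ∉ D) = M.erase u := by
            ext t; simp only [hM, mem_filter, mem_erase]; tauto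
          rw [PtB_m, this, card_erase_of_mem hu]
          exact_mod_cast (by omega : M.card - 1 + 1 = M.card)
        rw [← e2]
        refine single_le_sum (f := fun p => 1 / ((PtB_m D (Q.erase u) p : ℝ) + 1))
          (fun _ _ => by positivity) ?_
        rw [PtB_S, e]
        exact mem_filter.2 ⟨hp1, hp2, hp3, u4.1, u4.2⟩
    _ ≤ _ := sum_le_sum_of_subset_of_nonneg (fun u hu => by
        obtain ⟨u1, u2, u3⟩ := mem_filter.1 hu
        have u4 := mem_Icc.1 u1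
        exact mem_inter.2 ⟨u2, mem_filter.2 ⟨mem_Ico.2 ⟨by omega, by omega⟩, u3⟩⟩)
        fun _ _ _ => PtB_g_nonneg _ _ _ _ _ _ _

open Classical in
lemma PtB_three {D : Set ℕ} {ρ : ℕ → ℝ} (hD : D.Infinite) {x lo z hi L K d n : ℕ}
    (hd : d ∈ D) (hdlo : d < lo) (hz : lo ≤ z) (hlo : lo ≤ hi) (hhi : hi + L ≤ x) (hL : 1 ≤ L)
    (hK : L ≤ K) {η r κ : ℝ} (hr1 : r ≤ 1) (hκ : 0 ≤ κ)
    (hpos : ∀ t ∈ Icc lo (hi + L), 0 < (1 - η) * ρ t)
    (hrk : ∀ t ∈ Icc lo (hi + L), r ≤ κ * ((1 - η) * ρ t)) (Q : Finset ℕ) :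
    r * ∑ v ∈ (Ico z hi).filter (fun t => t ∉ D) \ Q, PtB_g D z hi K n v Q ≤
      κ * Phi (cfg D Q) K n + ind (¬ Good D ρ x L η Q) := by
  have hA : (cfg D Q).Infinite := hD.mono Set.subset_union_left
  have hP : 0 ≤ κ * Phi (cfg D Q) K n := mul_nonneg hκ (Phi_nonneg hA (by omega) n)
  have hI := ind_nonneg (¬ Good D ρ x L η Q)
  have hV : ∀ v ∈ (Ico z hi).filter (fun t => t ∉ D) \ Q, v ∉ cfg D Q := fun v hv h => by
    obtain ⟨h1, h2⟩ := mem_sdiff.1 hv
    rcases mem_cfg.1 h with h | h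
    · exact (mem_filter.1 h1).2 h
    · exact h2 h
  by_cases hex : ∃ v ∈ (Ico z hi).filter (fun t => t ∉ D) \ Q, ∃ p, p ∈ PtB_S D z hi K n v Q
  swap
  · rw [sum_eq_zero, mul_zero]
    · linarith
    intro v hv
    refine sum_eq_zero fun p hp => (hex ⟨v, hv, p, hp⟩).elim
  obtain ⟨v, hv, p, hp⟩ := hex
  obtain ⟨hp1, hp2, hp3, hp4, hp5⟩ := mem_filter.1 hp
  obtain ⟨b1, b2, b3, b4, b5⟩ := mem_blk.1 hp1
  have hu : ∀ v' ∈ (Ico z hi).filter (fun t => t ∉ D) \ Q, ∀ p' ∈ PtB_S D z hi K n v' Q,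
      v' = v ∧ p' = p := fun v' hv' p' hp' => by
    obtain ⟨q1, q2, q3, q4, q5⟩ := mem_filter.1 hp'
    obtain ⟨-, -, -, c4, c5⟩ := mem_blk.1 q1
    obtain ⟨e1, e2, e3⟩ := uniq (hV v' hv') (hV v hv) c4 c5 q4 q5 b4 b5 hp4 hp5
      (q2.trans hp2.symm) (q3.trans hp3.symm)
    exact ⟨e1, Prod.ext e2 e3⟩
  have e : ∑ v ∈ (Ico z hi).filter (fun t => t ∉ D) \ Q, PtB_g D z hi K n v Q =
      1 / ((PtB_m D Q p : ℝ) + 1) := by
    rw [sum_eq_single_of_mem v hv]
    · exact sum_eq_single_of_mem p hp fun p' hp' h => (h (hu v hv p' hp').2).elim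
    · intro v' hv' h
      exact sum_eq_zero fun p' hp' => (h (hu v' hv' p' hp').1).elim
  rw [e]
  have hm0 : (0 : ℝ) ≤ PtB_m D Q p := Nat.cast_nonneg _
  by_cases hG : Good D ρ x L η Q
  swap
  · rw [ind_pos hG]
    have : r * (1 / ((PtB_m D Q p : ℝ) + 1)) ≤ 1 := by
      rw [mul_one_div, div_le_one (by positivity)]; linarith
    linarith
  rw [ind_neg (not_not.2 hG), add_zero]
  obtain ⟨e0, e1, l1, l2, l3, l4, l5⟩ := link hA (hV v hv) (mem_cfg.2 (Or.inl hd))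
    (by omega : d < p.1) hp4 hp5 hp2 hp3
  have he1 : e1 < hi + L := by
    have g1 := hG (hi - 1) (hi + L) hhi (by omega)
    have g2 := hpos (hi + L) (mem_Icc.2 ⟨by omega, le_rfl⟩)
    have g3 : (0 : ℝ) < ((hi + L : ℕ) : ℝ) - ((hi - 1 : ℕ) : ℝ) := by
      have : hi - 1 < hi + L := by omega
      have : ((hi - 1 : ℕ) : ℝ) < ((hi + L : ℕ) : ℝ) := by exact_mod_cast this
      linarith
    have g4 : 0 < ((Ioo (hi - 1) (hi + L)).filter fun t => t ∈ Q ∧ t ∉ D).card := by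
      exact_mod_cast (mul_pos g2 g3).trans_le g1
    obtain ⟨t, ht⟩ := card_pos.1 g4
    obtain ⟨t1, t2, -⟩ := mem_filter.1 ht
    have t3 := mem_Ioo.1 t1
    by_contra hc
    have := l4 t (mem_cfg.2 (Or.inr t2)) (by omega) (by omega)
    omega
  have hmem : e1 ∈ Icc lo (hi + L) := mem_Icc.2 ⟨by omega, he1.le⟩
  have g1 := hG e0 e1 (by omega) (by omega)
  have g2 : ((Ioo e0 e1).filter fun t => t ∈ Q ∧ t ∉ D).card ≤ PtB_m D Q p :=
    card_le_card fun t ht => by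
      obtain ⟨t1, t2, t3⟩ := mem_filter.1 ht
      have t4 := mem_Ioo.1 t1
      exact mem_filter.2 ⟨mem_Icc.2 (l4 t (mem_cfg.2 (Or.inr t2)) t4.1 t4.2), t2, t3⟩
  have g3 : (1 - η) * ρ e1 * ((e1 : ℝ) - e0) ≤ PtB_m D Q p := g1.trans (by exact_mod_cast g2)
  have g4 : (0 : ℝ) < (e1 : ℝ) - e0 := by
    have : e0 < e1 := by omega
    have : (e0 : ℝ) < e1 := by exact_mod_cast this
    linarith
  rw [l5, mul_one_div, mul_one_div, div_le_div_iff₀ (by positivity) g4]
  calc r * ((e1 : ℝ) - e0) ≤ κ * ((1 - η) * ρ e1) * ((e1 : ℝ) - e0) := by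
        gcongr; exact hrk e1 hmem
    _ = κ * ((1 - η) * ρ e1 * ((e1 : ℝ) - e0)) := by ring
    _ ≤ κ * ((PtB_m D Q p : ℝ) + 1) := by gcongr; linarith

/-- (B1) of the paper. Let `V = (Ico z hi).filter (· ∉ D)` and let `g v Q'` be the sum over the
blocks `p` of `insert v (cfg D Q')` in `[z, hi)` with `K` elements, sum `n`, `p.1 ≤ v ≤ p.2` of
`1 / (card {t ∈ Icc p.1 p.2 | t ∈ Q', t ∉ D} + 1)`.
Step 1: `cntK ≤ ind (¬ Good Q) + ∑ u ∈ Q ∩ V, g u (Q.erase u)` (`cntK_le_one`; `Good` applied to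
`(p.1 - 1, p.2 + 1)` shows that the block holds a point of `Q` outside `D`).
Step 2: `mecke`. Step 3: `r ∑ v ∈ V \ Q, g v Q ≤ κ Phi + ind (¬ Good Q)`: by `uniq` there is at
most one pair `(v, p)`; `link` gives `e, e'`; `Good` applied to `(hi - 1, hi + L)` gives
`e' < hi + L`, and applied to `(e, e')` bounds the number of points from below. -/
theorem ptB {D : Set ℕ} {ρ : ℕ → ℝ} (hρ : Prob ρ) (hD : D.Infinite) {x lo z hi L K d : ℕ}
    (hd : d ∈ D) (hdlo : d < lo) (hz : lo ≤ z) (hlo : lo ≤ hi) (hhi : hi + L ≤ x) (hL : 1 ≤ L)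
    (hK : L ≤ K) {η r κ : ℝ} (hr0 : 0 ≤ r) (hr1 : r ≤ 1) (hκ : 0 ≤ κ)
    (hr : ∀ v ∈ Ico lo hi, ρ v ≤ r * (1 - ρ v))
    (hpos : ∀ t ∈ Icc lo (hi + L), 0 < (1 - η) * ρ t)
    (hrk : ∀ t ∈ Icc lo (hi + L), r ≤ κ * ((1 - η) * ρ t)) (n : ℕ) :
    Ex ρ (Icc 1 x) (fun Q => (cntK (cfg D Q) z hi K n : ℝ)) ≤
      κ * Ex ρ (Icc 1 x) (fun Q => Phi (cfg D Q) K n) +
        2 * Ex ρ (Icc 1 x) (fun Q => ind (¬ Good D ρ x L η Q)) := by
  classical
  have hV : (Ico z hi).filter (fun t => t ∉ D) ⊆ Icc 1 x := fun t ht => by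
    have := mem_Ico.1 (mem_filter.1 ht).1
    exact mem_Icc.2 ⟨by omega, by omega⟩
  have h2 := mecke hρ hV (r := r) (fun v hv => by
    have := mem_Ico.1 (mem_filter.1 hv).1
    exact hr v (mem_Ico.2 ⟨by omega, by omega⟩)) (PtB_g D z hi K n) (PtB_g_nonneg D z hi K n)
  have h1 := Ex_mono (U := Icc 1 x) hρ fun Q _ =>
    PtB_one (D := D) (n := n) (by omega : 1 ≤ lo) hz hhi hK hpos Q
  have h3 := Ex_mono (U := Icc 1 x) hρ fun Q _ =>
    PtB_three (n := n) hD hd hdlo hz hlo hhi hL hK hr1 hκ hpos hrk Q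
  rw [Ex_add] at h1
  rw [Ex_add, Ex_const_mul, Ex_const_mul] at h3
  linarith

end Pool.Agent.Work.MP_9a1701_nt.P
end
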