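import Pool.Agent.Work.MP_9a1701_nt.P.Range3
import Pool.Agent.Work.MP_9a1701_nt.P.PtB
import Pool.Agent.Work.MP_9a1701_nt.P.GoodEv

/-!
# The perturbed primes satisfy the finite hypotheses
-/

set_option autoImplicit false
open Finset Filter

namespace Pool.Agent.Work.MP_9a1701_nt.P

variable {ρ : ℕ → ℝ} {n₁ : ℕ}

lemma ModB_cube {δ : ℝ} {x : ℕ} (h2 : 2 ≤ Lp δ x) (h : Lp δ x ≤ ip δ x) :
    Lp δ x ≤ sp x ∧ Lp δ x ≤ x / (Lp δ x * sp x) := by
  have s0 : 0 < sp x := Nat.succ_pos _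
  have e := le_sp_sq x
  rw [ip] at h
  generalize Lp δ x = L at h h2 ⊢
  generalize sp x = s at h s0 e ⊢
  have h3 := (Nat.le_div_iff_mul_le (by positivity)).1 h
  have h4 : 1 ≤ L ^ 2 := Nat.one_le_pow _ _ (by omega)
  have h5 : L * s ≤ s * s := by
    have := Nat.mul_le_mul_left L (Nat.mul_le_mul_right s h4)
    nlinarith
  refine ⟨Nat.le_of_mul_le_mul_right h5 s0, (Nat.le_div_iff_mul_le (by positivity)).2 ?_⟩
  have := Nat.mul_le_mul_right (L ^ 2 * s) (show 1 ≤ L by omega)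
  nlinarith

lemma ModB_big {δ : ℝ} (h0 : 0 < δ) (T : ℕ) : ∀ᶠ x : ℕ in atTop, T ≤ Lp δ x := by
  filter_upwards [log_pow_le_Lp h0 0 (C := (T : ℝ) + 1) (by positivity)] with x hx
  rw [pow_zero, mul_one] at hx
  exact_mod_cast (show (T : ℝ) ≤ Lp δ x by linarith)

lemma ModB_rho (hN : Noise ρ n₁) {η : ℝ} (hη : 0 < η) :
    ∃ T : ℕ, n₁ ≤ T ∧ ∀ t, T ≤ t → 0 < ρ t ∧ ρ t ≤ η := by
  have h1 : ∀ᶠ n : ℕ in atTop, 1 ≤ Real.log n :=
    (Real.tendsto_log_atTop.comp tendsto_natCast_atTop_atTop).eventually_ge_atTop 1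
  obtain ⟨T, hT⟩ := eventually_atTop.1 ((hN.small.eventually_le_const hη).and
    ((hN.large 1 one_pos).and (h1.and (eventually_gt_atTop 0))))
  refine ⟨max n₁ T, le_max_left _ _, fun t ht => ?_⟩
  obtain ⟨a1, a2, a3, a4⟩ := hT t ((le_max_right _ _).trans ht)
  exact ⟨(Real.rpow_pos_of_pos (Nat.cast_pos.2 a4) _).trans_le a2,
    (le_mul_of_one_le_right (hN.prob t).1 a3).trans a1⟩

/-- `ptB` with `lo = i s`, `hi = (i+1) s`, `d = 2`, `r = (1 + η) ρ lo`, `κ = 1 + ε`, `η` small: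
`ρ` is small and positive on `[L s, x]`, and `ρ lo ≤ ρ t · t / lo ≤ ρ t (1 + 2 / L)` for
`t ≤ hi + L` (`L ≤ s`); `good_eventually`. -/
theorem ptB_eventually (hN : Noise ρ n₁) {δ ε : ℝ} (h0 : 0 < δ) (h1 : δ ≤ 1 / 10) (hε : 0 < ε) :
    ∀ᶠ x : ℕ in atTop, ∀ i ∈ Ico (Lp δ x) (ip δ x), ∀ z : ℕ, i * sp x ≤ z → ∀ K : ℕ,
      Lp δ x ≤ K → ∀ n : ℕ,
        Ex ρ (Icc 1 x) (fun Q => (cntK (cfg PP Q) z ((i + 1) * sp x) K n : ℝ)) ≤
          (1 + ε) * Ex ρ (Icc 1 x) (fun Q => Phi (cfg PP Q) K n) + 2 / (x : ℝ) ^ 3 := by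
  obtain ⟨η, η0, η1, η2⟩ : ∃ η : ℝ, 0 < η ∧ η ≤ 1 / 10 ∧ 10 * η ≤ ε :=
    ⟨min (1 / 10) (ε / 10), by positivity, min_le_left _ _, by
      linarith [min_le_right (1 / 10) (ε / 10)]⟩
  obtain ⟨T, hT, hρ⟩ := ModB_rho hN (half_pos η0)
  filter_upwards [par1 h0 h1 η0, ModB_big h0 T, good_eventually hN h0 η0 (by linarith)]
    with x ⟨p1, p2, p3, _, _, p6, _⟩ hL hG i hi z hz K hK n
  have hs := (ModB_cube p1 p2).1
  rw [mem_Ico] at hi
  generalize Lp δ x = L at *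
  generalize sp x = s at *
  have e1 : L * s ≤ i * s := Nat.mul_le_mul_right s hi.1
  have e2 : (i + 1) * s ≤ ip δ x * s := Nat.mul_le_mul_right s hi.2
  have e3 : 2 * s ≤ L * s := Nat.mul_le_mul_right s p1
  have e4 : (i + 1) * s = i * s + s := by ring
  have r0 := hρ (i * s) (by omega)
  refine (ptB hN.prob PP_infinite (lo := i * s) (d := 2) (η := η) (r := (1 + η) * ρ (i * s))
    (κ := 1 + ε) Nat.prime_two (by omega) hz (by omega) (by omega) (by omega) hK (by nlinarith only [r0.1, η0])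
    (by nlinarith only [r0.1, r0.2, η0, η1])
    (by linarith) (fun v hv => ?_) (fun t ht => ?_) (fun t ht => ?_) n).trans ?_
  · rw [mem_Ico] at hv
    have a1 := hN.anti (i * s) v (by omega) hv.1
    have a2 := hρ v (by omega)
    have a3 : 1 ≤ (1 + η) * (1 - ρ v) := by nlinarith only [a2.2, η0, η1]
    linarith only [a1, mul_le_mul_of_nonneg_left a3 r0.1.le]
  · exact mul_pos (by linarith) (hρ t (by rw [mem_Icc] at ht; omega)).1
  · rw [mem_Icc] at ht
    have a1 := hN.mono (i * s) t (by omega) ht.1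
    have a2 := (hρ t (by omega)).1
    have L0 : (0 : ℝ) < L := by exact_mod_cast (show 0 < L by omega)
    have a3 : (t : ℝ) ≤ (i * s : ℕ) + 2 * s := by exact_mod_cast (show t ≤ i * s + 2 * s by omega)
    have a4 : (L : ℝ) * s ≤ (i * s : ℕ) := by exact_mod_cast e1
    have a5 : (0 : ℝ) < (i * s : ℕ) := by exact_mod_cast (show 0 < i * s by omega)
    rw [div_le_iff₀ L0] at p6
    generalize ((i * s : ℕ) : ℝ) = u at a1 a3 a4 a5
    have a6 : (s : ℝ) ≤ η * u :=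
      (le_mul_of_one_le_left (Nat.cast_nonneg s) p6).trans
        (by linarith only [mul_le_mul_of_nonneg_left a4 η0.le])
    have a7 : ρ (i * s) ≤ (1 + 2 * η) * ρ t := by
      refine le_of_mul_le_mul_left (a1.trans ?_) a5
      rw [← mul_assoc]
      exact mul_le_mul_of_nonneg_right (by linarith) a2.le
    have a8 : (1 + η) * (1 + 2 * η) ≤ (1 + ε) * (1 - η) := by nlinarith only [η0, η1, η2]
    have a9 := mul_le_mul_of_nonneg_right a8 a2.le
    linarith only [a9, mul_le_mul_of_nonneg_left a7 (show 0 ≤ 1 + η by linarith only [η0])]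
  · rw [div_eq_mul_one_div]
    linarith

/-- `Phi ≤ 1 / K`; for `K > x` the count vanishes (`bcard_le`), otherwise `2 / x ^ 3 ≤ 2 / K`. -/
theorem hptB (hN : Noise ρ n₁) {δ : ℝ} (h0 : 0 < δ) (h1 : δ ≤ 1 / 10) :
    ∀ᶠ x : ℕ in atTop, HPT PP ρ x (sp x) (Lp δ x) (ip δ x) := by
  filter_upwards [par1 h0 h1 one_pos, ptB_eventually hN h0 h1 one_pos]
    with x ⟨p1, _, p3, _⟩ h i hi z hz K hK n
  have K0 : (0 : ℝ) < K := by exact_mod_cast (show 0 < K by omega)
  rcases le_or_gt K x with e | e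
  · have a1 := Ex_le_const (U := Icc 1 x) hN.prob fun Q _ =>
      Phi_le (cfg_infinite PP_infinite Q) (show 1 ≤ K by omega) n
    have a2 : (K : ℝ) ≤ (x : ℝ) ^ 3 := by exact_mod_cast e.trans (Nat.le_self_pow (by norm_num) x)
    have a3 := div_le_div_of_nonneg_left zero_le_two K0 a2
    have a4 := h i hi z hz K hK n
    rw [div_eq_mul_one_div 2 (K : ℝ)] at a3
    rw [div_eq_mul_one_div]
    linarith
  · refine Ex_le_const hN.prob fun Q _ => le_trans (le_of_eq ?_) (by positivity : (0 : ℝ) ≤ _)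
    rw [Nat.cast_eq_zero, cntK, card_eq_zero, filter_eq_empty_iff]
    rintro p hp ⟨h2, -⟩
    have a1 := (mem_blk.1 hp).2.2.1
    have a2 := bcard_le (cfg PP Q) p.1 p.2
    have a3 : (i + 1) * sp x ≤ ip δ x * sp x := Nat.mul_le_mul_right _ (mem_Ico.1 hi).2
    omega

/-- `lam_le` with `u K = (1 + ε) Ex Phi + 2 / x ^ 3`, `exists_scales` with `Y = x / (L s)`,
`sum_ranges` (for `Ex Phi ≥ 0` and for `1 / (K log (n / K))`), `range_final` for the at most
`2 R (log x + 1)` ranges, `sum_U` with `K1 = R 2 ^ e0 ≥ L / 2`, `K2 = R 2 ^ e1 ≤ 2 x / (L s)`,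
`par1`. -/
theorem hupB (hN : Noise ρ n₁) {δ η : ℝ} (h0 : 0 < δ) (h1 : δ ≤ 1 / 10) (hη : 0 < η)
    (hη1 : η ≤ 1) : ∀ᶠ x : ℕ in atTop,
      HUP PP ρ x (sp x) (Lp δ x) (ip δ x) ⌊η * x⌋₊ (1 * Real.log 2) η := by
  obtain ⟨a, a0, ha⟩ : ∃ a : ℝ, 0 < a ∧ 20 * a = η := ⟨η / 20, by positivity, by ring⟩
  obtain ⟨R, hR⟩ := exists_nat_ge (4 / a)
  have r1 : 4 ≤ R * a := (div_le_iff₀ a0).1 hR
  have r2 : (2 : ℝ) ≤ R := by nlinarith only [r1, ha, hη1, Nat.cast_nonneg (α := ℝ) R]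
  have r3 : 2 ≤ R := by exact_mod_cast r2
  have a1 : 0 ≤ 1 + a := by linarith
  have hlog : ∀ᶠ x : ℕ in atTop, 8 * R / η ≤ Real.log x :=
    (Real.tendsto_log_atTop.comp tendsto_natCast_atTop_atTop).eventually_ge_atTop _
  filter_upwards [par1 h0 h1 hη, ModB_big h0 R, ptB_eventually hN h0 h1 a0,
    range_final hN h0 h1 hη hη1 a0 r3, hlog, eventually_ge_atTop 2,
    tendsto_natCast_atTop_atTop.eventually_ge_atTop (8 / η)]
    with x ⟨p1, p2, _, p4, _, _, p7⟩ hL hP hF hl x2 x8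
  choose! err g1 g2 g3 using hF
  obtain ⟨e0, e1, k1, k2, k3, k4, k5, k6⟩ := exists_scales (by omega) hL (ModB_cube p1 p2).2
  have s0 : 1 ≤ sp x := Nat.succ_pos _
  have x0 : (0 : ℝ) < x := by exact_mod_cast (show 0 < x by omega)
  have y1 := Nat.div_mul_le_self x (Lp δ x * sp x)
  have y2 := Nat.div_le_self x (Lp δ x * sp x)
  have y3 : ((x / (Lp δ x * sp x) : ℕ) : ℝ) ≤ x / (Lp δ x * sp x) := by
    rw [← Nat.cast_mul]
    exact Nat.cast_div_le
  have y4 := (ModB_cube p1 p2).2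
  unfold HUP
  have hlam := fun n h1 h2 u => lam_le (D := PP) (ρ := ρ) (x := x) (i1 := ip δ x) s0
    (by omega : 1 ≤ Lp δ x) (n := n) h1 h2 u
  generalize x / (Lp δ x * sp x) = Y at *
  have c1 : ∀ e ∈ Ico e0 e1, Lp δ x ≤ 2 * R * 2 ^ e := fun e he =>
    k3.trans (Nat.mul_le_mul_left _ (Nat.pow_le_pow_right two_pos (mem_Ico.1 he).1))
  have c2 : ∀ e ∈ Ico e0 e1, ∀ q ∈ Ico R (2 * R), q * 2 ^ e * (Lp δ x * sp x) ≤ 2 * x :=
    fun e he q hq => by
      have b1 : q * 2 ^ e ≤ R * 2 ^ e1 := by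
        refine (Nat.mul_le_mul_right _ (mem_Ico.1 hq).2.le).trans (le_trans (le_of_eq ?_)
          (Nat.mul_le_mul_left R (Nat.pow_le_pow_right two_pos (mem_Ico.1 he).2)))
        rw [Nat.pow_succ]
        ring
      refine (Nat.mul_le_mul_right _ (b1.trans k5)).trans ?_
      rw [mul_assoc]
      exact Nat.mul_le_mul_left 2 y1
  have Φ0 : ∀ n K, 1 ≤ K → 0 ≤ Ex ρ (Icc 1 x) fun Q => Phi (cfg PP Q) K n := fun n K hK =>
    Ex_nonneg hN.prob fun Q _ => Phi_nonneg (cfg_infinite PP_infinite Q) hK n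
  have K1 : R ≤ R * 2 ^ e0 := Nat.le_mul_of_pos_right _ (by positivity)
  refine (sum_le_sum (g := fun n => η / 2 + 2 * ∑ e ∈ Ico e0 e1, ∑ q ∈ Ico R (2 * R),
    err q (2 ^ e) n) fun n hn => ?_).trans ?_
  · have E0 : 0 ≤ ∑ e ∈ Ico e0 e1, ∑ q ∈ Ico R (2 * R), err q (2 ^ e) n :=
      sum_nonneg fun e he => sum_nonneg fun q hq => g1 q hq _ (c1 e he) (c2 e he q hq) n
    refine max_le ?_ (by linarith only [E0, hη])
    have hn' := mem_Ioc.1 hn
    have b1 := hlam n (by omega) hn'.2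
      (fun K => (1 + a) * Ex ρ (Icc 1 x) (fun Q => Phi (cfg PP Q) K n) + 2 / (x : ℝ) ^ 3)
      (fun K hK => add_nonneg (mul_nonneg a1 (Φ0 n K (by rw [mem_Ioc] at hK; omega)))
        (by positivity)) fun i hi K hK _ _ => hP i hi _ le_rfl K hK.le n
    rw [sum_add_distrib, ← mul_sum, sum_const, Nat.card_Ioc, nsmul_eq_mul] at b1
    have b2 : ((Y - Lp δ x : ℕ) : ℝ) * (2 / (x : ℝ) ^ 3) ≤ η / 4 := by
      have d1 : ((Y - Lp δ x : ℕ) : ℝ) ≤ x := by exact_mod_cast (show Y - Lp δ x ≤ x by omega)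
      have d2 : (x : ℝ) ^ 2 ≤ (x : ℝ) ^ 3 :=
        pow_le_pow_right₀ (by exact_mod_cast (show 1 ≤ x by omega)) (by norm_num)
      refine (mul_le_mul d1 (div_le_div_of_nonneg_left zero_le_two (by positivity) d2)
        (by positivity) x0.le).trans ?_
      rw [div_le_iff₀ hη] at x8
      rw [← mul_div_assoc, div_le_iff₀ (by positivity)]
      linarith only [mul_le_mul_of_nonneg_left x8 x0.le]
    have b3 := sum_le_sum_of_subset_of_nonneg (Ioc_subset_Ioc k2 k4)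
      fun K hK _ => Φ0 n K (by rw [mem_Ioc] at hK; omega)
    rw [← sum_ranges R e0 e1 k1] at b3
    have b4 := b3.trans (sum_le_sum fun e he => sum_le_sum fun q hq =>
      g3 q hq _ (c1 e he) (c2 e he q hq) n hn)
    simp only [sum_add_distrib, ← mul_sum] at b4
    rw [sum_ranges R e0 e1 k1 fun K => 1 / (K * Real.log ((n : ℝ) / K))] at b4
    have b5 := sum_U (K1 := R * 2 ^ e0) (K2 := R * 2 ^ e1) x2 hn'.2 (by omega) (by
      have d1 : ((R * 2 ^ e1 : ℕ) : ℝ) ≤ 2 * Y := by exact_mod_cast k5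
      refine le_trans (mul_le_mul_of_nonneg_left ?_ (Real.sqrt_nonneg _))
        (p7.trans (Nat.cast_le.2 hn'.1.le))
      rw [mul_div_assoc]
      linarith only [d1, y3])
    have b6 : 4 / (R : ℝ) ≤ a := by
      rw [div_le_iff₀ (by linarith only [r2])]
      linarith only [r1]
    have b7 : 1 / ((R * 2 ^ e0 : ℕ) : ℝ) ≤ a := by
      have d1 : (R : ℝ) ≤ (R * 2 ^ e0 : ℕ) := by exact_mod_cast K1
      rw [div_le_iff₀ (by linarith only [d1, r2])]
      linarith only [r1, mul_le_mul_of_nonneg_left d1 a0.le]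
    have l0 := Real.log_two_gt_d9
    have l1 := Real.log_two_lt_d9
    have l2 : 0 ≤ Real.log 2 := by linarith only [l0]
    have b8 := mul_le_mul (mul_le_mul_of_nonneg_left (add_le_add_right b6 1) a1)
      (b5.trans (mul_le_mul_of_nonneg_right (add_le_add_right b7 1) l2))
      (sum_nonneg fun K hK => by
        have d1 : √(x : ℝ) * (2 * (x : ℝ) / (Lp δ x * sp x) + 1) ≤ n :=
          p7.trans (Nat.cast_le.2 hn'.1.le)
        have d2 : (K : ℝ) ≤ 2 * Y := by exact_mod_cast (mem_Ioc.1 hK).2.trans k5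
        have d3 : (0 : ℝ) < K := by exact_mod_cast (show 0 < K by rw [mem_Ioc] at hK; omega)
        have d4 : 1 ≤ √(x : ℝ) := Real.one_le_sqrt.2 (by exact_mod_cast (show 1 ≤ x by omega))
        have d5 := (le_mul_of_one_le_left (by positivity) d4).trans d1
        rw [mul_div_assoc] at d5
        exact one_div_nonneg.2 (mul_nonneg d3.le
          (Real.log_nonneg ((one_le_div d3).2 (by linarith only [d2, d5, y3]))))) (by positivity)
    have b9 : (1 + a) * ((1 + a) * (1 + a) * (1 + a)) ≤ 1 + 5 * a := by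
      have d1 : (1 + a) * (1 + a) ≤ 1 + 41 / 20 * a := by nlinarith only [a0, ha, hη1]
      have d2 := mul_le_mul d1 d1 (by positivity) (by positivity)
      nlinarith only [d2, a0, ha, hη1]
    have b10 := mul_le_mul_of_nonneg_left (b4.trans (add_le_add_left b8 _))
      a1
    have b11 := mul_le_mul_of_nonneg_right b9 l2
    have b12 := mul_le_mul_of_nonneg_right (by linarith only [ha, hη1, a0] : a ≤ 1) E0
    have b13 := mul_le_mul_of_nonneg_left (by linarith only [l1] : Real.log 2 ≤ 1) a0.le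
    linarith only [b1, b2, b10, b11, b12, b13, ha]
  · rw [sum_add_distrib, ← mul_sum, sum_const, Nat.card_Ioc, nsmul_eq_mul, sum_comm]
    have b1 : ((x - ⌊η * x⌋₊ : ℕ) : ℝ) ≤ x := Nat.cast_le.2 (Nat.sub_le _ _)
    have b2 := sum_le_card_nsmul (Ico e0 e1) (fun e => ∑ n ∈ Ioc ⌊η * x⌋₊ x,
      ∑ q ∈ Ico R (2 * R), err q (2 ^ e) n) (R * (x / (Real.log x + 1) ^ 2)) fun e he => by
        rw [sum_comm]
        refine (sum_le_card_nsmul _ _ _ fun q hq =>
          g2 q hq _ (c1 e he) (c2 e he q hq)).trans (le_of_eq ?_)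
        rw [Nat.card_Ico, nsmul_eq_mul, two_mul, Nat.add_sub_cancel]
    rw [Nat.card_Ico, nsmul_eq_mul] at b2
    have l0 : 0 ≤ Real.log x := Real.log_natCast_nonneg x
    have b3 : ((e1 - e0 : ℕ) : ℝ) ≤ 2 * (Real.log x + 1) := by
      have d1 : ((e1 - e0 : ℕ) : ℝ) ≤ e1 := Nat.cast_le.2 (Nat.sub_le _ _)
      have d2 := Real.log_le_log (by exact_mod_cast (show 0 < Y by omega)) (Nat.cast_le.2 y2)
      linarith only [d1, d2, k6]
    have b4 : 2 * (Real.log x + 1) * (R * (x / (Real.log x + 1) ^ 2)) ≤ η / 4 * x := by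
      rw [div_le_iff₀ hη] at hl
      have d1 : 2 * (Real.log x + 1) * (R * (x / (Real.log x + 1) ^ 2)) =
          2 * R / (Real.log x + 1) * x := by field_simp
      rw [d1]
      refine mul_le_mul_of_nonneg_right ?_ x0.le
      rw [div_le_iff₀ (by linarith only [l0])]
      linarith only [hl, hη]
    have b5 := (b2.trans (mul_le_mul_of_nonneg_right b3 (by positivity))).trans b4
    have b6 := mul_le_mul_of_nonneg_right b1 (half_pos hη).le
    linarith only [b5, b6]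

theorem hfinB (hN : Noise ρ n₁) : HFin PP ρ (1 * Real.log 2) := fun _ _ h0 h1 hη hη1 =>
  (hptB hN h0 h1).and (hupB hN h0 h1 hη hη1)

end Pool.Agent.Work.MP_9a1701_nt.P
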