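import Pool.Agent.Work.MP_9a1701_nt.P.Range1
import Pool.Agent.Work.MP_9a1701_nt.P.Bridge
import Pool.Agent.Work.MP_9a1701_nt.P.ModB

/-!
# The two almost sure statements
-/

set_option autoImplicit false
open Finset Filter MeasureTheory ProbabilityTheory Topology

namespace Pool.Agent.Work.MP_9a1701_nt.P

lemma prob_real {Ω : Type*} [MeasurableSpace Ω] (μ : Measure Ω) [IsProbabilityMeasure μ]
    (E : ℕ → Set Ω) : Prob fun n => μ.real (E n) := fun _ =>
  ⟨measureReal_nonneg, measureReal_le_one⟩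

theorem thmA {Ω : Type*} [MeasurableSpace Ω] (μ : Measure Ω) [IsProbabilityMeasure μ]
    (E : ℕ → Set Ω) (hm : ∀ n, MeasurableSet (E n)) (hind : iIndepSet E μ) (c : ℝ)
    (hc : Tendsto (fun n : ℕ => μ.real (E n) * Real.log n) atTop (𝓝 c)) :
    ∀ᵐ ω ∂μ, ∀ k : ℕ, Tendsto (fun x : ℕ => Rk {t | ω ∈ E t} k x / x) atTop
      (𝓝 (poi k (c * Real.log 2))) := by
  have hρ := prob_real μ E
  have hc0 : 0 ≤ c := ge_of_tendsto' hc fun n =>
    mul_nonneg measureReal_nonneg (Real.log_natCast_nonneg n)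
  have h := bridge μ E hm hind ∅ (mul_nonneg hc0 (Real.log_nonneg (by norm_num)))
    (core hρ hc0 (hmertA hc0 hc) (hsparseA hρ hc) (hfinA hρ hc0 hc))
  simpa using h

theorem thmB {Ω : Type*} [MeasurableSpace Ω] (μ : Measure Ω) [IsProbabilityMeasure μ]
    (E : ℕ → Set Ω) (hm : ∀ n, MeasurableSet (E n)) (hind : iIndepSet E μ) {n₁ : ℕ}
    (hN : Noise (fun n => μ.real (E n)) n₁) :
    ∀ᵐ ω ∂μ, ∀ k : ℕ, Tendsto (fun x : ℕ => Rk {t | t.Prime ∨ ω ∈ E t} k x / x) atTop
      (𝓝 (Real.log 2 ^ k / (2 * k.factorial))) := by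
  have h := bridge μ E hm hind PP (mul_nonneg zero_le_one (Real.log_nonneg (by norm_num)))
    (core hN.prob zero_le_one (hmertB hN) (hsparseB hN) (hfinB hN))
  have e : ∀ k : ℕ, poi k (1 * Real.log 2) = Real.log 2 ^ k / (2 * k.factorial) := fun k => by
    rw [poi, one_mul, Real.exp_neg, Real.exp_log (by norm_num)]
    field_simp
  filter_upwards [h] with ω hω k
  rw [← e k]
  exact hω k

end Pool.Agent.Work.MP_9a1701_nt.P
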