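import Pool.Agent.Work.MP_9a1701_nt.P.An
import Pool.Agent.Work.MP_9a1701_nt.P.Bridge
import Pool.Agent.Work.MP_9a1701_nt.P.Setup

-- merged part: Pool.Agent.Work.MP_9a1701_nt.P.Core3
section
/-!
# The finite form of the core theorem
-/

set_option autoImplicit false
open Finset Filter

namespace Pool.Agent.Work.MP_9a1701_nt.P

variable {D : Set ℕ} {ρ : ℕ → ℝ} {x s L i1 : ℕ}

lemma Core3_disj (s : ℕ) {i j : ℕ} (hij : i ≠ j) :
    Disjoint (Ico (i * s) ((i + 1) * s)) (Ico (j * s) ((j + 1) * s)) := by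
  rw [disjoint_left]
  intro t ht ht'
  rw [mem_Ico] at ht ht'
  rcases lt_or_gt_of_ne hij with h | h
  · have : (i + 1) * s ≤ j * s := Nat.mul_le_mul_right s h
    omega
  · have : (j + 1) * s ≤ i * s := Nat.mul_le_mul_right s h
    omega

lemma Core3_sdiff {Q Q' C : Finset ℕ} (e : Q \ C = Q' \ C) {t : ℕ} (ht : t ∉ C) :
    t ∈ Q ↔ t ∈ Q' := by
  have := Finset.ext_iff.1 e t
  rw [Finset.mem_sdiff, Finset.mem_sdiff] at this
  tauto

lemma Core3_bet_nonneg (x s t : ℕ) : 0 ≤ bet x s t := by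
  unfold bet
  split_ifs <;> positivity

lemma Core3_Wt_diff {A A' : Set ℕ} {t : ℕ} (h : ∀ u, u ≠ t → (u ∈ A ↔ u ∈ A')) :
    |Wt A x s L i1 - Wt A' x s L i1| ≤ bet x s t := by
  unfold Wt
  rw [← sum_sub_distrib]
  have hb := Core3_bet_nonneg x s t
  by_cases ht : t ∈ (Icc 1 x).filter (fun t => t ∉ Ico (L * s) (i1 * s))
  · rw [sum_eq_single_of_mem t ht fun u _ hu => by rw [ind_congr (h u hu), sub_self], ← sub_mul,
      abs_mul, abs_of_nonneg hb]
    refine mul_le_of_le_one_left hb (abs_le.2 ⟨?_, ?_⟩)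
    · linarith [ind_nonneg (t ∈ A), ind_le_one (t ∈ A')]
    · linarith [ind_nonneg (t ∈ A'), ind_le_one (t ∈ A)]
  · rw [sum_eq_zero fun u hu => by
      rw [ind_congr (h u fun e => ht (e ▸ hu)), sub_self], abs_zero]
    exact hb

lemma Core3_union {P P1 P2 P3 : Prop} (h : P → P1 ∨ P2 ∨ P3) :
    ind P ≤ ind P1 + ind P2 + ind P3 := by
  have h1 := ind_nonneg P1
  have h2 := ind_nonneg P2
  have h3 := ind_nonneg P3
  by_cases hP : P
  · rw [ind_pos hP]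
    rcases h hP with h' | h' | h' <;> rw [ind_pos h'] <;> linarith
  · rw [ind_neg hP]
    linarith

/-- `efron_stein` with the cells, `bdiff`, `Fk_congr`, `sum_inv_sq_le`. -/
lemma var_Fk (hρ : Prob ρ) (hs : 1 ≤ s) (hL : 1 ≤ L) (hi : i1 * s ≤ x) (k : ℕ) :
    Ex ρ (Icc 1 x) (fun Q => (Fk (cfg D Q) x s L i1 k -
      Ex ρ (Icc 1 x) fun Q => Fk (cfg D Q) x s L i1 k) ^ 2) ≤ 8 * (x : ℝ) ^ 2 / L := by
  have h := efron_stein (U := Icc 1 x) hρ (Ico L i1) (fun i => Ico (i * s) ((i + 1) * s))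
    (fun i _ j _ hij => Core3_disj s hij)
    (fun i hi' t ht => by
      rw [mem_Ico] at hi' ht
      have h1 : 1 * 1 ≤ i * s := Nat.mul_le_mul (hL.trans hi'.1) hs
      have h2 : (i + 1) * s ≤ i1 * s := Nat.mul_le_mul_right s hi'.2
      rw [mem_Icc]
      omega)
    (fun Q => Fk (cfg D Q) x s L i1 k)
    (fun Q => Fk_congr k fun i hi' t ht => by
      rw [mem_cfg, mem_cfg, mem_inter]
      have : t ∈ (Ico L i1).biUnion fun i => Ico (i * s) ((i + 1) * s) :=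
        mem_biUnion.2 ⟨i, hi', ht⟩
      tauto)
    (fun i => 2 * (x : ℝ) / i)
    (fun i hi' Q Q' e => bdiff k hs (hL.trans (mem_Ico.1 hi').1) fun t ht => by
      rw [mem_cfg, mem_cfg, Core3_sdiff e ht])
  refine h.trans ?_
  have e : ∑ i ∈ Ico L i1, (2 * (x : ℝ) / i) ^ 2 =
      4 * (x : ℝ) ^ 2 * ∑ i ∈ Ico L i1, 1 / (i : ℝ) ^ 2 := by
    rw [mul_sum]
    refine sum_congr rfl fun i _ => ?_
    ring
  rw [e]
  refine (mul_le_mul_of_nonneg_left (sum_inv_sq_le hL) (by positivity)).trans (le_of_eq ?_)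
  ring

/-- `efron_stein` with the singletons of `Icc 1 x` and `b t = bet x s t`. -/
lemma var_Wt (hρ : Prob ρ) (hs : 1 ≤ s) :
    Ex ρ (Icc 1 x) (fun Q => (Wt (cfg D Q) x s L i1 -
      Ex ρ (Icc 1 x) fun Q => Wt (cfg D Q) x s L i1) ^ 2) ≤
        4 * (s : ℝ) ^ 3 + 2 * (x : ℝ) ^ 2 / s := by
  have h := efron_stein (U := Icc 1 x) hρ (Icc 1 x) (fun t => {t})
    (fun i _ j _ hij => disjoint_singleton.2 hij)
    (fun i hi => singleton_subset_iff.2 hi)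
    (fun Q => Wt (cfg D Q) x s L i1)
    (fun Q => by
      unfold Wt
      refine sum_congr rfl fun t ht => ?_
      rw [biUnion_singleton_eq_self]
      have := (mem_filter.1 ht).1
      rw [ind_congr (R := t ∈ cfg D (Q ∩ Icc 1 x)) (by rw [mem_cfg, mem_cfg, mem_inter]; tauto)])
    (fun t => bet x s t)
    (fun t _ Q Q' e => Core3_Wt_diff fun u hu => by
      rw [mem_cfg, mem_cfg, Core3_sdiff e (by simpa using hu)])
  refine h.trans ?_
  have hsub : Icc 1 x ⊆ Ico 0 s ∪ Ico s (x + 1) := by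
    intro t ht
    rw [mem_Icc] at ht
    rw [mem_union, mem_Ico, mem_Ico]
    omega
  refine (sum_le_sum_of_subset_of_nonneg hsub fun _ _ _ => sq_nonneg _).trans ?_
  rw [sum_union (Ico_disjoint_Ico_consecutive 0 s (x + 1))]
  refine add_le_add (le_of_eq ?_) ?_
  · rw [sum_congr rfl (g := fun _ => (2 * (s : ℝ)) ^ 2) fun t ht => by
      rw [bet, if_pos (mem_Ico.1 ht).2], sum_const, Nat.card_Ico, Nat.sub_zero, nsmul_eq_mul]
    ring
  · rw [sum_congr rfl (g := fun t : ℕ => (x : ℝ) ^ 2 * (1 / (t : ℝ) ^ 2)) fun t ht => by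
      rw [bet, if_neg (not_lt.2 (mem_Ico.1 ht).1)]
      ring, ← mul_sum]
    refine (mul_le_mul_of_nonneg_left (sum_inv_sq_le hs) (by positivity)).trans (le_of_eq ?_)
    ring

lemma mean_Wt (hρ : Prob ρ) (hs : 1 ≤ s) (hL : 1 ≤ L) (hLi : L ≤ i1) :
    Ex ρ (Icc 1 x) (fun Q => Wt (cfg D Q) x s L i1) ≤
      2 * s * ∑ t ∈ Ico 1 s, pit D ρ t + x * ∑ t ∈ Ico s (L * s), pit D ρ t / t +
        x * ∑ t ∈ Ico (i1 * s) (x + 1), pit D ρ t / t := by
  have h1 : s ≤ L * s := Nat.le_mul_of_pos_left s hL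
  have h2 : L * s ≤ i1 * s := Nat.mul_le_mul_right s hLi
  unfold Wt
  rw [Ex_sum]
  refine (sum_le_sum (g := fun t => pit D ρ t * bet x s t) fun t _ => ?_).trans ?_
  · rw [Ex_mul_const]
    exact mul_le_mul_of_nonneg_right (Ex_mem_cfg_le hρ D t) (Core3_bet_nonneg x s t)
  have hsub : (Icc 1 x).filter (fun t => t ∉ Ico (L * s) (i1 * s)) ⊆
      (Ico 1 s ∪ Ico s (L * s)) ∪ Ico (i1 * s) (x + 1) := by
    intro t ht
    rw [mem_filter, mem_Icc, mem_Ico] at ht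
    rw [mem_union, mem_union, mem_Ico, mem_Ico, mem_Ico]
    omega
  refine (sum_le_sum_of_subset_of_nonneg hsub fun t _ _ =>
    mul_nonneg (pit_nonneg hρ D t) (Core3_bet_nonneg x s t)).trans (le_of_eq ?_)
  have hd : Disjoint (Ico 1 s ∪ Ico s (L * s)) (Ico (i1 * s) (x + 1)) := by
    rw [disjoint_left]
    intro t ht ht'
    rw [mem_union, mem_Ico, mem_Ico] at ht
    rw [mem_Ico] at ht'
    omega
  rw [sum_union hd, sum_union (Ico_disjoint_Ico_consecutive 1 s (L * s)), mul_sum, mul_sum,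
    mul_sum]
  congr 1
  · congr 1
    · refine sum_congr rfl fun t ht => ?_
      rw [bet, if_pos (mem_Ico.1 ht).2]
      ring
    · refine sum_congr rfl fun t ht => ?_
      rw [bet, if_neg (not_lt.2 (mem_Ico.1 ht).1)]
      ring
  · refine sum_congr rfl fun t ht => ?_
    rw [bet, if_neg (not_lt.2 (h1.trans (h2.trans (mem_Ico.1 ht).1)))]
    ring

/-- If `|Fk - E Fk| ≤ η x`, `|Wt - E Wt| ≤ η x` and the surplus is at most `η x`, then `disc`
and `mean_Fk` give `|Rk - x poi| ≤ (61 + 19 l0) η x`; union bound with `chebyshev`, `markov`. -/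
theorem core_fin (hρ : Prob ρ) (h : HPT D ρ x s L i1) (hs : 1 ≤ s) (hL : 1 ≤ L) (hLi : L ≤ i1)
    (hx0 : 1 ≤ x) (hx : x ≤ s ^ 2) (hi : i1 * s ≤ x) {n0 : ℕ} (hn : L * (i1 * s) ≤ n0) (k : ℕ)
    {l0 η : ℝ} (hl : 0 ≤ l0) (hη : 0 < η) (hη1 : η ≤ 1 / 4)
    (hup : HUP D ρ x s L i1 n0 l0 η) (hn0 : (n0 : ℝ) ≤ η * x) (hi' : ((i1 * s : ℕ) : ℝ) ≤ η * x)
    (hLη : 1 / (L : ℝ) ≤ η) (hS : l0 - η ≤ ∑ t ∈ Ico (L * s) (i1 * s), pit D ρ t / t)
    (hW : Ex ρ (Icc 1 x) (fun Q => Wt (cfg D Q) x s L i1) ≤ η * x) :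
    Ex ρ (Icc 1 x) (fun Q => ind (70 * (1 + l0) * η * x < |Rk (cfg D Q) k x - x * poi k l0|)) ≤
      8 / (η ^ 2 * L) + (4 * (s : ℝ) ^ 3 + 2 * (x : ℝ) ^ 2 / s) / (η * x) ^ 2 +
        32 / (η * L) := by
  have hxp : (0 : ℝ) < x := by exact_mod_cast hx0
  have hLp : (0 : ℝ) < L := by exact_mod_cast hL
  have ha : 0 < η * x := mul_pos hη hxp
  have hm := mean_Fk hρ h hs hL hLi hx hi hn k hl hη hη1 hup hn0 hi' hLη hS
  have hZ := Ex_Z_le hρ h hs hL
  have hvF := var_Fk (D := D) hρ hs hL hi k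
  have hvW := var_Wt (D := D) (x := x) (L := L) (i1 := i1) hρ hs
  have c1 := chebyshev (U := Icc 1 x) hρ (fun Q => Fk (cfg D Q) x s L i1 k)
    (Ex ρ (Icc 1 x) fun Q => Fk (cfg D Q) x s L i1 k) ha
  have c2 := chebyshev (U := Icc 1 x) hρ (fun Q => Wt (cfg D Q) x s L i1)
    (Ex ρ (Icc 1 x) fun Q => Wt (cfg D Q) x s L i1) ha
  have c3 := markov (U := Icc 1 x) (F := fun Q => ∑ i ∈ Ico L i1, Zi (cfg D Q) x s i) hρ
    (fun Q => sum_nonneg fun i _ => Zi_nonneg _ x s i) ha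
  generalize (Ex ρ (Icc 1 x) fun Q => Fk (cfg D Q) x s L i1 k) = mF at hm hvF c1
  generalize (Ex ρ (Icc 1 x) fun Q => Wt (cfg D Q) x s L i1) = mW at hW hvW c2
  refine (Ex_mono hρ (G := fun Q => ind (η * x < |Fk (cfg D Q) x s L i1 k - mF|) +
    ind (η * x < |Wt (cfg D Q) x s L i1 - mW|) +
    ind (η * x < ∑ i ∈ Ico L i1, Zi (cfg D Q) x s i)) fun Q _ => ?_).trans ?_
  · have hd := disc (cfg D Q) (i1 := i1) k hs hL hx hi
    have hL2 : 2 * (x : ℝ) / L ≤ 2 * (η * x) := by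
      have := mul_le_mul_of_nonneg_right hLη hxp.le
      calc 2 * (x : ℝ) / L = 2 * (1 / L * x) := by ring
        _ ≤ 2 * (η * x) := by linarith
    refine Core3_union fun h0 => ?_
    by_contra hc
    simp only [not_or, not_lt] at hc
    obtain ⟨h1, h2, h3⟩ := hc
    have h4 := abs_le.1 h1
    have h5 := abs_le.1 h2
    have h6 := abs_le.1 hd
    have h7 := abs_le.1 hm
    have h8 : 0 ≤ l0 * (η * x) := mul_nonneg hl ha.le
    refine absurd h0 (not_lt.2 (abs_le.2 ⟨?_, ?_⟩)) <;> nlinarith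
  · rw [Ex_add, Ex_add]
    refine add_le_add (add_le_add (c1.trans ?_) (c2.trans ?_)) (c3.trans ?_)
    · refine (div_le_div_of_nonneg_right hvF (by positivity)).trans (le_of_eq ?_)
      field_simp
    · exact div_le_div_of_nonneg_right hvW (by positivity)
    · refine (div_le_div_of_nonneg_right hZ ha.le).trans (le_of_eq ?_)
      field_simp

end Pool.Agent.Work.MP_9a1701_nt.P
end

-- merged part: Pool.Agent.Work.MP_9a1701_nt.P.Core4
section
/-!
# The core theorem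
-/

set_option autoImplicit false
open Finset Filter

namespace Pool.Agent.Work.MP_9a1701_nt.P

lemma Core4_tail {η L s x l : ℝ} (hη : 0 < η) (hη1 : η ≤ 1) (hl : 0 < l) (hx : 0 < x) (hs : 0 < s)
    (hsx : s ^ 2 ≤ 4 * x) (hL : 106 / η ^ 2 * (l + 1) ^ 2 ≤ L) (hS : 106 / η ^ 2 * (l + 1) ^ 2 ≤ s) :
    8 / (η ^ 2 * L) + (4 * s ^ 3 + 2 * x ^ 2 / s) / (η * x) ^ 2 + 32 / (η * L) ≤ 1 / l ^ 2 := by
  have h2 : 0 < η ^ 2 := by positivity
  have h0 : 0 < 106 * l ^ 2 := by positivity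
  rw [div_mul_eq_mul_div, div_le_iff₀' h2] at hL hS
  have a1 : 106 * l ^ 2 ≤ η ^ 2 * L := by nlinarith only [hL, hl]
  have a2 : 106 * l ^ 2 ≤ η ^ 2 * s := by nlinarith only [hS, hl]
  have a3 : 0 < L := (mul_pos_iff_of_pos_left h2).1 (h0.trans_le a1)
  have a4 : η ^ 2 * L ≤ η * L := mul_le_mul_of_nonneg_right (by nlinarith only [hη, hη1]) a3.le
  have b1 := div_le_div_of_nonneg_left (show (0 : ℝ) ≤ 8 by norm_num) h0 a1
  have b2 := div_le_div_of_nonneg_left (show (0 : ℝ) ≤ 32 by norm_num) h0 (a1.trans a4)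
  have b3 := div_le_div_of_nonneg_left (show (0 : ℝ) ≤ 66 by norm_num) h0 a2
  have b4 : (4 * s ^ 3 + 2 * x ^ 2 / s) / (η * x) ^ 2 ≤ 66 / (η ^ 2 * s) := by
    rw [div_le_div_iff₀ (by positivity) (by positivity)]
    have e : (4 * s ^ 3 + 2 * x ^ 2 / s) * (η ^ 2 * s) = η ^ 2 * (4 * (s ^ 2) ^ 2 + 2 * x ^ 2) := by
      field_simp
    have := mul_le_mul_of_nonneg_left (pow_le_pow_left₀ (sq_nonneg s) hsx 2) h2.le
    rw [e]
    linarith only [this]
  have e : 1 / l ^ 2 = 8 / (106 * l ^ 2) + 66 / (106 * l ^ 2) + 32 / (106 * l ^ 2) := by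
    field_simp
    norm_num
  linarith only [b1, b2, b3, b4, e]

lemma Core4_up {S c Δ ε b : ℝ} (hc : 0 ≤ c) (hε : 0 ≤ ε) (h : |S - c * Δ| ≤ ε * (1 + Δ))
    (hb : Δ ≤ b) (hb1 : b ≤ 1) : S ≤ c * b + 2 * ε := by
  have h1 := mul_le_mul_of_nonneg_left hb hc
  have h2 := mul_le_mul_of_nonneg_left (hb.trans hb1) hε
  linarith only [(abs_le.1 h).2, h1, h2]

/-- Given the target accuracy choose `η ≤ 1/4` with `70 (1 + l0) η` below it, then `δ` and the
accuracy `ε` of `HMert`, `HSparse` so that `mean_Wt` is at most `η x` (`sp x ^ 2 ≤ 4 x`, `par2`)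
and the sum over the cells is at least `c log 2 - η`; `core_fin`, `par1`, `log_pow_le_Lp`,
`log_pow_le_sp`. -/
theorem core {D : Set ℕ} {ρ : ℕ → ℝ} (hρ : Prob ρ) {c : ℝ} (hc : 0 ≤ c) (hM : HMert D ρ c)
    (hS : HSparse D ρ) (hF : HFin D ρ (c * Real.log 2)) : HConc D ρ (c * Real.log 2) := by
  intro k η0 hη0
  have hl : 0 ≤ c * Real.log 2 := mul_nonneg hc (Real.log_nonneg one_le_two)
  obtain ⟨η, hη, hη1, hη2⟩ : ∃ η : ℝ, 0 < η ∧ η ≤ 1 / 4 ∧ 70 * (1 + c * Real.log 2) * η ≤ η0 :=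
    ⟨min (1 / 4) (η0 / (70 * (1 + c * Real.log 2))), by positivity, min_le_left _ _,
      (le_div_iff₀' (by positivity)).1 (min_le_right _ _)⟩
  obtain ⟨δ, hδ, hδ1, hδ2⟩ : ∃ δ : ℝ, 0 < δ ∧ δ ≤ 1 / 10 ∧ 16 * (c + 1) * δ ≤ η :=
    ⟨min (1 / 10) (η / (16 * (c + 1))), by positivity, min_le_left _ _,
      (le_div_iff₀' (by positivity)).1 (min_le_right _ _)⟩
  have hε : 0 < η / 24 := by positivity
  obtain ⟨z0, hz0⟩ := hM _ hε
  obtain ⟨z1, hz1⟩ := eventually_atTop.1 (hS _ hε)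
  have hC : 0 < 106 / η ^ 2 := by positivity
  filter_upwards [hF δ η hδ hδ1 hη (by linarith only [hη1]), par1 hδ hδ1 hη, par2 hδ hδ1,
    log_pow_le_Lp hδ 2 hC, log_pow_le_sp 2 hC,
    log_pow_le_sp 0 (show (0 : ℝ) < (z0 + z1 + 1 : ℕ) by positivity), eventually_ge_atTop 2]
    with x h1 h2 h3 h4 h5 h6 hx
  obtain ⟨p1, p2, p3, p4, p5, p6, -⟩ := h2
  obtain ⟨q1, q2, q3, q4⟩ := h3
  rw [pow_zero, mul_one, Nat.cast_le] at h6
  have hx0 : (0 : ℝ) < x := Nat.cast_pos.2 (by omega)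
  have hs : 1 ≤ sp x := by omega
  have hs0 : (0 : ℝ) < sp x := Nat.cast_pos.2 hs
  have hsx : (sp x : ℝ) ^ 2 ≤ 4 * x := by
    have := pow_le_pow_left₀ hs0.le (sp_le (show 1 ≤ x by omega)) 2
    rw [mul_pow, Real.sq_sqrt hx0.le] at this
    linarith only [this]
  have r1 : sp x ≤ Lp δ x * sp x := Nat.le_mul_of_pos_left _ (by omega)
  have r2 : Lp δ x * sp x ≤ ip δ x * sp x := Nat.mul_le_mul_right _ p2
  have m1 := Core4_up hc hε.le (hz0 _ _ (by omega) r1) q1 (by linarith only [hδ1])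
  have m2 := Core4_up hc hε.le (hz0 (ip δ x * sp x) (x + 1) (by omega) (by omega)) q2
    (by linarith only [hδ1])
  have m3 := (abs_le.1 (hz0 _ _ (by omega) r2)).1
  have m4 := mul_le_mul_of_nonneg_left (hz1 (sp x) (by omega)) (show (0 : ℝ) ≤ 2 * sp x by
    positivity)
  have hW : Ex ρ (Icc 1 x) (fun Q => Wt (cfg D Q) x (sp x) (Lp δ x) (ip δ x)) ≤ η * x := by
    have n1 := mul_le_mul_of_nonneg_left m1 hx0.le
    have n2 := mul_le_mul_of_nonneg_left m2 hx0.le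
    have n3 := mul_le_mul_of_nonneg_left hsx hη.le
    have n4 := mul_le_mul_of_nonneg_left hδ2 hx0.le
    have n5 := mul_pos hx0 hδ
    have n6 := mul_pos hx0 hη
    linarith only [mean_Wt (D := D) (x := x) hρ hs (show 1 ≤ Lp δ x by omega) p2, n1, n2, n3, n4,
      n5, n6, m4]
  have hlow : c * Real.log 2 - η ≤ ∑ t ∈ Ico (Lp δ x * sp x) (ip δ x * sp x), pit D ρ t / t := by
    have n1 := mul_le_mul_of_nonneg_left q3 hc
    have n2 := mul_le_mul_of_nonneg_left q4 hε.le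
    linarith only [m3, n1, n2, hδ2, hδ, hη]
  refine le_trans (Ex_mono hρ fun Q _ => ?_) ((core_fin hρ h1.1 hs (by omega) p2 (by omega)
    (le_sp_sq x) (by omega) p4 k hl hη hη1 h1.2 (Nat.floor_le (by positivity)) p5 p6 hlow hW).trans
    (Core4_tail hη (by linarith only [hη1]) (Real.log_pos (by exact_mod_cast hx)) hx0 hs0 hsx h4 h5))
  by_cases h : η0 * x < |Rk (cfg D Q) k x - x * poi k (c * Real.log 2)|
  · rw [ind_pos h, ind_pos ((mul_le_mul_of_nonneg_right hη2 hx0.le).trans_lt h)]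
  · rw [ind_neg h]
    exact ind_nonneg _

end Pool.Agent.Work.MP_9a1701_nt.P
end

-- merged part: Pool.Agent.Work.MP_9a1701_nt.P.Range1
section
/-!
# One range of lengths: deterministic inequalities
-/

set_option autoImplicit false
open Finset Filter

namespace Pool.Agent.Work.MP_9a1701_nt.P

/-- Average of `g` over the block of length `B` that contains `m`. -/
noncomputable def gbar (g : ℕ → ℝ) (B m : ℕ) : ℝ :=
  (∑ m' ∈ Ico (B * (m / B)) (B * (m / B) + B), g m') / B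

lemma abs_sub_gbar_le {g : ℕ → ℝ} (h0 : ∀ m, 0 ≤ g m) (h1 : ∀ m, g m ≤ 1) {B : ℕ} (hB : 1 ≤ B)
    (m : ℕ) : |g m - gbar g B m| ≤ 1 := by
  have hBp : (0 : ℝ) < B := by exact_mod_cast hB
  have hlo : 0 ≤ gbar g B m := by
    unfold gbar
    exact div_nonneg (sum_nonneg fun i _ => h0 i) hBp.le
  have hhi : gbar g B m ≤ 1 := by
    unfold gbar
    rw [div_le_one hBp]
    calc ∑ m' ∈ Ico (B * (m / B)) (B * (m / B) + B), g m'
        ≤ ∑ _m' ∈ Ico (B * (m / B)) (B * (m / B) + B), (1 : ℝ) := sum_le_sum fun i _ => h1 i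
      _ = B := by simp
  have := h0 m
  have := h1 m
  rw [abs_le]
  constructor <;> linarith

lemma Range1_block (g : ℕ → ℝ) {B : ℕ} (hB : 1 ≤ B) (q : ℕ) :
    ∑ m ∈ Ico (B * q) (B * q + B), (g m - gbar g B m) = 0 := by
  have hBp : (0 : ℝ) < B := by exact_mod_cast hB
  have h : ∀ m ∈ Ico (B * q) (B * q + B),
      gbar g B m = (∑ m' ∈ Ico (B * q) (B * q + B), g m') / B := by
    intro m hm
    rw [mem_Ico] at hm
    have hq : m / B = q := by
      apply Nat.div_eq_of_lt_le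
      · rw [Nat.mul_comm]; exact hm.1
      · have : (q + 1) * B = B * q + B := by ring
        omega
    unfold gbar
    rw [hq]
  rw [sum_sub_distrib, sum_congr rfl h, sum_const, Nat.card_Ico, nsmul_eq_mul]
  have : B * q + B - B * q = B := by omega
  rw [this]
  field_simp
  ring

lemma Range1_blocks (g : ℕ → ℝ) {B : ℕ} (hB : 1 ≤ B) (q : ℕ) :
    ∑ m ∈ Ico 0 (B * q), (g m - gbar g B m) = 0 := by
  induction q with
  | zero => simp
  | succ q ih =>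
    have e : B * (q + 1) = B * q + B := by ring
    rw [e, ← sum_Ico_consecutive _ (Nat.zero_le (B * q)) (Nat.le_add_right _ _), ih,
      Range1_block g hB q, add_zero]

/-- The sum over a full block vanishes. -/
lemma abs_sum_sub_gbar_le {g : ℕ → ℝ} (h0 : ∀ m, 0 ≤ g m) (h1 : ∀ m, g m ≤ 1) {B : ℕ}
    (hB : 1 ≤ B) (z : ℕ) : |∑ m ∈ Icc 1 z, (g m - gbar g B m)| ≤ B + 1 := by
  have hq : B * (z / B) ≤ z := Nat.mul_div_le z B
  have hq2 : z < B * (z / B) + B := by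
    have := Nat.div_add_mod z B
    have := Nat.mod_lt z (show 0 < B by omega)
    omega
  have e1 : ∑ m ∈ Ico 0 (z + 1), (g m - gbar g B m) =
      (g 0 - gbar g B 0) + ∑ m ∈ Icc 1 z, (g m - gbar g B m) := by
    rw [sum_eq_sum_Ico_succ_bot (Nat.succ_pos z)]
    rfl
  have e2 : ∑ m ∈ Ico 0 (z + 1), (g m - gbar g B m) =
      ∑ m ∈ Ico (B * (z / B)) (z + 1), (g m - gbar g B m) := by
    rw [← sum_Ico_consecutive _ (Nat.zero_le (B * (z / B))) (by omega : B * (z / B) ≤ z + 1),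
      Range1_blocks g hB, zero_add]
  have e3 : |∑ m ∈ Ico (B * (z / B)) (z + 1), (g m - gbar g B m)| ≤ B := by
    calc |∑ m ∈ Ico (B * (z / B)) (z + 1), (g m - gbar g B m)|
        ≤ ∑ m ∈ Ico (B * (z / B)) (z + 1), |g m - gbar g B m| := abs_sum_le_sum_abs _ _
      _ ≤ ∑ _m ∈ Ico (B * (z / B)) (z + 1), (1 : ℝ) :=
          sum_le_sum fun i _ => abs_sub_gbar_le h0 h1 hB i
      _ = ((z + 1 - B * (z / B) : ℕ) : ℝ) := by simp
      _ ≤ B := by exact_mod_cast (by omega : z + 1 - B * (z / B) ≤ B)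
  have e4 := abs_sub_gbar_le h0 h1 hB 0
  have e5 : ∑ m ∈ Icc 1 z, (g m - gbar g B m) =
      ∑ m ∈ Ico (B * (z / B)) (z + 1), (g m - gbar g B m) - (g 0 - gbar g B 0) := by
    rw [← e2, e1]; ring
  rw [e5]
  rw [abs_le] at e3 e4 ⊢
  constructor <;> linarith [e3.1, e3.2, e4.1, e4.2]

lemma Range1_filter {K1 K N H n : ℕ} (hK : K1 < K) (hN : n + H ≤ K1 * N) :
    (Icc 1 N).filter (fun m => n < K * m ∧ K * m ≤ n + H) = Ioc (n / K) ((n + H) / K) := by
  have hKp : 0 < K := by omega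
  ext m
  simp only [mem_filter, mem_Icc, mem_Ioc]
  rw [Nat.div_lt_iff_lt_mul hKp, Nat.le_div_iff_mul_le hKp, Nat.mul_comm m K]
  constructor
  · rintro ⟨-, h⟩; exact h
  · rintro ⟨ha, hb⟩
    refine ⟨⟨?_, ?_⟩, ha, hb⟩
    · rcases Nat.eq_zero_or_pos m with h | h
      · subst h; simp at ha
      · exact h
    · have h3 : K * m ≤ K * N := le_trans hb (le_trans hN (Nat.mul_le_mul_right N hK.le))
      exact Nat.le_of_mul_le_mul_left h3 hKp

lemma Range1_card {K H n : ℕ} (hK : 0 < K) :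
    (H : ℝ) / K - 1 ≤ ((Ioc (n / K) ((n + H) / K)).card : ℝ) ∧
      ((Ioc (n / K) ((n + H) / K)).card : ℝ) ≤ (H : ℝ) / K + 1 := by
  have hKr : (0 : ℝ) < K := by exact_mod_cast hK
  have hle : n / K ≤ (n + H) / K := Nat.div_le_div_right (by omega)
  rw [Nat.card_Ioc, Nat.cast_sub hle]
  have a1 := Nat.div_add_mod n K
  have a2 := Nat.mod_lt n hK
  have b1 := Nat.div_add_mod (n + H) K
  have b2 := Nat.mod_lt (n + H) hK
  have c1 : (K : ℝ) * (n / K : ℕ) ≤ n := by exact_mod_cast (by omega : K * (n / K) ≤ n)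
  have c2 : (n : ℝ) ≤ K * (n / K : ℕ) + K := by exact_mod_cast (by omega : n ≤ K * (n / K) + K)
  have d1 : (K : ℝ) * ((n + H) / K : ℕ) ≤ n + H := by
    exact_mod_cast (by omega : K * ((n + H) / K) ≤ n + H)
  have d2 : (n : ℝ) + H ≤ K * ((n + H) / K : ℕ) + K := by
    exact_mod_cast (by omega : n + H ≤ K * ((n + H) / K) + K)
  constructor
  · rw [sub_le_iff_le_add, div_le_iff₀ hKr]; nlinarith
  · rw [← sub_le_iff_le_add, le_div_iff₀ hKr]; nlinarith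

/-- The number of `m` with `n < K m ≤ n + H` lies in `[H / K - 1, H / K + 1]`; all these `m` are
in `Icc 1 N`. So `K0 φ K (H / K2 - 1) ≤ ∑ g m = ∑ gb m + ∑ (g m - gb m)`. -/
theorem range_det {K0 K1 K2 N H n : ℕ} (hK0 : 1 ≤ K0) (hK1 : 1 ≤ K1) (hH : K2 < H)
    (hN : n + H ≤ K1 * N) (φ g gb γ : ℕ → ℝ) (hφ : ∀ K ∈ Ioc K1 K2, 0 ≤ φ K)
    (hγ : ∀ K ∈ Ioc K1 K2, 0 ≤ γ K)
    (h1 : ∀ K ∈ Ioc K1 K2, ∀ m, n < K * m → K * m ≤ n + H → K0 * φ K ≤ g m)
    (h2 : ∀ K ∈ Ioc K1 K2, ∀ m, n < K * m → K * m ≤ n + H → gb m ≤ γ K) :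
    ∑ K ∈ Ioc K1 K2, φ K ≤ (K2 : ℝ) / (K0 * ((H : ℝ) - K2)) *
      (((H : ℝ) + K2) * ∑ K ∈ Ioc K1 K2, γ K / K + |∑ K ∈ Ioc K1 K2,
        ∑ m ∈ (Icc 1 N).filter (fun m => n < K * m ∧ K * m ≤ n + H), (g m - gb m)|) := by
  have hK0r : (0 : ℝ) < K0 := by exact_mod_cast hK0
  have hHr : (0 : ℝ) < (H : ℝ) - K2 := by
    have : (K2 : ℝ) < H := by exact_mod_cast hH
    linarith
  by_cases hne : K1 < K2
  swap
  · have : Ioc K1 K2 = ∅ := Ioc_eq_empty hne
    simp [this]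
  have hK2r : (0 : ℝ) < K2 := by exact_mod_cast (by omega : 0 < K2)
  have key : ∀ K ∈ Ioc K1 K2, K0 * ((H : ℝ) - K2) / K2 * φ K ≤ ((H : ℝ) + K2) * (γ K / K) +
      ∑ m ∈ (Icc 1 N).filter (fun m => n < K * m ∧ K * m ≤ n + H), (g m - gb m) := by
    intro K hK
    have hK' := mem_Ioc.1 hK
    have hKp : 0 < K := by omega
    have hKr : (0 : ℝ) < K := by exact_mod_cast hKp
    have hKK : (K : ℝ) ≤ K2 := by exact_mod_cast hK'.2
    have hc := Range1_card (K := K) (H := H) (n := n) hKp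
    rw [← Range1_filter hK'.1 hN] at hc
    set S := (Icc 1 N).filter (fun m => n < K * m ∧ K * m ≤ n + H) with hS
    have hg : (S.card : ℝ) * (K0 * φ K) ≤ ∑ m ∈ S, g m := by
      rw [← nsmul_eq_mul, ← sum_const]
      refine sum_le_sum fun m hm => ?_
      have := (mem_filter.1 hm).2
      exact h1 K hK m this.1 this.2
    have hgb : ∑ m ∈ S, gb m ≤ (S.card : ℝ) * γ K := by
      rw [← nsmul_eq_mul, ← sum_const]
      refine sum_le_sum fun m hm => ?_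
      have := (mem_filter.1 hm).2
      exact h2 K hK m this.1 this.2
    have hHn : (0 : ℝ) ≤ H := Nat.cast_nonneg H
    have hl : ((H : ℝ) - K2) / K2 ≤ S.card := by
      refine le_trans ?_ hc.1
      rw [sub_div, div_self hK2r.ne']
      have : (H : ℝ) / K2 ≤ H / K := div_le_div_of_nonneg_left hHn hKr hKK
      linarith
    have hu : (S.card : ℝ) ≤ ((H : ℝ) + K2) / K := by
      refine le_trans hc.2 ?_
      rw [add_div]
      have : (1 : ℝ) ≤ K2 / K := by rw [le_div_iff₀ hKr]; linarith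
      linarith
    have hp : 0 ≤ (K0 : ℝ) * φ K := mul_nonneg hK0r.le (hφ K hK)
    have t1 : K0 * ((H : ℝ) - K2) / K2 * φ K ≤ (S.card : ℝ) * (K0 * φ K) := by
      have : K0 * ((H : ℝ) - K2) / K2 * φ K = ((H : ℝ) - K2) / K2 * (K0 * φ K) := by ring
      rw [this]
      exact mul_le_mul_of_nonneg_right hl hp
    have t2 : (S.card : ℝ) * γ K ≤ ((H : ℝ) + K2) * (γ K / K) := by
      have : ((H : ℝ) + K2) * (γ K / K) = ((H : ℝ) + K2) / K * γ K := by ring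
      rw [this]
      exact mul_le_mul_of_nonneg_right hu (hγ K hK)
    rw [sum_sub_distrib]
    linarith
  have hs := sum_le_sum key
  rw [← mul_sum, sum_add_distrib, ← mul_sum] at hs
  have hs2 := le_trans hs (add_le_add_right (le_abs_self _) _)
  have hpos : (0 : ℝ) < (K2 : ℝ) / (K0 * ((H : ℝ) - K2)) := by positivity
  have hs3 := mul_le_mul_of_nonneg_left hs2 hpos.le
  have e : (K2 : ℝ) / (K0 * ((H : ℝ) - K2)) * (K0 * ((H : ℝ) - K2) / K2 *
      ∑ K ∈ Ioc K1 K2, φ K) = ∑ K ∈ Ioc K1 K2, φ K := by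
    field_simp
  rw [e] at hs3
  exact hs3

lemma Range1_q (w a b : ℕ) (h : a ≤ b) (G : ℕ → ℝ) :
    ∑ q ∈ Ico a b, ∑ K ∈ Ioc (q * w) ((q + 1) * w), G K = ∑ K ∈ Ioc (a * w) (b * w), G K := by
  induction b, h using Nat.le_induction with
  | base => simp
  | succ b hb ih =>
    rw [sum_Ico_succ_top hb, ih]
    exact sum_Ioc_consecutive _ (Nat.mul_le_mul_right w hb) (Nat.mul_le_mul_right w (by omega))

/-- `Finset.sum_Ioc_consecutive`, twice by induction. -/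
lemma sum_ranges (R e0 e1 : ℕ) (h : e0 ≤ e1) (G : ℕ → ℝ) :
    ∑ e ∈ Ico e0 e1, ∑ q ∈ Ico R (2 * R), ∑ K ∈ Ioc (q * 2 ^ e) ((q + 1) * 2 ^ e), G K =
      ∑ K ∈ Ioc (R * 2 ^ e0) (R * 2 ^ e1), G K := by
  induction e1, h using Nat.le_induction with
  | base => simp
  | succ b hb ih =>
    rw [sum_Ico_succ_top hb, ih, Range1_q _ _ _ (by omega)]
    have e : 2 * R * 2 ^ b = R * 2 ^ (b + 1) := by ring
    rw [e]
    exact sum_Ioc_consecutive _ (Nat.mul_le_mul_left R (Nat.pow_le_pow_right (by omega) hb))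
      (Nat.mul_le_mul_left R (Nat.pow_le_pow_right (by omega) (by omega)))

/-- Dyadic scales: `R 2 ^ e0 ≤ L < R 2 ^ (e0 + 1)` and `Y ≤ R 2 ^ e1 ≤ 2 Y`. -/
lemma exists_scales {R L Y : ℕ} (hR : 1 ≤ R) (hL : R ≤ L) (hY : L ≤ Y) :
    ∃ e0 e1 : ℕ, e0 ≤ e1 ∧ R * 2 ^ e0 ≤ L ∧ L ≤ 2 * R * 2 ^ e0 ∧ Y ≤ R * 2 ^ e1 ∧
      R * 2 ^ e1 ≤ 2 * Y ∧ (e1 : ℝ) ≤ 2 * (Real.log Y + 1) := by
  classical
  have big : ∀ Z : ℕ, Z < R * 2 ^ Z := fun Z =>
    lt_of_lt_of_le Nat.lt_two_pow_self (Nat.le_mul_of_pos_left _ hR)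
  have hA : ∃ e : ℕ, L < R * 2 ^ (e + 1) := ⟨L, lt_of_lt_of_le (big L)
    (Nat.mul_le_mul_left R (Nat.pow_le_pow_right (by omega) (by omega)))⟩
  have hB : ∃ e : ℕ, Y ≤ R * 2 ^ e := ⟨Y, (big Y).le⟩
  have a1 := Nat.find_spec hA
  have b1 := Nat.find_spec hB
  have a2 : R * 2 ^ Nat.find hA ≤ L := by
    rcases Nat.eq_zero_or_pos (Nat.find hA) with h | h
    · rw [h]; simpa using hL
    · have := Nat.find_min hA (Nat.sub_lt h Nat.one_pos)
      rw [Nat.sub_add_cancel h] at this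
      omega
  have b2 : R * 2 ^ Nat.find hB ≤ 2 * Y := by
    rcases Nat.eq_zero_or_pos (Nat.find hB) with h | h
    · rw [h]; simp; omega
    · have h3 := Nat.find_min hB (Nat.sub_lt h Nat.one_pos)
      have e : R * 2 ^ Nat.find hB = 2 * (R * 2 ^ (Nat.find hB - 1)) := by
        conv_lhs => rw [← Nat.sub_add_cancel h]
        ring
      omega
  refine ⟨Nat.find hA, Nat.find hB, ?_, a2, ?_, b1, b2, ?_⟩
  · have h3 : R * 2 ^ Nat.find hA ≤ R * 2 ^ Nat.find hB := le_trans a2 (le_trans hY b1)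
    exact (Nat.pow_le_pow_iff_right (by omega : 1 < 2)).1 (Nat.le_of_mul_le_mul_left h3 hR)
  · have e : 2 * R * 2 ^ Nat.find hA = R * 2 ^ (Nat.find hA + 1) := by ring
    omega
  · have h3 : 2 ^ Nat.find hB ≤ 2 * Y := le_trans (Nat.le_mul_of_pos_left _ hR) b2
    have h4 : (2 : ℝ) ^ Nat.find hB ≤ 2 * Y := by exact_mod_cast h3
    have hYp : (1 : ℝ) ≤ Y := by exact_mod_cast (by omega : 1 ≤ Y)
    have h5 := Real.log_le_log (by positivity) h4
    rw [Real.log_pow, Real.log_mul (by norm_num) (by linarith)] at h5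
    have l2 := Real.log_two_gt_d9
    have l3 := Real.log_two_lt_d9
    have l4 : 0 ≤ Real.log Y := Real.log_nonneg hYp
    have l5 : (0 : ℝ) ≤ Nat.find hB := Nat.cast_nonneg _
    nlinarith

end Pool.Agent.Work.MP_9a1701_nt.P
end
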