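import Pool.Agent.Work.MP_9a1701_nt.P.PtB
import Pool.Agent.Lib.ANT.PNTError
import Pool.Agent.Lib.ANT.Mertens
import Pool.Agent.Lib.ANT.PNT

-- merged part: Pool.Agent.Work.MP_9a1701_nt.P.Primes
section
/-!
# Prime number estimates for the perturbed primes
-/

set_option autoImplicit false
open Finset Filter

namespace Pool.Agent.Work.MP_9a1701_nt.P

variable {ρ : ℕ → ℝ} {n₁ : ℕ}

lemma Primes_pit (hρ : Prob ρ) (t : ℕ) :
    ind t.Prime ≤ pit PP ρ t ∧ pit PP ρ t ≤ ind t.Prime + ρ t := by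
  by_cases h : t.Prime
  · have e : pit PP ρ t = 1 := if_pos h
    rw [e, ind_pos h]
    exact ⟨le_rfl, le_add_of_nonneg_right (hρ t).1⟩
  · have e : pit PP ρ t = ρ t := if_neg h
    rw [e, ind_neg h]
    exact ⟨(hρ t).1, (zero_add _).ge⟩

lemma Primes_log : Tendsto (fun z : ℕ => Real.log z) atTop atTop :=
  Real.tendsto_log_atTop.comp tendsto_natCast_atTop_atTop

lemma Primes_psi {z B : ℕ} (hz : 1 ≤ z) (f : ℕ → ℝ) :
    ∑ t ∈ Ico z (z + B), f t = ∑ t ∈ Icc 1 (z + B - 1), f t - ∑ t ∈ Icc 1 (z - 1), f t := by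
  have e1 : Icc 1 (z + B - 1) = Ico 1 (z + B) := by
    ext t
    simp only [mem_Icc, mem_Ico]
    omega
  have e2 : Icc 1 (z - 1) = Ico 1 z := by
    ext t
    simp only [mem_Icc, mem_Ico]
    omega
  rw [e1, e2, ← sum_Ico_consecutive f hz (Nat.le_add_right z B)]
  ring

/-- `card · log z ≤ ψ (z + B - 1) - ψ (z - 1) ≤ B + 4 z / log (2 z) ^ (a + 1)` by `pnt_error` with
`X = 2 z`; the random part is at most `ε B / log z`. -/
theorem short_pnt (hN : Noise ρ n₁) {ε : ℝ} (hε : 0 < ε) (a : ℕ) :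
    ∀ᶠ z : ℕ in atTop, ∀ B : ℕ, (z : ℝ) / Real.log z ^ a ≤ B → B ≤ z →
      ∑ t ∈ Ico z (z + B), pit PP ρ t ≤ (1 + ε) * B / Real.log (2 * z) := by
  have hη : 0 < ε / 2 := half_pos hε
  obtain ⟨n0, hn0⟩ := eventually_atTop.1 (hN.small.eventually_le_const hη)
  have h2 := (tendsto_id.const_mul_atTop' (two_pos : 0 < 2)).eventually
    (Pool.Agent.Lib.ANT.pnt_error (a + 1))
  filter_upwards [h2, Primes_log.eventually_ge_atTop ((18 + ε) / ε), eventually_ge_atTop n0,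
    eventually_ge_atTop 1] with z hz hl hz0 hz1 B hB1 hB2
  simp only [id] at hz
  have z0 : (0 : ℝ) < z := by exact_mod_cast hz1
  have hl' : 18 + ε ≤ Real.log z * ε := (div_le_iff₀ hε).1 hl
  have l1 : 1 ≤ Real.log z := le_of_mul_le_mul_right (by linarith) hε
  have l0 : 0 < Real.log z := by linarith
  have e2 : Real.log (2 * z) = Real.log 2 + Real.log z := Real.log_mul two_ne_zero z0.ne'
  have g0 := Real.log_two_gt_d9
  have g1 := Real.log_two_lt_d9
  have B0 : (0 : ℝ) ≤ B := Nat.cast_nonneg _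
  have k1 : Real.log z * ∑ t ∈ Ico z (z + B), pit PP ρ t ≤
      ∑ t ∈ Ico z (z + B), ArithmeticFunction.vonMangoldt t + B * (ε / 2) := by
    have e : (B : ℝ) * (ε / 2) = ∑ _t ∈ Ico z (z + B), ε / 2 := by
      rw [sum_const, Nat.card_Ico, Nat.add_sub_cancel_left, nsmul_eq_mul]
    rw [e, ← sum_add_distrib, mul_sum]
    refine sum_le_sum fun t ht => ?_
    have ht1 := (mem_Ico.1 ht).1
    have hlog : Real.log z ≤ Real.log t := Real.log_le_log z0 (Nat.cast_le.2 ht1)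
    have r1 := hn0 t (hz0.trans ht1)
    have r2 := mul_le_mul_of_nonneg_left hlog (hN.prob t).1
    have r3 := mul_le_mul_of_nonneg_left (Primes_pit hN.prob t).2 l0.le
    have r4 : Real.log z * ind t.Prime ≤ ArithmeticFunction.vonMangoldt t := by
      by_cases h : t.Prime
      · rw [ind_pos h, mul_one, ArithmeticFunction.vonMangoldt_apply_prime h]
        exact hlog
      · rw [ind_neg h, mul_zero]
        exact ArithmeticFunction.vonMangoldt_nonneg
    rw [mul_add] at r3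
    linarith
  have k2 : ((2 * z : ℕ) : ℝ) / Real.log ((2 * z : ℕ) : ℝ) ^ (a + 1) ≤ 2 * B / Real.log z := by
    rw [Nat.cast_mul, Nat.cast_ofNat, e2]
    have a1 : Real.log z ^ (a + 1) ≤ (Real.log 2 + Real.log z) ^ (a + 1) :=
      pow_le_pow_left₀ l0.le (by linarith) _
    refine (div_le_div_of_nonneg_left (by positivity) (by positivity) a1).trans ?_
    rw [pow_succ, ← div_div, mul_div_assoc]
    exact div_le_div_of_nonneg_right (by linarith) l0.le
  have k3 : ∑ t ∈ Ico z (z + B), ArithmeticFunction.vonMangoldt t ≤ B + 4 * B / Real.log z := by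
    have a1 := (abs_le.1 (hz (z + B - 1) (by omega))).2
    have a2 := (abs_le.1 (hz (z - 1) (by omega))).1
    have a3 : ((z + B - 1 : ℕ) : ℝ) = ((z - 1 : ℕ) : ℝ) + B := by
      rw [← Nat.cast_add]
      exact congrArg _ (by omega)
    have a4 : 4 * (B : ℝ) / Real.log z = 2 * B / Real.log z + 2 * B / Real.log z := by ring
    rw [Primes_psi hz1]
    linarith
  have k4 : 4 * (B : ℝ) / Real.log z * (Real.log z + 1) ≤ 8 * B := by
    rw [div_mul_eq_mul_div, div_le_iff₀ l0]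
    nlinarith [mul_le_mul_of_nonneg_left l1 B0]
  have k5 : 0 ≤ ∑ t ∈ Ico z (z + B), pit PP ρ t :=
    sum_nonneg fun t _ => (ind_nonneg _).trans (Primes_pit hN.prob t).1
  generalize ∑ t ∈ Ico z (z + B), pit PP ρ t = S at k1 k5 ⊢
  rw [e2, le_div_iff₀ (by linarith)]
  refine le_of_mul_le_mul_left ?_ l0
  have k6 : Real.log z * S ≤ B + 4 * B / Real.log z + B * (ε / 2) := by linarith
  have k7 := mul_le_mul_of_nonneg_right k6 (show 0 ≤ Real.log z + 1 by linarith)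
  have k8 : Real.log z * (S * (Real.log 2 + Real.log z)) ≤ Real.log z * S * (Real.log z + 1) := by
    rw [← mul_assoc]
    exact mul_le_mul_of_nonneg_left (by linarith) (mul_nonneg l0.le k5)
  have k9 := mul_le_mul_of_nonneg_left hl' B0
  rw [add_mul, add_mul] at k7
  linarith

/-- `abs_sum_inv_prime_Ioc_sub_le` and `sum_rho_div` with `c = 0`;
`ind (t prime) ≤ pit ≤ ind (t prime) + ρ t`. -/
theorem hmertB (hN : Noise ρ n₁) : HMert PP ρ 1 := by
  intro ε hε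
  have hη : 0 < ε / 2 := half_pos hε
  obtain ⟨z0, h0⟩ := sum_rho_div le_rfl hN.small hη
  obtain ⟨z1, h1⟩ := eventually_atTop.1 (Primes_log.eventually_ge_atTop (98 / ε))
  refine ⟨max 2 (max z0 z1), fun u v hu huv => ?_⟩
  have u2 : 2 ≤ u := (le_max_left _ _).trans hu
  have u0 : (0 : ℝ) < u := by exact_mod_cast (by omega : 0 < u)
  have uv : (u : ℝ) ≤ v := Nat.cast_le.2 huv
  have a0 := (abs_le.1 (h0 u v ((le_max_left _ _).trans ((le_max_right _ _).trans hu)) huv)).2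
  have a1 := h1 u ((le_max_right _ _).trans ((le_max_right _ _).trans hu))
  have l0 : 0 < Real.log u := lt_of_lt_of_le (by positivity) a1
  have a2 := abs_le.1 (Pool.Agent.Lib.ANT.abs_sum_inv_prime_Ioc_sub_le u v u2 huv)
  have a3 := ll_mono u2 huv
  have e1 : ∑ p ∈ (Ioc u v).filter Nat.Prime, (p : ℝ)⁻¹ = ∑ t ∈ Ioc u v, ind t.Prime / t := by
    rw [sum_filter]
    refine sum_congr rfl fun t _ => ?_
    by_cases h : t.Prime
    · rw [if_pos h, ind_pos h, one_div]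
    · rw [if_neg h, ind_neg h, zero_div]
  have e2 := (sum_Ico_add_eq_sum_Icc (f := fun t : ℕ => ind t.Prime / (t : ℝ)) huv).trans
    (add_sum_Ioc_eq_sum_Icc (f := fun t : ℕ => ind t.Prime / (t : ℝ)) huv).symm
  have b0 : (1 : ℝ) / u ≤ 1 / Real.log u :=
    div_le_div_of_nonneg_left zero_le_one l0 ((Real.log_le_sub_one_of_pos u0).trans (by linarith))
  have b1 : ind u.Prime / (u : ℝ) ≤ 1 / u := div_le_div_of_nonneg_right (ind_le_one _) u0.le
  have b2 : 0 ≤ ind u.Prime / (u : ℝ) := div_nonneg (ind_nonneg _) u0.le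
  have b3 : ind v.Prime / (v : ℝ) ≤ 1 / u := div_le_div₀ zero_le_one (ind_le_one _) u0 uv
  have b4 : 0 ≤ ind v.Prime / (v : ℝ) := div_nonneg (ind_nonneg _) (u0.le.trans uv)
  have b5 : 48 / Real.log u + 1 / Real.log u ≤ ε / 2 := by
    rw [← add_div, div_le_iff₀ l0]
    rw [div_le_iff₀ hε] at a1
    linarith
  have c1 : ∑ t ∈ Ico u v, ind t.Prime / (t : ℝ) ≤ ∑ t ∈ Ico u v, pit PP ρ t / t :=
    sum_le_sum fun t _ => div_le_div_of_nonneg_right (Primes_pit hN.prob t).1 (Nat.cast_nonneg _)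
  have c2 : ∑ t ∈ Ico u v, pit PP ρ t / t ≤
      ∑ t ∈ Ico u v, ind t.Prime / (t : ℝ) + ∑ t ∈ Ico u v, ρ t / t := by
    rw [← sum_add_distrib]
    refine sum_le_sum fun t _ => ?_
    rw [← add_div]
    exact div_le_div_of_nonneg_right (Primes_pit hN.prob t).2 (Nat.cast_nonneg _)
  have c3 := mul_nonneg hε.le (sub_nonneg.2 a3)
  rw [e1] at a2
  unfold ll at a0 a3 c3 ⊢
  rw [abs_le]
  constructor <;> linarith [a2.1, a2.2]

/-- `tendsto_primeCounting_mul_log_div` (or any proof that primes have density zero) and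
`sum_rho_le`. -/
theorem hsparseB (hN : Noise ρ n₁) : HSparse PP ρ := by
  intro ε hε
  have hη : 0 < ε / 2 := half_pos hε
  have h1 := (Pool.Agent.Lib.ANT.tendsto_primeCounting_mul_log_div.comp
    tendsto_natCast_atTop_atTop).eventually_le_const one_lt_two
  filter_upwards [h1, sum_rho_le hN.prob hN.small hη, Primes_log.eventually_ge_atTop (4 / ε),
    eventually_ge_atTop 1] with z a1 a2 a3 a4
  have z0 : (0 : ℝ) < z := by exact_mod_cast a4
  simp only [Function.comp_apply, Nat.floor_natCast] at a1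
  rw [div_le_iff₀ z0] at a1
  rw [div_le_iff₀ hε] at a3
  have b1 : ∑ t ∈ Ico 1 z, ind t.Prime ≤ (Nat.primeCounting z : ℝ) := by
    have e : (Nat.primeCounting z : ℝ) = ∑ t ∈ range (z + 1), ind t.Prime := by
      rw [Nat.primeCounting, Nat.primeCounting', Nat.count_eq_card_filter_range, card_filter,
        Nat.cast_sum]
      refine sum_congr rfl fun t _ => ?_
      by_cases h : t.Prime
      · rw [if_pos h, ind_pos h, Nat.cast_one]
      · rw [if_neg h, ind_neg h, Nat.cast_zero]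
    rw [e]
    refine sum_le_sum_of_subset_of_nonneg (fun t ht => ?_) fun t _ _ => ind_nonneg _
    have := (mem_Ico.1 ht).2
    exact mem_range.2 (by omega)
  have b2 : (Nat.primeCounting z : ℝ) ≤ ε / 2 * z := by
    have c1 := mul_le_mul_of_nonneg_left a3 (Nat.cast_nonneg (α := ℝ) (Nat.primeCounting z))
    have c2 := mul_le_mul_of_nonneg_right a1 hε.le
    rw [← mul_assoc] at c1
    linarith
  have b3 : ∑ t ∈ Ico 1 z, pit PP ρ t ≤ ∑ t ∈ Ico 1 z, ind t.Prime + ∑ t ∈ Ico 1 z, ρ t := by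
    rw [← sum_add_distrib]
    exact sum_le_sum fun t _ => (Primes_pit hN.prob t).2
  linarith

end Pool.Agent.Work.MP_9a1701_nt.P
end

-- merged part: Pool.Agent.Work.MP_9a1701_nt.P.Range3
section
/-!
# One range of lengths: the main term
-/

set_option autoImplicit false
open Finset Filter

namespace Pool.Agent.Work.MP_9a1701_nt.P

variable {ρ : ℕ → ℝ} {n₁ : ℕ}

lemma PP_infinite : PP.Infinite := Nat.infinite_setOf_prime

lemma cfg_infinite {D : Set ℕ} (hD : D.Infinite) (Q : Finset ℕ) : (cfg D Q).Infinite :=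
  hD.mono Set.subset_union_left

/-- The sum of the averaged masses over a block. -/
lemma Range3_sum (hN : Noise ρ n₁) (x : ℕ) {K : ℕ} (hK : 1 ≤ K) (z B : ℕ) :
    ∑ m ∈ Ico z (z + B), Ex ρ (Icc 1 x) (fun Q => gg (cfg PP Q) K m) ≤
      ∑ t ∈ Ico z (z + B), pit PP ρ t + K := by
  rw [← Ex_sum]
  calc Ex ρ (Icc 1 x) (fun Q => ∑ m ∈ Ico z (z + B), gg (cfg PP Q) K m)
      ≤ Ex ρ (Icc 1 x) (fun Q => ∑ t ∈ Ico z (z + B), ind (t ∈ cfg PP Q) + K) :=
        Ex_mono hN.prob fun Q _ => gg_sum (cfg_infinite PP_infinite Q) hK z B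
    _ = ∑ t ∈ Ico z (z + B), Ex ρ (Icc 1 x) (fun Q => ind (t ∈ cfg PP Q)) + K := by
        rw [Ex_add, Ex_const, Ex_sum]
    _ ≤ _ := by
        gcongr with t ht
        exact Ex_mem_cfg_le hN.prob PP t

lemma Range3_log_ge (C : ℝ) : ∀ᶠ x : ℕ in atTop, C ≤ Real.log x :=
  (Real.tendsto_log_atTop.comp tendsto_natCast_atTop_atTop).eventually_ge_atTop C

/-- Sizes of `N` and `B`. -/
lemma Range3_NB {x K1 l H N B : ℕ} (hK : 1 ≤ K1) (hl : 1 ≤ l) (hH : H = K1 * l ^ 3)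
    (hN : N = (x + H) / K1 + 1) (hB : B = N / l ^ 9 + 1) :
    (x : ℝ) / K1 ≤ N ∧ (N : ℝ) ≤ x / K1 + l ^ 3 + 1 ∧ (N : ℝ) / l ^ 9 ≤ B ∧
      (B : ℝ) ≤ N / l ^ 9 + 1 := by
  have hK' : (0 : ℝ) < K1 := by exact_mod_cast hK
  have hl9 : 0 < l ^ 9 := by positivity
  have hl' : (0 : ℝ) < (l : ℝ) ^ 9 := by exact_mod_cast hl9
  refine ⟨?_, ?_, ?_, ?_⟩
  · rw [div_le_iff₀ hK']
    have h := Nat.lt_div_mul_add (a := x + H) (b := K1) hK
    have : x ≤ N * K1 := by rw [hN]; nlinarith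
    exact_mod_cast this
  · have h : (((x + H) / K1 : ℕ) : ℝ) ≤ ((x + H : ℕ) : ℝ) / K1 := Nat.cast_div_le
    have h2 : ((x + H : ℕ) : ℝ) / K1 = x / K1 + l ^ 3 := by
      rw [hH]; push_cast; field_simp
    rw [hN]; push_cast; linarith
  · rw [div_le_iff₀ hl']
    have h := Nat.lt_div_mul_add (a := N) (b := l ^ 9) hl9
    have : N ≤ B * l ^ 9 := by rw [hB]; nlinarith
    exact_mod_cast this
  · have h : ((N / l ^ 9 : ℕ) : ℝ) ≤ (N : ℝ) / ((l ^ 9 : ℕ) : ℝ) := Nat.cast_div_le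
    rw [hB]; push_cast at h ⊢; linarith

/-- With `z = B (m / B) ≥ m / 2`: `gg_sum`, `Ex_mem_cfg_le`, `short_pnt` with `a = 10`, and
`K0 ≤ ε B / (2 log (2 z))` since `K0 ≤ 2 √x / L`, `B ≥ N / l ^ 9 ≥ L √x / (2 l ^ 9)`;
finally `2 z ≥ m`. -/
theorem gbar_le (hN : Noise ρ n₁) {δ η ε : ℝ} (h0 : 0 < δ) (h1 : δ ≤ 1 / 10) (hη : 0 < η)
    (hε : 0 < ε) :
    ∀ᶠ x : ℕ in atTop, ∀ K0 K1 l H N B m : ℕ, 1 ≤ K0 → K0 ≤ K1 → Lp δ x ≤ 2 * K1 →
      K1 * (Lp δ x * sp x) ≤ 2 * x → l = ⌈Real.log x⌉₊ → H = K1 * l ^ 3 →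
      N = (x + H) / K1 + 1 → B = N / l ^ 9 + 1 → η * x ≤ 2 * K1 * m → m ≤ N →
      gbar (fun m' => Ex ρ (Icc 1 x) fun Q => gg (cfg PP Q) K0 m') B m ≤
        (1 + ε) / Real.log m := by
  obtain ⟨z0, hz0⟩ := eventually_atTop.1 (short_pnt hN (half_pos hε) 10)
  filter_upwards [log_pow_le_Lp h0 10 (C := 8 / ε) (by positivity),
    log_pow_le_Lp h0 0 (C := 8 / η) (by positivity), log_pow_le_Lp h0 3 (C := 4) (by norm_num),
    Range3_log_ge (8 / η), Range3_log_ge (2 ^ 19), eventually_ge_atTop (z0 ^ 2),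
    eventually_ge_atTop 4] with x ha hb hc hd he hf hx4
  intro K0 K1 l H N B m hK0 hK01 hL hK hl hH hNd hB hm hmN
  have hK1 : 1 ≤ K1 := hK0.trans hK01
  have hK1' : (1 : ℝ) ≤ K1 := by exact_mod_cast hK1
  have hx' : (4 : ℝ) ≤ x := by exact_mod_cast hx4
  set lg : ℝ := Real.log x with hlg
  have hlg1 : (1 : ℝ) ≤ lg := le_trans (by norm_num) he
  have hl1 : lg ≤ l := by rw [hl]; exact Nat.le_ceil _
  have hl2 : (l : ℝ) ≤ lg + 1 := by rw [hl]; exact (Nat.ceil_lt_add_one (by linarith)).le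
  have hl0 : 1 ≤ l := by exact_mod_cast hlg1.trans hl1
  have hl0' : (1 : ℝ) ≤ l := hlg1.trans hl1
  obtain ⟨n1, n2, b1, b2⟩ := Range3_NB hK1 hl0 hH hNd hB
  set L : ℝ := (Lp δ x : ℝ) with hLd
  set s : ℝ := (sp x : ℝ) with hsd
  set y : ℝ := (x : ℝ) / K1 with hy
  have hs1 : (1 : ℝ) ≤ s := by
    rw [hsd]; exact_mod_cast (Nat.le_add_left 1 _ : 1 ≤ Nat.sqrt x + 1)
  have hsq : √(x : ℝ) ≤ s := sqrt_le_sp x
  have hxs : (x : ℝ) ≤ s ^ 2 := by rw [hsd]; exact_mod_cast le_sp_sq x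
  have hKr : (K1 : ℝ) * (L * s) ≤ 2 * x := by rw [hLd, hsd]; exact_mod_cast hK
  have hp3 : (1 : ℝ) ≤ (lg + 1) ^ 3 := one_le_pow₀ (by linarith)
  have hL4 : (4 : ℝ) ≤ L := by linarith
  have hy1 : L * s / 2 ≤ y := by
    rw [hy, le_div_iff₀ (by linarith)]; linarith
  have hy2 : y ≤ x := by rw [hy]; exact div_le_self (by linarith) hK1'
  have hLs : L ≤ L * s := le_mul_of_one_le_right (by linarith) hs1
  have hl3 : (l : ℝ) ^ 3 ≤ (lg + 1) ^ 3 := by gcongr
  have hN2 : (N : ℝ) ≤ 2 * y := by linarith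
  have hηL : 8 ≤ η * L := by
    have : 8 / η ≤ L := by simpa using hb
    rwa [div_le_iff₀' hη] at this
  have hm1 : η * y ≤ 2 * m := by
    rw [hy, ← mul_div_assoc, div_le_iff₀ (by linarith)]; linarith
  have hl9 : (l : ℝ) ≤ (l : ℝ) ^ 9 := le_self_pow₀ hl0' (by norm_num)
  have hl9' : (0 : ℝ) < (l : ℝ) ^ 9 := by positivity
  have hηl : 8 ≤ η * (l : ℝ) ^ 9 := by
    have : 8 / η ≤ (l : ℝ) ^ 9 := hd.trans (hl1.trans hl9)
    rwa [div_le_iff₀' hη] at this
  have hηy : 4 * s ≤ η * y := by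
    have h3 : η * (L * s / 2) ≤ η * y := mul_le_mul_of_nonneg_left hy1 hη.le
    have h4 : 8 * s ≤ η * L * s := mul_le_mul_of_nonneg_right hηL (by linarith)
    linarith
  have hBm : B ≤ m := by
    have h3 : (N : ℝ) / l ^ 9 ≤ η * y / 4 := by
      rw [div_le_iff₀ hl9']
      have h4 : 0 ≤ y := by linarith
      have h5 : 8 * y ≤ η * (l : ℝ) ^ 9 * y := mul_le_mul_of_nonneg_right hηl h4
      linarith
    have : (B : ℝ) ≤ m := by linarith
    exact_mod_cast this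
  have hB1 : 1 ≤ B := by rw [hB]; exact Nat.le_add_left 1 _
  have hB1' : (0 : ℝ) < B := by exact_mod_cast hB1
  set z : ℕ := B * (m / B) with hz
  have hzB : B ≤ z := by
    have : 1 ≤ m / B := (Nat.one_le_div_iff hB1).2 hBm
    exact Nat.le_mul_of_pos_right B this
  have hzm : z ≤ m := Nat.mul_div_le m B
  have hz2 : m ≤ 2 * z := by
    have h := Nat.lt_mul_div_succ m hB1
    rw [mul_add, mul_one, ← hz] at h
    omega
  have hz2' : (m : ℝ) ≤ 2 * z := by exact_mod_cast hz2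
  have hzs : √(x : ℝ) ≤ z := by linarith
  have hsx : (2 : ℝ) ≤ √(x : ℝ) := by
    rw [show (2 : ℝ) = √4 by rw [show (4 : ℝ) = 2 ^ 2 by norm_num, Real.sqrt_sq (by norm_num)]]
    exact Real.sqrt_le_sqrt hx'
  have hzz : z0 ≤ z := by
    have h3 : (z0 : ℝ) ≤ √(x : ℝ) := by
      apply Real.le_sqrt_of_sq_le
      exact_mod_cast hf
    exact_mod_cast h3.trans hzs
  have hlz : lg / 2 ≤ Real.log z := by
    rw [hlg, ← Real.log_sqrt (by linarith)]
    exact Real.log_le_log (by linarith) hzs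
  have hzlog : (z : ℝ) / Real.log z ^ 10 ≤ B := by
    refine le_trans ?_ b1
    have h3 : (l : ℝ) ^ 9 ≤ Real.log z ^ 10 := by
      calc (l : ℝ) ^ 9 ≤ (2 * lg) ^ 9 := by gcongr; linarith
        _ = lg ^ 9 * 2 ^ 19 / 2 ^ 10 := by ring
        _ ≤ lg ^ 9 * lg / 2 ^ 10 := by gcongr
        _ = (lg / 2) ^ 10 := by ring
        _ ≤ _ := by gcongr
    have h4 : (z : ℝ) ≤ N := by exact_mod_cast hzm.trans hmN
    gcongr
  have hp := hz0 z hzz B hzlog hzB
  have hm2 : (2 : ℝ) ≤ m := by linarith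
  have hlm : 0 < Real.log m := Real.log_pos (by linarith)
  have hlm2 : Real.log m ≤ lg + 1 := by
    have h3 : (m : ℝ) ≤ 2 * x := by
      have : (m : ℝ) ≤ N := by exact_mod_cast hmN
      linarith
    have h4 : Real.log 2 ≤ 1 := by have := Real.log_two_lt_d9; linarith
    calc Real.log m ≤ Real.log (2 * x) := Real.log_le_log (by linarith) h3
      _ = Real.log 2 + lg := by rw [Real.log_mul (by norm_num) (by linarith)]
      _ ≤ _ := by linarith
  have hp2 : (1 + ε / 2) * B / Real.log (2 * z) ≤ (1 + ε / 2) * B / Real.log m := by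
    gcongr
  have hK2 : (K0 : ℝ) ≤ ε / 2 * B / Real.log m := by
    rw [le_div_iff₀ hlm]
    have h3 : (K0 : ℝ) ≤ 2 * s := by
      have h4 : (K0 : ℝ) ≤ K1 := by exact_mod_cast hK01
      have h5 : (K1 : ℝ) * s ≤ 2 * s * s := by
        have h6 : (K1 : ℝ) * s * 1 ≤ K1 * s * L :=
          mul_le_mul_of_nonneg_left (by linarith) (by positivity)
        linarith
      have := le_of_mul_le_mul_right h5 (by linarith)
      linarith
    have h4 : L * s / 2 / (lg + 1) ^ 9 ≤ B := by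
      refine le_trans ?_ b1
      gcongr
      linarith
    have h5 : 8 * (lg + 1) ^ 10 ≤ ε * L := by
      have := mul_le_mul_of_nonneg_left ha hε.le
      calc 8 * (lg + 1) ^ 10 = ε * (8 / ε * (lg + 1) ^ 10) := by field_simp
        _ ≤ _ := this
    have h6 : 2 * s * (lg + 1) ≤ ε / 2 * (L * s / 2 / (lg + 1) ^ 9) := by
      rw [← mul_div_assoc, le_div_iff₀ (by positivity)]
      calc 2 * s * (lg + 1) * (lg + 1) ^ 9 = s / 4 * (8 * (lg + 1) ^ 10) := by ring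
        _ ≤ s / 4 * (ε * L) := by gcongr
        _ = _ := by ring
    calc (K0 : ℝ) * Real.log m ≤ 2 * s * (lg + 1) := by gcongr
      _ ≤ _ := h6
      _ ≤ ε / 2 * B := by gcongr
  have hsum := Range3_sum hN x hK0 z B
  unfold gbar
  rw [← hz, div_le_iff₀ hB1']
  calc _ ≤ _ := hsum
    _ ≤ (1 + ε / 2) * B / Real.log m + ε / 2 * B / Real.log m := by linarith
    _ = _ := by ring

/-- The constant in front of the main term. -/
lemma Range3_const {ε R q w u : ℝ} (hε : 0 < ε) (hR : 2 ≤ R) (hq : R ≤ q) (hw : 0 < w)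
    (hu : 4 ≤ u) (hu2 : 8 + 6 * ε ≤ ε * u) :
    (q + 1) * w / ((q - 1) * w * (q * w * u - (q + 1) * w)) * (q * w * u + (q + 1) * w) *
        (1 + ε / 2) ≤ (1 + ε) * (1 + 4 / R) ∧
      (q + 1) * w / ((q - 1) * w * (q * w * u - (q + 1) * w)) * (q * w * u) ≤ 6 := by
  have hq1 : 0 < q - 1 := by linarith
  have hqu : 4 * q ≤ q * u := by nlinarith
  have hd : 0 < q * u - (q + 1) := by linarith
  have e1 : (q + 1) * w / ((q - 1) * w * (q * w * u - (q + 1) * w)) * (q * w * u + (q + 1) * w) *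
      (1 + ε / 2) = (q * u + (q + 1)) * (1 + ε / 2) / (q * u - (q + 1)) * ((q + 1) / (q - 1)) := by
    have : q * w * u - (q + 1) * w = w * (q * u - (q + 1)) := by ring
    rw [this]
    field_simp
  have e2 : (q + 1) * w / ((q - 1) * w * (q * w * u - (q + 1) * w)) * (q * w * u) =
      q * u / (q * u - (q + 1)) * ((q + 1) / (q - 1)) := by
    have : q * w * u - (q + 1) * w = w * (q * u - (q + 1)) := by ring
    rw [this]
    field_simp
  have a1 : (q + 1) / (q - 1) ≤ 1 + 4 / R := by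
    have : (1 : ℝ) + 4 / R = (R + 4) / R := by field_simp
    rw [this, div_le_div_iff₀ hq1 (by linarith)]
    nlinarith
  have a2 : (q + 1) / (q - 1) ≤ 3 := by
    rw [div_le_iff₀ hq1]; linarith
  have a0 : 0 ≤ (q + 1) / (q - 1) := div_nonneg (by linarith) hq1.le
  have a3 : (q * u + (q + 1)) * (1 + ε / 2) / (q * u - (q + 1)) ≤ 1 + ε := by
    rw [div_le_iff₀ hd]
    have h1 : q * (8 + 6 * ε) ≤ q * (ε * u) := mul_le_mul_of_nonneg_left hu2 (by linarith)
    have h2 : ε * 1 ≤ ε * q := mul_le_mul_of_nonneg_left (by linarith) hε.le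
    nlinarith
  have a4 : q * u / (q * u - (q + 1)) ≤ 2 := by
    rw [div_le_iff₀ hd]; linarith
  constructor
  · rw [e1]
    exact mul_le_mul a3 a1 a0 (by linarith)
  · rw [e2]
    calc _ ≤ 2 * 3 := mul_le_mul a4 a2 a0 (by norm_num)
      _ = 6 := by norm_num

/-- (B5) for one range: `range_det` with `K0 = (q - 1) w`, `K1 = q w`, `K2 = (q + 1) w`,
`g m = Ex (gg K0 m)`, `gb = gbar g B`, `γ K = (1 + ε') / log (n / K)`; `gg_ge` with
`h = l ^ 3 + 1` (`2 h ≤ w ≤ K - K0`), `gbar_le` (`m > n / K > 1`), `osc`. -/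
theorem range_final (hN : Noise ρ n₁) {δ η ε : ℝ} (h0 : 0 < δ) (h1 : δ ≤ 1 / 10) (hη : 0 < η)
    (hη1 : η ≤ 1) (hε : 0 < ε) {R : ℕ} (hR : 2 ≤ R) :
    ∀ᶠ x : ℕ in atTop, ∀ q ∈ Ico R (2 * R), ∀ w : ℕ, Lp δ x ≤ 2 * R * w →
      q * w * (Lp δ x * sp x) ≤ 2 * x → ∃ err : ℕ → ℝ, (∀ n, 0 ≤ err n) ∧
        ∑ n ∈ Ioc ⌊η * x⌋₊ x, err n ≤ x / (Real.log x + 1) ^ 2 ∧
        ∀ n ∈ Ioc ⌊η * x⌋₊ x,
          ∑ K ∈ Ioc (q * w) ((q + 1) * w), Ex ρ (Icc 1 x) (fun Q => Phi (cfg PP Q) K n) ≤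
            (1 + ε) * (1 + 4 / (R : ℝ)) *
              ∑ K ∈ Ioc (q * w) ((q + 1) * w), 1 / (K * Real.log ((n : ℝ) / K)) + err n := by
  have hR' : (2 : ℝ) ≤ R := by exact_mod_cast hR
  filter_upwards [gbar_le hN h0 h1 hη (half_pos hε),
    osc h0 h1 hη (show (0 : ℝ) < 1 / 6 by norm_num),
    log_pow_le_Lp h0 3 (C := 8 * R) (by positivity),
    log_pow_le_Lp h0 0 (C := 4 / η) (by positivity),
    Range3_log_ge ((8 + 6 * ε) / ε), Range3_log_ge 4] with x hg ho ha hb hc hd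
  intro q hq w hw hx
  obtain ⟨hq1, -⟩ := mem_Ico.1 hq
  have hq2 : 2 ≤ q := hR.trans hq1
  set l : ℕ := ⌈Real.log x⌉₊ with hl
  have hl1 : Real.log x ≤ l := Nat.le_ceil _
  have hl2 : (l : ℝ) ≤ Real.log x + 1 := (Nat.ceil_lt_add_one (by linarith)).le
  have hl4 : (4 : ℝ) ≤ l := hd.trans hl1
  have hl3 : (l : ℝ) ≤ (l : ℝ) ^ 3 := le_self_pow₀ (by linarith) (by norm_num)
  have hl3n : 4 ≤ l ^ 3 := by
    have : (4 : ℝ) ≤ (l : ℝ) ^ 3 := hl4.trans hl3
    exact_mod_cast this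
  have hw2 : 2 * (l ^ 3 + 1) ≤ w := by
    have h3 : (l : ℝ) ^ 3 ≤ (Real.log x + 1) ^ 3 := by gcongr
    have h4 : (Lp δ x : ℝ) ≤ 2 * R * w := by exact_mod_cast hw
    have h5 : (2 * R : ℝ) * (4 * (l : ℝ) ^ 3) ≤ 2 * R * w := by
      calc (2 * R : ℝ) * (4 * (l : ℝ) ^ 3) = 8 * R * (l : ℝ) ^ 3 := by ring
        _ ≤ 8 * R * (Real.log x + 1) ^ 3 := by gcongr
        _ ≤ _ := ha.trans h4
    have h6 : 4 * (l : ℝ) ^ 3 ≤ w := le_of_mul_le_mul_left h5 (by linarith)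
    have h7 : 4 * l ^ 3 ≤ w := by exact_mod_cast h6
    omega
  have hw1 : 1 ≤ w := by omega
  obtain ⟨p, rfl⟩ : ∃ p, q = p + 1 := ⟨q - 1, by omega⟩
  have hp1 : 1 ≤ p := by omega
  set K0 : ℕ := p * w with hK0d
  set K1 : ℕ := (p + 1) * w with hK1d
  set K2 : ℕ := (p + 1 + 1) * w with hK2d
  have hK0 : 1 ≤ K0 := Nat.mul_pos hp1 hw1
  have e1 : K1 = K0 + w := by rw [hK1d, hK0d]; ring
  have e2 : K2 = K0 + 2 * w := by rw [hK2d, hK0d]; ring
  have hK1 : 1 ≤ K1 := by omega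
  have hL : Lp δ x ≤ 2 * K1 := by
    refine hw.trans ?_
    rw [hK1d, mul_assoc]
    gcongr
  set H : ℕ := K1 * l ^ 3 with hH
  set N : ℕ := (x + H) / K1 + 1 with hNd
  set B : ℕ := N / l ^ 9 + 1 with hB
  set g : ℕ → ℝ := fun m' => Ex ρ (Icc 1 x) fun Q => gg (cfg PP Q) K0 m' with hgd
  have hg0 : ∀ m, 0 ≤ g m := fun m =>
    Ex_nonneg hN.prob fun Q _ => gg_nonneg (cfg_infinite PP_infinite Q) hK0 m
  have hg1 : ∀ m, g m ≤ 1 := fun m =>
    Ex_le_const hN.prob fun Q _ => gg_le_one (cfg_infinite PP_infinite Q) hK0 m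
  have hH4 : K1 * 4 ≤ H := Nat.mul_le_mul_left _ hl3n
  have hH2 : K2 < H := by omega
  have hxN : x + H ≤ K1 * N := by
    have h := Nat.lt_mul_div_succ (x + H) hK1
    exact h.le
  have hosc := ho K1 K2 l H N B hL hx (by omega) (by omega) rfl rfl rfl rfl g hg0 hg1
  set c : ℝ := (K2 : ℝ) / (K0 * ((H : ℝ) - K2)) with hcd
  have hc0 : 0 ≤ c := by
    have : (K2 : ℝ) < H := by exact_mod_cast hH2
    exact div_nonneg (Nat.cast_nonneg _) (mul_nonneg (Nat.cast_nonneg _) (by linarith))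
  have hcc : c * ((H : ℝ) + K2) * (1 + ε / 2) ≤ (1 + ε) * (1 + 4 / (R : ℝ)) ∧ c * H ≤ 6 := by
    have h3 : 8 + 6 * ε ≤ ε * (l : ℝ) ^ 3 := by
      have : (8 + 6 * ε) / ε ≤ (l : ℝ) ^ 3 := hc.trans (hl1.trans hl3)
      rwa [div_le_iff₀' hε] at this
    have h := Range3_const (q := (p : ℝ) + 1) (w := w) (u := (l : ℝ) ^ 3) hε hR'
      (by exact_mod_cast hq1) (by exact_mod_cast hw1) (hl4.trans hl3) h3
    have f0 : (K0 : ℝ) = ((p : ℝ) + 1 - 1) * w := by rw [hK0d]; push_cast; ring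
    have f2 : (K2 : ℝ) = ((p : ℝ) + 1 + 1) * w := by rw [hK2d]; push_cast; ring
    have fH : (H : ℝ) = ((p : ℝ) + 1) * w * (l : ℝ) ^ 3 := by rw [hH, hK1d]; push_cast; ring
    rw [hcd, f0, f2, fH]
    exact h
  refine ⟨fun n => c * |∑ K ∈ Ioc K1 K2,
    ∑ m ∈ (Icc 1 N).filter (fun m => n < K * m ∧ K * m ≤ n + H), (g m - gbar g B m)|,
    fun n => mul_nonneg hc0 (abs_nonneg _), ?_, ?_⟩
  · rw [← mul_sum]
    calc _ ≤ c * (1 / 6 * H * x / (Real.log x + 1) ^ 2) := mul_le_mul_of_nonneg_left hosc hc0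
      _ = c * H / 6 * (x / (Real.log x + 1) ^ 2) := by ring
      _ ≤ 1 * (x / (Real.log x + 1) ^ 2) :=
        mul_le_mul_of_nonneg_right (by linarith [hcc.2]) (by positivity)
      _ = _ := one_mul _
  intro n hn
  obtain ⟨hn1, hn2⟩ := mem_Ioc.1 hn
  have hn3 : η * x < n := (Nat.floor_lt (by positivity)).1 hn1
  have hKn : 2 * K1 < n := by
    have h3 : 4 ≤ η * Lp δ x := by
      have : 4 / η ≤ Lp δ x := by simpa using hb
      rwa [div_le_iff₀' hη] at this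
    have h4 : (K1 : ℝ) * Lp δ x ≤ 2 * x := by
      have h5 : K1 * Lp δ x ≤ 2 * x := by
        refine le_trans (Nat.mul_le_mul_left _ (Nat.le_mul_of_pos_right _ ?_)) hx
        exact Nat.succ_pos _
      exact_mod_cast h5
    have h5 : (K1 : ℝ) * 4 ≤ K1 * (η * Lp δ x) := by gcongr
    have h6 : η * (K1 * Lp δ x) ≤ η * (2 * x) := by gcongr
    have : (2 * K1 : ℝ) < n := by linarith
    exact_mod_cast this
  have hlog : ∀ K ∈ Ioc K1 K2, (1 : ℝ) < (n : ℝ) / K := by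
    intro K hK
    obtain ⟨k1, k2⟩ := mem_Ioc.1 hK
    have k0 : (0 : ℝ) < K := by exact_mod_cast (by omega : 0 < K)
    rw [one_lt_div k0]
    exact_mod_cast (by omega : K < n)
  have key := range_det hK0 hK1 hH2 (le_trans (by omega) hxN : n + H ≤ K1 * N)
    (fun K => Ex ρ (Icc 1 x) (fun Q => Phi (cfg PP Q) K n)) g (gbar g B)
    (fun K => (1 + ε / 2) / Real.log ((n : ℝ) / K))
    (fun K hK => Ex_nonneg hN.prob fun Q _ =>
      Phi_nonneg (cfg_infinite PP_infinite Q) (by have := (mem_Ioc.1 hK).1; omega) n)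
    (fun K hK => div_nonneg (by linarith) (Real.log_pos (hlog K hK)).le)
    (by
      intro K hK m m1 m2
      obtain ⟨k1, k2⟩ := mem_Ioc.1 hK
      obtain ⟨k, rfl⟩ : ∃ k, K = K0 + k := ⟨K - K0, by omega⟩
      rw [← Ex_const_mul]
      refine Ex_mono hN.prob fun Q _ =>
        gg_ge (cfg_infinite PP_infinite Q) (h := l ^ 3 + 1) hK0 (by omega) m1.le ?_
      have : H ≤ l ^ 3 * (K0 + k) := by
        rw [hH, mul_comm]; exact Nat.mul_le_mul_left _ k1.le
      rw [mul_add _ m, mul_one, add_mul (l ^ 3), one_mul]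
      omega)
    (by
      intro K hK m m1 m2
      obtain ⟨k1, k2⟩ := mem_Ioc.1 hK
      have k0 : (0 : ℝ) < K := by exact_mod_cast (by omega : 0 < K)
      have m3 : n < 2 * K1 * m := m1.trans_le (Nat.mul_le_mul_right _ (by omega))
      have m4 : m ≤ N := by
        have : K1 * m ≤ K1 * N :=
          (Nat.mul_le_mul_right _ k1.le).trans (m2.trans (le_trans (by omega) hxN))
        exact Nat.le_of_mul_le_mul_left this hK1
      have m5 : η * x ≤ 2 * K1 * m := hn3.le.trans (by exact_mod_cast m3.le)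
      refine (hg K0 K1 l H N B m hK0 (by omega) hL hx rfl rfl rfl rfl m5 m4).trans ?_
      have m6 : (n : ℝ) / K ≤ m := by
        rw [div_le_iff₀' k0]; exact_mod_cast m1.le
      have m7 := hlog K hK
      exact div_le_div_of_nonneg_left (by linarith) (Real.log_pos m7)
        (Real.log_le_log (by linarith) m6))
  refine key.trans ?_
  rw [← hcd, mul_add]
  refine add_le_add ?_ le_rfl
  have hS : ∑ K ∈ Ioc K1 K2, (1 + ε / 2) / Real.log ((n : ℝ) / K) / K =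
      (1 + ε / 2) * ∑ K ∈ Ioc K1 K2, 1 / (K * Real.log ((n : ℝ) / K)) := by
    rw [mul_sum]
    refine sum_congr rfl fun K _ => ?_
    rw [div_div, mul_one_div, mul_comm (K : ℝ)]
  have hS0 : 0 ≤ ∑ K ∈ Ioc K1 K2, 1 / (K * Real.log ((n : ℝ) / K)) :=
    sum_nonneg fun K hK =>
      div_nonneg zero_le_one (mul_nonneg (Nat.cast_nonneg _) (Real.log_pos (hlog K hK)).le)
  rw [hS]
  calc _ = c * ((H : ℝ) + K2) * (1 + ε / 2) *
        ∑ K ∈ Ioc K1 K2, 1 / (K * Real.log ((n : ℝ) / K)) := by ring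
    _ ≤ _ := mul_le_mul_of_nonneg_right hcc.1 hS0

end Pool.Agent.Work.MP_9a1701_nt.P
end
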